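import Pool.Agent.YUB.Base

open MeasureTheory Set Filter Topology
open scoped ContDiff

namespace Pool.Agent.YUB

open Pool.Agent.YUD Pool.Agent.YUT

theorem A1_ball : (volume : Measure ℂ).real (Metric.ball 0 1) = Real.pi := by
  rw [Measure.real, Complex.volume_ball]
  simp

theorem A1_int {f : ℝ → ℝ} :
    Integrable (fun x : ℂ => f ‖x‖) ↔ IntegrableOn (fun y : ℝ => y * f y) (Ioi 0) := by
  rw [integrable_fun_norm_addHaar (volume : Measure ℂ) (f := f), Complex.finrank_real_complex]
  simp only [Nat.add_one_sub_one, pow_one, smul_eq_mul]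

theorem A1_integral (f : ℝ → ℝ) :
    ∫ x : ℂ, f ‖x‖ = 2 * (Real.pi * ∫ y in Ioi (0 : ℝ), y * f y) := by
  rw [integral_fun_norm_addHaar (volume : Measure ℂ) f, Complex.finrank_real_complex, A1_ball]
  simp only [Nat.add_one_sub_one, pow_one, smul_eq_mul, nsmul_eq_mul]
  norm_num

theorem A1_one {R : ℝ} (hR : 0 < R) :
    IntegrableOn (fun y : ℝ => y * (Iic R).indicator (fun y => y⁻¹) y) (Ioi 0) ∧
      ∫ y in Ioi (0 : ℝ), y * (Iic R).indicator (fun y => y⁻¹) y = R := by
  have h1 : ∀ y ∈ Ioi (0 : ℝ), y * (Iic R).indicator (fun y => y⁻¹) y = (Ioc 0 R).indicator (fun _ => (1 : ℝ)) y := by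
    intro y hy
    have hy0 : (0 : ℝ) < y := hy
    by_cases h : y ≤ R
    · rw [indicator_of_mem (show y ∈ Iic R from h), indicator_of_mem (show y ∈ Ioc 0 R from ⟨hy0, h⟩),
        mul_inv_cancel₀ hy0.ne']
    · rw [indicator_of_notMem (show y ∉ Iic R from h), indicator_of_notMem (show y ∉ Ioc 0 R from fun h' => h h'.2),
        mul_zero]
  have h2 : Integrable ((Ioc 0 R).indicator (fun _ => (1 : ℝ))) := by
    rw [integrable_indicator_iff measurableSet_Ioc]
    exact integrableOn_const (by rw [Real.volume_Ioc]; exact ENNReal.ofReal_ne_top)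
  constructor
  · rw [integrableOn_congr_fun h1 measurableSet_Ioi]
    exact h2.integrableOn
  · rw [setIntegral_congr_fun measurableSet_Ioi h1, setIntegral_indicator measurableSet_Ioc,
      inter_eq_self_of_subset_right Ioc_subset_Ioi_self, setIntegral_const, smul_eq_mul, mul_one,
      Real.volume_real_Ioc_of_le hR.le, sub_zero]

/-- [YUB-A1] The kernel `1/|z - ζ|`. Let `B = closedBall a R`, `B' = closedBall z R`. On `B'`: polar
coordinates, `MeasureTheory.Measure.integral_fun_norm_addHaar` (with `f y = (Iic R).indicator (fun y => y⁻¹) y`,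
`Complex.finrank_real_complex`, `Complex.volume_ball`; translate by `z`), integral `2 π R`; integrability by
`MeasureTheory.Measure.integrable_fun_norm_addHaar` (or `integrableOn_fun_norm_addHaar`). On `B \ B'` the integrand
is at most `R⁻¹` and the measure is at most `π R^2`. Sum: `3 π R`. -/
theorem ker_ball {R : ℝ} (hR : 0 < R) (a z : ℂ) :
    IntegrableOn (fun ζ : ℂ => ‖z - ζ‖⁻¹) (Metric.closedBall a R) ∧
      ∫ ζ in Metric.closedBall a R, ‖z - ζ‖⁻¹ ≤ 3 * Real.pi * R := by
  set g : ℝ → ℝ := (Iic R).indicator (fun y => y⁻¹) with hg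
  have hgi : Integrable (fun ζ : ℂ => g ‖z - ζ‖) := by
    have h1 : Integrable (fun x : ℂ => g ‖x‖) := A1_int.2 (A1_one hR).1
    exact h1.comp_sub_left z
  have hgint : ∫ ζ : ℂ, g ‖z - ζ‖ = 2 * Real.pi * R := by
    rw [integral_sub_left_eq_self (fun x : ℂ => g ‖x‖) volume z, A1_integral, (A1_one hR).2]
    ring
  have hg0 : ∀ y : ℝ, 0 ≤ y → 0 ≤ g y := by
    intro y hy
    rw [hg]
    by_cases h : y ∈ Iic R
    · rw [indicator_of_mem h]
      positivity
    · rw [indicator_of_notMem h]
  have hle : ∀ ζ : ℂ, ‖z - ζ‖⁻¹ ≤ g ‖z - ζ‖ + R⁻¹ := by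
    intro ζ
    by_cases h : ‖z - ζ‖ ≤ R
    · rw [hg, indicator_of_mem (show ‖z - ζ‖ ∈ Iic R from h)]
      have : (0 : ℝ) < R⁻¹ := inv_pos.2 hR
      linarith
    · rw [hg, indicator_of_notMem (show ‖z - ζ‖ ∉ Iic R from h), zero_add]
      exact inv_anti₀ hR (not_le.1 h).le
  have hconst : IntegrableOn (fun _ : ℂ => R⁻¹) (Metric.closedBall a R) :=
    integrableOn_const (isCompact_closedBall a R).measure_lt_top.ne
  have hsum : IntegrableOn (fun ζ : ℂ => g ‖z - ζ‖ + R⁻¹) (Metric.closedBall a R) :=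
    hgi.integrableOn.add hconst
  have hmeas : Measurable (fun ζ : ℂ => ‖z - ζ‖⁻¹) := by fun_prop
  have hint : IntegrableOn (fun ζ : ℂ => ‖z - ζ‖⁻¹) (Metric.closedBall a R) := by
    refine Integrable.mono' hsum hmeas.aestronglyMeasurable (Filter.Eventually.of_forall fun ζ => ?_)
    rw [Real.norm_of_nonneg (by positivity)]
    exact hle ζ
  refine ⟨hint, ?_⟩
  calc ∫ ζ in Metric.closedBall a R, ‖z - ζ‖⁻¹ ≤ ∫ ζ in Metric.closedBall a R, (g ‖z - ζ‖ + R⁻¹) :=
        integral_mono hint hsum hle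
    _ = (∫ ζ in Metric.closedBall a R, g ‖z - ζ‖) + ∫ ζ in Metric.closedBall a R, R⁻¹ :=
        integral_add hgi.integrableOn hconst
    _ ≤ 2 * Real.pi * R + Real.pi * R := by
        refine add_le_add ?_ ?_
        · rw [← hgint]
          exact setIntegral_le_integral hgi (Filter.Eventually.of_forall fun ζ => hg0 _ (norm_nonneg _))
        · rw [setIntegral_const, Measure.real, Complex.volume_closedBall]
          simp only [ENNReal.toReal_mul, ENNReal.toReal_pow, ENNReal.toReal_ofReal hR.le, smul_eq_mul,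
            ENNReal.coe_toReal, NNReal.coe_real_pi]
          have : R ^ 2 * Real.pi * R⁻¹ = Real.pi * R := by
            field_simp
          rw [this]
    _ = 3 * Real.pi * R := by ring

end Pool.Agent.YUB
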