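import Pool.Agent.YUB.Base

open MeasureTheory Set Filter Topology
open scoped ContDiff

namespace Pool.Agent.YUB

open Pool.Agent.YUD Pool.Agent.YUT

theorem A2_ball : (volume : Measure ℂ).real (Metric.ball 0 1) = Real.pi := by
  rw [Measure.real, Complex.volume_ball]
  simp

theorem A2_int {f : ℝ → ℝ} :
    Integrable (fun x : ℂ => f ‖x‖) ↔ IntegrableOn (fun y : ℝ => y * f y) (Ioi 0) := by
  rw [integrable_fun_norm_addHaar (volume : Measure ℂ) (f := f), Complex.finrank_real_complex]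
  simp only [Nat.add_one_sub_one, pow_one, smul_eq_mul]

theorem A2_integral (f : ℝ → ℝ) :
    ∫ x : ℂ, f ‖x‖ = 2 * (Real.pi * ∫ y in Ioi (0 : ℝ), y * f y) := by
  rw [integral_fun_norm_addHaar (volume : Measure ℂ) f, Complex.finrank_real_complex, A2_ball]
  simp only [Nat.add_one_sub_one, pow_one, smul_eq_mul, nsmul_eq_mul]
  norm_num

/-- [YUB-A2] Polar coordinates: `MeasureTheory.Measure.integral_fun_norm_addHaar` and
`integrable_fun_norm_addHaar` for `f y = (Ici R).indicator (fun y => y ^ (a - 3)) y`, after translation by `c`: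
`2 • π • ∫_R^∞ y^1 y^(a-3) dy = 2 π R^(a-1)/(1-a)` (`integral_Ioi_rpow_of_lt`, `integrableOn_Ioi_rpow_of_lt`, as
`a - 2 < -1`). -/
theorem ker_far {R a : ℝ} (hR : 0 < R) (ha1 : a < 1) (c : ℂ) :
    IntegrableOn (fun ζ : ℂ => ‖ζ - c‖ ^ (a - 3)) {ζ : ℂ | R ≤ ‖ζ - c‖} ∧
      ∫ ζ in {ζ : ℂ | R ≤ ‖ζ - c‖}, ‖ζ - c‖ ^ (a - 3) = 2 * Real.pi * (R ^ (a - 1) / (1 - a)) := by
  set g : ℝ → ℝ := (Ici R).indicator (fun y => y ^ (a - 3)) with hg
  have hms : MeasurableSet {ζ : ℂ | R ≤ ‖ζ - c‖} := measurableSet_le measurable_const (by fun_prop)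
  have e1 : ({ζ : ℂ | R ≤ ‖ζ - c‖}.indicator (fun ζ : ℂ => ‖ζ - c‖ ^ (a - 3))) = fun ζ => g ‖ζ - c‖ := by
    funext ζ
    by_cases h : R ≤ ‖ζ - c‖
    · rw [indicator_of_mem (show ζ ∈ {ζ : ℂ | R ≤ ‖ζ - c‖} from h), hg,
        indicator_of_mem (show ‖ζ - c‖ ∈ Ici R from h)]
    · rw [indicator_of_notMem (show ζ ∉ {ζ : ℂ | R ≤ ‖ζ - c‖} from h), hg,
        indicator_of_notMem (show ‖ζ - c‖ ∉ Ici R from h)]
  have e2 : ∀ y ∈ Ioi (0 : ℝ), y * g y = (Ici R).indicator (fun y : ℝ => y ^ (a - 2)) y := by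
    intro y hy
    have hy0 : (0 : ℝ) < y := hy
    by_cases h : R ≤ y
    · rw [hg, indicator_of_mem (show y ∈ Ici R from h), indicator_of_mem (show y ∈ Ici R from h)]
      rw [show a - 2 = (a - 3) + 1 by ring, Real.rpow_add_one hy0.ne']
      ring
    · rw [hg, indicator_of_notMem (show y ∉ Ici R from h), indicator_of_notMem (show y ∉ Ici R from h), mul_zero]
  have e3 : IntegrableOn (fun y : ℝ => y ^ (a - 2)) (Ici R) := by
    rw [integrableOn_Ici_iff_integrableOn_Ioi]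
    exact integrableOn_Ioi_rpow_of_lt (by linarith) hR
  have e4 : IntegrableOn (fun y : ℝ => y * g y) (Ioi 0) := by
    rw [integrableOn_congr_fun e2 measurableSet_Ioi]
    exact ((integrable_indicator_iff measurableSet_Ici).2 e3).integrableOn
  have e6 : Ioi (0 : ℝ) ∩ Ici R = Ici R := by
    refine inter_eq_self_of_subset_right fun y hy => ?_
    have hy' : R ≤ y := hy
    exact lt_of_lt_of_le hR hy'
  have e5 : ∫ y in Ioi (0 : ℝ), y * g y = R ^ (a - 1) / (1 - a) := by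
    rw [setIntegral_congr_fun measurableSet_Ioi e2, setIntegral_indicator measurableSet_Ici, e6,
      integral_Ici_eq_integral_Ioi,
      integral_Ioi_rpow_of_lt (by linarith) hR]
    rw [show a - 2 + 1 = a - 1 by ring, neg_div, ← div_neg]
    congr 1
    ring
  constructor
  · rw [← integrable_indicator_iff hms, e1]
    exact (A2_int.2 e4).comp_sub_right c
  · rw [← integral_indicator hms, e1, integral_sub_right_eq_self (fun x : ℂ => g ‖x‖) c, A2_integral, e5]
    ring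

end Pool.Agent.YUB
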