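import Pool.Agent.YUB.A1

open MeasureTheory Set Filter Topology
open scoped ContDiff

namespace Pool.Agent.YUB

open Pool.Agent.YUD Pool.Agent.YUT

theorem A3_norm_inv : LocallyIntegrable (fun ζ : ℂ => ‖ζ‖⁻¹) := by
  intro x
  have h := (ker_ball (one_pos) x 0).1
  refine ⟨Metric.closedBall x 1, Metric.closedBall_mem_nhds x one_pos, ?_⟩
  refine h.congr (Filter.Eventually.of_forall fun ζ => ?_)
  simp only [zero_sub, norm_neg]

/-- [YUB-A3] from `ker_ball`: every point has a bounded neighbourhood -/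
theorem locInt_inv : LocallyIntegrable (fun ζ : ℂ => ζ⁻¹) := by
  have hm : Measurable (fun ζ : ℂ => ζ⁻¹) := measurable_inv
  refine A3_norm_inv.mono hm.aestronglyMeasurable (Filter.Eventually.of_forall fun ζ => ?_)
  rw [norm_inv, norm_inv, norm_norm]

theorem A3_log_le (x : ℝ) (hx : 0 ≤ x) : |Real.log x| ≤ x + x⁻¹ := by
  rcases hx.eq_or_lt with h | h
  · rw [← h]
    simp
  · have h1 := Real.log_le_sub_one_of_pos h
    have h2 := Real.log_le_sub_one_of_pos (inv_pos.2 h)
    rw [Real.log_inv] at h2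
    have h3 := inv_pos.2 h
    rw [abs_le]
    constructor <;> linarith

/-- [YUB-A3] `|log x| ≤ x + x⁻¹` for `x > 0` (and `log 0 = 0`), measurability is clear -/
theorem locInt_log : LocallyIntegrable (fun ζ : ℂ => Real.log ‖ζ‖) := by
  have hm : Measurable (fun ζ : ℂ => Real.log ‖ζ‖) := Real.measurable_log.comp measurable_norm
  have h1 : LocallyIntegrable (fun ζ : ℂ => ‖ζ‖ + ‖ζ‖⁻¹) :=
    (continuous_norm.locallyIntegrable).add A3_norm_inv
  refine h1.mono hm.aestronglyMeasurable (Filter.Eventually.of_forall fun ζ => ?_)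
  rw [Real.norm_eq_abs, Real.norm_eq_abs]
  refine (A3_log_le _ (norm_nonneg ζ)).trans (le_abs_self _)

theorem A3_cpt {E : Type*} [NormedAddCommGroup E] [NormedSpace ℝ E] {k : ℂ → E} (hk : LocallyIntegrable k)
    {g : ℂ → ℝ} (hg : Continuous g) (hc : HasCompactSupport g) (z : ℂ) :
    Integrable (fun ζ => g ζ • k (z - ζ)) := by
  have h1 : LocallyIntegrable (fun ζ => k (z - ζ)) := by
    intro x
    obtain ⟨U, hU, hi⟩ := hk (z - x)
    refine ⟨(fun ζ => z - ζ) ⁻¹' U, ?_, ?_⟩
    · have : Tendsto (fun ζ : ℂ => z - ζ) (𝓝 x) (𝓝 (z - x)) := (continuous_const.sub continuous_id).tendsto x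
      exact this hU
    · have hmp : MeasurePreserving (fun ζ : ℂ => z - ζ) volume volume :=
        Measure.measurePreserving_sub_left volume z
      exact (hmp.integrableOn_comp_preimage (MeasurableEquiv.subLeft z).measurableEmbedding).2 hi
  exact h1.integrable_smul_left_of_hasCompactSupport hg hc

/-- [YUB-A3] `g` is bounded with bounded support -/
theorem int_ker {g : ℂ → ℂ} (hg : Continuous g) (hc : HasCompactSupport g) (z : ℂ) :
    Integrable (fun ζ => g ζ / (z - ζ)) := by
  have hn : Integrable (fun ζ => ‖g ζ‖ • ‖z - ζ‖⁻¹) :=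
    A3_cpt A3_norm_inv (g := fun ζ => ‖g ζ‖) hg.norm (hc.norm) z
  refine hn.mono' ?_ (Filter.Eventually.of_forall fun ζ => ?_)
  · have hm : Measurable (fun ζ => g ζ / (z - ζ)) := hg.measurable.div (by fun_prop)
    exact hm.aestronglyMeasurable
  · rw [norm_div, smul_eq_mul, div_eq_mul_inv]

/-- [YUB-A3] -/
theorem int_log {g : ℂ → ℝ} (hg : Continuous g) (hc : HasCompactSupport g) (z : ℂ) :
    Integrable (fun ζ => g ζ * Real.log ‖z - ζ‖) := by
  have h := A3_cpt locInt_log hg hc z
  simpa only [smul_eq_mul] using h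

end Pool.Agent.YUB
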