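import Pool.Agent.YUB.A3

open MeasureTheory Set Filter Topology
open scoped ContDiff

namespace Pool.Agent.YUB

open Pool.Agent.YUD Pool.Agent.YUT

/-- the unit vector with argument `θ` -/
noncomputable def A4_u (θ : ℝ) : ℂ := Complex.exp (θ * Complex.I)

theorem A4_u_cont : Continuous A4_u := by
  unfold A4_u
  fun_prop

theorem A4_u_norm (θ : ℝ) : ‖A4_u θ‖ = 1 := Complex.norm_exp_ofReal_mul_I θ

theorem A4_u_deriv (θ : ℝ) : HasDerivAt A4_u (Complex.I * A4_u θ) θ := by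
  have h0 : HasDerivAt (fun θ : ℝ => (θ : ℂ)) 1 θ := by
    have := (hasDerivAt_id θ).ofReal_comp
    simpa using this
  have h1 : HasDerivAt (fun θ : ℝ => (θ : ℂ) * Complex.I) (1 * Complex.I) θ := h0.mul_const _
  have h2 := h1.cexp
  rw [one_mul, mul_comm] at h2
  exact h2

theorem A4_lin (L : ℂ →L[ℝ] ℂ) (v : ℂ) : L v = v.re * L 1 + v.im * L Complex.I := by
  have h1 : v = v.re • (1 : ℂ) + v.im • Complex.I := by
    apply Complex.ext <;> simp
  conv_lhs => rw [h1]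
  rw [map_add, map_smul, map_smul, Complex.real_smul, Complex.real_smul]

theorem A4_alg (L : ℂ →L[ℝ] ℂ) {u : ℂ} (hu : ‖u‖ = 1) :
    (L u + Complex.I * L (Complex.I * u)) * u = L 1 + Complex.I * L Complex.I := by
  have h1 : (u.re : ℂ) * u.re + (u.im : ℂ) * u.im = 1 := by
    have h2 : ‖u‖ ^ 2 = 1 := by rw [hu, one_pow]
    rw [Complex.sq_norm, Complex.normSq_apply] at h2
    exact_mod_cast h2
  rw [A4_lin L u, A4_lin L (Complex.I * u)]
  have e1 : (Complex.I * u).re = -u.im := by simp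
  have e2 : (Complex.I * u).im = u.re := by simp
  rw [e1, e2]
  have e3 : u = (u.re : ℂ) + u.im * Complex.I := (Complex.re_add_im u).symm
  obtain ⟨a, ha⟩ : ∃ a, a = (u.re : ℂ) := ⟨_, rfl⟩
  obtain ⟨b, hb⟩ : ∃ b, b = (u.im : ℂ) := ⟨_, rfl⟩
  rw [Complex.ofReal_neg]
  rw [← ha, ← hb] at e3 h1 ⊢
  rw [e3]
  have hI := Complex.I_sq
  linear_combination (L 1 + Complex.I * L Complex.I) * h1 +
    (a * b * L Complex.I - b * b * L 1) * hI

theorem A4_supp {f : ℂ → ℂ} (hc : HasCompactSupport f) :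
    ∃ R₀ : ℝ, 0 < R₀ ∧ ∀ x : ℂ, R₀ < ‖x‖ → f x = 0 ∧ fderiv ℝ f x = 0 := by
  obtain ⟨r, hr⟩ := hc.isCompact.isBounded.subset_closedBall (0 : ℂ)
  refine ⟨max r 0 + 1, by positivity, fun x hx => ?_⟩
  have h1 : x ∉ tsupport f := by
    intro h
    have h2 := hr h
    rw [mem_closedBall_zero_iff] at h2
    have := le_max_left r 0
    linarith
  refine ⟨image_eq_zero_of_notMem_tsupport h1, ?_⟩
  by_contra h2
  exact h1 (support_fderiv_subset ℝ h2)

theorem A4_norm {r : ℝ} (hr : 0 < r) (θ : ℝ) : ‖(r : ℂ) * A4_u θ‖ = r := by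
  rw [norm_mul, A4_u_norm, mul_one, Complex.norm_real, Real.norm_eq_abs, abs_of_pos hr]

/-- the two parts of the integrand -/
noncomputable def A4_K (f : ℂ → ℂ) (v : ℂ) (p : ℝ × ℝ) : ℂ :=
  fderiv ℝ f (p.1 * A4_u p.2) (v * A4_u p.2)

theorem A4_K_cont {f : ℂ → ℂ} (hf : ContDiff ℝ 1 f) (v : ℂ) : Continuous (A4_K f v) := by
  have h1 := hf.continuous_fderiv one_ne_zero
  have h2 : Continuous fun p : ℝ × ℝ => A4_u p.2 := A4_u_cont.comp continuous_snd
  have h3 : Continuous fun p : ℝ × ℝ => (p.1 : ℂ) * A4_u p.2 :=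
    (Complex.continuous_ofReal.comp continuous_fst).mul h2
  exact (h1.comp h3).clm_apply (continuous_const.mul h2)

theorem A4_K_int {f : ℂ → ℂ} (hf : ContDiff ℝ 1 f) (hc : HasCompactSupport f) (v : ℂ) :
    IntegrableOn (A4_K f v) (Ioi (0 : ℝ) ×ˢ Ioo (-Real.pi) Real.pi) := by
  obtain ⟨R₀, hR₀, hz⟩ := A4_supp hc
  have h1 : IntegrableOn (A4_K f v) (Icc (0 : ℝ) R₀ ×ˢ Icc (-Real.pi) Real.pi) :=
    (A4_K_cont hf v).continuousOn.integrableOn_compact (isCompact_Icc.prod isCompact_Icc)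
  refine h1.of_forall_sdiff_eq_zero (measurableSet_Ioi.prod measurableSet_Ioo) ?_
  rintro ⟨r, θ⟩ ⟨⟨hr, hθ⟩, h2⟩
  have hr' : 0 < r := hr
  have h3 : R₀ < r := by
    by_contra h
    push Not at h
    exact h2 ⟨⟨hr'.le, h⟩, ⟨hθ.1.le, hθ.2.le⟩⟩
  unfold A4_K
  simp only
  rw [(hz _ (by rw [A4_norm hr']; exact h3)).2]
  rfl

theorem A4_int1 {f : ℂ → ℂ} (hf : ContDiff ℝ 1 f) (hc : HasCompactSupport f) (θ : ℝ) :
    ∫ r in Ioi (0 : ℝ), A4_K f 1 (r, θ) = -f 0 := by
  obtain ⟨R₀, hR₀, hz⟩ := A4_supp hc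
  have hd : Differentiable ℝ f := hf.differentiable one_ne_zero
  have hder : ∀ r : ℝ, HasDerivAt (fun r : ℝ => f (r * A4_u θ)) (A4_K f 1 (r, θ)) r := by
    intro r
    have h0 : HasDerivAt (fun r : ℝ => (r : ℂ)) 1 r := by
      have := (hasDerivAt_id r).ofReal_comp
      simpa using this
    have h1 : HasDerivAt (fun r : ℝ => (r : ℂ) * A4_u θ) (1 * A4_u θ) r := h0.mul_const _
    exact (hd ((r : ℂ) * A4_u θ)).hasFDerivAt.comp_hasDerivAt r h1
  have hcont : Continuous fun r : ℝ => A4_K f 1 (r, θ) :=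
    (A4_K_cont hf 1).comp (continuous_id.prodMk continuous_const)
  have hint : IntegrableOn (fun r : ℝ => A4_K f 1 (r, θ)) (Ioi 0) := by
    have h1 : IntegrableOn (fun r : ℝ => A4_K f 1 (r, θ)) (Icc 0 R₀) :=
      hcont.continuousOn.integrableOn_compact isCompact_Icc
    refine h1.of_forall_sdiff_eq_zero measurableSet_Ioi ?_
    rintro r ⟨hr, h2⟩
    have hr' : 0 < r := hr
    have h3 : R₀ < r := by
      by_contra h
      push Not at h
      exact h2 ⟨hr'.le, h⟩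
    unfold A4_K
    simp only
    rw [(hz _ (by rw [A4_norm hr']; exact h3)).2]
    rfl
  have hlim : Tendsto (fun r : ℝ => f (r * A4_u θ)) atTop (𝓝 0) := by
    refine tendsto_const_nhds.congr' ?_
    filter_upwards [eventually_gt_atTop R₀] with r hr
    exact ((hz _ (by rw [A4_norm (hR₀.trans hr)]; exact hr)).1).symm
  have h1 := integral_Ioi_of_hasDerivAt_of_tendsto
    ((hder 0).continuousAt.continuousWithinAt (s := Ici 0)) (fun r _ => hder r) hint hlim
  rw [h1]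
  simp

theorem A4_int2 {f : ℂ → ℂ} (hf : ContDiff ℝ 1 f) {r : ℝ} (hr : 0 < r) :
    ∫ θ in Ioo (-Real.pi) Real.pi, A4_K f Complex.I (r, θ) = 0 := by
  have hd : Differentiable ℝ f := hf.differentiable one_ne_zero
  have hr' : (r : ℂ) ≠ 0 := by exact_mod_cast hr.ne'
  have hder : ∀ θ : ℝ, HasDerivAt (fun θ : ℝ => (r : ℂ)⁻¹ * f (r * A4_u θ))
      (A4_K f Complex.I (r, θ)) θ := by
    intro θ
    have h1 : HasDerivAt (fun θ : ℝ => (r : ℂ) * A4_u θ) ((r : ℂ) * (Complex.I * A4_u θ)) θ :=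
      (A4_u_deriv θ).const_mul _
    have h2 := ((hd ((r : ℂ) * A4_u θ)).hasFDerivAt.comp_hasDerivAt θ h1).const_mul ((r : ℂ)⁻¹)
    have h3 : (r : ℂ)⁻¹ * fderiv ℝ f (r * A4_u θ) ((r : ℂ) * (Complex.I * A4_u θ)) =
        A4_K f Complex.I (r, θ) := by
      have h4 : (r : ℂ) * (Complex.I * A4_u θ) = r • (Complex.I * A4_u θ) := by
        rw [Complex.real_smul]
      rw [h4, map_smul, Complex.real_smul, ← mul_assoc, inv_mul_cancel₀ hr', one_mul]
      rfl
    rw [h3] at h2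
    exact h2
  have hcont : Continuous fun θ : ℝ => A4_K f Complex.I (r, θ) :=
    (A4_K_cont hf Complex.I).comp (continuous_const.prodMk continuous_id)
  have hpi : -Real.pi ≤ Real.pi := by linarith [Real.pi_pos]
  rw [← integral_Ioc_eq_integral_Ioo, ← intervalIntegral.integral_of_le hpi,
    intervalIntegral.integral_eq_sub_of_hasDerivAt (fun θ _ => hder θ)
      (hcont.intervalIntegrable _ _)]
  have h1 : A4_u Real.pi = A4_u (-Real.pi) := by
    unfold A4_u
    rw [Complex.exp_pi_mul_I, Complex.ofReal_neg, neg_mul, Complex.exp_neg, Complex.exp_pi_mul_I]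
    norm_num
  rw [h1, sub_self]

/-- [YUB-A4] the Cauchy-Pompeiu formula at `0`. Polar coordinates (`Complex.integral_comp_polarCoord_symm`; the
target is `Ioi 0 ×ˢ Ioo (-π) π`, `ζ = r e^{iθ}`): `r • (db f ζ / ζ) = db f ζ * e^{-iθ}`
`= fderiv ℝ f ζ (e^{iθ}) + I * fderiv ℝ f ζ (I e^{iθ})`. With `F(r,θ) = f(r e^{iθ})` the first term is `∂F/∂r` and the
second one is `I/r ∂F/∂θ`; both are continuous and bounded on `(0,∞) × [-π,π]` and vanish for large `r`, hence are
integrable on the product. Fubini: `∫_0^∞ ∂F/∂r dr = -f 0` for every `θ`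
(`integral_Ioi_of_hasDerivAt_of_tendsto` or the fundamental theorem on `[0, R]`), which gives `-2 π f 0`;
`∫_{-π}^{π} ∂F/∂θ dθ = F(r,π) - F(r,-π) = 0`. -/
theorem pompeiu0 {f : ℂ → ℂ} (hf : ContDiff ℝ 1 f) (hc : HasCompactSupport f) :
    ∫ ζ, db f ζ / ζ = -(2 * Real.pi) * f 0 := by
  have hT : Complex.polarCoord.target = Ioi (0 : ℝ) ×ˢ Ioo (-Real.pi) Real.pi := by
    rw [Complex.polarCoord_target]
  have hmT : MeasurableSet (Ioi (0 : ℝ) ×ˢ Ioo (-Real.pi) Real.pi) :=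
    measurableSet_Ioi.prod measurableSet_Ioo
  have i1 := A4_K_int hf hc 1
  have i2 := A4_K_int hf hc Complex.I
  rw [← Complex.integral_comp_polarCoord_symm, polarCoord_target]
  have h1 : ∫ p in Ioi (0 : ℝ) ×ˢ Ioo (-Real.pi) Real.pi,
      p.1 • (db f (Complex.polarCoord.symm p) / Complex.polarCoord.symm p) =
      ∫ p in Ioi (0 : ℝ) ×ˢ Ioo (-Real.pi) Real.pi, (A4_K f 1 p + Complex.I * A4_K f Complex.I p) := by
    apply setIntegral_congr_fun hmT
    rintro ⟨r, θ⟩ ⟨hr, hθ⟩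
    have hr' : 0 < r := hr
    have hr2 : (r : ℂ) ≠ 0 := by exact_mod_cast hr'.ne'
    have hu0 : A4_u θ ≠ 0 := by
      intro h
      have := A4_u_norm θ
      rw [h, norm_zero] at this
      exact zero_ne_one this
    have h2 : Complex.polarCoord.symm (r, θ) = r * A4_u θ := by
      rw [Complex.polarCoord_symm_apply]
      unfold A4_u
      rw [Complex.exp_mul_I, Complex.ofReal_cos, Complex.ofReal_sin]
    simp only
    rw [h2, Complex.real_smul]
    have h3 := A4_alg (fderiv ℝ f (r * A4_u θ)) (A4_u_norm θ)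
    unfold A4_K db
    simp only
    rw [← h3, one_mul]
    field_simp
  rw [h1]
  have h2 : ∫ p in Ioi (0 : ℝ) ×ˢ Ioo (-Real.pi) Real.pi,
      (A4_K f 1 p + Complex.I * A4_K f Complex.I p) =
      (∫ p in Ioi (0 : ℝ) ×ˢ Ioo (-Real.pi) Real.pi, A4_K f 1 p) +
        Complex.I * ∫ p in Ioi (0 : ℝ) ×ˢ Ioo (-Real.pi) Real.pi, A4_K f Complex.I p := by
    rw [integral_add i1 (i2.const_mul _), integral_const_mul]
  rw [h2]
  have hpr : (volume : Measure (ℝ × ℝ)).restrict (Ioi (0 : ℝ) ×ˢ Ioo (-Real.pi) Real.pi) =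
      ((volume : Measure ℝ).restrict (Ioi 0)).prod
        ((volume : Measure ℝ).restrict (Ioo (-Real.pi) Real.pi)) := by
    rw [Measure.prod_restrict]
    rfl
  have h3 : ∫ p in Ioi (0 : ℝ) ×ˢ Ioo (-Real.pi) Real.pi, A4_K f 1 p =
      -(2 * Real.pi) * f 0 := by
    have i1' : Integrable (A4_K f 1) (((volume : Measure ℝ).restrict (Ioi 0)).prod
        ((volume : Measure ℝ).restrict (Ioo (-Real.pi) Real.pi))) := by
      rw [← hpr]; exact i1
    rw [hpr, integral_prod_symm _ i1']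
    simp_rw [A4_int1 hf hc]
    rw [setIntegral_const, measureReal_def, Real.volume_Ioo]
    have h4 : (ENNReal.ofReal (Real.pi - -Real.pi)).toReal = 2 * Real.pi := by
      rw [ENNReal.toReal_ofReal (by linarith [Real.pi_pos])]
      ring
    rw [h4, Complex.real_smul]
    push_cast
    ring
  have h4 : ∫ p in Ioi (0 : ℝ) ×ˢ Ioo (-Real.pi) Real.pi, A4_K f Complex.I p = 0 := by
    have i2' : Integrable (A4_K f Complex.I) (((volume : Measure ℝ).restrict (Ioi 0)).prod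
        ((volume : Measure ℝ).restrict (Ioo (-Real.pi) Real.pi))) := by
      rw [← hpr]; exact i2
    rw [hpr, integral_prod _ i2']
    apply setIntegral_eq_zero_of_forall_eq_zero
    intro r hr
    exact A4_int2 hf hr
  rw [h3, h4, mul_zero, add_zero]

/-- [YUB-A4] translation: apply `pompeiu0` to `ζ ↦ f (ζ + z)` (`integral_add_right_eq_self`) -/
theorem pompeiu {f : ℂ → ℂ} (hf : ContDiff ℝ 1 f) (hc : HasCompactSupport f) (z : ℂ) :
    ∫ ζ, db f ζ / (z - ζ) = 2 * Real.pi * f z := by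
  have hg : ContDiff ℝ 1 (fun ζ => f (ζ + z)) := hf.comp (contDiff_id.add contDiff_const)
  have hgc : HasCompactSupport (fun ζ => f (ζ + z)) := by
    have := hc.comp_homeomorph (Homeomorph.addRight z)
    exact this
  have h1 := pompeiu0 hg hgc
  have h2 : ∀ ζ, db (fun ζ => f (ζ + z)) ζ = db f (ζ + z) := by
    intro ζ
    unfold db
    rw [fderiv_comp_add_right]
  simp_rw [h2] at h1
  rw [zero_add] at h1
  have h3 : ∫ ζ, db f ζ / (z - ζ) = ∫ ζ, db f (ζ + z) / (z - (ζ + z)) :=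
    (integral_add_right_eq_self (fun ζ => db f ζ / (z - ζ)) z).symm
  rw [h3]
  have h4 : ∀ ζ, db f (ζ + z) / (z - (ζ + z)) = -(db f (ζ + z) / ζ) := by
    intro ζ
    have : z - (ζ + z) = -ζ := by ring
    rw [this, div_neg]
  simp_rw [h4]
  rw [integral_neg, h1]
  ring

end Pool.Agent.YUB
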