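import Pool.Agent.YUB.A3

open MeasureTheory Set Filter Topology
open scoped ContDiff

namespace Pool.Agent.YUB

open Pool.Agent.YUD Pool.Agent.YUT

/-- the regularised logarithm -/
noncomputable def A5_N (e : ℝ) (ζ : ℂ) : ℝ := 1 / 2 * Real.log (‖ζ‖ ^ 2 + e ^ 2)

theorem A5_inner (ζ v : ℂ) : inner ℝ ζ v = ζ.re * v.re + ζ.im * v.im := by
  rw [Complex.inner]
  simp only [Complex.mul_re, Complex.conj_re, Complex.conj_im]
  ring

theorem A5_hasFDeriv {e : ℝ} (he : 0 < e) (ζ : ℂ) :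
    HasFDerivAt (A5_N e) ((1 / 2 : ℝ) • ((‖ζ‖ ^ 2 + e ^ 2)⁻¹ • ((2 : ℝ) • innerSL ℝ ζ))) ζ := by
  have h1 : HasFDerivAt (fun x : ℂ => ‖x‖ ^ 2 + e ^ 2) ((2 : ℝ) • innerSL ℝ ζ) ζ := by
    have := (hasStrictFDerivAt_norm_sq ζ).hasFDerivAt.add_const (e ^ 2)
    have h2 : ((2 : ℝ) • innerSL ℝ ζ) = (2 : ℕ) • innerSL ℝ ζ := by
      rw [two_smul, two_smul]
    rw [h2]
    exact this
  have h2 := h1.log (by positivity)
  exact h2.const_mul (1 / 2)

theorem A5_fderiv {e : ℝ} (he : 0 < e) (ζ v : ℂ) :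
    fderiv ℝ (A5_N e) ζ v = inner ℝ ζ v / (‖ζ‖ ^ 2 + e ^ 2) := by
  rw [(A5_hasFDeriv he ζ).fderiv]
  simp only [smul_apply, innerSL_apply_apply, smul_eq_mul]
  ring

theorem A5_cont {e : ℝ} (he : 0 < e) : Continuous (A5_N e) :=
  continuous_iff_continuousAt.2 fun ζ => (A5_hasFDeriv he ζ).continuousAt

theorem A5_re (v ζ : ℂ) : (v / ζ).re = inner ℝ ζ v / ‖ζ‖ ^ 2 := by
  rw [Complex.div_re, A5_inner, Complex.sq_norm]
  ring

theorem A5_bound {e : ℝ} (he : 0 < e) (he1 : e ≤ 1) {ζ : ℂ} (hζ : ζ ≠ 0) :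
    |A5_N e ζ| ≤ |Real.log ‖ζ‖| + Real.log (‖ζ‖ ^ 2 + 1) := by
  have h0 : 0 < ‖ζ‖ := norm_pos_iff.2 hζ
  have h1 : Real.log ‖ζ‖ ≤ A5_N e ζ := by
    have h2 : Real.log (‖ζ‖ ^ 2) ≤ Real.log (‖ζ‖ ^ 2 + e ^ 2) :=
      Real.log_le_log (by positivity) (by nlinarith [sq_nonneg e])
    rw [Real.log_pow] at h2
    push_cast at h2
    unfold A5_N
    linarith
  have h3 : 0 ≤ Real.log (‖ζ‖ ^ 2 + 1) := Real.log_nonneg (by nlinarith [sq_nonneg ‖ζ‖])
  have h4 : A5_N e ζ ≤ Real.log (‖ζ‖ ^ 2 + 1) := by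
    have h5 : Real.log (‖ζ‖ ^ 2 + e ^ 2) ≤ Real.log (‖ζ‖ ^ 2 + 1) :=
      Real.log_le_log (by positivity) (by nlinarith)
    unfold A5_N
    linarith
  rw [abs_le]
  constructor
  · have := neg_abs_le (Real.log ‖ζ‖)
    linarith
  · have := abs_nonneg (Real.log ‖ζ‖)
    linarith

theorem A5_bound' {e : ℝ} (he : 0 < e) (ζ v : ℂ) (hζ : ζ ≠ 0) :
    |inner ℝ ζ v / (‖ζ‖ ^ 2 + e ^ 2)| ≤ ‖v‖ * ‖ζ‖⁻¹ := by
  have h0 : 0 < ‖ζ‖ := norm_pos_iff.2 hζ
  rw [abs_div, abs_of_pos (by positivity : 0 < ‖ζ‖ ^ 2 + e ^ 2), div_le_iff₀ (by positivity)]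
  have h1 : |inner ℝ ζ v| ≤ ‖ζ‖ * ‖v‖ := abs_real_inner_le_norm ζ v
  have h2 : ‖v‖ * ‖ζ‖⁻¹ * (‖ζ‖ ^ 2 + e ^ 2) = ‖v‖ * ‖ζ‖ + ‖v‖ * ‖ζ‖⁻¹ * e ^ 2 := by
    field_simp
  rw [h2]
  have h3 : 0 ≤ ‖v‖ * ‖ζ‖⁻¹ * e ^ 2 := by positivity
  linarith

/-- [YUB-A5] integration by parts against `log`. For `ε > 0` let `N_ε(ζ) = 1/2 log(|ζ|^2 + ε^2)`, a smooth function with
`fderiv ℝ N_ε ζ v = (ζ.re v.re + ζ.im v.im) / (|ζ|^2 + ε^2)`. `integral_mul_fderiv_eq_neg_fderiv_mul_of_integrable`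
gives `∫ N_ε(ζ) fderiv f ζ v = - ∫ (fderiv N_ε ζ v) f ζ`. Let `ε → 0` (dominated convergence along `ε = 1/(n+1)`):
`|N_ε(ζ)| ≤ |log |ζ|| + log(|ζ|^2 + 1)` (for `ζ ≠ 0`), `|fderiv N_ε ζ v| ≤ ‖v‖/‖ζ‖`, times continuous functions of
compact support (`locInt_log`, `locInt_inv`); the limit of the right side is `-∫ (ζ.re v.re + ζ.im v.im)/|ζ|^2 f`
and `(v/ζ).re = (ζ.re v.re + ζ.im v.im)/|ζ|^2`. -/
theorem log_parts {f : ℂ → ℝ} (hf : ContDiff ℝ 1 f) (hc : HasCompactSupport f) (v : ℂ) :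
    ∫ ζ, Real.log ‖ζ‖ * fderiv ℝ f ζ v = - ∫ ζ, (v / ζ).re * f ζ := by
  set f' : ℂ → ℝ := fun ζ => fderiv ℝ f ζ v with hf'
  have hf'c : Continuous f' := (hf.continuous_fderiv (by norm_num)).clm_apply continuous_const
  have hf's : HasCompactSupport f' := hc.fderiv_apply ℝ v
  have hfc : Continuous f := hf.continuous
  let e : ℕ → ℝ := fun n => 1 / ((n : ℝ) + 1)
  have he0 : ∀ n, 0 < e n := fun n => Nat.one_div_pos_of_nat
  have he1 : ∀ n, e n ≤ 1 := by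
    intro n
    change 1 / ((n : ℝ) + 1) ≤ 1
    rw [div_le_one (by positivity)]
    have : (0 : ℝ) ≤ n := Nat.cast_nonneg n
    linarith
  have het : Tendsto (fun n => (e n) ^ 2) atTop (𝓝 0) := by
    have := (tendsto_one_div_add_atTop_nhds_zero_nat (𝕜 := ℝ)).pow 2
    rw [zero_pow two_ne_zero] at this
    exact this
  have hae : ∀ᵐ ζ : ℂ, ζ ≠ 0 := by
    rw [ae_iff]
    simp
  -- integration by parts
  have hparts : ∀ n, ∫ ζ, A5_N (e n) ζ * f' ζ = - ∫ ζ, inner ℝ ζ v / (‖ζ‖ ^ 2 + (e n) ^ 2) * f ζ := by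
    intro n
    have hinner : Continuous fun ζ : ℂ => inner ℝ ζ v / (‖ζ‖ ^ 2 + (e n) ^ 2) := by
      refine Continuous.div (by fun_prop) (by fun_prop) fun ζ => ?_
      have := he0 n
      positivity
    have h1 : Integrable (fun ζ => fderiv ℝ (A5_N (e n)) ζ v * f ζ) := by
      simp only [A5_fderiv (he0 n)]
      exact (hinner.mul hfc).integrable_of_hasCompactSupport hc.mul_left
    have h2 : Integrable (fun ζ => A5_N (e n) ζ * fderiv ℝ f ζ v) :=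
      ((A5_cont (he0 n)).mul hf'c).integrable_of_hasCompactSupport hf's.mul_left
    have h3 : Integrable (fun ζ => A5_N (e n) ζ * f ζ) :=
      ((A5_cont (he0 n)).mul hfc).integrable_of_hasCompactSupport hc.mul_left
    have h4 := integral_mul_fderiv_eq_neg_fderiv_mul_of_integrable h1 h2 h3
      (fun x _ => (A5_hasFDeriv (he0 n) x).differentiableAt)
      (fun x _ => (hf.differentiable (by norm_num)) x)
    rw [hf', h4]
    simp only [A5_fderiv (he0 n)]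
  -- the limit of the left side
  have hL : Tendsto (fun n => ∫ ζ, A5_N (e n) ζ * f' ζ) atTop (𝓝 (∫ ζ, Real.log ‖ζ‖ * f' ζ)) := by
    have hb : Integrable (fun ζ : ℂ => |f' ζ * Real.log ‖0 - ζ‖| + |f' ζ| * Real.log (‖ζ‖ ^ 2 + 1)) := by
      refine (int_log hf'c hf's 0).abs.add ?_
      have hcl : Continuous fun ζ : ℂ => Real.log (‖ζ‖ ^ 2 + 1) :=
        Continuous.log (by fun_prop) fun ζ => by positivity
      exact (hf'c.abs.mul hcl).integrable_of_hasCompactSupport (hf's.abs.mul_right)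
    refine tendsto_integral_of_dominated_convergence _
      (fun n => ((A5_cont (he0 n)).mul hf'c).aestronglyMeasurable) hb ?_ ?_
    · intro n
      filter_upwards [hae] with ζ hζ
      rw [norm_mul, Real.norm_eq_abs, Real.norm_eq_abs, zero_sub, norm_neg, abs_mul]
      have := A5_bound (he0 n) (he1 n) hζ
      calc |A5_N (e n) ζ| * |f' ζ| ≤ (|Real.log ‖ζ‖| + Real.log (‖ζ‖ ^ 2 + 1)) * |f' ζ| :=
            mul_le_mul_of_nonneg_right this (abs_nonneg _)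
        _ = _ := by ring
    · filter_upwards [hae] with ζ hζ
      refine Tendsto.mul_const _ ?_
      have h0 : 0 < ‖ζ‖ := norm_pos_iff.2 hζ
      have h1 : Tendsto (fun n => ‖ζ‖ ^ 2 + (e n) ^ 2) atTop (𝓝 (‖ζ‖ ^ 2)) := by
        have := het.const_add (‖ζ‖ ^ 2)
        rwa [add_zero] at this
      have h2 := (h1.log (by positivity)).const_mul (1 / 2)
      have h3 : 1 / 2 * Real.log (‖ζ‖ ^ 2) = Real.log ‖ζ‖ := by
        rw [Real.log_pow]
        push_cast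
        ring
      rw [h3] at h2
      exact h2
  -- the limit of the right side
  have hR : Tendsto (fun n => ∫ ζ, inner ℝ ζ v / (‖ζ‖ ^ 2 + (e n) ^ 2) * f ζ) atTop
      (𝓝 (∫ ζ, (v / ζ).re * f ζ)) := by
    have hfC : Continuous (fun ζ => ((f ζ : ℝ) : ℂ)) := Complex.continuous_ofReal.comp hfc
    have hcC : HasCompactSupport (fun ζ => ((f ζ : ℝ) : ℂ)) := by
      refine hc.comp_left (g := fun x : ℝ => (x : ℂ)) ?_
      simp
    have hb : Integrable (fun ζ : ℂ => ‖v‖ * ‖((f ζ : ℝ) : ℂ) / (0 - ζ)‖) :=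
      (int_ker hfC hcC 0).norm.const_mul _
    refine tendsto_integral_of_dominated_convergence _ (fun n => ?_) hb ?_ ?_
    · have hinner : Continuous fun ζ : ℂ => inner ℝ ζ v / (‖ζ‖ ^ 2 + (e n) ^ 2) := by
        refine Continuous.div (by fun_prop) (by fun_prop) fun ζ => ?_
        have := he0 n
        positivity
      exact (hinner.mul hfc).aestronglyMeasurable
    · intro n
      filter_upwards [hae] with ζ hζ
      rw [norm_mul, Real.norm_eq_abs, Real.norm_eq_abs, norm_div, Complex.norm_real, zero_sub, norm_neg,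
        Real.norm_eq_abs]
      have := A5_bound' (he0 n) ζ v hζ
      calc |inner ℝ ζ v / (‖ζ‖ ^ 2 + (e n) ^ 2)| * |f ζ| ≤ (‖v‖ * ‖ζ‖⁻¹) * |f ζ| :=
            mul_le_mul_of_nonneg_right this (abs_nonneg _)
        _ = ‖v‖ * (|f ζ| / ‖ζ‖) := by ring
    · filter_upwards [hae] with ζ hζ
      refine Tendsto.mul_const _ ?_
      rw [A5_re]
      have h0 : 0 < ‖ζ‖ := norm_pos_iff.2 hζ
      have h1 : Tendsto (fun n => ‖ζ‖ ^ 2 + (e n) ^ 2) atTop (𝓝 (‖ζ‖ ^ 2)) := by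
        have := het.const_add (‖ζ‖ ^ 2)
        rwa [add_zero] at this
      exact tendsto_const_nhds.div h1 (by positivity)
  have hL' : Tendsto (fun n => ∫ ζ, A5_N (e n) ζ * f' ζ) atTop (𝓝 (- ∫ ζ, (v / ζ).re * f ζ)) := by
    simp only [hparts]
    exact hR.neg
  exact tendsto_nhds_unique hL hL'

end Pool.Agent.YUB
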