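import Pool.Agent.YUB.A4

open MeasureTheory Set Filter Topology
open scoped ContDiff

namespace Pool.Agent.YUB

open Pool.Agent.YUD Pool.Agent.YUT

theorem B1_conv (g : ℂ → ℂ) (z : ℂ) :
    convolution (fun u : ℂ => u⁻¹) g (ContinuousLinearMap.mul ℝ ℂ) volume z = ∫ ζ, g ζ / (z - ζ) := by
  rw [← integral_sub_left_eq_self (fun ζ => g ζ / (z - ζ)) volume z]
  unfold convolution
  refine integral_congr_ae (Filter.Eventually.of_forall fun t => ?_)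
  show t⁻¹ * g (z - t) = g (z - t) / (z - (z - t))
  rw [sub_sub_cancel, div_eq_mul_inv, mul_comm]

theorem B1_eq (q : ℂ → ℝ) : cau q = fun z => (((2 * Real.pi)⁻¹ : ℝ) : ℂ) *
    convolution (fun u : ℂ => u⁻¹) (fun ζ : ℂ => ((q ζ : ℝ) : ℂ)) (ContinuousLinearMap.mul ℝ ℂ) volume z := by
  ext z
  rw [B1_conv]
  rfl

theorem B1_cs {q : ℂ → ℝ} (hc : HasCompactSupport q) : HasCompactSupport (fun ζ : ℂ => ((q ζ : ℝ) : ℂ)) :=
  hc.comp_left (g := fun x : ℝ => (x : ℂ)) Complex.ofReal_zero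

/-- [YUB-B1] `∫ q ζ / (z - ζ) dζ = ∫ u⁻¹ q (z - u) du` (`integral_sub_left_eq_self`), a convolution of the locally
integrable function `u ↦ u⁻¹` (`locInt_inv`) and the compactly supported `C¹` function `q` (as a function with values in
`ℂ`): `HasCompactSupport.contDiff_convolution_right`. -/
theorem cau_contDiff {q : ℂ → ℝ} (hq : ContDiff ℝ 1 q) (hc : HasCompactSupport q) :
    ContDiff ℝ 1 (cau q) := by
  rw [B1_eq]
  refine contDiff_const.mul ?_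
  have h1 : ContDiff ℝ 1 (fun ζ : ℂ => ((q ζ : ℝ) : ℂ)) := Complex.ofRealCLM.contDiff.comp hq
  have h := HasCompactSupport.contDiff_convolution_right (μ := volume) (ContinuousLinearMap.mul ℝ ℂ) (n := 1) (B1_cs hc)
    locInt_inv (by exact_mod_cast h1)
  exact_mod_cast h

/-- [YUB-B1] `HasCompactSupport.hasFDerivAt_convolution_right`: `fderiv (cau q) z v =
(2π)⁻¹ ∫ u⁻¹ fderiv q (z - u) v du = (2π)⁻¹ ∫ (fderiv q ζ v)/(z - ζ) dζ`, so `db (cau q) z =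
(2π)⁻¹ ∫ db (fun ζ => (q ζ : ℂ)) ζ / (z - ζ) = q z` by `pompeiu`. -/
theorem cau_db {q : ℂ → ℝ} (hq : ContDiff ℝ 1 q) (hc : HasCompactSupport q) (z : ℂ) :
    db (cau q) z = q z := by
  have h1 : ContDiff ℝ 1 (fun ζ : ℂ => ((q ζ : ℝ) : ℂ)) := Complex.ofRealCLM.contDiff.comp hq
  have hcs := B1_cs hc
  have hF : Continuous (fderiv ℝ (fun ζ : ℂ => ((q ζ : ℝ) : ℂ))) := h1.continuous_fderiv one_ne_zero
  have hd := HasCompactSupport.hasFDerivAt_convolution_right (μ := volume) (ContinuousLinearMap.mul ℝ ℂ) hcs locInt_inv h1 z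
  have hd2 := hd.const_mul (((2 * Real.pi)⁻¹ : ℝ) : ℂ)
  have hv : ∀ v : ℂ, fderiv ℝ (cau q) z v = (((2 * Real.pi)⁻¹ : ℝ) : ℂ) *
      ∫ ζ, fderiv ℝ (fun ζ : ℂ => ((q ζ : ℝ) : ℂ)) ζ v / (z - ζ) := by
    intro v
    rw [B1_eq, hd2.fderiv]
    show (((2 * Real.pi)⁻¹ : ℝ) : ℂ) * (convolution (fun u : ℂ => u⁻¹) (fderiv ℝ (fun ζ : ℂ => ((q ζ : ℝ) : ℂ)))
      (ContinuousLinearMap.precompR ℂ (ContinuousLinearMap.mul ℝ ℂ)) volume z) v = _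
    rw [convolution_precompR_apply (ContinuousLinearMap.mul ℝ ℂ) locInt_inv (hcs.fderiv ℝ) hF z v, B1_conv]
  have hint : ∀ v : ℂ, Integrable (fun ζ => fderiv ℝ (fun ζ : ℂ => ((q ζ : ℝ) : ℂ)) ζ v / (z - ζ)) := by
    intro v
    refine int_ker (g := fun ζ => fderiv ℝ (fun ζ : ℂ => ((q ζ : ℝ) : ℂ)) ζ v) (hF.clm_apply continuous_const) ?_ z
    exact (hcs.fderiv ℝ).comp_left (g := fun L : ℂ →L[ℝ] ℂ => L v) (by simp)
  unfold db
  rw [hv, hv]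
  have e : (∫ ζ, fderiv ℝ (fun ζ : ℂ => ((q ζ : ℝ) : ℂ)) ζ 1 / (z - ζ)) +
      Complex.I * (∫ ζ, fderiv ℝ (fun ζ : ℂ => ((q ζ : ℝ) : ℂ)) ζ Complex.I / (z - ζ)) =
      ∫ ζ, db (fun ζ : ℂ => ((q ζ : ℝ) : ℂ)) ζ / (z - ζ) := by
    rw [← integral_const_mul, ← integral_add (hint 1) ((hint Complex.I).const_mul _)]
    refine integral_congr_ae (Filter.Eventually.of_forall fun ζ => ?_)
    show fderiv ℝ (fun ζ : ℂ => ((q ζ : ℝ) : ℂ)) ζ 1 / (z - ζ) + Complex.I * (fderiv ℝ (fun ζ : ℂ => ((q ζ : ℝ) : ℂ)) ζ Complex.I / (z - ζ)) =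
      (fderiv ℝ (fun ζ : ℂ => ((q ζ : ℝ) : ℂ)) ζ 1 + Complex.I * fderiv ℝ (fun ζ : ℂ => ((q ζ : ℝ) : ℂ)) ζ Complex.I) / (z - ζ)
    ring
  have h5 := pompeiu h1 hcs z
  rw [← e] at h5
  have hpi : (Real.pi : ℂ) ≠ 0 := by exact_mod_cast Real.pi_ne_zero
  push_cast
  linear_combination (2 * (Real.pi : ℂ))⁻¹ * h5 + (q z : ℂ) * (inv_mul_cancel₀ (mul_ne_zero two_ne_zero hpi) : (2 * (Real.pi : ℂ))⁻¹ * (2 * Real.pi) = 1)

end Pool.Agent.YUB
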