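import Pool.Agent.YUB.A5
import Pool.Agent.YUB.B1

open MeasureTheory Set Filter Topology
open scoped ContDiff

namespace Pool.Agent.YUB

open Pool.Agent.YUD Pool.Agent.YUT

theorem B2_eq (q : ℂ → ℝ) : pot q = fun z => ((2 * Real.pi)⁻¹ : ℝ) *
    convolution (fun u : ℂ => Real.log ‖u‖) q (ContinuousLinearMap.mul ℝ ℝ) volume z := by
  ext z
  unfold pot convolution
  congr 1
  rw [← integral_sub_left_eq_self (fun ζ => q ζ * Real.log ‖z - ζ‖) volume z]
  refine integral_congr_ae (Filter.Eventually.of_forall fun t => ?_)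
  show q (z - t) * Real.log ‖z - (z - t)‖ = Real.log ‖t‖ * q (z - t)
  rw [sub_sub_cancel, mul_comm]

/-- [YUB-B2] `pot q z = (2π)⁻¹ ∫ log‖u‖ q (z - u) du`, a convolution with a locally integrable function
(`locInt_log`); `HasCompactSupport.hasFDerivAt_convolution_right`: the derivative in direction `v` is
`(2π)⁻¹ ∫ log‖u‖ fderiv q (z - u) v du`. Apply `log_parts` to `f u = q (z - u)` (`fderiv f u v = - fderiv q (z - u) v`):
it is equal to `(2π)⁻¹ ∫ (v/u).re q (z - u) du = (v * cau q z).re`. -/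
theorem pot_fderiv {q : ℂ → ℝ} (hq : ContDiff ℝ 1 q) (hc : HasCompactSupport q) (z : ℂ) :
    DifferentiableAt ℝ (pot q) z ∧ ∀ v : ℂ, fderiv ℝ (pot q) z v = (v * cau q z).re := by
  have hF : Continuous (fderiv ℝ q) := hq.continuous_fderiv one_ne_zero
  have hd := HasCompactSupport.hasFDerivAt_convolution_right (μ := volume) (ContinuousLinearMap.mul ℝ ℝ) hc locInt_log hq z
  have hd2 := hd.const_mul ((2 * Real.pi)⁻¹ : ℝ)
  rw [B2_eq]
  refine ⟨hd2.differentiableAt, fun v => ?_⟩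
  rw [hd2.fderiv]
  show ((2 * Real.pi)⁻¹ : ℝ) * (convolution (fun u : ℂ => Real.log ‖u‖) (fderiv ℝ q)
      (ContinuousLinearMap.precompR ℂ (ContinuousLinearMap.mul ℝ ℝ)) volume z) v = _
  rw [convolution_precompR_apply (ContinuousLinearMap.mul ℝ ℝ) locInt_log (hc.fderiv ℝ) hF z v]
  have hshift : ContDiff ℝ 1 (fun u : ℂ => q (z - u)) := hq.comp (contDiff_const.sub contDiff_id)
  have hcshift : HasCompactSupport (fun u : ℂ => q (z - u)) :=
    hc.comp_homeomorph (Homeomorph.subLeft z)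
  have hfd : ∀ u : ℂ, fderiv ℝ (fun u : ℂ => q (z - u)) u v = -fderiv ℝ q (z - u) v := by
    intro u
    have h1 : HasFDerivAt (fun u : ℂ => q (z - u)) ((fderiv ℝ q (z - u)).comp (-ContinuousLinearMap.id ℝ ℂ)) u := by
      have h2 : HasFDerivAt (fun u : ℂ => z - u) (-ContinuousLinearMap.id ℝ ℂ) u := (hasFDerivAt_id u).const_sub z
      exact ((hq.differentiable one_ne_zero).differentiableAt.hasFDerivAt).comp u h2
    rw [h1.fderiv]
    show fderiv ℝ q (z - u) (-v) = _
    rw [map_neg]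
  have h3 := log_parts hshift hcshift v
  have h4 : convolution (fun u : ℂ => Real.log ‖u‖) (fun a => fderiv ℝ q a v) (ContinuousLinearMap.mul ℝ ℝ) volume z =
      ∫ ζ, (v / ζ).re * q (z - ζ) := by
    unfold convolution
    have h5 : ∫ ζ, Real.log ‖ζ‖ * fderiv ℝ (fun u : ℂ => q (z - u)) ζ v = -∫ ζ, Real.log ‖ζ‖ * fderiv ℝ q (z - ζ) v := by
      rw [← integral_neg]
      refine integral_congr_ae (Filter.Eventually.of_forall fun t => ?_)
      simp only [hfd]
      ring
    rw [h5, neg_inj] at h3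
    rw [← h3]
    rfl
  rw [h4]
  unfold cau
  have h6 : v * ((((2 * Real.pi)⁻¹ : ℝ) : ℂ) * ∫ ζ, (q ζ : ℂ) / (z - ζ)) =
      (((2 * Real.pi)⁻¹ : ℝ) : ℂ) * ∫ ζ, v * ((q ζ : ℂ) / (z - ζ)) := by
    rw [integral_const_mul]
    ring
  rw [h6, Complex.re_ofReal_mul]
  congr 1
  have hint : Integrable (fun ζ => v * ((q ζ : ℂ) / (z - ζ))) :=
    (int_ker (g := fun ζ => (q ζ : ℂ)) (Complex.continuous_ofReal.comp hq.continuous) (B1_cs hc) z).const_mul v
  have h7 : (∫ ζ, v * ((q ζ : ℂ) / (z - ζ))).re = ∫ ζ, (v * ((q ζ : ℂ) / (z - ζ))).re := by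
    have := integral_re hint
    exact this.symm
  rw [h7, ← integral_sub_left_eq_self (fun ζ => (v * ((q ζ : ℂ) / (z - ζ))).re) volume z]
  refine integral_congr_ae (Filter.Eventually.of_forall fun t => ?_)
  show (v / t).re * q (z - t) = (v * ((q (z - t) : ℂ) / (z - (z - t)))).re
  rw [sub_sub_cancel]
  have h8 : v * ((q (z - t) : ℂ) / t) = (q (z - t) : ℂ) * (v / t) := by ring
  rw [h8, Complex.re_ofReal_mul, mul_comm]

/-- [YUB-B2] the derivative of `pot q` is a `C¹` function by `pot_fderiv` and `cau_contDiff`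
(`contDiff_succ_iff_fderiv`; `fderiv ℝ (pot q) z = Complex.reCLM ∘ (multiplication by cau q z)`) -/
theorem pot_contDiff {q : ℂ → ℝ} (hq : ContDiff ℝ 1 q) (hc : HasCompactSupport q) :
    ContDiff ℝ 2 (pot q) := by
  have e : (2 : WithTop ℕ∞) = 1 + 1 := by norm_num
  rw [e, contDiff_succ_iff_fderiv]
  refine ⟨fun z => (pot_fderiv hq hc z).1, fun h => absurd h (by simp), ?_⟩
  have h1 : fderiv ℝ (pot q) = fun z => ((ContinuousLinearMap.compL ℝ ℂ ℂ ℝ Complex.reCLM).comp (ContinuousLinearMap.mul ℝ ℂ)) (cau q z) := by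
    ext z v
    rw [(pot_fderiv hq hc z).2 v]
    show (v * cau q z).re = (cau q z * v).re
    rw [mul_comm]
  rw [h1]
  exact ContinuousLinearMap.contDiff _ |>.comp (cau_contDiff hq hc)

/-- [YUB-B2] `dx (pot q) = re (cau q)`, `dy (pot q) = - im (cau q)`, so `lap (pot q) z` is the real part of
`db (cau q) z = q z` -/
theorem pot_lap {q : ℂ → ℝ} (hq : ContDiff ℝ 1 q) (hc : HasCompactSupport q) (z : ℂ) :
    lap (pot q) z = q z := by
  have hx : dx (pot q) = fun z => (cau q z).re := by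
    ext z
    unfold dx
    rw [(pot_fderiv hq hc z).2 1, one_mul]
  have hy : dy (pot q) = fun z => (Complex.I * cau q z).re := by
    ext z
    unfold dy
    rw [(pot_fderiv hq hc z).2 Complex.I]
  have hd : DifferentiableAt ℝ (cau q) z := ((cau_contDiff hq hc).differentiable one_ne_zero) z
  have hx2 : dx (fun z => (cau q z).re) z = (fderiv ℝ (cau q) z 1).re := by
    unfold dx
    have h1 : HasFDerivAt (fun z => (cau q z).re) (Complex.reCLM.comp (fderiv ℝ (cau q) z)) z :=
      (Complex.reCLM.hasFDerivAt).comp z hd.hasFDerivAt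
    rw [h1.fderiv]
    rfl
  have hy2 : dy (fun z => (Complex.I * cau q z).re) z = (Complex.I * fderiv ℝ (cau q) z Complex.I).re := by
    unfold dy
    have h1 : HasFDerivAt (fun z => (Complex.I * cau q z).re) (Complex.reCLM.comp (Complex.I • fderiv ℝ (cau q) z)) z :=
      (Complex.reCLM.hasFDerivAt).comp z (hd.hasFDerivAt.const_mul Complex.I)
    rw [h1.fderiv]
    rfl
  unfold lap
  rw [hx, hy, hx2, hy2, ← Complex.add_re]
  have h3 := cau_db hq hc z
  unfold db at h3
  rw [h3, Complex.ofReal_re]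

end Pool.Agent.YUB
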