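import Pool.Agent.YUB.A3

open MeasureTheory Set Filter Topology
open scoped ContDiff

namespace Pool.Agent.YUB

open Pool.Agent.YUD Pool.Agent.YUT

/-- [YUB-B3] `ker_ball` -/
theorem cau_le {q : ℂ → ℝ} (hq : Continuous q) {a : ℂ} {κ R : ℝ} (hR : 0 < R)
    (h0 : ∀ x, x ∉ Metric.closedBall a R → q x = 0) (hκ : ∀ x, |q x| ≤ κ) (z : ℂ) :
    ‖cau q z‖ ≤ 3 / 2 * κ * R := by
  have hκ0 : 0 ≤ κ := (abs_nonneg _).trans (hκ a)
  obtain ⟨h1, h2⟩ := ker_ball hR a z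
  have hpi := Real.pi_pos
  unfold cau
  rw [norm_mul, Complex.norm_real, Real.norm_of_nonneg (by positivity)]
  have h3 : ∫ ζ, (q ζ : ℂ) / (z - ζ) = ∫ ζ in Metric.closedBall a R, (q ζ : ℂ) / (z - ζ) := by
    rw [setIntegral_eq_integral_of_forall_compl_eq_zero]
    intro x hx
    rw [h0 x hx, Complex.ofReal_zero, zero_div]
  have h4 : ‖∫ ζ in Metric.closedBall a R, (q ζ : ℂ) / (z - ζ)‖ ≤ ∫ ζ in Metric.closedBall a R, κ * ‖z - ζ‖⁻¹ := by
    refine norm_integral_le_of_norm_le (h1.const_mul κ) (Filter.Eventually.of_forall fun ζ => ?_)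
    rw [norm_div, Complex.norm_real, Real.norm_eq_abs, div_eq_mul_inv]
    exact mul_le_mul_of_nonneg_right (hκ ζ) (by positivity)
  rw [integral_const_mul] at h4
  rw [h3]
  calc (2 * Real.pi)⁻¹ * ‖∫ ζ in Metric.closedBall a R, (q ζ : ℂ) / (z - ζ)‖
      ≤ (2 * Real.pi)⁻¹ * (κ * (3 * Real.pi * R)) := by
        refine mul_le_mul_of_nonneg_left (h4.trans (mul_le_mul_of_nonneg_left h2 hκ0)) (by positivity)
    _ = 3 / 2 * κ * R := by
        field_simp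

/-- [YUB-B3] -/
theorem cau_le_dist {q : ℂ → ℝ} (hq : Continuous q) (hc : HasCompactSupport q) {d : ℝ} (hd : 0 < d)
    {z : ℂ} (h : ∀ x, q x ≠ 0 → d ≤ ‖z - x‖) :
    ‖cau q z‖ ≤ (2 * Real.pi * d)⁻¹ * ∫ x, |q x| := by
  have hpi := Real.pi_pos
  unfold cau
  rw [norm_mul, Complex.norm_real, Real.norm_of_nonneg (by positivity)]
  have h4 : ‖∫ ζ, (q ζ : ℂ) / (z - ζ)‖ ≤ ∫ ζ, |q ζ| * d⁻¹ := by
    refine norm_integral_le_of_norm_le ?_ (Filter.Eventually.of_forall fun ζ => ?_)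
    · exact ((hq.integrable_of_hasCompactSupport hc).abs).mul_const _
    · rw [norm_div, Complex.norm_real, Real.norm_eq_abs, div_eq_mul_inv]
      by_cases h0 : q ζ = 0
      · rw [h0, abs_zero, zero_mul, zero_mul]
      · exact mul_le_mul_of_nonneg_left (inv_anti₀ hd (h ζ h0)) (abs_nonneg _)
  rw [integral_mul_const] at h4
  calc (2 * Real.pi)⁻¹ * ‖∫ ζ, (q ζ : ℂ) / (z - ζ)‖ ≤ (2 * Real.pi)⁻¹ * ((∫ ζ, |q ζ|) * d⁻¹) :=
        mul_le_mul_of_nonneg_left h4 (by positivity)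
    _ = (2 * Real.pi * d)⁻¹ * ∫ x, |q x| := by
        rw [mul_inv]
        ring

end Pool.Agent.YUB
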