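import Pool.Agent.YUB.A3

open MeasureTheory Set Filter Topology
open scoped ContDiff

namespace Pool.Agent.YUB

open Pool.Agent.YUD Pool.Agent.YUT

theorem B4_log1 {a b m : ℝ} (hm : 0 < m) (ha : m ≤ a) (hb : m ≤ b) : Real.log a - Real.log b ≤ |a - b| / m := by
  have ha0 : 0 < a := lt_of_lt_of_le hm ha
  have hb0 : 0 < b := lt_of_lt_of_le hm hb
  rw [← Real.log_div ha0.ne' hb0.ne']
  have h1 := Real.log_le_sub_one_of_pos (div_pos ha0 hb0)
  have h2 : a / b - 1 = (a - b) / b := by field_simp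
  calc Real.log (a / b) ≤ (a - b) / b := by rw [← h2]; exact h1
    _ ≤ |a - b| / b := div_le_div_of_nonneg_right (le_abs_self _) hb0.le
    _ ≤ |a - b| / m := div_le_div_of_nonneg_left (abs_nonneg _) hm hb

theorem B4_log {a b m : ℝ} (hm : 0 < m) (ha : m ≤ a) (hb : m ≤ b) : |Real.log a - Real.log b| ≤ |a - b| / m := by
  rw [abs_le]
  have h1 := B4_log1 hm ha hb
  have h2 := B4_log1 hm hb ha
  rw [abs_sub_comm b a] at h2
  constructor <;> linarith

/-- [YUB-B4] decay at infinity for `∫ q = 0`. Let `q` vanish outside `closedBall 0 R₀`, `R₀ ≥ 1`. For `‖z‖ ≥ 2 R₀` and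
`‖ζ‖ ≤ R₀`: `‖z - ζ‖ ≥ ‖z‖/2`, so `‖cau q z‖ ≤ (2π)⁻¹ (2/‖z‖) ∫|q|`; and `pot q z = (2π)⁻¹ ∫ q ζ (log‖z - ζ‖ - log‖z‖)`
with `|log‖z - ζ‖ - log‖z‖| ≤ 2 ‖ζ‖/‖z‖ ≤ 2 R₀/‖z‖` (`|log a - log b| ≤ |a - b| / min a b`, from `log x ≤ x - 1`). -/
theorem pot_decay {q : ℂ → ℝ} (hq : Continuous q) (hc : HasCompactSupport q) (h0 : ∫ x, q x = 0) :
    ∃ C R : ℝ, 0 < C ∧ 0 < R ∧ ∀ z : ℂ, R ≤ ‖z‖ → |pot q z| ≤ C / ‖z‖ ∧ ‖cau q z‖ ≤ C / ‖z‖ := by
  obtain ⟨R₁, hR₁⟩ := hc.isCompact.isBounded.subset_closedBall (0 : ℂ)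
  set R₀ : ℝ := max 1 R₁ with hR₀
  have hR1 : 1 ≤ R₀ := le_max_left _ _
  have hz0 : ∀ x : ℂ, q x ≠ 0 → ‖x‖ ≤ R₀ := by
    intro x hx
    have h1 := hR₁ (subset_tsupport q hx)
    rw [mem_closedBall_zero_iff] at h1
    exact h1.trans (le_max_right _ _)
  have hqi : Integrable (fun x => |q x|) := (hq.integrable_of_hasCompactSupport hc).abs
  set I0 : ℝ := ∫ x, |q x| with hI0
  have hI0' : 0 ≤ I0 := integral_nonneg fun x => abs_nonneg _
  have hpi : (3 : ℝ) < Real.pi := Real.pi_gt_three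
  refine ⟨R₀ * I0 + 1, 2 * R₀, by positivity, by positivity, fun z hz => ?_⟩
  have hzp : 0 < ‖z‖ := by linarith
  have hdist : ∀ x : ℂ, q x ≠ 0 → ‖z‖ / 2 ≤ ‖z - x‖ := by
    intro x hx
    have h1 := norm_sub_norm_le z x
    have h2 := hz0 x hx
    linarith
  refine ⟨?_, ?_⟩
  · have e1 : pot q z = (2 * Real.pi)⁻¹ * ∫ ζ, q ζ * (Real.log ‖z - ζ‖ - Real.log ‖z‖) := by
      unfold pot
      congr 1
      have h1 : ∫ ζ, q ζ * (Real.log ‖z - ζ‖ - Real.log ‖z‖) =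
          (∫ ζ, q ζ * Real.log ‖z - ζ‖) - ∫ ζ, q ζ * Real.log ‖z‖ := by
        rw [← integral_sub (int_log hq hc z) ((hq.integrable_of_hasCompactSupport hc).mul_const _)]
        refine integral_congr_ae (Filter.Eventually.of_forall fun t => ?_)
        show q t * (Real.log ‖z - t‖ - Real.log ‖z‖) = q t * Real.log ‖z - t‖ - q t * Real.log ‖z‖
        ring
      rw [h1, integral_mul_const, h0, zero_mul, sub_zero]
    have h2 : ‖∫ ζ, q ζ * (Real.log ‖z - ζ‖ - Real.log ‖z‖)‖ ≤ ∫ ζ, |q ζ| * (2 * R₀ / ‖z‖) := by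
      refine norm_integral_le_of_norm_le (hqi.mul_const _) (Filter.Eventually.of_forall fun ζ => ?_)
      rw [norm_mul, Real.norm_eq_abs, Real.norm_eq_abs]
      by_cases h3 : q ζ = 0
      · rw [h3, abs_zero, zero_mul, zero_mul]
      · refine mul_le_mul_of_nonneg_left ?_ (abs_nonneg _)
        have h4 := hdist ζ h3
        have h5 := hz0 ζ h3
        have h6 : |‖z - ζ‖ - ‖z‖| ≤ R₀ := by
          have h7 := abs_norm_sub_norm_le (z - ζ) z
          rw [show z - ζ - z = -ζ by ring, norm_neg] at h7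
          exact h7.trans h5
        have h8 := B4_log (a := ‖z - ζ‖) (b := ‖z‖) (m := ‖z‖ / 2) (by positivity) h4 (by linarith)
        refine h8.trans ?_
        rw [div_div_eq_mul_div]
        exact div_le_div_of_nonneg_right (by linarith) hzp.le
    rw [integral_mul_const] at h2
    rw [e1, abs_mul, abs_of_nonneg (by positivity : (0 : ℝ) ≤ (2 * Real.pi)⁻¹)]
    rw [Real.norm_eq_abs] at h2
    calc (2 * Real.pi)⁻¹ * |∫ ζ, q ζ * (Real.log ‖z - ζ‖ - Real.log ‖z‖)| ≤ (2 * 1)⁻¹ * (I0 * (2 * R₀ / ‖z‖)) := by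
          refine mul_le_mul ?_ h2 (abs_nonneg _) (by positivity)
          exact inv_anti₀ (by norm_num) (by linarith)
      _ = (R₀ * I0) / ‖z‖ := by ring
      _ ≤ (R₀ * I0 + 1) / ‖z‖ := div_le_div_of_nonneg_right (by linarith) hzp.le
  · unfold cau
    rw [norm_mul, Complex.norm_real, Real.norm_of_nonneg (by positivity)]
    have h4 : ‖∫ ζ, (q ζ : ℂ) / (z - ζ)‖ ≤ ∫ ζ, |q ζ| * (‖z‖ / 2)⁻¹ := by
      refine norm_integral_le_of_norm_le (hqi.mul_const _) (Filter.Eventually.of_forall fun ζ => ?_)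
      rw [norm_div, Complex.norm_real, Real.norm_eq_abs, div_eq_mul_inv]
      by_cases h3 : q ζ = 0
      · rw [h3, abs_zero, zero_mul, zero_mul]
      · exact mul_le_mul_of_nonneg_left (inv_anti₀ (by positivity) (hdist ζ h3)) (abs_nonneg _)
    rw [integral_mul_const] at h4
    calc (2 * Real.pi)⁻¹ * ‖∫ ζ, (q ζ : ℂ) / (z - ζ)‖ ≤ (2 * 1)⁻¹ * (I0 * (‖z‖ / 2)⁻¹) := by
          refine mul_le_mul ?_ h4 (norm_nonneg _) (by positivity)
          exact inv_anti₀ (by norm_num) (by linarith)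
      _ = I0 / ‖z‖ := by
          rw [inv_div]
          ring
      _ ≤ (R₀ * I0 + 1) / ‖z‖ := div_le_div_of_nonneg_right (by nlinarith) hzp.le

end Pool.Agent.YUB
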