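import Pool.Agent.YUB.Base

open MeasureTheory Set Filter Topology
open scoped ContDiff

namespace Pool.Agent.YUB

open Pool.Agent.YUD Pool.Agent.YUT

theorem B5a_int {F g : ℂ → ℝ} (hF : ContDiff ℝ 1 F) (hg : ContDiff ℝ 1 g) (hc : HasCompactSupport g) (v : ℂ) :
    Integrable (fun x => F x * fderiv ℝ g x v) := by
  refine Continuous.integrable_of_hasCompactSupport ?_ ?_
  · exact hF.continuous.mul ((hg.continuous_fderiv one_ne_zero).clm_apply continuous_const)
  · exact ((hc.fderiv ℝ).comp_left (g := fun L : ℂ →L[ℝ] ℝ => L v) (by simp)).mul_left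

theorem B5a_int2 {F g : ℂ → ℝ} (hF : ContDiff ℝ 1 F) (hg : ContDiff ℝ 1 g) (hc : HasCompactSupport g) (v : ℂ) :
    Integrable (fun x => g x * fderiv ℝ F x v) := by
  refine Continuous.integrable_of_hasCompactSupport ?_ hc.mul_right
  exact hg.continuous.mul ((hF.continuous_fderiv one_ne_zero).clm_apply continuous_const)

theorem B5a_dir {F g : ℂ → ℝ} (hF : ContDiff ℝ 1 F) (hg : ContDiff ℝ 1 g) (hc : HasCompactSupport g) (v : ℂ) :
    ∫ x, F x * fderiv ℝ g x v = -∫ x, g x * fderiv ℝ F x v := by
  have h := integral_mul_fderiv_eq_neg_fderiv_mul_of_integrable (μ := volume) (f := F) (g := g) (v := v) ?_ ?_ ?_ ?_ ?_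
  · rw [h]
    congr 1
    refine integral_congr_ae (Filter.Eventually.of_forall fun x => ?_)
    exact mul_comm _ _
  · have := B5a_int2 hF hg hc v
    refine this.congr (Filter.Eventually.of_forall fun x => ?_)
    exact mul_comm _ _
  · exact B5a_int hF hg hc v
  · exact Continuous.integrable_of_hasCompactSupport (hF.continuous.mul hg.continuous) hc.mul_left
  · exact fun x _ => (hF.differentiable one_ne_zero) x
  · exact fun x _ => (hg.differentiable one_ne_zero) x

/-- [YUB-B5a] integration by parts: `∫ (∇f ⬝ ∇g) = -∫ g Δf` for `f` of class `C²` and `g` of class `C¹` with compact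
support (`integral_mul_fderiv_eq_neg_fderiv_mul_of_integrable` in the directions `1` and `I`, for
`dx f`, `g` and `dy f`, `g`; everything is continuous with compact support). -/
theorem parts_plane {f g : ℂ → ℝ} (hf : ContDiff ℝ 2 f) (hg : ContDiff ℝ 1 g)
    (hc : HasCompactSupport g) :
    ∫ x, (dx f x * dx g x + dy f x * dy g x) = -∫ x, g x * lap f x := by
  have hdx : ContDiff ℝ 1 (dx f) := by
    have h1 : ContDiff ℝ 1 (fderiv ℝ f) := hf.fderiv_right (by norm_num)
    exact h1.clm_apply contDiff_const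
  have hdy : ContDiff ℝ 1 (dy f) := by
    have h1 : ContDiff ℝ 1 (fderiv ℝ f) := hf.fderiv_right (by norm_num)
    exact h1.clm_apply contDiff_const
  have hgd : Differentiable ℝ g := hg.differentiable one_ne_zero
  have h1 := B5a_dir hdx hg hc 1
  have h2 := B5a_dir hdy hg hc Complex.I
  have i1 : Integrable (fun x => dx f x * dx g x) := B5a_int hdx hg hc 1
  have i2 : Integrable (fun x => dy f x * dy g x) := B5a_int hdy hg hc Complex.I
  have j1 : Integrable (fun x => g x * fderiv ℝ (dx f) x 1) := B5a_int2 hdx hg hc 1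
  have j2 : Integrable (fun x => g x * fderiv ℝ (dy f) x Complex.I) := B5a_int2 hdy hg hc Complex.I
  rw [integral_add i1 i2]
  have e1 : ∫ x, dx f x * dx g x = -∫ x, g x * fderiv ℝ (dx f) x 1 := h1
  have e2 : ∫ x, dy f x * dy g x = -∫ x, g x * fderiv ℝ (dy f) x Complex.I := h2
  rw [e1, e2, ← neg_add, ← integral_add j1 j2]
  congr 1
  refine integral_congr_ae (Filter.Eventually.of_forall fun x => ?_)
  show g x * fderiv ℝ (dx f) x 1 + g x * fderiv ℝ (dy f) x Complex.I = g x * (fderiv ℝ (dx f) x 1 + fderiv ℝ (dy f) x Complex.I)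
  ring

end Pool.Agent.YUB
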