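import Pool.Agent.YUB.B5a

open MeasureTheory Set Filter Topology
open scoped ContDiff

namespace Pool.Agent.YUB

open Pool.Agent.YUD Pool.Agent.YUT

/-- [YUB-B5b] energy identity with a cutoff at infinity. `u` is a `C²` function with `|u z| ≤ C/‖z‖` and
`‖fderiv ℝ u z‖ ≤ C/‖z‖` for `‖z‖ ≥ R`, `lap u = q` with `q` continuous of compact support. For `ρ > 2 R` large let
`χ_ρ(z) = χ(z/ρ)` with a fixed smooth cutoff `χ` (`1` on the unit ball, `0` off the ball of radius `2`, values in
`[0,1]`, `‖fderiv χ‖ ≤ A`). `parts_plane` for `f = u`, `g = χ_ρ u`: `∫ χ_ρ |∇u|^2 = -∫ χ_ρ u q - ∫ u ∇χ_ρ ⬝ ∇u`; the last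
integral is over `ρ ≤ ‖z‖ ≤ 2 ρ`, where the integrand is at most `(C/ρ)(2A/ρ)(2C/ρ)`, so it is `O(1/ρ)`. Then for
every `s`: `0 ≤ ∫ χ_ρ |∇u + s ∇g|^2 = ∫ χ_ρ |∇u|^2 + 2 s ∫ ∇u ⬝ ∇g + s^2 ∫ |∇g|^2` if `χ_ρ = 1` on the support of `g`, and
`∫ ∇u ⬝ ∇g = -∫ g q` (`parts_plane`). Let `ρ → ∞`. -/
theorem energy_form {u q g : ℂ → ℝ} (hu : ContDiff ℝ 2 u) (hq : Continuous q)
    (hqc : HasCompactSupport q) (hl : ∀ z, lap u z = q z) {C R : ℝ} (hC : 0 < C) (hR : 0 < R)
    (hdec : ∀ z : ℂ, R ≤ ‖z‖ → |u z| ≤ C / ‖z‖ ∧ ‖fderiv ℝ u z‖ ≤ C / ‖z‖)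
    (hg : ContDiff ℝ 1 g) (hgc : HasCompactSupport g) (s : ℝ) :
    0 ≤ -(∫ z, u z * q z) - 2 * s * (∫ z, g z * q z) + s ^ 2 * ∫ z, gsq g z := by
  -- the cutoff
  let b : ContDiffBump (0 : ℂ) := ⟨1, 2, one_pos, one_lt_two⟩
  have hbC : ContDiff ℝ 1 (b : ℂ → ℝ) := b.contDiff
  obtain ⟨A, hA⟩ := (b.hasCompactSupport.fderiv ℝ).exists_bound_of_continuous (hbC.continuous_fderiv one_ne_zero)
  have hA0 : 0 ≤ A := (norm_nonneg _).trans (hA 0)
  obtain ⟨R₁, hR₁⟩ := hqc.isCompact.isBounded.subset_closedBall (0 : ℂ)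
  obtain ⟨R₂, hR₂⟩ := hgc.isCompact.isBounded.subset_closedBall (0 : ℂ)
  -- it is enough to have the inequality up to K/ρ
  set E : ℝ := -(∫ z, u z * q z) - 2 * s * (∫ z, g z * q z) + s ^ 2 * ∫ z, gsq g z with hE
  have key : ∀ ρ : ℝ, 1 ≤ ρ → R ≤ ρ → R₁ < ρ → R₂ < ρ → 0 ≤ E + (8 * Real.pi * C ^ 2 * A) / ρ := by
    intro ρ h1 h2 h3 h4
    have hρ : 0 < ρ := by linarith
    set χ : ℂ → ℝ := fun z => b (ρ⁻¹ • z) with hχ
    have hχC : ContDiff ℝ 1 χ := hbC.comp (contDiff_const_smul ρ⁻¹)
    have hχ1 : ∀ z : ℂ, ‖z‖ ≤ ρ → χ z = 1 := by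
      intro z hz
      refine b.one_of_mem_closedBall ?_
      rw [mem_closedBall_zero_iff, norm_smul, Real.norm_of_nonneg (by positivity)]
      show ρ⁻¹ * ‖z‖ ≤ 1
      rw [inv_mul_le_iff₀ hρ, mul_one]
      exact hz
    have hχ0 : ∀ z : ℂ, 2 * ρ ≤ ‖z‖ → χ z = 0 := by
      intro z hz
      refine b.zero_of_le_dist ?_
      rw [dist_zero_right, norm_smul, Real.norm_of_nonneg (by positivity)]
      show 2 ≤ ρ⁻¹ * ‖z‖
      rw [le_inv_mul_iff₀ hρ]
      linarith
    have hχpos : ∀ z, 0 ≤ χ z := fun z => b.nonneg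
    have hχcs : HasCompactSupport χ := by
      refine HasCompactSupport.of_support_subset_isCompact (isCompact_closedBall (0 : ℂ) (2 * ρ)) fun z hz => ?_
      rw [mem_closedBall_zero_iff]
      by_contra hcon
      exact hz (hχ0 z (not_le.1 hcon).le)
    have hχd : ∀ z : ℂ, ‖fderiv ℝ χ z‖ ≤ A / ρ := by
      intro z
      have h5 : fderiv ℝ χ z = ρ⁻¹ • fderiv ℝ (b : ℂ → ℝ) (ρ⁻¹ • z) := by
        rw [hχ]
        exact fderiv_comp_smul ρ⁻¹
      rw [h5, norm_smul, Real.norm_of_nonneg (by positivity), div_eq_inv_mul]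
      exact mul_le_mul_of_nonneg_left (hA _) (by positivity)
    have hχin : ∀ z : ℂ, ‖z‖ < ρ → fderiv ℝ χ z = 0 := by
      intro z hz
      have h5 : χ =ᶠ[𝓝 z] fun _ => 1 := by
        filter_upwards [Metric.isOpen_ball.mem_nhds (mem_ball_zero_iff.2 hz)] with y hy
        exact hχ1 y (mem_ball_zero_iff.1 hy).le
      rw [h5.fderiv_eq]
      exact fderiv_const_apply _
    have hχout : ∀ z : ℂ, 2 * ρ < ‖z‖ → fderiv ℝ χ z = 0 := by
      intro z hz
      have h5 : χ =ᶠ[𝓝 z] fun _ => 0 := by
        have h6 : {y : ℂ | 2 * ρ < ‖y‖} ∈ 𝓝 z := (isOpen_lt continuous_const continuous_norm).mem_nhds hz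
        filter_upwards [h6] with y hy
        exact hχ0 y (le_of_lt hy)
      rw [h5.fderiv_eq]
      exact fderiv_const_apply _
    have hqin : ∀ z, q z ≠ 0 → ‖z‖ ≤ ρ := fun z hz => by
      have h5 := hR₁ (subset_tsupport q hz)
      rw [mem_closedBall_zero_iff] at h5
      linarith
    have hgin : ∀ z, z ∈ tsupport g → ‖z‖ ≤ ρ := fun z hz => by
      have h5 := hR₂ hz
      rw [mem_closedBall_zero_iff] at h5
      linarith
    have hgin' : ∀ z, g z ≠ 0 → ‖z‖ ≤ ρ := fun z hz => hgin z (subset_tsupport g hz)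
    have hu1 : ContDiff ℝ 1 u := hu.of_le (by norm_num)
    have hgd0 : ∀ z, z ∉ tsupport g → fderiv ℝ g z = 0 := fun z hz => by
      have h5 := support_fderiv_subset ℝ (f := g)
      by_contra hcon
      exact hz (h5 hcon)
    -- continuity of the derivatives
    have cdu : Continuous (fderiv ℝ u) := hu1.continuous_fderiv one_ne_zero
    have cdg : Continuous (fderiv ℝ g) := hg.continuous_fderiv one_ne_zero
    have cdχ : Continuous (fderiv ℝ χ) := hχC.continuous_fderiv one_ne_zero
    have cux : Continuous (dx u) := cdu.clm_apply continuous_const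
    have cuy : Continuous (dy u) := cdu.clm_apply continuous_const
    have cgx : Continuous (dx g) := cdg.clm_apply continuous_const
    have cgy : Continuous (dy g) := cdg.clm_apply continuous_const
    have cχx : Continuous (dx χ) := cdχ.clm_apply continuous_const
    have cχy : Continuous (dy χ) := cdχ.clm_apply continuous_const
    -- the integrals
    have i1 : Integrable (fun z => χ z * (dx u z ^ 2 + dy u z ^ 2)) :=
      Continuous.integrable_of_hasCompactSupport (hχC.continuous.mul ((cux.pow 2).add (cuy.pow 2))) hχcs.mul_right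
    have i2 : Integrable (fun z => dx u z * dx g z + dy u z * dy g z) := by
      refine Continuous.integrable_of_hasCompactSupport ((cux.mul cgx).add (cuy.mul cgy)) ?_
      exact HasCompactSupport.add
        (((hgc.fderiv ℝ).comp_left (g := fun L : ℂ →L[ℝ] ℝ => L 1) (by simp)).mul_left)
        (((hgc.fderiv ℝ).comp_left (g := fun L : ℂ →L[ℝ] ℝ => L Complex.I) (by simp)).mul_left)
    have i3 : Integrable (fun z => gsq g z) := by
      refine Continuous.integrable_of_hasCompactSupport ((cgx.pow 2).add (cgy.pow 2)) ?_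
      exact (hgc.fderiv ℝ).comp_left (g := fun L : ℂ →L[ℝ] ℝ => L 1 ^ 2 + L Complex.I ^ 2) (by simp)
    have i4 : Integrable (fun z => u z * (dx χ z * dx u z + dy χ z * dy u z)) := by
      refine Continuous.integrable_of_hasCompactSupport (hu.continuous.mul ((cχx.mul cux).add (cχy.mul cuy))) ?_
      refine HasCompactSupport.mul_left ?_
      exact HasCompactSupport.add
        (((hχcs.fderiv ℝ).comp_left (g := fun L : ℂ →L[ℝ] ℝ => L 1) (by simp)).mul_right)
        (((hχcs.fderiv ℝ).comp_left (g := fun L : ℂ →L[ℝ] ℝ => L Complex.I) (by simp)).mul_right)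
    -- positivity
    have hpos : 0 ≤ ∫ z, χ z * ((dx u z + s * dx g z) ^ 2 + (dy u z + s * dy g z) ^ 2) :=
      integral_nonneg fun z => mul_nonneg (hχpos z) (by positivity)
    have e1 : ∫ z, χ z * ((dx u z + s * dx g z) ^ 2 + (dy u z + s * dy g z) ^ 2) =
        (∫ z, χ z * (dx u z ^ 2 + dy u z ^ 2)) + (2 * s) * (∫ z, (dx u z * dx g z + dy u z * dy g z)) +
          s ^ 2 * ∫ z, gsq g z := by
      have i5 : Integrable (fun z => χ z * (dx u z ^ 2 + dy u z ^ 2) + (2 * s) * (dx u z * dx g z + dy u z * dy g z)) :=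
        i1.add (i2.const_mul _)
      rw [← integral_const_mul, ← integral_const_mul, ← integral_add i1 (i2.const_mul _),
        ← integral_add i5 (i3.const_mul _)]
      refine integral_congr_ae (Filter.Eventually.of_forall fun z => ?_)
      show χ z * ((dx u z + s * dx g z) ^ 2 + (dy u z + s * dy g z) ^ 2) =
        χ z * (dx u z ^ 2 + dy u z ^ 2) + (2 * s) * (dx u z * dx g z + dy u z * dy g z) + s ^ 2 * (dx g z ^ 2 + dy g z ^ 2)
      by_cases hz : z ∈ tsupport g
      · rw [hχ1 z (hgin z hz)]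
        ring
      · have h5 := hgd0 z hz
        have h6 : dx g z = 0 := by unfold dx; rw [h5]; rfl
        have h7 : dy g z = 0 := by unfold dy; rw [h5]; rfl
        rw [h6, h7]
        ring
    -- the mixed term
    have e2 : ∫ z, (dx u z * dx g z + dy u z * dy g z) = -∫ z, g z * q z := by
      rw [parts_plane hu hg hgc]
      congr 1
      refine integral_congr_ae (Filter.Eventually.of_forall fun z => ?_)
      show g z * lap u z = g z * q z
      rw [hl z]
    -- the energy with the cutoff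
    have hχu : ContDiff ℝ 1 (fun z => χ z * u z) := hχC.mul hu1
    have hχucs : HasCompactSupport (fun z => χ z * u z) := hχcs.mul_right
    have e3 := parts_plane hu hχu hχucs
    have dmul : ∀ z v, fderiv ℝ (fun z => χ z * u z) z v = χ z * fderiv ℝ u z v + u z * fderiv ℝ χ z v := by
      intro z v
      have h5 := ((hχC.differentiable one_ne_zero) z).hasFDerivAt.mul ((hu1.differentiable one_ne_zero) z).hasFDerivAt
      have h6 : fderiv ℝ (fun z => χ z * u z) z = χ z • fderiv ℝ u z + u z • fderiv ℝ χ z := h5.fderiv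
      rw [h6]
      rfl
    have e4 : ∫ x, (dx u x * dx (fun z => χ z * u z) x + dy u x * dy (fun z => χ z * u z) x) =
        (∫ z, χ z * (dx u z ^ 2 + dy u z ^ 2)) + ∫ z, u z * (dx χ z * dx u z + dy χ z * dy u z) := by
      rw [← integral_add i1 i4]
      refine integral_congr_ae (Filter.Eventually.of_forall fun z => ?_)
      show dx u z * fderiv ℝ (fun z => χ z * u z) z 1 + dy u z * fderiv ℝ (fun z => χ z * u z) z Complex.I = _
      rw [dmul, dmul]
      show dx u z * (χ z * dx u z + u z * dx χ z) + dy u z * (χ z * dy u z + u z * dy χ z) = _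
      ring
    have e5 : ∫ x, (χ x * u x) * lap u x = ∫ z, u z * q z := by
      refine integral_congr_ae (Filter.Eventually.of_forall fun z => ?_)
      show (χ z * u z) * lap u z = u z * q z
      rw [hl z]
      by_cases hz : q z = 0
      · rw [hz]; ring
      · rw [hχ1 z (hqin z hz), one_mul]
    rw [e4, e5] at e3
    -- the error term
    have herr : |∫ z, u z * (dx χ z * dx u z + dy χ z * dy u z)| ≤ (8 * Real.pi * C ^ 2 * A) / ρ := by
      have h5 : ∫ z, u z * (dx χ z * dx u z + dy χ z * dy u z) =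
          ∫ z in Metric.closedBall (0 : ℂ) (2 * ρ), u z * (dx χ z * dx u z + dy χ z * dy u z) := by
        rw [setIntegral_eq_integral_of_forall_compl_eq_zero]
        intro z hz
        rw [mem_closedBall_zero_iff, not_le] at hz
        unfold dx dy
        rw [hχout z hz]
        simp
      have h6 : ∀ z ∈ Metric.closedBall (0 : ℂ) (2 * ρ), ‖u z * (dx χ z * dx u z + dy χ z * dy u z)‖ ≤ (C / ρ) * (2 * (A / ρ) * (C / ρ)) := by
        intro z _
        by_cases hz : ‖z‖ < ρ
        · unfold dx dy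
          rw [hχin z hz]
          simp only [ContinuousLinearMap.zero_apply, zero_mul, add_zero, mul_zero, norm_zero]
          positivity
        · rw [not_lt] at hz
          obtain ⟨h7, h8⟩ := hdec z (h2.trans hz)
          have h9 : C / ‖z‖ ≤ C / ρ := div_le_div_of_nonneg_left hC.le hρ hz
          have h10 : ‖dx χ z‖ ≤ A / ρ := by
            refine (ContinuousLinearMap.le_opNorm _ _).trans ?_
            rw [norm_one, mul_one]
            exact hχd z
          have h11 : ‖dy χ z‖ ≤ A / ρ := by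
            refine (ContinuousLinearMap.le_opNorm _ _).trans ?_
            rw [Complex.norm_I, mul_one]
            exact hχd z
          have h12 : ‖dx u z‖ ≤ C / ρ := by
            refine (ContinuousLinearMap.le_opNorm _ _).trans ?_
            rw [norm_one, mul_one]
            exact h8.trans h9
          have h13 : ‖dy u z‖ ≤ C / ρ := by
            refine (ContinuousLinearMap.le_opNorm _ _).trans ?_
            rw [Complex.norm_I, mul_one]
            exact h8.trans h9
          rw [norm_mul]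
          refine mul_le_mul (by rw [Real.norm_eq_abs]; exact h7.trans h9) ?_ (norm_nonneg _) (by positivity)
          refine (norm_add_le _ _).trans ?_
          rw [norm_mul, norm_mul]
          have h14 := mul_le_mul h10 h12 (norm_nonneg _) (by positivity)
          have h15 := mul_le_mul h11 h13 (norm_nonneg _) (by positivity)
          linarith
      have h7 := norm_setIntegral_le_of_norm_le_const (μ := volume) (s := Metric.closedBall (0 : ℂ) (2 * ρ))
        (by rw [Complex.volume_closedBall]; exact ENNReal.mul_lt_top (ENNReal.pow_lt_top ENNReal.ofReal_lt_top) (by simp)) h6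
      have h8 : volume.real (Metric.closedBall (0 : ℂ) (2 * ρ)) = (2 * ρ) ^ 2 * Real.pi := by
        unfold Measure.real
        rw [Complex.volume_closedBall, ENNReal.toReal_mul, ENNReal.toReal_pow, ENNReal.toReal_ofReal (by positivity)]
        rfl
      rw [h8, ← h5, Real.norm_eq_abs] at h7
      refine h7.trans (le_of_eq ?_)
      field_simp
      ring
    have herr' := (abs_le.1 herr).1
    rw [e1, e2] at hpos
    have e6 : ∫ z, χ z * (dx u z ^ 2 + dy u z ^ 2) = -(∫ z, u z * q z) - ∫ z, u z * (dx χ z * dx u z + dy χ z * dy u z) := by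
      linarith
    rw [e6] at hpos
    rw [hE]
    linarith
  by_contra hcon
  rw [not_le] at hcon
  set K : ℝ := 8 * Real.pi * C ^ 2 * A with hK
  have hK0 : 0 ≤ K := by
    have := Real.pi_pos
    positivity
  set ρ : ℝ := max (max 1 R) (max (max (R₁ + 1) (R₂ + 1)) ((K + 1) / (-E))) with hρd
  have g1 : 1 ≤ ρ := (le_max_left _ _).trans (le_max_left _ _)
  have g2 : R ≤ ρ := (le_max_right _ _).trans (le_max_left _ _)
  have g3 : R₁ + 1 ≤ ρ := ((le_max_left _ _).trans (le_max_left _ _)).trans (le_max_right _ _)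
  have g4 : R₂ + 1 ≤ ρ := ((le_max_right _ _).trans (le_max_left _ _)).trans (le_max_right _ _)
  have g5 : (K + 1) / (-E) ≤ ρ := (le_max_right _ _).trans (le_max_right _ _)
  have h := key ρ g1 g2 (by linarith) (by linarith)
  have hρ : 0 < ρ := by linarith
  rw [div_le_iff₀ (by linarith)] at g5
  have h5 : -E ≤ K / ρ := by linarith
  rw [le_div_iff₀ hρ] at h5
  linarith

end Pool.Agent.YUB
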