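import Pool.Agent.YUB.B2
import Pool.Agent.YUB.B4
import Pool.Agent.YUB.B5b

open MeasureTheory Set Filter Topology
open scoped ContDiff

namespace Pool.Agent.YUB

open Pool.Agent.YUD Pool.Agent.YUT

/-- [YUB-B5c] the self energy: `energy_form` with `u = pot q`, `g = q` (`pot_contDiff`, `pot_lap`, `pot_decay`,
`‖fderiv ℝ (pot q) z‖ ≤ ‖cau q z‖` by `pot_fderiv`), `s = (∫ q^2)/(∫ gsq q)` if `∫ gsq q ≠ 0`; if `∫ gsq q = 0` the
inequality for all `s` gives `∫ q^2 = 0`. -/
theorem self_energy {q : ℂ → ℝ} (hq : ContDiff ℝ 1 q) (hc : HasCompactSupport q)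
    (h0 : ∫ x, q x = 0) :
    (∫ z, q z ^ 2) ^ 2 ≤ (-∫ z, q z * pot q z) * ∫ z, gsq q z := by
  obtain ⟨C, R, hC, hR, hdec⟩ := pot_decay hq.continuous hc h0
  have hfd : ∀ z, ‖fderiv ℝ (pot q) z‖ ≤ ‖cau q z‖ := by
    intro z
    refine ContinuousLinearMap.opNorm_le_bound _ (norm_nonneg _) fun v => ?_
    rw [(pot_fderiv hq hc z).2 v, Real.norm_eq_abs]
    refine (Complex.abs_re_le_norm _).trans ?_
    rw [norm_mul, mul_comm]
  have key : ∀ s : ℝ, 0 ≤ -(∫ z, pot q z * q z) - 2 * s * (∫ z, q z * q z) + s ^ 2 * ∫ z, gsq q z := fun s =>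
    energy_form (pot_contDiff hq hc) hq.continuous hc (pot_lap hq hc) hC hR
      (fun z hz => ⟨(hdec z hz).1, (hfd z).trans (hdec z hz).2⟩) hq hc s
  have e1 : ∫ z, q z * pot q z = ∫ z, pot q z * q z := by
    refine integral_congr_ae (Filter.Eventually.of_forall fun z => ?_)
    exact mul_comm _ _
  have e2 : ∫ z, q z ^ 2 = ∫ z, q z * q z := by
    refine integral_congr_ae (Filter.Eventually.of_forall fun z => ?_)
    exact pow_two _
  rw [e1, e2]
  generalize (∫ z, pot q z * q z) = P at key ⊢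
  generalize (∫ z, q z * q z) = Q at key ⊢
  have hG0 : 0 ≤ ∫ z, gsq q z := integral_nonneg fun z => by unfold gsq; positivity
  generalize (∫ z, gsq q z) = G at key hG0 ⊢
  rcases eq_or_lt_of_le hG0 with h | h
  · have hQ : Q = 0 := by
      by_contra hQ
      have h1 := key ((-P + 1) / (2 * Q))
      rw [← h] at h1
      have h2 : 2 * ((-P + 1) / (2 * Q)) * Q = -P + 1 := by field_simp
      rw [h2] at h1
      linarith
    rw [hQ, ← h]
    simp
  · have h1 := key (Q / G)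
    have h2 : -P - 2 * (Q / G) * Q + (Q / G) ^ 2 * G = -P - Q ^ 2 / G := by
      field_simp
      ring
    rw [h2] at h1
    have h3 : Q ^ 2 / G ≤ -P := by linarith
    rwa [div_le_iff₀ h] at h3

end Pool.Agent.YUB
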