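import Pool.Agent.YUB.A3

open MeasureTheory Set Filter Topology
open scoped ContDiff

namespace Pool.Agent.YUB

open Pool.Agent.YUD Pool.Agent.YUT

/-- the kernel -/
noncomputable def B6_K (q : ℂ → ℝ) (a : ℂ) (p : ℂ × ℂ) : ℝ := q p.1 * q p.2 * ((p.1 - a) / (p.1 - p.2)).re

theorem B6_meas {q : ℂ → ℝ} (hq : Continuous q) (a : ℂ) : Measurable (B6_K q a) := by
  unfold B6_K
  have h1 : Measurable (fun p : ℂ × ℂ => q p.1) := hq.measurable.comp measurable_fst
  have h2 : Measurable (fun p : ℂ × ℂ => q p.2) := hq.measurable.comp measurable_snd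
  have h3 : Measurable (fun p : ℂ × ℂ => ((p.1 - a) / (p.1 - p.2)).re) :=
    Complex.measurable_re.comp ((measurable_fst.sub_const a).div (measurable_fst.sub measurable_snd))
  exact (h1.mul h2).mul h3

theorem B6_integrable {q : ℂ → ℝ} (hq : Continuous q) (hc : HasCompactSupport q) (a : ℂ) :
    Integrable (B6_K q a) (volume.prod volume) := by
  obtain ⟨R, hR⟩ := hc.isCompact.isBounded.subset_closedBall 0
  have hRpos : 0 < max R 1 := lt_of_lt_of_le one_pos (le_max_right _ _)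
  set R' := max R 1 with hR'
  have hsupp : ∀ x, q x ≠ 0 → ‖x‖ ≤ R' := by
    intro x hx
    have h1 : x ∈ tsupport q := subset_tsupport q hx
    have h2 := hR h1
    rw [mem_closedBall_zero_iff] at h2
    exact h2.trans (le_max_left _ _)
  -- the truncated kernel
  set k : ℂ → ℝ := (Metric.closedBall (0 : ℂ) (2 * R')).indicator (fun ζ => ‖ζ‖⁻¹) with hk
  have hkint : Integrable k := by
    have h1 := (ker_ball (R := 2 * R') (by positivity) 0 0).1
    rw [hk, integrable_indicator_iff Metric.isClosed_closedBall.measurableSet]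
    simpa using h1
  have hqint : Integrable q := hq.integrable_of_hasCompactSupport hc
  have h1 : Integrable (fun p : ℂ × ℂ => q p.2 * k (p.1 - p.2)) (volume.prod volume) :=
    hqint.convolution_integrand (ContinuousLinearMap.mul ℝ ℝ) hkint
  obtain ⟨C, hC⟩ := (hc.norm.mul_right (f' := fun z => ‖z - a‖)).exists_bound_of_continuous
    (hq.norm.mul (continuous_norm.comp (continuous_id.sub continuous_const)))
  refine (h1.norm.const_mul C).mono' (B6_meas hq a).aestronglyMeasurable (Eventually.of_forall ?_)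
  rintro ⟨z, ζ⟩
  have hC0 : 0 ≤ C := (norm_nonneg _).trans (hC 0)
  show ‖q z * q ζ * ((z - a) / (z - ζ)).re‖ ≤ C * ‖q ζ * k (z - ζ)‖
  by_cases hz : q z = 0
  · rw [hz, zero_mul, zero_mul, norm_zero]
    positivity
  by_cases hζ : q ζ = 0
  · rw [hζ, mul_zero, zero_mul, norm_zero]
    positivity
  have h2 : z - ζ ∈ Metric.closedBall (0 : ℂ) (2 * R') := by
    rw [mem_closedBall_zero_iff]
    refine (norm_sub_le _ _).trans ?_
    linarith [hsupp z hz, hsupp ζ hζ]
  have h3 : k (z - ζ) = ‖z - ζ‖⁻¹ := indicator_of_mem h2 _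
  have h4 := hC z
  have h5 : ‖(fun x => ‖q x‖) z * (fun z => ‖z - a‖) z‖ = ‖q z‖ * ‖z - a‖ := by
    show ‖‖q z‖ * ‖z - a‖‖ = _
    rw [Real.norm_of_nonneg (by positivity)]
  have h6 : ‖q z‖ * ‖z - a‖ ≤ C := by
    rw [← h5]
    exact h4
  rw [h3, norm_mul, norm_mul, norm_mul, norm_inv, norm_norm]
  have h7 : ‖((z - a) / (z - ζ)).re‖ ≤ ‖z - a‖ * ‖z - ζ‖⁻¹ := by
    rw [Real.norm_eq_abs]
    refine (Complex.abs_re_le_norm _).trans ?_
    rw [norm_div, div_eq_mul_inv]
  calc ‖q z‖ * ‖q ζ‖ * ‖((z - a) / (z - ζ)).re‖ ≤ ‖q z‖ * ‖q ζ‖ * (‖z - a‖ * ‖z - ζ‖⁻¹) :=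
        mul_le_mul_of_nonneg_left h7 (by positivity)
    _ = (‖q z‖ * ‖z - a‖) * (‖q ζ‖ * ‖z - ζ‖⁻¹) := by ring
    _ ≤ C * (‖q ζ‖ * ‖z - ζ‖⁻¹) := mul_le_mul_of_nonneg_right h6 (by positivity)

theorem B6_inner {q : ℂ → ℝ} (hq : Continuous q) (hc : HasCompactSupport q) (a z : ℂ) :
    q z * ((z - a) * cau q z).re = (2 * Real.pi)⁻¹ * ∫ ζ, B6_K q a (z, ζ) := by
  have hint : Integrable (fun ζ => (z - a) * ((q ζ : ℂ) / (z - ζ))) :=
    (int_ker (Complex.continuous_ofReal.comp hq) (hc.comp_left (g := fun x : ℝ => (x : ℂ)) Complex.ofReal_zero) z).const_mul _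
  have h1 : ∫ ζ, B6_K q a (z, ζ) = q z * ∫ ζ, ((z - a) * ((q ζ : ℂ) / (z - ζ))).re := by
    rw [← integral_const_mul]
    congr 1
    funext ζ
    unfold B6_K
    have e : (z - a) * ((q ζ : ℂ) / (z - ζ)) = (q ζ : ℂ) * ((z - a) / (z - ζ)) := by ring
    rw [e, Complex.re_ofReal_mul]
    ring
  have h2 : ∫ ζ, ((z - a) * ((q ζ : ℂ) / (z - ζ))).re = (∫ ζ, (z - a) * ((q ζ : ℂ) / (z - ζ))).re :=
    Complex.reCLM.integral_comp_comm hint
  rw [h1, h2, integral_const_mul]
  unfold cau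
  have e : (z - a) * (((2 * Real.pi)⁻¹ : ℝ) * ∫ ζ, (q ζ : ℂ) / (z - ζ)) =
      (((2 * Real.pi)⁻¹ : ℝ) : ℂ) * ((z - a) * ∫ ζ, (q ζ : ℂ) / (z - ζ)) := by ring
  rw [e, Complex.re_ofReal_mul]
  ring

/-- [YUB-B6] the virial identity in the plane: `2π` times the left side is
`∬ q(z) q(ζ) Re((z - a)/(z - ζ)) dζ dz`, an absolutely convergent double integral
(`|q(z)| ∫ |q(ζ)|/‖z - ζ‖ dζ` is bounded with compact support, `ker_ball`). Exchange the names of `z` and `ζ`
(Fubini) and add: `Re((z - a)/(z - ζ)) + Re((ζ - a)/(ζ - z)) = 1` for `z ≠ ζ`, so twice the double integral is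
`(∫ q)^2 = 0`. -/
theorem cau_virial {q : ℂ → ℝ} (hq : Continuous q) (hc : HasCompactSupport q)
    (h0 : ∫ x, q x = 0) (a : ℂ) :
    ∫ z, q z * ((z - a) * cau q z).re = 0 := by
  have hK := B6_integrable hq hc a
  have hKs : Integrable (fun p : ℂ × ℂ => B6_K q a p.swap) (volume.prod volume) := hK.swap
  have h1 : ∫ z, q z * ((z - a) * cau q z).re = (2 * Real.pi)⁻¹ * ∫ p, B6_K q a p ∂(volume.prod volume) := by
    rw [integral_prod _ hK, ← integral_const_mul]
    congr 1
    funext z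
    exact B6_inner hq hc a z
  have h2 : ∫ p, B6_K q a p ∂(volume.prod volume) + ∫ p, B6_K q a p ∂(volume.prod volume) = 0 := by
    have h3 : ∫ p, B6_K q a (Prod.swap p) ∂((volume : Measure ℂ).prod (volume : Measure ℂ)) =
        ∫ p, B6_K q a p ∂(volume.prod volume) := integral_prod_swap _
    conv_lhs =>
      arg 2
      rw [← h3]
    have hadd : Integrable (fun p : ℂ × ℂ => B6_K q a p + B6_K q a p.swap) (volume.prod volume) := hK.add hKs
    rw [← integral_add hK hKs, integral_prod _ hadd]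
    have h4 : ∀ z : ℂ, ∫ ζ, (B6_K q a (z, ζ) + B6_K q a (Prod.swap (z, ζ))) = 0 := by
      intro z
      have h5 : ∫ ζ, (B6_K q a (z, ζ) + B6_K q a (Prod.swap (z, ζ))) = ∫ ζ, q z * q ζ := by
        apply integral_congr_ae
        have h6 : ∀ᵐ ζ : ℂ, ζ ≠ z := by
          rw [ae_iff]
          simp
        filter_upwards [h6] with ζ hζ
        have h7 : z - ζ ≠ 0 := sub_ne_zero.mpr (Ne.symm hζ)
        have h8 : ζ - z ≠ 0 := sub_ne_zero.mpr hζ
        have h9 : (z - a) / (z - ζ) + (ζ - a) / (ζ - z) = 1 := by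
          rw [show ζ - z = -(z - ζ) by ring, div_neg, ← sub_eq_add_neg, ← sub_div]
          rw [show z - a - (ζ - a) = z - ζ by ring, div_self h7]
        have h10 := congrArg Complex.re h9
        rw [Complex.add_re, Complex.one_re] at h10
        unfold B6_K
        simp only [Prod.swap_prod_mk]
        linear_combination (q z * q ζ) * h10
      rw [h5, integral_const_mul, h0, mul_zero]
    simp only [h4, integral_zero]
  rw [h1]
  have h3 : ∫ p, B6_K q a p ∂(volume.prod volume) = 0 := by linarith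
  rw [h3, mul_zero]

end Pool.Agent.YUB
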