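import Pool.Agent.YUB.B2
import Pool.Agent.YUB.B6

open MeasureTheory Set Filter Topology
open scoped ContDiff

namespace Pool.Agent.YUB

open Pool.Agent.YUD Pool.Agent.YUT

/-- [YUB-B7] `QQ (pot q) c y = 1/2 Re((y - c)(cau q y + cau q c)) - (pot q y - pot q c)` by `pot_fderiv`; integrate
against `q` (everything is continuous, `q` has compact support), using `cau_virial` with `a = c` and `∫ q = 0`. -/
theorem self_part {q : ℂ → ℝ} (hq : ContDiff ℝ 1 q) (hc : HasCompactSupport q)
    (h0 : ∫ x, q x = 0) (c : ℂ) :
    ∫ y, q y * QQ (pot q) c y =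
      1 / 2 * (cau q c * ∫ y, (q y : ℂ) * (y - c)).re - ∫ y, q y * pot q y := by
  have hqc : Continuous q := hq.continuous
  have hcau : Continuous (cau q) := (cau_contDiff hq hc).continuous
  have hpot : Continuous (pot q) := (pot_contDiff hq hc).continuous
  have hint : ∀ f : ℂ → ℝ, Continuous f → Integrable (fun y => q y * f y) := fun f hf =>
    (hqc.mul hf).integrable_of_hasCompactSupport hc.mul_right
  have i1 := hint (fun y => ((y - c) * cau q y).re) (Complex.continuous_re.comp ((continuous_id.sub continuous_const).mul hcau))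
  have i2 := hint (fun y => (cau q c * (y - c)).re) (Complex.continuous_re.comp (continuous_const.mul (continuous_id.sub continuous_const)))
  have i3 := hint (pot q) hpot
  have i4 := hint (fun _ => pot q c) continuous_const
  have e : ∀ y, q y * QQ (pot q) c y = (1 / 2 * (q y * ((y - c) * cau q y).re) + 1 / 2 * (q y * (cau q c * (y - c)).re)) -
      (q y * pot q y - q y * pot q c) := by
    intro y
    unfold QQ
    rw [(pot_fderiv hq hc y).2, (pot_fderiv hq hc c).2, mul_comm (y - c) (cau q c)]
    ring
  have j1 : Integrable (fun y => 1 / 2 * (q y * ((y - c) * cau q y).re)) := i1.const_mul _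
  have j2 : Integrable (fun y => 1 / 2 * (q y * (cau q c * (y - c)).re)) := i2.const_mul _
  have j12 : Integrable (fun y => 1 / 2 * (q y * ((y - c) * cau q y).re) + 1 / 2 * (q y * (cau q c * (y - c)).re)) := j1.add j2
  have j34 : Integrable (fun y => q y * pot q y - q y * pot q c) := i3.sub i4
  simp only [e]
  rw [integral_sub j12 j34, integral_add j1 j2, integral_const_mul, integral_const_mul, integral_sub i3 i4,
    cau_virial hqc hc h0 c, integral_mul_const, h0]
  have h2 : ∫ y, q y * (cau q c * (y - c)).re = (cau q c * ∫ y, (q y : ℂ) * (y - c)).re := by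
    have hi : Integrable (fun y => cau q c * ((q y : ℂ) * (y - c))) := by
      refine Integrable.const_mul ?_ _
      exact ((Complex.continuous_ofReal.comp hqc).mul (continuous_id.sub continuous_const)).integrable_of_hasCompactSupport
        ((hc.comp_left (g := fun x : ℝ => (x : ℂ)) Complex.ofReal_zero).mul_right)
    rw [← integral_const_mul]
    have h3 : ∫ y, (cau q c * ((q y : ℂ) * (y - c))).re = (∫ y, cau q c * ((q y : ℂ) * (y - c))).re :=
      Complex.reCLM.integral_comp_comm hi
    rw [← h3]
    congr 1
    funext y
    have e2 : cau q c * ((q y : ℂ) * (y - c)) = (q y : ℂ) * (cau q c * (y - c)) := by ring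
    rw [e2, Complex.re_ofReal_mul]
  rw [h2]
  ring

end Pool.Agent.YUB
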