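import Pool.Agent.YUB.Defs
import Pool.Agent.YUT.CBase

/-!
# [YUB] Base: auxiliary notions
-/

open MeasureTheory Set Filter Topology
open scoped ContDiff

namespace Pool.Agent.YUB

open Pool.Agent.YUD Pool.Agent.YUT

/-- `2 ∂f/∂z̄` -/
noncomputable def db (f : ℂ → ℂ) (z : ℂ) : ℂ :=
  fderiv ℝ f z 1 + Complex.I * fderiv ℝ f z Complex.I

/-- the Cauchy transform of `q` -/
noncomputable def cau (q : ℂ → ℝ) (z : ℂ) : ℂ :=
  ((2 * Real.pi)⁻¹ : ℝ) * ∫ ζ, (q ζ : ℂ) / (z - ζ)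

/-- the logarithmic potential of `q` -/
noncomputable def pot (q : ℂ → ℝ) (z : ℂ) : ℝ :=
  (2 * Real.pi)⁻¹ * ∫ ζ, q ζ * Real.log ‖z - ζ‖

/-- the integrand of the relative action: the relative motion with respect to the centre `c` has
the Hamiltonian `f(c + v) - f(c) - v ⬝ ∇f(c)` -/
noncomputable def QQ (f : ℂ → ℝ) (c y : ℂ) : ℝ :=
  (fderiv ℝ f y (y - c) + fderiv ℝ f c (y - c)) / 2 - (f y - f c)

/-- the function `h` transported by the bijection `Φ` of `M`, extended by zero -/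
noncomputable def tb (M : Set ℂ) (Φ : ℂ → ℂ) (h : ℂ → ℝ) (y : ℂ) : ℝ :=
  open Classical in if y ∈ M then h (Function.invFunOn Φ M y) else 0

/-- the blob `κ β((x - p)/r)` -/
noncomputable def blob (β : ℂ → ℝ) (κ : ℝ) (p : ℂ) (r : ℝ) (x : ℂ) : ℝ := κ * β (r⁻¹ • (x - p))

/-- profiles of blobs: smooth, supported in the unit disk, of mean zero -/
structure Profile (β : ℂ → ℝ) (B : ℝ) : Prop where
  one_le : 1 ≤ B
  smooth : ContDiff ℝ ∞ β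
  zero : β 0 = 1
  supp : ∀ x, 1 ≤ ‖x‖ → β x = 0
  abs_le : ∀ x, |β x| ≤ 1
  fderiv_le : ∀ x, ‖fderiv ℝ β x‖ ≤ B
  lip : ∀ x y, |β x - β y| ≤ B * ‖x - y‖
  mean : ∫ x, β x = 0

/-- `w` has a blob of size `σ r^α` at `p`, at scale `r < η`, on top of a function `S` which is much
smoother at this scale and a much smaller function `T` -/
def BlobAt (U : Set ℂ) (β : ℂ → ℝ) (α α' σ η : ℝ) (w : ℂ → ℝ) (p : ℂ) (r : ℝ) : Prop :=
  0 < r ∧ r < η ∧ Metric.closedBall p r ⊆ U ∧ ∃ (S T : ℂ → ℝ) (H : ℝ), 0 ≤ H ∧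
    H * r ^ (α' - α) ≤ η ∧ (∀ x ∈ U, |T x| ≤ η * r ^ α) ∧
    (∀ x ∈ U, ∀ y ∈ U, |S x - S y| ≤ η * ‖x - y‖ ^ α + H * ‖x - y‖ ^ α') ∧
    ∀ x ∈ U, w x = S x + blob β (σ * r ^ α) p r x + T x

/-- blobs at arbitrarily small scales near every point of `U` -/
def Blobs (U : Set ℂ) (β : ℂ → ℝ) (α α' σ : ℝ) (w : ℂ → ℝ) : Prop :=
  ∀ x₀ ∈ U, ∀ η > 0, ∃ (p : ℂ) (r : ℝ), ‖p - x₀‖ < η ∧ BlobAt U β α α' σ η w p r

end Pool.Agent.YUB
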