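import Pool.Agent.YUB.A2
import Pool.Agent.YUB.A3

open MeasureTheory Set Filter Topology
open scoped ContDiff

namespace Pool.Agent.YUB

open Pool.Agent.YUD Pool.Agent.YUT

theorem C1a_alg {g u v : ℂ} (hu : u ≠ 0) (huv : u + v ≠ 0) :
    g / (u + v) - g / u + v * (g / u ^ 2) = g * v ^ 2 / (u ^ 2 * (u + v)) := by
  field_simp
  ring

theorem C1a_norm {g u v : ℂ} {R : ℝ} (hR : 0 < R) (hu : 2 * R ≤ ‖u‖) (hv : ‖v‖ ≤ R) :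
    u ≠ 0 ∧ u + v ≠ 0 ∧
      ‖g / (u + v) - g / u + v * (g / u ^ 2)‖ ≤ 2 * R ^ 2 * (‖g‖ * (‖u‖ ^ 3)⁻¹) := by
  have hu0 : 0 < ‖u‖ := by linarith
  have h1 : ‖u‖ / 2 ≤ ‖u + v‖ := by
    have h2 : ‖u‖ ≤ ‖u + v‖ + ‖v‖ := by
      have h3 : u = (u + v) - v := by ring
      calc ‖u‖ = ‖(u + v) - v‖ := by rw [← h3]
        _ ≤ ‖u + v‖ + ‖v‖ := norm_sub_le _ _
    linarith
  have huv0 : 0 < ‖u + v‖ := by linarith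
  have hu' : u ≠ 0 := norm_pos_iff.1 hu0
  have huv' : u + v ≠ 0 := norm_pos_iff.1 huv0
  refine ⟨hu', huv', ?_⟩
  rw [C1a_alg hu' huv', norm_div, norm_mul, norm_mul, norm_pow, norm_pow]
  have h4 : ‖v‖ ^ 2 ≤ R ^ 2 := pow_le_pow_left₀ (norm_nonneg _) hv 2
  have h5 : ‖u‖ ^ 2 * (‖u‖ / 2) ≤ ‖u‖ ^ 2 * ‖u + v‖ :=
    mul_le_mul_of_nonneg_left h1 (by positivity)
  calc ‖g‖ * ‖v‖ ^ 2 / (‖u‖ ^ 2 * ‖u + v‖)
      ≤ ‖g‖ * R ^ 2 / (‖u‖ ^ 2 * (‖u‖ / 2)) := by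
        apply div_le_div₀ (by positivity) (mul_le_mul_of_nonneg_left h4 (norm_nonneg _))
          (by positivity) h5
    _ = 2 * R ^ 2 * (‖g‖ * (‖u‖ ^ 3)⁻¹) := by
        field_simp

theorem C1a_rpow {x a : ℝ} (hx : 0 < x) : x ^ (a - 3) = x ^ a * (x ^ 3)⁻¹ := by
  rw [Real.rpow_sub hx, div_eq_mul_inv]
  congr 2
  exact_mod_cast Real.rpow_natCast x 3

/-- pointwise bound on the far region -/
theorem C1a_far {G : ℂ → ℂ} {c ζ : ℂ} {α α' R ρ A B τ : ℝ} (hR : 0 < R) (hA : 0 ≤ A)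
    (hB : 0 ≤ B) (hτ : 0 ≤ τ) (hρ : 0 < ρ)
    (hG : ∀ ζ, ‖ζ - c‖ < ρ → ‖G ζ‖ ≤ A * ‖ζ - c‖ ^ α + B * ‖ζ - c‖ ^ α' + τ)
    (hζ : 2 * R ≤ ‖ζ - c‖) :
    ‖G ζ‖ * (‖ζ - c‖ ^ 3)⁻¹ ≤ A * ‖ζ - c‖ ^ (α - 3) + B * ‖ζ - c‖ ^ (α' - 3) +
      τ * ‖ζ - c‖ ^ ((0 : ℝ) - 3) +
        (ρ ^ 3)⁻¹ * ({ζ : ℂ | ρ ≤ ‖ζ - c‖}.indicator (fun ζ => ‖G ζ‖) ζ) := by
  have hx : 0 < ‖ζ - c‖ := by linarith
  have e1 := C1a_rpow (a := α) hx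
  have e2 := C1a_rpow (a := α') hx
  have e3 := C1a_rpow (a := 0) hx
  rw [Real.rpow_zero, one_mul] at e3
  rcases lt_or_ge ‖ζ - c‖ ρ with h | h
  · have h1 : ζ ∉ {ζ : ℂ | ρ ≤ ‖ζ - c‖} := by
      exact not_le.2 h
    rw [indicator_of_notMem h1, mul_zero, add_zero, e1, e2, e3]
    have h2 := mul_le_mul_of_nonneg_right (hG ζ h) (inv_nonneg.2 (pow_nonneg hx.le 3))
    calc ‖G ζ‖ * (‖ζ - c‖ ^ 3)⁻¹
        ≤ (A * ‖ζ - c‖ ^ α + B * ‖ζ - c‖ ^ α' + τ) * (‖ζ - c‖ ^ 3)⁻¹ := h2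
      _ = _ := by ring
  · have h1 : ζ ∈ {ζ : ℂ | ρ ≤ ‖ζ - c‖} := h
    rw [indicator_of_mem h1]
    have h2 : (‖ζ - c‖ ^ 3)⁻¹ ≤ (ρ ^ 3)⁻¹ :=
      inv_anti₀ (by positivity) (pow_le_pow_left₀ hρ.le h 3)
    have h3 : ‖G ζ‖ * (‖ζ - c‖ ^ 3)⁻¹ ≤ (ρ ^ 3)⁻¹ * ‖G ζ‖ := by
      rw [mul_comm]
      exact mul_le_mul_of_nonneg_right h2 (norm_nonneg _)
    have h4 : 0 ≤ A * ‖ζ - c‖ ^ (α - 3) := mul_nonneg hA (Real.rpow_nonneg hx.le _)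
    have h5 : 0 ≤ B * ‖ζ - c‖ ^ (α' - 3) := mul_nonneg hB (Real.rpow_nonneg hx.le _)
    have h6 : 0 ≤ τ * ‖ζ - c‖ ^ ((0 : ℝ) - 3) := mul_nonneg hτ (Real.rpow_nonneg hx.le _)
    exact h3.trans (le_add_of_nonneg_left (add_nonneg (add_nonneg h4 h5) h6))

/-- the near constants -/
theorem C1a_c1 {a R : ℝ} (ha1 : a < 1) (hR : 0 < R) :
    R * (2 * R) ^ a ≤ 2 * R ^ (1 + a) := by
  rw [Real.mul_rpow two_pos.le hR.le, Real.rpow_add hR, Real.rpow_one]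
  have h1 : (2 : ℝ) ^ a ≤ 2 := by
    calc (2 : ℝ) ^ a ≤ 2 ^ (1 : ℝ) := Real.rpow_le_rpow_of_exponent_le one_le_two ha1.le
      _ = 2 := Real.rpow_one 2
  have h2 : 0 ≤ R * R ^ a := mul_nonneg hR.le (Real.rpow_nonneg hR.le _)
  calc R * (2 ^ a * R ^ a) = 2 ^ a * (R * R ^ a) := by ring
    _ ≤ 2 * (R * R ^ a) := mul_le_mul_of_nonneg_right h1 h2

/-- the middle constants -/
theorem C1a_c2 {a R : ℝ} (ha1 : a < 1) (hR : 0 < R) :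
    R ^ 2 * (2 * R) ^ (a - 1) ≤ R ^ (1 + a) := by
  rw [Real.mul_rpow two_pos.le hR.le]
  have h1 : (2 : ℝ) ^ (a - 1) ≤ 1 :=
    Real.rpow_le_one_of_one_le_of_nonpos one_le_two (by linarith)
  have h2 : R ^ 2 * R ^ (a - 1) = R ^ (1 + a) := by
    have h3 : R ^ 2 = R ^ (2 : ℝ) := by exact_mod_cast (Real.rpow_natCast R 2).symm
    rw [h3, ← Real.rpow_add hR]
    congr 1
    ring
  have h4 : 0 ≤ R ^ (1 + a) := Real.rpow_nonneg hR.le _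
  calc R ^ 2 * (2 ^ (a - 1) * R ^ (a - 1)) = 2 ^ (a - 1) * (R ^ 2 * R ^ (a - 1)) := by ring
    _ = 2 ^ (a - 1) * R ^ (1 + a) := by rw [h2]
    _ ≤ 1 * R ^ (1 + a) := mul_le_mul_of_nonneg_right h1 h4
    _ = R ^ (1 + a) := one_mul _

/-- the near region -/
theorem C1a_near {G : ℂ → ℂ} {c v : ℂ} {α α' R ρ A B τ : ℝ} (hα : 0 < α) (hαα : α < α')
    (hα1 : α' < 1) (hR : 0 < R) (hρ : 2 * R ≤ ρ) (hA : 0 ≤ A) (hB : 0 ≤ B) (hτ : 0 ≤ τ)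
    (hG : ∀ ζ, ‖ζ - c‖ < ρ → ‖G ζ‖ ≤ A * ‖ζ - c‖ ^ α + B * ‖ζ - c‖ ^ α' + τ) :
    ‖∫ ζ in Metric.ball c (2 * R), (G ζ / (c + v - ζ) - G ζ / (c - ζ))‖ ≤
      24 * Real.pi * (A * R ^ (1 + α) + B * R ^ (1 + α') + τ * R) := by
  have h2R : 0 < 2 * R := by linarith
  obtain ⟨i1, b1⟩ := ker_ball h2R c (c + v)
  obtain ⟨i2, b2⟩ := ker_ball h2R c c
  obtain ⟨M, hM⟩ : ∃ M, M = A * (2 * R) ^ α + B * (2 * R) ^ α' + τ := ⟨_, rfl⟩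
  have hM0 : 0 ≤ M := by
    rw [hM]
    have := Real.rpow_nonneg h2R.le α
    have := Real.rpow_nonneg h2R.le α'
    positivity
  have hint : IntegrableOn (fun ζ : ℂ => M * (‖c + v - ζ‖⁻¹ + ‖c - ζ‖⁻¹))
      (Metric.closedBall c (2 * R)) := (i1.add i2).const_mul M
  have hsub : Metric.ball c (2 * R) ⊆ Metric.closedBall c (2 * R) := Metric.ball_subset_closedBall
  have h1 : ‖∫ ζ in Metric.ball c (2 * R), (G ζ / (c + v - ζ) - G ζ / (c - ζ))‖ ≤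
      ∫ ζ in Metric.ball c (2 * R), M * (‖c + v - ζ‖⁻¹ + ‖c - ζ‖⁻¹) := by
    apply norm_integral_le_of_norm_le (hint.mono_set hsub)
    refine (ae_restrict_iff' measurableSet_ball).2 (ae_of_all _ fun ζ hζ => ?_)
    rw [Metric.mem_ball, dist_eq_norm] at hζ
    have h2 : ‖G ζ‖ ≤ M := by
      refine (hG ζ (by linarith)).trans ?_
      rw [hM]
      have h3 := Real.rpow_le_rpow (norm_nonneg (ζ - c)) hζ.le hα.le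
      have h4 := Real.rpow_le_rpow (norm_nonneg (ζ - c)) hζ.le (hα.trans hαα).le
      have h5 := mul_le_mul_of_nonneg_left h3 hA
      have h6 := mul_le_mul_of_nonneg_left h4 hB
      linarith
    calc ‖G ζ / (c + v - ζ) - G ζ / (c - ζ)‖
        ≤ ‖G ζ / (c + v - ζ)‖ + ‖G ζ / (c - ζ)‖ := norm_sub_le _ _
      _ = ‖G ζ‖ * (‖c + v - ζ‖⁻¹ + ‖c - ζ‖⁻¹) := by
          rw [norm_div, norm_div, div_eq_mul_inv, div_eq_mul_inv, mul_add]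
      _ ≤ M * (‖c + v - ζ‖⁻¹ + ‖c - ζ‖⁻¹) :=
          mul_le_mul_of_nonneg_right h2 (by positivity)
  have h2 : ∫ ζ in Metric.ball c (2 * R), M * (‖c + v - ζ‖⁻¹ + ‖c - ζ‖⁻¹) ≤
      ∫ ζ in Metric.closedBall c (2 * R), M * (‖c + v - ζ‖⁻¹ + ‖c - ζ‖⁻¹) := by
    apply setIntegral_mono_set hint
    · exact ae_of_all _ fun ζ => by
        change 0 ≤ M * (‖c + v - ζ‖⁻¹ + ‖c - ζ‖⁻¹)
        positivity
    · exact LE.le.eventuallyLE hsub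
  have h3 : ∫ ζ in Metric.closedBall c (2 * R), M * (‖c + v - ζ‖⁻¹ + ‖c - ζ‖⁻¹) =
      M * ((∫ ζ in Metric.closedBall c (2 * R), ‖c + v - ζ‖⁻¹) +
        ∫ ζ in Metric.closedBall c (2 * R), ‖c - ζ‖⁻¹) := by
    rw [integral_const_mul, integral_add i1 i2]
  have h4 : M * ((∫ ζ in Metric.closedBall c (2 * R), ‖c + v - ζ‖⁻¹) +
        ∫ ζ in Metric.closedBall c (2 * R), ‖c - ζ‖⁻¹) ≤ M * (12 * Real.pi * R) :=
    mul_le_mul_of_nonneg_left (by linarith) hM0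
  have h5 : M * (12 * Real.pi * R) ≤
      24 * Real.pi * (A * R ^ (1 + α) + B * R ^ (1 + α') + τ * R) := by
    have e1 := mul_le_mul_of_nonneg_left (C1a_c1 (hαα.trans hα1) hR) hA
    have e2 := mul_le_mul_of_nonneg_left (C1a_c1 hα1 hR) hB
    have e3 : 0 ≤ τ * R := mul_nonneg hτ hR.le
    have e4 : M * R ≤ 2 * (A * R ^ (1 + α) + B * R ^ (1 + α') + τ * R) := by
      rw [hM]
      nlinarith
    have e5 := mul_le_mul_of_nonneg_left e4 (by positivity : 0 ≤ 12 * Real.pi)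
    calc M * (12 * Real.pi * R) = 12 * Real.pi * (M * R) := by ring
      _ ≤ 12 * Real.pi * (2 * (A * R ^ (1 + α) + B * R ^ (1 + α') + τ * R)) := e5
      _ = _ := by ring
  rw [h3] at h2
  exact h1.trans (h2.trans (h4.trans h5))

theorem C1a_measD (c : ℂ) (R : ℝ) : MeasurableSet {ζ : ℂ | R ≤ ‖ζ - c‖} :=
  (isClosed_le continuous_const (by fun_prop)).measurableSet

/-- the far region -/
theorem C1a_farint {G : ℂ → ℂ} {c v : ℂ} {α α' R ρ A B τ N : ℝ} (hα : 0 < α) (hαα : α < α')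
    (hα1 : α' < 1) (hR : 0 < R) (hρ : 2 * R ≤ ρ) (hA : 0 ≤ A) (hB : 0 ≤ B) (hτ : 0 ≤ τ)
    (hGc : Continuous G) (hGs : HasCompactSupport G)
    (hG : ∀ ζ, ‖ζ - c‖ < ρ → ‖G ζ‖ ≤ A * ‖ζ - c‖ ^ α + B * ‖ζ - c‖ ^ α' + τ)
    (hN : (∫ ζ in {ζ : ℂ | ρ ≤ ‖ζ - c‖}, ‖G ζ‖) ≤ N) (hv : ‖v‖ ≤ R) :
    ‖∫ ζ in {ζ : ℂ | 2 * R ≤ ‖ζ - c‖},
        (G ζ / (c + v - ζ) - G ζ / (c - ζ) + v * (G ζ / (c - ζ) ^ 2))‖ ≤
      4 * Real.pi * (1 / (1 - α')) * (A * R ^ (1 + α) + B * R ^ (1 + α') + τ * R) +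
        2 * (N / ρ ^ 3 * R ^ 2) := by
  have h2R : 0 < 2 * R := by linarith
  have hρ0 : 0 < ρ := by linarith
  obtain ⟨i1, b1⟩ := ker_far h2R (hαα.trans hα1) c
  obtain ⟨i2, b2⟩ := ker_far h2R hα1 c
  obtain ⟨i3, b3⟩ := ker_far h2R (zero_lt_one (α := ℝ)) c
  have hGi : Integrable (fun ζ => ‖G ζ‖) := (hGc.integrable_of_hasCompactSupport hGs).norm
  have mE := C1a_measD c ρ
  have mD := C1a_measD c (2 * R)
  have i4 : IntegrableOn ({ζ : ℂ | ρ ≤ ‖ζ - c‖}.indicator (fun ζ => ‖G ζ‖))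
      {ζ : ℂ | 2 * R ≤ ‖ζ - c‖} := (hGi.indicator mE).integrableOn
  have b4 : ∫ ζ in {ζ : ℂ | 2 * R ≤ ‖ζ - c‖},
      {ζ : ℂ | ρ ≤ ‖ζ - c‖}.indicator (fun ζ => ‖G ζ‖) ζ ≤ N := by
    rw [setIntegral_indicator mE]
    have h1 : {ζ : ℂ | 2 * R ≤ ‖ζ - c‖} ∩ {ζ : ℂ | ρ ≤ ‖ζ - c‖} = {ζ : ℂ | ρ ≤ ‖ζ - c‖} := by
      apply inter_eq_right.2
      intro ζ hζ
      exact hρ.trans hζ
    rw [h1]
    exact hN
  have j12 : IntegrableOn (fun ζ : ℂ => A * ‖ζ - c‖ ^ (α - 3) + B * ‖ζ - c‖ ^ (α' - 3))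
      {ζ : ℂ | 2 * R ≤ ‖ζ - c‖} := (i1.const_mul A).add (i2.const_mul B)
  have j123 : IntegrableOn (fun ζ : ℂ => A * ‖ζ - c‖ ^ (α - 3) + B * ‖ζ - c‖ ^ (α' - 3) +
      τ * ‖ζ - c‖ ^ ((0 : ℝ) - 3)) {ζ : ℂ | 2 * R ≤ ‖ζ - c‖} := j12.add (i3.const_mul τ)
  have j1234 : IntegrableOn (fun ζ : ℂ => A * ‖ζ - c‖ ^ (α - 3) + B * ‖ζ - c‖ ^ (α' - 3) +
      τ * ‖ζ - c‖ ^ ((0 : ℝ) - 3) +
        (ρ ^ 3)⁻¹ * ({ζ : ℂ | ρ ≤ ‖ζ - c‖}.indicator (fun ζ => ‖G ζ‖) ζ))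
      {ζ : ℂ | 2 * R ≤ ‖ζ - c‖} := j123.add (i4.const_mul _)
  have hint := j1234.const_mul (2 * R ^ 2)
  have h1 : ‖∫ ζ in {ζ : ℂ | 2 * R ≤ ‖ζ - c‖},
        (G ζ / (c + v - ζ) - G ζ / (c - ζ) + v * (G ζ / (c - ζ) ^ 2))‖ ≤
      ∫ ζ in {ζ : ℂ | 2 * R ≤ ‖ζ - c‖}, 2 * R ^ 2 * (A * ‖ζ - c‖ ^ (α - 3) +
        B * ‖ζ - c‖ ^ (α' - 3) + τ * ‖ζ - c‖ ^ ((0 : ℝ) - 3) +
          (ρ ^ 3)⁻¹ * ({ζ : ℂ | ρ ≤ ‖ζ - c‖}.indicator (fun ζ => ‖G ζ‖) ζ)) := by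
    apply norm_integral_le_of_norm_le hint
    refine (ae_restrict_iff' mD).2 (ae_of_all _ fun ζ hζ => ?_)
    have hζ' : 2 * R ≤ ‖c - ζ‖ := by rw [norm_sub_rev]; exact hζ
    have h3 := (C1a_norm (g := G ζ) hR hζ' hv).2.2
    have h4 : c - ζ + v = c + v - ζ := by ring
    rw [h4, norm_sub_rev c ζ] at h3
    refine h3.trans ?_
    exact mul_le_mul_of_nonneg_left (C1a_far hR hA hB hτ hρ0 hG hζ) (by positivity)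
  have h2 : ∫ ζ in {ζ : ℂ | 2 * R ≤ ‖ζ - c‖}, 2 * R ^ 2 * (A * ‖ζ - c‖ ^ (α - 3) +
        B * ‖ζ - c‖ ^ (α' - 3) + τ * ‖ζ - c‖ ^ ((0 : ℝ) - 3) +
          (ρ ^ 3)⁻¹ * ({ζ : ℂ | ρ ≤ ‖ζ - c‖}.indicator (fun ζ => ‖G ζ‖) ζ)) =
      2 * R ^ 2 * (A * (2 * Real.pi * ((2 * R) ^ (α - 1) / (1 - α))) +
        B * (2 * Real.pi * ((2 * R) ^ (α' - 1) / (1 - α'))) +
        τ * (2 * Real.pi * ((2 * R) ^ ((0 : ℝ) - 1) / (1 - 0))) +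
        (ρ ^ 3)⁻¹ * ∫ ζ in {ζ : ℂ | 2 * R ≤ ‖ζ - c‖},
          {ζ : ℂ | ρ ≤ ‖ζ - c‖}.indicator (fun ζ => ‖G ζ‖) ζ) := by
    rw [integral_const_mul, integral_add j123 (i4.const_mul _), integral_add j12
      (i3.const_mul τ), integral_add (i1.const_mul A) (i2.const_mul B), integral_const_mul,
      integral_const_mul, integral_const_mul, integral_const_mul, b1, b2, b3]
  rw [h2] at h1
  refine h1.trans ?_
  have hk1 : 0 < 1 - α' := by linarith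
  have hk2 : 0 < 1 - α := by linarith
  have hK1 : 1 / (1 - α) ≤ 1 / (1 - α') := one_div_le_one_div_of_le hk1 (by linarith)
  have hK0 : 1 ≤ 1 / (1 - α') := by
    rw [le_div_iff₀ hk1]; linarith
  obtain ⟨K, hK⟩ : ∃ K, K = 1 / (1 - α') := ⟨_, rfl⟩
  rw [← hK] at hK1 hK0 ⊢
  have e1 : R ^ 2 * (2 * R) ^ (α - 1) ≤ R ^ (1 + α) := C1a_c2 (hαα.trans hα1) hR
  have e2 : R ^ 2 * (2 * R) ^ (α' - 1) ≤ R ^ (1 + α') := C1a_c2 hα1 hR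
  have e3 : R ^ 2 * (2 * R) ^ ((0 : ℝ) - 1) ≤ R ^ (1 + (0 : ℝ)) := C1a_c2 zero_lt_one hR
  rw [add_zero, Real.rpow_one] at e3
  have p1 : 0 ≤ R ^ (1 + α) := Real.rpow_nonneg hR.le _
  have p2 : 0 ≤ R ^ (1 + α') := Real.rpow_nonneg hR.le _
  have hpi := Real.pi_pos
  have f1 : 2 * R ^ 2 * (A * (2 * Real.pi * ((2 * R) ^ (α - 1) / (1 - α)))) ≤
      4 * Real.pi * K * (A * R ^ (1 + α)) := by
    calc 2 * R ^ 2 * (A * (2 * Real.pi * ((2 * R) ^ (α - 1) / (1 - α))))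
        = (4 * Real.pi * A) * ((R ^ 2 * (2 * R) ^ (α - 1)) * (1 / (1 - α))) := by ring
      _ ≤ (4 * Real.pi * A) * (R ^ (1 + α) * K) := by
          apply mul_le_mul_of_nonneg_left _ (by positivity)
          exact mul_le_mul e1 hK1 (by positivity) p1
      _ = _ := by ring
  have f2 : 2 * R ^ 2 * (B * (2 * Real.pi * ((2 * R) ^ (α' - 1) / (1 - α')))) ≤
      4 * Real.pi * K * (B * R ^ (1 + α')) := by
    calc 2 * R ^ 2 * (B * (2 * Real.pi * ((2 * R) ^ (α' - 1) / (1 - α'))))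
        = (4 * Real.pi * B) * ((R ^ 2 * (2 * R) ^ (α' - 1)) * (1 / (1 - α'))) := by ring
      _ ≤ (4 * Real.pi * B) * (R ^ (1 + α') * K) := by
          apply mul_le_mul_of_nonneg_left _ (by positivity)
          rw [← hK]
          exact mul_le_mul_of_nonneg_right e2 (by linarith)
      _ = _ := by ring
  have f3 : 2 * R ^ 2 * (τ * (2 * Real.pi * ((2 * R) ^ ((0 : ℝ) - 1) / (1 - 0)))) ≤
      4 * Real.pi * K * (τ * R) := by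
    calc 2 * R ^ 2 * (τ * (2 * Real.pi * ((2 * R) ^ ((0 : ℝ) - 1) / (1 - 0))))
        = (4 * Real.pi * τ) * ((R ^ 2 * (2 * R) ^ ((0 : ℝ) - 1)) * 1) := by ring
      _ ≤ (4 * Real.pi * τ) * (R * K) := by
          apply mul_le_mul_of_nonneg_left _ (by positivity)
          exact mul_le_mul e3 hK0 zero_le_one hR.le
      _ = _ := by ring
  have f4 : 2 * R ^ 2 * ((ρ ^ 3)⁻¹ * ∫ ζ in {ζ : ℂ | 2 * R ≤ ‖ζ - c‖},
          {ζ : ℂ | ρ ≤ ‖ζ - c‖}.indicator (fun ζ => ‖G ζ‖) ζ) ≤ 2 * (N / ρ ^ 3 * R ^ 2) := by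
    calc 2 * R ^ 2 * ((ρ ^ 3)⁻¹ * ∫ ζ in {ζ : ℂ | 2 * R ≤ ‖ζ - c‖},
          {ζ : ℂ | ρ ≤ ‖ζ - c‖}.indicator (fun ζ => ‖G ζ‖) ζ)
        ≤ 2 * R ^ 2 * ((ρ ^ 3)⁻¹ * N) := by
          apply mul_le_mul_of_nonneg_left _ (by positivity)
          exact mul_le_mul_of_nonneg_left b4 (by positivity)
      _ = _ := by
          rw [div_eq_mul_inv]; ring
  generalize (∫ ζ in {ζ : ℂ | 2 * R ≤ ‖ζ - c‖},
          {ζ : ℂ | ρ ≤ ‖ζ - c‖}.indicator (fun ζ => ‖G ζ‖) ζ) = I4 at *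
  nlinarith [f1, f2, f3, f4]

theorem C1a_int2 {G : ℂ → ℂ} (hGc : Continuous G) (hGs : HasCompactSupport G) (c : ℂ) {R : ℝ}
    (hR : 0 < R) : IntegrableOn (fun ζ => G ζ / (c - ζ) ^ 2) {ζ : ℂ | R ≤ ‖ζ - c‖} := by
  have hGi : Integrable G := hGc.integrable_of_hasCompactSupport hGs
  have mD := C1a_measD c R
  refine Integrable.mono' (g := fun ζ => (R ^ 2)⁻¹ * ‖G ζ‖) ((hGi.norm.const_mul _).integrableOn)
    ?_ ((ae_restrict_iff' mD).2 (ae_of_all _ fun ζ hζ => ?_))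
  · refine (hGc.aestronglyMeasurable.div₀ ?_).restrict
    exact (Continuous.aestronglyMeasurable (by fun_prop))
  · have hζ' : R ≤ ‖c - ζ‖ := by rw [norm_sub_rev]; exact hζ
    rw [norm_div, norm_pow, div_eq_inv_mul]
    apply mul_le_mul_of_nonneg_right _ (norm_nonneg _)
    exact inv_anti₀ (by positivity) (pow_le_pow_left₀ hR.le hζ' 2)

/-- [YUB-C1a] expansion of the Cauchy integral. Let `u = c - ζ`; `1/(u+v) - 1/u = -v/u² + v²/(u²(u+v))`. Put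
`b = -∫_{2R ≤ ‖ζ-c‖} G ζ/(c-ζ)² dζ` (integrable: `G` is bounded with compact support and the kernel is bounded there).
The difference is then the sum of: (near) `∫_{‖ζ-c‖ < 2R} G ζ (1/(c+v-ζ) - 1/(c-ζ))`, at most
`(A (2R)^α + B (2R)^α' + τ) * 2 * (3π 2R)` by `ker_ball` (`2 R ≤ ρ`); (middle) `2R ≤ ‖ζ-c‖ < ρ`: there
`‖u+v‖ ≥ ‖u‖/2`, so the integrand is at most `2 R² (A ‖u‖^(α-3) + B ‖u‖^(α'-3) + τ ‖u‖^(0-3))`, and `ker_far` with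
`a = α, α', 0` gives `2R² * 2π (A (2R)^(α-1)/(1-α) + B (2R)^(α'-1)/(1-α') + τ (2R)^(-1))`; (far) `ρ ≤ ‖ζ-c‖`: at most
`2 R² ρ^(-3) N`. -/
theorem ker_expand {α α' : ℝ} (hα : 0 < α) (hαα : α < α') (hα1 : α' < 1) : ∃ C : ℝ, 0 < C ∧
    ∀ (G : ℂ → ℂ) (c : ℂ) (R ρ A B τ N : ℝ), 0 < R → 2 * R ≤ ρ → 0 ≤ A → 0 ≤ B → 0 ≤ τ →
      Continuous G → HasCompactSupport G →
      (∀ ζ, ‖ζ - c‖ < ρ → ‖G ζ‖ ≤ A * ‖ζ - c‖ ^ α + B * ‖ζ - c‖ ^ α' + τ) →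
      (∫ ζ in {ζ : ℂ | ρ ≤ ‖ζ - c‖}, ‖G ζ‖) ≤ N →
      ∃ b : ℂ, ∀ v : ℂ, ‖v‖ ≤ R →
        ‖(∫ ζ, G ζ / (c + v - ζ)) - (∫ ζ, G ζ / (c - ζ)) - b * v‖ ≤
          C * (A * R ^ (1 + α) + B * R ^ (1 + α') + τ * R + N / ρ ^ 3 * R ^ 2) := by
  have hpi := Real.pi_pos
  have hk1 : 0 < 1 - α' := by linarith
  refine ⟨24 * Real.pi + 4 * Real.pi * (1 / (1 - α')) + 2, by positivity, ?_⟩
  intro G c R ρ A B τ N hR hρ hA hB hτ hGc hGs hG hN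
  refine ⟨-∫ ζ in {ζ : ℂ | 2 * R ≤ ‖ζ - c‖}, G ζ / (c - ζ) ^ 2, fun v hv => ?_⟩
  have h2R : 0 < 2 * R := by linarith
  have i1 := int_ker hGc hGs (c + v)
  have i2 := int_ker hGc hGs c
  have i3 := C1a_int2 hGc hGs c h2R
  have i12 : Integrable (fun ζ => G ζ / (c + v - ζ) - G ζ / (c - ζ)) := i1.sub i2
  have mD := C1a_measD c (2 * R)
  have hcompl : (Metric.ball c (2 * R))ᶜ = {ζ : ℂ | 2 * R ≤ ‖ζ - c‖} := by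
    ext ζ
    rw [mem_compl_iff, Metric.mem_ball, dist_eq_norm, not_lt]
    rfl
  have e1 : (∫ ζ, G ζ / (c + v - ζ)) - (∫ ζ, G ζ / (c - ζ)) =
      (∫ ζ in Metric.ball c (2 * R), (G ζ / (c + v - ζ) - G ζ / (c - ζ))) +
        ∫ ζ in {ζ : ℂ | 2 * R ≤ ‖ζ - c‖}, (G ζ / (c + v - ζ) - G ζ / (c - ζ)) := by
    rw [← integral_sub i1 i2, ← hcompl, integral_add_compl measurableSet_ball i12]
  have e2 : ∫ ζ in {ζ : ℂ | 2 * R ≤ ‖ζ - c‖},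
      (G ζ / (c + v - ζ) - G ζ / (c - ζ) + v * (G ζ / (c - ζ) ^ 2)) =
      (∫ ζ in {ζ : ℂ | 2 * R ≤ ‖ζ - c‖}, (G ζ / (c + v - ζ) - G ζ / (c - ζ))) +
        v * ∫ ζ in {ζ : ℂ | 2 * R ≤ ‖ζ - c‖}, G ζ / (c - ζ) ^ 2 := by
    rw [integral_add i12.integrableOn (i3.const_mul v), integral_const_mul]
  have e3 : (∫ ζ, G ζ / (c + v - ζ)) - (∫ ζ, G ζ / (c - ζ)) -
      (-∫ ζ in {ζ : ℂ | 2 * R ≤ ‖ζ - c‖}, G ζ / (c - ζ) ^ 2) * v =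
      (∫ ζ in Metric.ball c (2 * R), (G ζ / (c + v - ζ) - G ζ / (c - ζ))) +
        ∫ ζ in {ζ : ℂ | 2 * R ≤ ‖ζ - c‖},
          (G ζ / (c + v - ζ) - G ζ / (c - ζ) + v * (G ζ / (c - ζ) ^ 2)) := by
    rw [e1, e2]
    ring
  rw [e3]
  have n1 := C1a_near (v := v) hα hαα hα1 hR hρ hA hB hτ hG
  have n2 := C1a_farint hα hαα hα1 hR hρ hA hB hτ hGc hGs hG hN hv
  refine (norm_add_le _ _).trans ((add_le_add n1 n2).trans ?_)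
  have p1 : 0 ≤ R ^ (1 + α) := Real.rpow_nonneg hR.le _
  have p2 : 0 ≤ R ^ (1 + α') := Real.rpow_nonneg hR.le _
  have hN0 : 0 ≤ N := by
    refine le_trans ?_ hN
    exact integral_nonneg fun ζ => norm_nonneg _
  have hρ0 : 0 < ρ := by linarith
  have hX : 0 ≤ A * R ^ (1 + α) + B * R ^ (1 + α') + τ * R := by positivity
  have hY : 0 ≤ N / ρ ^ 3 * R ^ 2 := by positivity
  have hK : 0 ≤ 4 * Real.pi * (1 / (1 - α')) := by positivity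
  generalize A * R ^ (1 + α) + B * R ^ (1 + α') + τ * R = X at *
  generalize N / ρ ^ 3 * R ^ 2 = Y at *
  generalize 4 * Real.pi * (1 / (1 - α')) = K at *
  nlinarith [mul_nonneg hpi.le hY, mul_nonneg hK hY]

end Pool.Agent.YUB
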