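import Pool.Agent.YUB.Base

open MeasureTheory Set Filter Topology
open scoped ContDiff

namespace Pool.Agent.YUB

open Pool.Agent.YUD Pool.Agent.YUT

/-- [YUB-C1b] rescale one fixed `ContDiffBump` (`rIn = 1/2`, `rOut = 3/4`, centre `0`):
`χ x = b (ρ⁻¹ • (x - c))`; its derivative is `ρ⁻¹` times a bounded function. -/
theorem exists_cut : ∃ D : ℝ, 0 < D ∧ ∀ (c : ℂ) (ρ : ℝ), 0 < ρ → ∃ χ : ℂ → ℝ, ContDiff ℝ ∞ χ ∧
    (∀ x, 0 ≤ χ x ∧ χ x ≤ 1) ∧ (∀ x, ‖x - c‖ ≤ 1 / 2 * ρ → χ x = 1) ∧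
    (∀ x, 3 / 4 * ρ ≤ ‖x - c‖ → χ x = 0) ∧ ∀ x, ‖fderiv ℝ χ x‖ ≤ D / ρ := by
  let b : ContDiffBump (0 : ℂ) := ⟨1 / 2, 3 / 4, by norm_num, by norm_num⟩
  have hb : ContDiff ℝ ∞ b := b.contDiff
  have hc : HasCompactSupport (fderiv ℝ b) := b.hasCompactSupport.fderiv ℝ
  have hcont : Continuous (fderiv ℝ b) := hb.continuous_fderiv (by simp)
  obtain ⟨D, hD⟩ := hc.exists_bound_of_continuous hcont
  refine ⟨max D 1, lt_of_lt_of_le one_pos (le_max_right _ _), ?_⟩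
  intro c ρ hρ
  have hρ' : 0 < ρ⁻¹ := inv_pos.mpr hρ
  have hnorm : ∀ x : ℂ, ‖ρ⁻¹ • (x - c)‖ = ρ⁻¹ * ‖x - c‖ := fun x => by
    rw [norm_smul, Real.norm_of_nonneg hρ'.le]
  refine ⟨fun x => b (ρ⁻¹ • (x - c)), ?_, ?_, ?_, ?_, ?_⟩
  · have h1 : ContDiff ℝ ∞ (fun x : ℂ => ρ⁻¹ • (x - c)) := by fun_prop
    exact hb.comp h1
  · intro x
    exact ⟨b.nonneg, b.le_one⟩
  · intro x hx
    apply b.one_of_mem_closedBall
    rw [mem_closedBall_zero_iff, hnorm]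
    show ρ⁻¹ * ‖x - c‖ ≤ 1 / 2
    rw [inv_mul_le_iff₀ hρ]
    linarith
  · intro x hx
    apply b.zero_of_le_dist
    rw [dist_zero_right, hnorm]
    show 3 / 4 ≤ ρ⁻¹ * ‖x - c‖
    rw [le_inv_mul_iff₀ hρ]
    linarith
  · intro x
    have h1 : HasFDerivAt (fun x : ℂ => ρ⁻¹ • (x - c)) (ρ⁻¹ • ContinuousLinearMap.id ℝ ℂ) x :=
      ((hasFDerivAt_id x).sub_const c).const_smul ρ⁻¹
    have h2 : DifferentiableAt ℝ b (ρ⁻¹ • (x - c)) := hb.differentiable (by simp) _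
    have h3 := (h2.hasFDerivAt.comp x h1).fderiv
    have e : (fun x => b (ρ⁻¹ • (x - c))) = (b : ℂ → ℝ) ∘ (fun x : ℂ => ρ⁻¹ • (x - c)) := rfl
    rw [e, h3]
    refine (ContinuousLinearMap.opNorm_comp_le _ _).trans ?_
    rw [norm_smul, Real.norm_of_nonneg hρ'.le]
    have h4 : ‖ContinuousLinearMap.id ℝ ℂ‖ ≤ 1 := ContinuousLinearMap.norm_id_le
    have h5 := hD (ρ⁻¹ • (x - c))
    calc ‖fderiv ℝ b (ρ⁻¹ • (x - c))‖ * (ρ⁻¹ * ‖ContinuousLinearMap.id ℝ ℂ‖)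
        ≤ max D 1 * (ρ⁻¹ * 1) := by
          refine mul_le_mul (h5.trans (le_max_left _ _)) (mul_le_mul_of_nonneg_left h4 hρ'.le) (by positivity) ?_
          exact le_trans zero_le_one (le_max_right _ _)
      _ = max D 1 / ρ := by rw [mul_one, div_eq_mul_inv]

theorem C1b_ofReal {χ : ℂ → ℝ} {x : ℂ} (h : DifferentiableAt ℝ χ x) (v : ℂ) :
    fderiv ℝ (fun x => (χ x : ℂ)) x v = (fderiv ℝ χ x v : ℂ) := by
  have h1 : HasFDerivAt (fun x => (χ x : ℂ)) (Complex.ofRealCLM.comp (fderiv ℝ χ x)) x :=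
    Complex.ofRealCLM.hasFDerivAt.comp x h.hasFDerivAt
  rw [h1.fderiv]
  rfl

/-- [YUB-C1b] a `C¹` function on the ball times a cutoff, extended by zero: near a point of the ball it is a product
of `C¹` functions, near any other point (`‖x - c‖ > 3/4 ρ`) it is zero. -/
theorem cut_contDiff {χ : ℂ → ℝ} (hχ : ContDiff ℝ ∞ χ) {c : ℂ} {ρ : ℝ} (hρ : 0 < ρ)
    (h0 : ∀ x, 3 / 4 * ρ ≤ ‖x - c‖ → χ x = 0) {W : ℂ → ℂ}
    (hW : ContDiffOn ℝ 1 W (Metric.ball c ρ)) :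
    ContDiff ℝ 1 (fun x => (χ x : ℂ) * W x) ∧ HasCompactSupport (fun x => (χ x : ℂ) * W x) ∧
      (∀ x ∈ Metric.ball c ρ, db (fun x => (χ x : ℂ) * W x) x =
        χ x * db W x + db (fun x => (χ x : ℂ)) x * W x) ∧
      (∀ x, x ∉ Metric.ball c ρ → db (fun x => (χ x : ℂ) * W x) x = 0) ∧
      ∀ x, ‖db (fun x => (χ x : ℂ)) x‖ ≤ 2 * ‖fderiv ℝ χ x‖ := by
  have hχd : ∀ x, DifferentiableAt ℝ χ x := fun x => hχ.differentiable (by simp) x
  have hχc : ContDiff ℝ 1 (fun x => (χ x : ℂ)) :=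
    Complex.ofRealCLM.contDiff.comp (hχ.of_le (by simp))
  have hout : ∀ x, x ∉ Metric.ball c ρ → (fun x => (χ x : ℂ) * W x) =ᶠ[𝓝 x] fun _ => 0 := by
    intro x hx
    have hx' : ρ ≤ ‖x - c‖ := by rwa [Metric.mem_ball, dist_eq_norm, not_lt] at hx
    have hopen : IsOpen {y : ℂ | 3 / 4 * ρ < ‖y - c‖} :=
      isOpen_lt continuous_const (continuous_norm.comp (continuous_id.sub continuous_const))
    have hmem : x ∈ {y : ℂ | 3 / 4 * ρ < ‖y - c‖} := by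
      show 3 / 4 * ρ < ‖x - c‖
      linarith
    filter_upwards [hopen.mem_nhds hmem] with y hy
    rw [h0 y (le_of_lt hy)]
    simp
  have hin : ∀ x ∈ Metric.ball c ρ, ContDiffAt ℝ 1 W x := fun x hx =>
    hW.contDiffAt (Metric.isOpen_ball.mem_nhds hx)
  refine ⟨?_, ?_, ?_, ?_, ?_⟩
  · rw [contDiff_iff_contDiffAt]
    intro x
    by_cases hx : x ∈ Metric.ball c ρ
    · exact hχc.contDiffAt.mul (hin x hx)
    · exact contDiffAt_const.congr_of_eventuallyEq (hout x hx)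
  · refine HasCompactSupport.of_support_subset_isCompact (isCompact_closedBall c (3 / 4 * ρ)) ?_
    intro x hx
    rw [Metric.mem_closedBall, dist_eq_norm]
    by_contra h1
    rw [not_le] at h1
    apply hx
    show (χ x : ℂ) * W x = 0
    rw [h0 x h1.le]
    simp
  · intro x hx
    have h1 : DifferentiableAt ℝ (fun x => (χ x : ℂ)) x := hχc.differentiable one_ne_zero x
    have h2 : DifferentiableAt ℝ W x := (hin x hx).differentiableAt one_ne_zero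
    have h3 : ∀ v, fderiv ℝ (fun x => (χ x : ℂ) * W x) x v =
        χ x * fderiv ℝ W x v + fderiv ℝ (fun x => (χ x : ℂ)) x v * W x := by
      intro v
      have h4 := (h1.hasFDerivAt.mul h2.hasFDerivAt).fderiv
      have e : (fun x => (χ x : ℂ) * W x) = (fun x => (χ x : ℂ)) * W := rfl
      rw [e, h4]
      simp only [_root_.add_apply, _root_.smul_apply, smul_eq_mul]
      ring
    unfold db
    rw [h3, h3]
    ring
  · intro x hx
    have h1 : fderiv ℝ (fun x => (χ x : ℂ) * W x) x = 0 := by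
      rw [(hout x hx).fderiv_eq]
      exact fderiv_const_apply _
    unfold db
    rw [h1]
    simp
  · intro x
    unfold db
    rw [C1b_ofReal (hχd x), C1b_ofReal (hχd x)]
    refine (norm_add_le _ _).trans ?_
    rw [norm_mul, Complex.norm_I, one_mul, Complex.norm_real, Complex.norm_real]
    have h1 := (fderiv ℝ χ x).le_opNorm 1
    have h2 := (fderiv ℝ χ x).le_opNorm Complex.I
    rw [norm_one, mul_one] at h1
    rw [Complex.norm_I, mul_one] at h2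
    linarith

end Pool.Agent.YUB
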