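import Pool.Agent.YUB.A4
import Pool.Agent.YUB.C1a
import Pool.Agent.YUB.C1b

open MeasureTheory Set Filter Topology
open scoped ContDiff

namespace Pool.Agent.YUB

open Pool.Agent.YUD Pool.Agent.YUT

theorem C1c_vol (c : ℂ) {ρ : ℝ} (hρ : 0 ≤ ρ) :
    volume.real (Metric.ball c ρ) = Real.pi * ρ ^ 2 := by
  rw [measureReal_def, Complex.volume_ball, ENNReal.toReal_mul, ENNReal.toReal_pow,
    ENNReal.toReal_ofReal hρ, mul_comm]
  rfl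

theorem C1c_conj (a : ℝ) (c ζ : ℂ) :
    HasFDerivAt (𝕜 := ℝ) (fun x : ℂ => (a : ℂ) * (starRingEnd ℂ) (x - c))
      ((a : ℂ) • (Complex.conjCLE : ℂ →L[ℝ] ℂ)) ζ := by
  have h1 : HasFDerivAt (𝕜 := ℝ) (fun x : ℂ => (starRingEnd ℂ) (x - c))
      (Complex.conjCLE : ℂ →L[ℝ] ℂ) ζ := by
    have h2 := ((Complex.conjCLE : ℂ →L[ℝ] ℂ).hasFDerivAt (x := ζ - c)).comp ζ
      ((hasFDerivAt_id (𝕜 := ℝ) ζ).sub_const c)
    exact h2
  exact h1.const_mul (a : ℂ)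

theorem C1c_dbV {W : ℂ → ℂ} {ζ c : ℂ} (a : ℝ) (hW : DifferentiableAt ℝ W ζ) :
    db (fun x => W x - (a : ℂ) * (starRingEnd ℂ) (x - c)) ζ = db W ζ - 2 * a := by
  have h1 : HasFDerivAt (𝕜 := ℝ) (fun x => W x - (a : ℂ) * (starRingEnd ℂ) (x - c))
      (fderiv ℝ W ζ - (a : ℂ) • (Complex.conjCLE : ℂ →L[ℝ] ℂ)) ζ :=
    hW.hasFDerivAt.sub (C1c_conj a c ζ)
  unfold db
  rw [h1.fderiv]
  have e1 : (fderiv ℝ W ζ - (a : ℂ) • (Complex.conjCLE : ℂ →L[ℝ] ℂ)) 1 =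
      fderiv ℝ W ζ 1 - a := by
    simp
  have e2 : (fderiv ℝ W ζ - (a : ℂ) • (Complex.conjCLE : ℂ →L[ℝ] ℂ)) Complex.I =
      fderiv ℝ W ζ Complex.I + a * Complex.I := by
    simp
  rw [e1, e2]
  linear_combination (a : ℂ) * Complex.I_sq

theorem C1c_dbcont {f : ℂ → ℂ} (hf : ContDiff ℝ 1 f) : Continuous (db f) := by
  have h1 := hf.continuous_fderiv one_ne_zero
  unfold db
  exact (h1.clm_apply continuous_const).add (continuous_const.mul (h1.clm_apply continuous_const))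

theorem C1c_dbsupp {f : ℂ → ℂ} (hc : HasCompactSupport f) : HasCompactSupport (db f) := by
  have h1 : HasCompactSupport (fderiv ℝ f) := hc.fderiv (𝕜 := ℝ)
  exact h1.comp_left (g := fun L : ℂ →L[ℝ] ℂ => L 1 + Complex.I * L Complex.I) (by simp)

theorem C1c_dbloc {χ : ℂ → ℝ} {c : ℂ} {ρ : ℝ} (h1 : ∀ x, ‖x - c‖ ≤ 1 / 2 * ρ → χ x = 1) {x : ℂ}
    (hx : ‖x - c‖ < 1 / 2 * ρ) : db (fun x => (χ x : ℂ)) x = 0 := by
  have h2 : (fun x => (χ x : ℂ)) =ᶠ[𝓝 x] fun _ => (1 : ℂ) := by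
    have h3 : Metric.ball c (1 / 2 * ρ) ∈ 𝓝 x :=
      Metric.isOpen_ball.mem_nhds (by rw [Metric.mem_ball, dist_eq_norm]; exact hx)
    filter_upwards [h3] with y hy
    rw [Metric.mem_ball, dist_eq_norm] at hy
    rw [h1 y hy.le]
    simp
  unfold db
  rw [h2.fderiv_eq]
  simp

/-- constants -/
theorem C1c_c1 {a R ρ : ℝ} (ha1 : a < 1) (hR : 0 < R) (hρ : R ≤ ρ) :
    R ^ 2 / ρ * ρ ^ a ≤ R ^ (1 + a) := by
  have hρ0 : 0 < ρ := lt_of_lt_of_le hR hρ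
  have h1 : R ^ 2 / ρ * ρ ^ a = R ^ 2 * ρ ^ (a - 1) := by
    rw [Real.rpow_sub hρ0, Real.rpow_one]
    ring
  have h2 : ρ ^ (a - 1) ≤ R ^ (a - 1) :=
    Real.rpow_le_rpow_of_nonpos hR hρ (by linarith)
  have h3 : R ^ 2 * R ^ (a - 1) = R ^ (1 + a) := by
    have h4 : R ^ 2 = R ^ (2 : ℝ) := by exact_mod_cast (Real.rpow_natCast R 2).symm
    rw [h4, ← Real.rpow_add hR]
    congr 1
    ring
  rw [h1, ← h3]
  exact mul_le_mul_of_nonneg_left h2 (by positivity)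

/-- [YUB-C1c] second order expansion of `W` with `2 ∂W/∂z̄ = g` Hölder. Let `V ζ = W ζ - (g c / 2) conj (ζ - c)`; then
`db V = g - g c` on the ball (`db` of `conj (· - c)` is `2`). `f = χ V` with the cutoff of `exists_cut`,
`cut_contDiff`. `pompeiu` at `c + v` and at `c` (where `χ = 1`, as `‖v‖ ≤ R ≤ ρ/8`):
`2π (V(c+v) - V c) = ∫ db f ζ (1/(c+v-ζ) - 1/(c-ζ))`. Apply `ker_expand` to `G = db f` with the radius `ρ/2` (there
`χ = 1`, `db f = g - g c`, where `db χ = 0`: on the open ball of radius `ρ/2`), and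
`N = π ρ² (A ρ^α + B ρ^α' + τ) + (2D/ρ) (E + G₀ π ρ³)`, because for `ρ/2 ≤ ‖ζ - c‖ < ρ` one has `‖db f ζ‖ ≤ |g ζ - g c| +
(2D/ρ) (‖W ζ‖ + G₀ ρ)`. Finally `R² ρ^(α-1) ≤ R^(1+α)`, `R² ρ^(α'-1) ≤ R^(1+α')`, `R²/ρ ≤ R` (`R ≤ ρ`), and
`π ρ³ ≤ 4 ρ³`; all constants go into `C`. The complex number `b` of the statement is `b/(2π)`. -/
theorem expansion {α α' : ℝ} (hα : 0 < α) (hαα : α < α') (hα1 : α' < 1) : ∃ C : ℝ, 0 < C ∧
    ∀ (W : ℂ → ℂ) (g : ℂ → ℝ) (c : ℂ) (R ρ A B τ E G₀ : ℝ), 0 < R → 8 * R ≤ ρ → 0 ≤ A → 0 ≤ B →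
      0 ≤ τ → ContDiffOn ℝ 1 W (Metric.ball c ρ) → (∀ ζ ∈ Metric.ball c ρ, db W ζ = g ζ) →
      (∀ ζ ∈ Metric.ball c ρ, |g ζ - g c| ≤ A * ‖ζ - c‖ ^ α + B * ‖ζ - c‖ ^ α' + τ) →
      IntegrableOn W (Metric.ball c ρ) → (∫ ζ in Metric.ball c ρ, ‖W ζ‖) ≤ E → |g c| ≤ G₀ →
      ∃ b : ℂ, ∀ v : ℂ, ‖v‖ ≤ R →
        ‖W (c + v) - W c - b * v - ((g c / 2 : ℝ) : ℂ) * (starRingEnd ℂ) v‖ ≤
          C * (A * R ^ (1 + α) + B * R ^ (1 + α') + τ * R + (E + G₀ * ρ ^ 3) / ρ ^ 4 * R ^ 2) := by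
  obtain ⟨C₁, hC₁, hker⟩ := ker_expand hα hαα hα1
  obtain ⟨D, hD, hcut⟩ := exists_cut
  have hpi := Real.pi_pos
  refine ⟨C₁ * (1 + 8 * Real.pi + 16 * D * (1 + Real.pi)), by positivity, ?_⟩
  intro W g c R ρ A B τ E G₀ hR hρ hA hB hτ hW hdb hg hWi hE hG₀
  have hρ0 : 0 < ρ := by linarith
  obtain ⟨χ, hχ, hχ01, hχ1, hχ0, hχd⟩ := hcut c ρ hρ0
  obtain ⟨V, hV⟩ : ∃ V : ℂ → ℂ, V = fun x => W x - ((g c / 2 : ℝ) : ℂ) *
    (starRingEnd ℂ) (x - c) := ⟨_, rfl⟩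
  have hVc : ContDiffOn ℝ 1 V (Metric.ball c ρ) := by
    rw [hV]
    refine hW.sub (ContDiff.contDiffOn ?_)
    exact contDiff_const.mul ((Complex.conjCLE : ℂ →L[ℝ] ℂ).contDiff.comp
      (contDiff_id.sub contDiff_const))
  have hVdb : ∀ ζ ∈ Metric.ball c ρ, db V ζ = ((g ζ - g c : ℝ) : ℂ) := by
    intro ζ hζ
    have h1 : DifferentiableAt ℝ W ζ :=
      (hW.differentiableOn one_ne_zero).differentiableAt (Metric.isOpen_ball.mem_nhds hζ)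
    rw [hV, C1c_dbV _ h1, hdb ζ hζ]
    push_cast
    ring
  obtain ⟨hf, hfc, hfdb, hfdb0, hχdb⟩ := cut_contDiff hχ hρ0 hχ0 hVc
  obtain ⟨f, hfdef⟩ : ∃ f : ℂ → ℂ, f = fun x => (χ x : ℂ) * V x := ⟨_, rfl⟩
  rw [← hfdef] at hf hfc hfdb hfdb0
  -- the near bound
  have hnear : ∀ ζ, ‖ζ - c‖ < ρ / 2 → ‖db f ζ‖ ≤ A * ‖ζ - c‖ ^ α + B * ‖ζ - c‖ ^ α' + τ := by
    intro ζ hζ
    have hζb : ζ ∈ Metric.ball c ρ := by
      rw [Metric.mem_ball, dist_eq_norm]; linarith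
    rw [hfdb ζ hζb, hχ1 ζ (by linarith), C1c_dbloc hχ1 (by linarith), hVdb ζ hζb, zero_mul,
      add_zero, Complex.ofReal_one, one_mul, Complex.norm_real, Real.norm_eq_abs]
    exact hg ζ hζb
  -- the bound on the ball
  obtain ⟨M, hM⟩ : ∃ M, M = A * ρ ^ α + B * ρ ^ α' + τ := ⟨_, rfl⟩
  have hG₀' : 0 ≤ G₀ := (abs_nonneg _).trans hG₀
  have hM0 : 0 ≤ M := by
    rw [hM]
    have := Real.rpow_nonneg hρ0.le α
    have := Real.rpow_nonneg hρ0.le α'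
    positivity
  have hball : ∀ ζ ∈ Metric.ball c ρ, ‖db f ζ‖ ≤ (M + 2 * (D / ρ) * (G₀ * ρ)) +
      2 * (D / ρ) * ‖W ζ‖ := by
    intro ζ hζ
    rw [hfdb ζ hζ, hVdb ζ hζ]
    rw [Metric.mem_ball, dist_eq_norm] at hζ
    have h1 : ‖((χ ζ : ℝ) : ℂ) * ((g ζ - g c : ℝ) : ℂ)‖ ≤ M := by
      rw [norm_mul, Complex.norm_real, Complex.norm_real, Real.norm_eq_abs, Real.norm_eq_abs]
      have h2 : |χ ζ| ≤ 1 := by
        rw [abs_le]
        have := hχ01 ζ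
        constructor <;> linarith [this.1, this.2]
      have h3 : |g ζ - g c| ≤ M := by
        refine (hg ζ (by rw [Metric.mem_ball, dist_eq_norm]; exact hζ)).trans ?_
        rw [hM]
        have h4 := Real.rpow_le_rpow (norm_nonneg (ζ - c)) hζ.le hα.le
        have h5 := Real.rpow_le_rpow (norm_nonneg (ζ - c)) hζ.le (hα.trans hαα).le
        have h6 := mul_le_mul_of_nonneg_left h4 hA
        have h7 := mul_le_mul_of_nonneg_left h5 hB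
        linarith
      calc |χ ζ| * |g ζ - g c| ≤ 1 * M := mul_le_mul h2 h3 (abs_nonneg _) zero_le_one
        _ = M := one_mul M
    have h2 : ‖V ζ‖ ≤ ‖W ζ‖ + G₀ * ρ := by
      rw [hV]
      refine (norm_sub_le _ _).trans ?_
      have h3 : ‖((g c / 2 : ℝ) : ℂ) * (starRingEnd ℂ) (ζ - c)‖ ≤ G₀ * ρ := by
        rw [norm_mul, Complex.norm_real, RCLike.norm_conj, Real.norm_eq_abs]
        apply mul_le_mul _ hζ.le (norm_nonneg _) hG₀'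
        rw [abs_div, abs_two]
        have := abs_nonneg (g c)
        linarith
      linarith
    have h3 : ‖db (fun x => (χ x : ℂ)) ζ * V ζ‖ ≤ 2 * (D / ρ) * (‖W ζ‖ + G₀ * ρ) := by
      rw [norm_mul]
      refine mul_le_mul ?_ h2 (norm_nonneg _) (by positivity)
      exact (hχdb ζ).trans (mul_le_mul_of_nonneg_left (hχd ζ) two_pos.le)
    refine (norm_add_le _ _).trans ((add_le_add h1 h3).trans (le_of_eq ?_))
    ring
  -- the far integral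
  have hN : (∫ ζ in {ζ : ℂ | ρ / 2 ≤ ‖ζ - c‖}, ‖db f ζ‖) ≤
      Real.pi * ρ ^ 2 * (M + 2 * (D / ρ) * (G₀ * ρ)) + 2 * (D / ρ) * E := by
    have hdbc : Continuous (db f) := C1c_dbcont hf
    have hdbi : Integrable (fun ζ => ‖db f ζ‖) :=
      (hdbc.integrable_of_hasCompactSupport (C1c_dbsupp hfc)).norm
    have h1 : (∫ ζ in {ζ : ℂ | ρ / 2 ≤ ‖ζ - c‖}, ‖db f ζ‖) ≤ ∫ ζ, ‖db f ζ‖ :=
      setIntegral_le_integral hdbi (ae_of_all _ fun ζ => norm_nonneg _)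
    have h2 : ∫ ζ, ‖db f ζ‖ = ∫ ζ in Metric.ball c ρ, ‖db f ζ‖ := by
      rw [setIntegral_eq_integral_of_forall_compl_eq_zero]
      intro x hx
      rw [hfdb0 x hx, norm_zero]
    have hi1 : IntegrableOn (fun _ : ℂ => M + 2 * (D / ρ) * (G₀ * ρ)) (Metric.ball c ρ) :=
      integrableOn_const (by rw [Complex.volume_ball]; finiteness)
    have hi2 : IntegrableOn (fun ζ : ℂ => 2 * (D / ρ) * ‖W ζ‖) (Metric.ball c ρ) :=
      hWi.norm.const_mul _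
    have h3 : ∫ ζ in Metric.ball c ρ, ‖db f ζ‖ ≤ ∫ ζ in Metric.ball c ρ,
        ((M + 2 * (D / ρ) * (G₀ * ρ)) + 2 * (D / ρ) * ‖W ζ‖) := by
      apply setIntegral_mono_on hdbi.integrableOn (hi1.add hi2) measurableSet_ball
      intro ζ hζ
      exact hball ζ hζ
    have h4 : ∫ ζ in Metric.ball c ρ, ((M + 2 * (D / ρ) * (G₀ * ρ)) + 2 * (D / ρ) * ‖W ζ‖) =
        Real.pi * ρ ^ 2 * (M + 2 * (D / ρ) * (G₀ * ρ)) +
          2 * (D / ρ) * ∫ ζ in Metric.ball c ρ, ‖W ζ‖ := by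
      rw [integral_add hi1 hi2, setIntegral_const, C1c_vol c hρ0.le, smul_eq_mul,
        integral_const_mul]
    have h5 : 2 * (D / ρ) * ∫ ζ in Metric.ball c ρ, ‖W ζ‖ ≤ 2 * (D / ρ) * E :=
      mul_le_mul_of_nonneg_left hE (by positivity)
    linarith
  obtain ⟨b, hb⟩ := hker (db f) c R (ρ / 2) A B τ _ hR (by linarith) hA hB hτ (C1c_dbcont hf)
    (C1c_dbsupp hfc) hnear hN
  refine ⟨b / (2 * Real.pi), fun v hv => ?_⟩
  have h1 := hb v hv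
  rw [pompeiu hf hfc, pompeiu hf hfc, hfdef] at h1
  have hv2 : ‖c + v - c‖ ≤ 1 / 2 * ρ := by
    rw [add_sub_cancel_left]; linarith
  have hc2 : ‖c - c‖ ≤ 1 / 2 * ρ := by
    rw [sub_self, norm_zero]; linarith
  simp only [] at h1
  rw [hχ1 _ hv2, hχ1 _ hc2, hV] at h1
  have h2 : (2 * Real.pi : ℂ) * (((1 : ℝ) : ℂ) * (W (c + v) - ((g c / 2 : ℝ) : ℂ) *
      (starRingEnd ℂ) (c + v - c))) - 2 * Real.pi * (((1 : ℝ) : ℂ) * (W c - ((g c / 2 : ℝ) : ℂ) *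
      (starRingEnd ℂ) (c - c))) - b * v = (2 * Real.pi : ℂ) *
        (W (c + v) - W c - b / (2 * Real.pi) * v - ((g c / 2 : ℝ) : ℂ) * (starRingEnd ℂ) v) := by
    have hpi' : (Real.pi : ℂ) ≠ 0 := by exact_mod_cast hpi.ne'
    rw [add_sub_cancel_left, sub_self, map_zero]
    field_simp
    push_cast
    ring
  rw [h2, norm_mul] at h1
  have h3 : ‖(2 * Real.pi : ℂ)‖ = 2 * Real.pi := by
    rw [norm_mul, Complex.norm_real, Complex.norm_two, Real.norm_eq_abs, abs_of_pos hpi]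
  rw [h3] at h1
  have h4 : ‖W (c + v) - W c - b / (2 * Real.pi) * v - ((g c / 2 : ℝ) : ℂ) *
      (starRingEnd ℂ) v‖ ≤ 2 * Real.pi * ‖W (c + v) - W c - b / (2 * Real.pi) * v -
        ((g c / 2 : ℝ) : ℂ) * (starRingEnd ℂ) v‖ := by
    have h5 : 1 ≤ 2 * Real.pi := by
      have := Real.pi_gt_three
      linarith
    exact le_mul_of_one_le_left (norm_nonneg _) h5
  refine (h4.trans h1).trans ?_
  -- constants
  rw [mul_assoc C₁]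
  apply mul_le_mul_of_nonneg_left _ hC₁.le
  have hE0 : 0 ≤ E := le_trans (integral_nonneg fun ζ => norm_nonneg _) hE
  have k1 := C1c_c1 (hαα.trans hα1) hR (by linarith : R ≤ ρ)
  have k2 := C1c_c1 hα1 hR (by linarith : R ≤ ρ)
  have k3 : R ^ 2 / ρ ≤ R := by
    rw [div_le_iff₀ hρ0]
    nlinarith
  have p1 : 0 ≤ R ^ (1 + α) := Real.rpow_nonneg hR.le _
  have p2 : 0 ≤ R ^ (1 + α') := Real.rpow_nonneg hR.le _
  have e1 : (Real.pi * ρ ^ 2 * (M + 2 * (D / ρ) * (G₀ * ρ)) + 2 * (D / ρ) * E) / (ρ / 2) ^ 3 *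
      R ^ 2 = 8 * Real.pi * (R ^ 2 / ρ * M) + 16 * D * (Real.pi * ((G₀ * ρ ^ 3) / ρ ^ 4 * R ^ 2) +
        E / ρ ^ 4 * R ^ 2) := by
    field_simp
    ring
  have e2 : R ^ 2 / ρ * M ≤ A * R ^ (1 + α) + B * R ^ (1 + α') + τ * R := by
    rw [hM]
    have f1 := mul_le_mul_of_nonneg_left k1 hA
    have f2 := mul_le_mul_of_nonneg_left k2 hB
    have f3 := mul_le_mul_of_nonneg_left k3 hτ
    calc R ^ 2 / ρ * (A * ρ ^ α + B * ρ ^ α' + τ) = A * (R ^ 2 / ρ * ρ ^ α) +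
        B * (R ^ 2 / ρ * ρ ^ α') + τ * (R ^ 2 / ρ) := by ring
      _ ≤ _ := by linarith
  have e3 : (E + G₀ * ρ ^ 3) / ρ ^ 4 * R ^ 2 = E / ρ ^ 4 * R ^ 2 + (G₀ * ρ ^ 3) / ρ ^ 4 * R ^ 2 := by
    ring
  rw [e1, e3]
  have q1 : 0 ≤ E / ρ ^ 4 * R ^ 2 := by positivity
  have q2 : 0 ≤ (G₀ * ρ ^ 3) / ρ ^ 4 * R ^ 2 := by positivity
  have q3 : 0 ≤ A * R ^ (1 + α) + B * R ^ (1 + α') + τ * R := by positivity
  generalize E / ρ ^ 4 * R ^ 2 = Y at *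
  generalize (G₀ * ρ ^ 3) / ρ ^ 4 * R ^ 2 = Z at *
  generalize A * R ^ (1 + α) + B * R ^ (1 + α') + τ * R = X at *
  have e4 := mul_le_mul_of_nonneg_left e2 (by positivity : 0 ≤ 8 * Real.pi)
  nlinarith [mul_nonneg hpi.le q1, mul_nonneg hpi.le q2, mul_nonneg hD.le q1,
    mul_nonneg hD.le q2, mul_nonneg hD.le q3, mul_nonneg (mul_nonneg hD.le hpi.le) q1,
    mul_nonneg (mul_nonneg hD.le hpi.le) q3]

end Pool.Agent.YUB
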