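import Pool.Agent.YUB.Base

open MeasureTheory Set Filter Topology
open scoped ContDiff

namespace Pool.Agent.YUB

open Pool.Agent.YUD Pool.Agent.YUT

/-- [YUB-C2] `QQ` vanishes on the quadratic polynomials
`P y = re ((y-c) * W c) + 1/2 re (b (y-c)^2) + g/4 ‖y-c‖^2`, and `G = f - f c - P` satisfies `G c = 0`,
`fderiv ℝ G y v = re (v * (W y - W c - b (y-c) - g/2 conj (y-c)))`, so `‖fderiv ℝ G y‖ ≤ ε` on the ball and
`|G y| ≤ ε ‖y-c‖` (`Convex.norm_image_sub_le_of_norm_fderiv_le` or with `hasFDerivWithinAt`). Then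
`QQ f c y = QQ G c y + QQ P c y`, `QQ P c y = 0`, `|QQ G c y| ≤ 3/2 ε ‖y-c‖`. (Or compute directly without `P`.) -/
theorem QQ_le {f : ℂ → ℝ} {W : ℂ → ℂ} {c b : ℂ} {g R ε : ℝ} (hε : 0 ≤ ε)
    (hf : ∀ y ∈ Metric.closedBall c R, DifferentiableAt ℝ f y ∧
      ∀ v : ℂ, fderiv ℝ f y v = (v * W y).re)
    (hW : ∀ v : ℂ, ‖v‖ ≤ R →
      ‖W (c + v) - W c - b * v - ((g / 2 : ℝ) : ℂ) * (starRingEnd ℂ) v‖ ≤ ε) :
    ∀ y ∈ Metric.closedBall c R, |QQ f c y| ≤ 2 * R * ε := by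
  intro y hy
  have hyR : ‖y - c‖ ≤ R := by rwa [Metric.mem_closedBall, dist_eq_norm] at hy
  have hR : 0 ≤ R := (norm_nonneg _).trans hyR
  obtain ⟨v, rfl⟩ : ∃ v, y = c + v := ⟨y - c, by ring⟩
  rw [add_sub_cancel_left] at hyR
  have hseg : ∀ t : ℝ, 0 ≤ t → t ≤ 1 → ‖(t : ℂ) * v‖ ≤ R := by
    intro t h0 h1
    rw [norm_mul, Complex.norm_real, Real.norm_of_nonneg h0]
    calc t * ‖v‖ ≤ 1 * ‖v‖ := mul_le_mul_of_nonneg_right h1 (norm_nonneg _)
      _ = ‖v‖ := one_mul _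
      _ ≤ R := hyR
  set A1 : ℝ := (v * W c).re with hA1
  set A2 : ℝ := (b * v ^ 2).re with hA2
  set φ : ℝ → ℝ := fun t => f (c + t * v) - t * A1 - t ^ 2 / 2 * A2 - g / 4 * t ^ 2 * ‖v‖ ^ 2 with hφ
  have hder : ∀ t ∈ Icc (0 : ℝ) 1, HasDerivWithinAt φ ((v * W (c + t * v)).re - A1 - t * A2 - g / 2 * t * ‖v‖ ^ 2) (Icc 0 1) t := by
    intro t ht
    have hm : c + t * v ∈ Metric.closedBall c R := by
      rw [Metric.mem_closedBall, dist_eq_norm, add_sub_cancel_left]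
      exact hseg t ht.1 ht.2
    obtain ⟨hd, hfd⟩ := hf _ hm
    have h1 : HasDerivAt (fun t : ℝ => c + (t : ℂ) * v) v t := by
      have h2 : HasDerivAt (fun t : ℝ => (t : ℂ)) 1 t := Complex.ofRealCLM.hasDerivAt
      simpa using (h2.mul_const v).const_add c
    have h3 : HasDerivAt (fun t : ℝ => f (c + (t : ℂ) * v)) ((v * W (c + t * v)).re) t := by
      have h4 := hd.hasFDerivAt.comp_hasDerivAt t h1
      rw [hfd] at h4
      exact h4
    have h5 : HasDerivAt (fun t : ℝ => t * A1) A1 t := by simpa using (hasDerivAt_id t).mul_const A1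
    have h6 : HasDerivAt (fun t : ℝ => t ^ 2 / 2 * A2) (t * A2) t := by
      have h7 := (((hasDerivAt_id t).pow 2).div_const 2).mul_const A2
      simp only [id] at h7
      refine h7.congr_deriv ?_
      ring
    have h8 : HasDerivAt (fun t : ℝ => g / 4 * t ^ 2 * ‖v‖ ^ 2) (g / 2 * t * ‖v‖ ^ 2) t := by
      have h9 := (((hasDerivAt_id t).pow 2).const_mul (g / 4)).mul_const (‖v‖ ^ 2)
      simp only [id] at h9
      refine h9.congr_deriv ?_
      ring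
    exact (((h3.sub h5).sub h6).sub h8).hasDerivWithinAt
  have herr : ∀ t : ℝ, 0 ≤ t → t ≤ 1 → |(v * W (c + t * v)).re - A1 - t * A2 - g / 2 * t * ‖v‖ ^ 2| ≤ R * ε := by
    intro t h0 h1
    have h2 := hW (t * v) (hseg t h0 h1)
    have h3 : (v * W (c + t * v)).re - A1 - t * A2 - g / 2 * t * ‖v‖ ^ 2 =
        (v * (W (c + t * v) - W c - b * (t * v) - ((g / 2 : ℝ) : ℂ) * (starRingEnd ℂ) (t * v))).re := by
      have h4 : v * (W (c + t * v) - W c - b * (t * v) - ((g / 2 : ℝ) : ℂ) * (starRingEnd ℂ) (t * v)) =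
          v * W (c + t * v) - v * W c - (t : ℂ) * (b * v ^ 2) - ((g / 2 * t * ‖v‖ ^ 2 : ℝ) : ℂ) := by
        have h5 : v * (starRingEnd ℂ) v = ((‖v‖ ^ 2 : ℝ) : ℂ) := by
          rw [Complex.mul_conj, Complex.normSq_eq_norm_sq]
        rw [map_mul, Complex.conj_ofReal, Complex.ofReal_mul, Complex.ofReal_mul, ← h5]
        ring
      rw [h4, Complex.sub_re, Complex.sub_re, Complex.sub_re, Complex.re_ofReal_mul, Complex.ofReal_re]
    rw [h3]
    calc _ ≤ ‖v * (W (c + t * v) - W c - b * (t * v) - ((g / 2 : ℝ) : ℂ) * (starRingEnd ℂ) (t * v))‖ := Complex.abs_re_le_norm _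
      _ = ‖v‖ * ‖W (c + t * v) - W c - b * (t * v) - ((g / 2 : ℝ) : ℂ) * (starRingEnd ℂ) (t * v)‖ := norm_mul _ _
      _ ≤ R * ε := mul_le_mul hyR h2 (norm_nonneg _) hR
  have hmv : |φ 1 - φ 0| ≤ R * ε := by
    have := norm_image_sub_le_of_norm_deriv_le_segment_01' hder (C := R * ε) (fun t ht => by
      rw [Real.norm_eq_abs]
      exact herr t ht.1 ht.2.le)
    rwa [Real.norm_eq_abs] at this
  have h1 := herr 1 zero_le_one le_rfl
  have hc0 : c ∈ Metric.closedBall c R := Metric.mem_closedBall_self hR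
  have hQ : QQ f c (c + v) = 1 / 2 * ((v * W (c + (1 : ℝ) * v)).re - A1 - (1 : ℝ) * A2 - g / 2 * 1 * ‖v‖ ^ 2) - (φ 1 - φ 0) := by
    unfold QQ
    rw [add_sub_cancel_left, (hf _ hy).2, (hf c hc0).2, hφ]
    simp only [Complex.ofReal_one, Complex.ofReal_zero, one_mul, zero_mul, add_zero]
    rw [hA1]
    ring
  rw [hQ]
  have h3 := abs_sub (1 / 2 * ((v * W (c + (1 : ℝ) * v)).re - A1 - (1 : ℝ) * A2 - g / 2 * 1 * ‖v‖ ^ 2)) (φ 1 - φ 0)
  rw [abs_mul, abs_of_pos (by norm_num : (0 : ℝ) < 1 / 2)] at h3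
  have h4 : 0 ≤ R * ε := mul_nonneg hR hε
  linarith

/-- [YUB-C2] additivity -/
theorem QQ_add {f g : ℂ → ℝ} {c y : ℂ} (h1 : DifferentiableAt ℝ f y) (h2 : DifferentiableAt ℝ g y)
    (h3 : DifferentiableAt ℝ f c) (h4 : DifferentiableAt ℝ g c) :
    QQ (fun x => f x + g x) c y = QQ f c y + QQ g c y := by
  unfold QQ
  rw [fderiv_fun_add h1 h2, fderiv_fun_add h3 h4]
  simp only [_root_.add_apply]
  ring

end Pool.Agent.YUB
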