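import Pool.Agent.YUB.Base

open MeasureTheory Set Filter Topology
open scoped ContDiff

namespace Pool.Agent.YUB

open Pool.Agent.YUD Pool.Agent.YUT

theorem C3_hasFDerivAt {a b : ℂ → ℝ} {x : ℂ} (ha : DifferentiableAt ℝ a x) (hb : DifferentiableAt ℝ b x) (v : ℂ) :
    fderiv ℝ (fun x => (⟨a x, -b x⟩ : ℂ)) x v = ⟨fderiv ℝ a x v, -fderiv ℝ b x v⟩ := by
  have e : (fun x => (⟨a x, -b x⟩ : ℂ)) = fun x => (a x) • (1 : ℂ) - (b x) • Complex.I := by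
    funext x
    apply Complex.ext <;> simp
  rw [e, fderiv_fun_sub (ha.smul_const _) (hb.smul_const _), fderiv_smul_const ha, fderiv_smul_const hb]
  apply Complex.ext <;> simp

theorem C3_contDiffOn {M : Set ℂ} {a b : ℂ → ℝ} (ha : ContDiffOn ℝ 1 a M) (hb : ContDiffOn ℝ 1 b M) :
    ContDiffOn ℝ 1 (fun x => (⟨a x, -b x⟩ : ℂ)) M := by
  have e : (fun x => (⟨a x, -b x⟩ : ℂ)) = fun x => (a x) • (1 : ℂ) - (b x) • Complex.I := by
    funext x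
    apply Complex.ext <;> simp
  rw [e]
  exact (ha.smul contDiffOn_const).sub (hb.smul contDiffOn_const)

/-- [YUB-C3] the complex gradient `W = ψ_x - i ψ_y`: `C¹`, `db W = lap ψ` (the imaginary part is
`dy (dx ψ) - dx (dy ψ) = 0`, `dx_dy_comm`), and `fderiv ℝ ψ x v = re (v * W x)` (`fderiv_apply'`),
`‖W x‖ = ‖fderiv ℝ ψ x‖`. -/
theorem grad_facts {M : Set ℂ} (hM : IsOpen M) {ψ : ℂ → ℝ} (hψ : ContDiffOn ℝ 2 ψ M) :
    ContDiffOn ℝ 1 (fun x => (⟨dx ψ x, -dy ψ x⟩ : ℂ)) M ∧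
      (∀ x ∈ M, db (fun x => (⟨dx ψ x, -dy ψ x⟩ : ℂ)) x = lap ψ x) ∧
      (∀ x v : ℂ, fderiv ℝ ψ x v = (v * ⟨dx ψ x, -dy ψ x⟩).re) ∧
      ∀ x, ‖(⟨dx ψ x, -dy ψ x⟩ : ℂ)‖ ≤ ‖fderiv ℝ ψ x‖ := by
  have hx1 : ContDiffOn ℝ 1 (dx ψ) M := contDiffOn_dx (n := 1) hM hψ
  have hy1 : ContDiffOn ℝ 1 (dy ψ) M := contDiffOn_dy (n := 1) hM hψ
  refine ⟨C3_contDiffOn hx1 hy1, ?_, ?_, ?_⟩
  · intro x hx
    have h1 : DifferentiableAt ℝ (dx ψ) x := (hx1.contDiffAt (hM.mem_nhds hx)).differentiableAt one_ne_zero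
    have h2 : DifferentiableAt ℝ (dy ψ) x := (hy1.contDiffAt (hM.mem_nhds hx)).differentiableAt one_ne_zero
    have h3 := dx_dy_comm hM hψ hx
    unfold db
    rw [C3_hasFDerivAt h1 h2, C3_hasFDerivAt h1 h2]
    unfold lap
    apply Complex.ext
    · simp [dx, dy]
    · simp only [dx, dy] at h3
      simp [dx, dy, h3]
  · intro x v
    rw [fderiv_apply']
    simp [Complex.mul_re]
  · intro x
    set W : ℂ := ⟨dx ψ x, -dy ψ x⟩ with hW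
    by_cases h0 : ‖W‖ = 0
    · rw [h0]
      exact norm_nonneg _
    have h1 : 0 < ‖W‖ := lt_of_le_of_ne (norm_nonneg _) (Ne.symm h0)
    have h2 : fderiv ℝ ψ x ((starRingEnd ℂ) W) = ‖W‖ * ‖W‖ := by
      rw [fderiv_apply', Complex.norm_mul_self_eq_normSq, Complex.normSq_apply, hW]
      simp
    have h3 := (fderiv ℝ ψ x).le_opNorm ((starRingEnd ℂ) W)
    rw [h2, RCLike.norm_conj, Real.norm_of_nonneg (by positivity)] at h3
    exact le_of_mul_le_mul_right h3 h1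

end Pool.Agent.YUB
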