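import Pool.Agent.YUB.Base
import Pool.Agent.YUT.L1

open MeasureTheory Set Filter Topology
open scoped ContDiff

namespace Pool.Agent.YUB

open Pool.Agent.YUD Pool.Agent.YUT

private theorem D1_det (A : ℂ →L[ℝ] ℂ) :
    A.det = (A 1).re * (A Complex.I).im - (A Complex.I).re * (A 1).im := by
  have h : A.det = LinearMap.det (A : ℂ →ₗ[ℝ] ℂ) := rfl
  rw [h, ← LinearMap.det_toMatrix Complex.basisOneI, Matrix.det_fin_two]
  simp [LinearMap.toMatrix_apply, Complex.coe_basisOneI_repr, Complex.coe_basisOneI]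

private theorem D1_apply (A : ℂ →L[ℝ] ℂ) (v : ℂ) : A v = v.re • A 1 + v.im • A Complex.I := by
  rw [← map_smul, ← map_smul, ← map_add]
  congr 1
  apply Complex.ext <;> simp

private theorem D1_wed (A : ℂ →L[ℝ] ℂ) (hA : A.det = 1) (u v : ℂ) : wed (A u) (A v) = wed u v := by
  rw [D1_det] at hA
  rw [D1_apply A u, D1_apply A v]
  simp only [wed, Complex.add_re, Complex.add_im, Complex.real_smul, Complex.mul_re, Complex.mul_im,
    Complex.ofReal_re, Complex.ofReal_im, zero_mul, sub_zero, add_zero]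
  linear_combination (u.re * v.im - u.im * v.re) * hA

private theorem D1_sq (z : ℂ) : ‖z‖ ^ 2 = z.re ^ 2 + z.im ^ 2 := by
  rw [← Complex.normSq_eq_norm_sq, Complex.normSq_apply]
  ring

/-- [YUB-D1] the inverse of a real linear map of the plane of determinant `1` has the same norm: for
`exists_contracted`-like computations see `L1.lean`. Statement needed: if `A.det = 1` and `‖A‖ ≤ L` then
`‖v‖ ≤ L * ‖A v‖` for all `v`. Proof: the adjugate `A' v = v.re ..` satisfies `A' (A v) = v` and `‖A'‖ = ‖A‖`; explicitly,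
with `A 1 = p`, `A I = q` (`p.re q.im - p.im q.re = 1`), `‖v‖^2 = wed v (I v)`-type identity:
`‖v‖^2 = wed v (I v) = wed (A v) (A (I v)) ≤ ‖A v‖ ‖A‖ ‖v‖`, because `wed (A u) (A v) = A.det * wed u v`
(here `wed v (I * v) = ‖v‖^2`). The identity for `wed` is proved (privately) in `L1.lean`; copy it. -/
theorem le_of_det {A : ℂ →L[ℝ] ℂ} (hA : A.det = 1) {L : ℝ} (hL : ‖A‖ ≤ L) (v : ℂ) :
    ‖v‖ ≤ L * ‖A v‖ := by
  by_cases hv : v = 0
  · subst hv
    simp
  have hv0 : 0 < ‖v‖ := norm_pos_iff.2 hv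
  have h1 : ‖v‖ ^ 2 = wed (A v) (A (Complex.I * v)) := by
    rw [D1_wed A hA, D1_sq]
    simp only [wed, Complex.mul_re, Complex.mul_im, Complex.I_re, Complex.I_im]
    ring
  have h2 := wed_le (A v) (A (Complex.I * v))
  have h3 : ‖A (Complex.I * v)‖ ≤ L * ‖v‖ := by
    have h4 := A.le_opNorm (Complex.I * v)
    rw [norm_mul, Complex.norm_I, one_mul] at h4
    exact h4.trans (mul_le_mul_of_nonneg_right hL hv0.le)
  have h5 : ‖v‖ ^ 2 ≤ ‖A v‖ * (L * ‖v‖) := by
    rw [h1]
    exact ((le_abs_self _).trans h2).trans (mul_le_mul_of_nonneg_left h3 (norm_nonneg _))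
  nlinarith

end Pool.Agent.YUB
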