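import Pool.Agent.YUB.D1
import Pool.Agent.YUT.L1

open MeasureTheory Set Filter Topology
open scoped ContDiff

namespace Pool.Agent.YUB

open Pool.Agent.YUD Pool.Agent.YUT

/-- [YUB-D2] the inverse of an area preserving diffeomorphism of `M`. `Φ` is `C¹` with invertible derivative (`det = 1`), so
it is strictly differentiable at the points of the open set `M` (`ContDiffAt.hasStrictFDerivAt`), with derivative a
continuous linear equivalence (`ContinuousLinearEquiv` from a nonzero determinant, e.g.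
`ContinuousLinearMap.toContinuousLinearEquivOfDetNeZero`), hence open at these points (`HasStrictFDerivAt.map_nhds_eq_of_equiv`).
So `Φi = Function.invFunOn Φ M` is continuous on `M` (`Φi` is the inverse of the injective open map `Φ` on `M`; `BijOn.invOn_invFunOn`),
and `HasFDerivAt.of_local_left_inverse` gives the derivative `(fderiv ℝ Φ x)⁻¹` of `Φi` at `Φ x`. It depends continuously
on the point (inverse of continuous linear equivalences, `ContinuousLinearMap.inverse`, `contDiffAt_map_inverse`; or use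
`ContDiffAt.to_localInverse`, comparing `Φi` with the local inverse near `Φ x`), so `Φi` is `C¹` on `M`. The bound
is `le_of_det`. -/
theorem inv_facts {M : Set ℂ} (hM : IsOpen M) {Φ : ℂ → ℂ} (hΦ : ContDiffOn ℝ 1 Φ M)
    (hb : BijOn Φ M M) (hdet : ∀ x ∈ M, (fderiv ℝ Φ x).det = 1) :
    ContDiffOn ℝ 1 (Function.invFunOn Φ M) M ∧
      (∀ x ∈ M, Function.invFunOn Φ M (Φ x) = x) ∧
      (∀ y ∈ M, Function.invFunOn Φ M y ∈ M ∧ Φ (Function.invFunOn Φ M y) = y) ∧
      ∀ x ∈ M, ∀ L : ℝ, ‖fderiv ℝ Φ x‖ ≤ L → ‖fderiv ℝ (Function.invFunOn Φ M) (Φ x)‖ ≤ L := by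
  have hinv := hb.invOn_invFunOn
  have hl : ∀ x ∈ M, Function.invFunOn Φ M (Φ x) = x := fun x hx => hinv.1 hx
  have hr : ∀ y ∈ M, Function.invFunOn Φ M y ∈ M ∧ Φ (Function.invFunOn Φ M y) = y := fun y hy =>
    ⟨hb.surjOn.mapsTo_invFunOn hy, hinv.2 hy⟩
  have hdiff : ∀ x ∈ M, ContDiffAt ℝ 1 Φ x := fun x hx => hΦ.contDiffAt (hM.mem_nhds hx)
  have heq : ∀ x ∈ M, ∃ e : ℂ ≃L[ℝ] ℂ, (e : ℂ →L[ℝ] ℂ) = fderiv ℝ Φ x := fun x hx =>
    ⟨(fderiv ℝ Φ x).toContinuousLinearEquivOfDetNeZero (by rw [hdet x hx]; exact one_ne_zero),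
      (fderiv ℝ Φ x).coe_toContinuousLinearEquivOfDetNeZero _⟩
  have hopen : IsOpenMap ((hb.toPartialEquiv Φ M M).source.domRestrict (hb.toPartialEquiv Φ M M)) := by
    rw [isOpenMap_iff_nhds_le]
    rintro ⟨x, hx⟩
    have hxM : x ∈ M := hx
    obtain ⟨e, he⟩ := heq x hxM
    have hs : HasStrictFDerivAt Φ (e : ℂ →L[ℝ] ℂ) x := by
      rw [he]
      exact (hdiff x hxM).hasStrictFDerivAt one_ne_zero
    have h1 : map (Subtype.val : M → ℂ) (𝓝 ⟨x, hxM⟩) = 𝓝 x :=
      map_nhds_subtype_coe_eq_nhds hxM (hM.mem_nhds hxM)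
    have h2 : map Φ (map (Subtype.val : M → ℂ) (𝓝 ⟨x, hxM⟩)) = 𝓝 (Φ x) := by
      rw [h1, hs.map_nhds_eq_of_equiv]
    rw [map_map] at h2
    exact h2.ge
  have hc1 : ∀ y ∈ M, ContDiffAt ℝ 1 (Function.invFunOn Φ M) y := by
    intro y hy
    obtain ⟨e, he⟩ := heq _ (hr y hy).1
    exact (OpenPartialHomeomorph.ofContinuousOpenRestrict (hb.toPartialEquiv Φ M M) hΦ.continuousOn
      hopen hM).contDiffAt_symm (f₀' := e) (a := y) hy
      (by rw [he]; exact ((hdiff _ (hr y hy).1).differentiableAt one_ne_zero).hasFDerivAt)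
      (hdiff _ (hr y hy).1)
  refine ⟨fun y hy => (hc1 y hy).contDiffWithinAt, hl, hr, ?_⟩
  intro x hx L hL
  have hy : Φ x ∈ M := hb.mapsTo hx
  have h1 : HasFDerivAt (Function.invFunOn Φ M) (fderiv ℝ (Function.invFunOn Φ M) (Φ x)) (Φ x) :=
    ((hc1 _ hy).differentiableAt one_ne_zero).hasFDerivAt
  have h2 : HasFDerivAt Φ (fderiv ℝ Φ x) (Function.invFunOn Φ M (Φ x)) := by
    rw [hl x hx]
    exact ((hdiff x hx).differentiableAt one_ne_zero).hasFDerivAt
  have h3 := h2.comp (Φ x) h1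
  have h4 : HasFDerivAt (Φ ∘ Function.invFunOn Φ M) (ContinuousLinearMap.id ℝ ℂ) (Φ x) := by
    refine (hasFDerivAt_id (Φ x)).congr_of_eventuallyEq ?_
    filter_upwards [hM.mem_nhds hy] with z hz
    exact (hr z hz).2
  have h5 := h3.unique h4
  refine ContinuousLinearMap.opNorm_le_bound _ ((norm_nonneg _).trans hL) fun v => ?_
  have h6 := le_of_det (hdet x hx) hL (fderiv ℝ (Function.invFunOn Φ M) (Φ x) v)
  have h7 : fderiv ℝ Φ x (fderiv ℝ (Function.invFunOn Φ M) (Φ x) v) = v := by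
    have := congrArg (fun A : ℂ →L[ℝ] ℂ => A v) h5
    exact this
  rwa [h7] at h6

end Pool.Agent.YUB
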