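import Pool.Agent.YUB.D2
import Pool.Agent.YUT.L1

open MeasureTheory Set Filter Topology
open scoped ContDiff

namespace Pool.Agent.YUB

open Pool.Agent.YUD Pool.Agent.YUT

/-- [YUB-D3] the image of a ball contains a ball. Let `y` with `‖y - Φ x₁‖ < ρ₀ / L`, `d = ‖y - Φ x₁‖`,
`γ s = Φ x₁ + s (y - Φ x₁)`, `Φi = Function.invFunOn Φ M`. Let `S` be the set of `s ∈ [0,1]` for which there is
`x ∈ closedBall x₁ (s L d)` with `Φ x = γ s`. `0 ∈ S`; `S` is closed (compactness of `closedBall x₁ (L d) ⊆ ball x₁ ρ₀ ⊆ M`,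
continuity of `Φ`). It remains to show `1 ∈ S`; slack: replace `L` by `L' > L` with `L' d < ρ₀` in the definition of `S`, and
use `IsClosed.Icc_subset_of_forall_exists_gt` (or `mem_of_closed`): if `s ∈ S`, `s < 1`, `x` as above, then `γ s = Φ x ∈ M` and
`Φi` has at `γ s` a derivative of norm at most `L` (`inv_facts`), so for small `s' - s > 0` the point `x' = Φi (γ s')`
(`γ s' ∈ M`, `M` open) satisfies `‖x' - x‖ ≤ L' (s' - s) d`, hence `‖x' - x₁‖ ≤ L' s' d`. -/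
theorem ball_image {M : Set ℂ} (hM : IsOpen M) {Φ : ℂ → ℂ} (hΦ : ContDiffOn ℝ 1 Φ M)
    (hb : BijOn Φ M M) (hdet : ∀ x ∈ M, (fderiv ℝ Φ x).det = 1) {x₁ : ℂ} {ρ₀ L : ℝ}
    (hρ : 0 < ρ₀) (hL : 0 < L) (hB : Metric.ball x₁ ρ₀ ⊆ M)
    (hLip : ∀ x ∈ Metric.ball x₁ ρ₀, ‖fderiv ℝ Φ x‖ ≤ L) :
    Metric.ball (Φ x₁) (ρ₀ / L) ⊆ Φ '' Metric.ball x₁ ρ₀ := by
  obtain ⟨hc1, hl, hr, hbd⟩ := inv_facts hM hΦ hb hdet
  set Ψ : ℂ → ℂ := Function.invFunOn Φ M with hΨ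
  have hΨd : ∀ y ∈ M, HasFDerivAt Ψ (fderiv ℝ Ψ y) y := fun y hy =>
    ((hc1.contDiffAt (hM.mem_nhds hy)).differentiableAt one_ne_zero).hasFDerivAt
  have hx₁ : x₁ ∈ M := hB (Metric.mem_ball_self hρ)
  -- the image is open
  have hU : Φ '' Metric.ball x₁ ρ₀ = M ∩ Ψ ⁻¹' Metric.ball x₁ ρ₀ := by
    ext y
    constructor
    · rintro ⟨x, hx, rfl⟩
      refine ⟨hb.mapsTo (hB hx), ?_⟩
      rw [mem_preimage, hl x (hB hx)]
      exact hx
    · rintro ⟨hy, hy2⟩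
      exact ⟨Ψ y, hy2, (hr y hy).2⟩
  have hUo : IsOpen (Φ '' Metric.ball x₁ ρ₀) := by
    rw [hU]
    exact hc1.continuousOn.isOpen_inter_preimage hM Metric.isOpen_ball
  intro y hy
  by_contra hny
  set d : ℝ := ‖y - Φ x₁‖ with hd
  have hdL : L * d < ρ₀ := by
    rw [Metric.mem_ball, dist_eq_norm] at hy
    rw [lt_div_iff₀ hL] at hy
    rw [mul_comm]
    exact hy
  have hd0 : 0 ≤ d := norm_nonneg _
  let γ : ℝ → ℂ := fun s => Φ x₁ + s • (y - Φ x₁)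
  have hγc : Continuous γ := by fun_prop
  have hγd : ∀ s, HasDerivAt γ (y - Φ x₁) s := by
    intro s
    have h1 : HasDerivAt (fun s : ℝ => s • (y - Φ x₁)) ((1 : ℝ) • (y - Φ x₁)) s :=
      (hasDerivAt_id s).smul_const _
    rw [one_smul] at h1
    exact h1.const_add _
  have hγ0 : γ 0 = Φ x₁ := by simp [γ]
  have hγ1 : γ 1 = y := by simp [γ]
  -- the first point outside
  set S : Set ℝ := Icc 0 1 ∩ γ ⁻¹' (Φ '' Metric.ball x₁ ρ₀)ᶜ with hS
  have hSc : IsCompact S := isCompact_Icc.inter_right (hUo.isClosed_compl.preimage hγc)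
  have hSn : S.Nonempty := ⟨1, ⟨zero_le_one, le_rfl⟩, by rw [mem_preimage, hγ1]; exact hny⟩
  obtain ⟨b, hbS, hbmin⟩ := hSc.exists_isMinOn hSn continuousOn_id
  have hb0 : 0 < b := by
    refine lt_of_le_of_ne hbS.1.1 ?_
    rintro rfl
    apply hbS.2
    rw [hγ0]
    exact ⟨x₁, Metric.mem_ball_self hρ, rfl⟩
  have hlt : ∀ s, 0 ≤ s → s < b → γ s ∈ Φ '' Metric.ball x₁ ρ₀ := by
    intro s h0 hs
    by_contra hn
    have h1 : s ∈ S := ⟨⟨h0, hs.le.trans hbS.1.2⟩, hn⟩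
    exact absurd (hbmin h1) (not_le.2 hs)
  -- the bound
  have hbound : ∀ s, 0 ≤ s → s < b → ‖Ψ (γ s) - x₁‖ ≤ L * d * s := by
    intro s h0 hs
    have h1 : ∀ σ ∈ Icc (0 : ℝ) s, HasDerivWithinAt (fun σ => Ψ (γ σ)) (fderiv ℝ Ψ (γ σ) (y - Φ x₁))
        (Icc 0 s) σ := by
      intro σ hσ
      have h2 := hlt σ hσ.1 (lt_of_le_of_lt hσ.2 hs)
      rw [hU] at h2
      exact ((hΨd _ h2.1).comp_hasDerivAt σ (hγd σ)).hasDerivWithinAt
    have h3 : ∀ σ ∈ Ico (0 : ℝ) s, ‖fderiv ℝ Ψ (γ σ) (y - Φ x₁)‖ ≤ L * d := by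
      intro σ hσ
      obtain ⟨x, hx, hxγ⟩ := hlt σ hσ.1 (hσ.2.trans hs)
      have h4 := hbd x (hB hx) L (hLip x hx)
      rw [hxγ] at h4
      exact (ContinuousLinearMap.le_opNorm _ _).trans (mul_le_mul_of_nonneg_right h4 hd0)
    have h5 := norm_image_sub_le_of_norm_deriv_le_segment' h1 h3 s ⟨h0, le_rfl⟩
    rw [hγ0, hl x₁ hx₁, sub_zero] at h5
    exact h5
  -- the compact image
  have hK : IsCompact (Φ '' Metric.closedBall x₁ (L * d * b)) := by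
    refine (isCompact_closedBall x₁ _).image_of_continuousOn (hΦ.continuousOn.mono ?_)
    refine (Metric.closedBall_subset_ball ?_).trans hB
    calc L * d * b ≤ L * d * 1 := mul_le_mul_of_nonneg_left hbS.1.2 (by positivity)
      _ < ρ₀ := by rw [mul_one]; exact hdL
  have hmem : γ b ∈ Φ '' Metric.closedBall x₁ (L * d * b) := by
    refine hK.isClosed.mem_of_tendsto (b := 𝓝[<] b)
      ((hγc.tendsto b).mono_left nhdsWithin_le_nhds) ?_
    filter_upwards [Ico_mem_nhdsLT hb0] with s hs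
    have h1 := hlt s hs.1 hs.2
    have h2 := h1
    rw [hU] at h2
    refine ⟨Ψ (γ s), ?_, (hr _ h2.1).2⟩
    rw [Metric.mem_closedBall, dist_eq_norm]
    exact (hbound s hs.1 hs.2).trans (mul_le_mul_of_nonneg_left hs.2.le (by positivity))
  apply hbS.2
  obtain ⟨x, hx, hxγ⟩ := hmem
  refine ⟨x, Metric.closedBall_subset_ball ?_ hx, hxγ⟩
  calc L * d * b ≤ L * d * 1 := mul_le_mul_of_nonneg_left hbS.1.2 (by positivity)
    _ < ρ₀ := by rw [mul_one]; exact hdL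

end Pool.Agent.YUB
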