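import Pool.Agent.YUB.D3
import Pool.Agent.YUT.L1

open MeasureTheory Set Filter Topology
open scoped ContDiff

namespace Pool.Agent.YUB

open Pool.Agent.YUD Pool.Agent.YUT

/-- [YUB-D4] by `ball_image`, on the convex ball `ball (Φ x₁) (ρ₀/L)` the map `Function.invFunOn Φ M` is differentiable with
derivative of norm at most `L` (`inv_facts`: each point is `Φ z` with `z ∈ ball x₁ ρ₀`), so it is `L`-Lipschitz there
(`Convex.norm_image_sub_le_of_norm_fderiv_le`). -/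
theorem inv_lip {M : Set ℂ} (hM : IsOpen M) {Φ : ℂ → ℂ} (hΦ : ContDiffOn ℝ 1 Φ M)
    (hb : BijOn Φ M M) (hdet : ∀ x ∈ M, (fderiv ℝ Φ x).det = 1) {x₁ : ℂ} {ρ₀ L : ℝ}
    (hρ : 0 < ρ₀) (hL : 0 < L) (hB : Metric.ball x₁ ρ₀ ⊆ M)
    (hLip : ∀ x ∈ Metric.ball x₁ ρ₀, ‖fderiv ℝ Φ x‖ ≤ L) {x y : ℂ} (hx : x ∈ M) (hy : y ∈ M)
    (hx' : Φ x ∈ Metric.ball (Φ x₁) (ρ₀ / L)) (hy' : Φ y ∈ Metric.ball (Φ x₁) (ρ₀ / L)) :
    ‖x - y‖ ≤ L * ‖Φ x - Φ y‖ := by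
  obtain ⟨hc1, hl, hr, hbd⟩ := inv_facts hM hΦ hb hdet
  have himg := ball_image hM hΦ hb hdet hρ hL hB hLip
  have h1 : ∀ z ∈ Metric.ball (Φ x₁) (ρ₀ / L), DifferentiableAt ℝ (Function.invFunOn Φ M) z := by
    intro z hz
    obtain ⟨x, hx, rfl⟩ := himg hz
    exact (hc1.contDiffAt (hM.mem_nhds (hb.mapsTo (hB hx)))).differentiableAt one_ne_zero
  have h2 : ∀ z ∈ Metric.ball (Φ x₁) (ρ₀ / L), ‖fderiv ℝ (Function.invFunOn Φ M) z‖ ≤ L := by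
    intro z hz
    obtain ⟨x, hx, rfl⟩ := himg hz
    exact hbd x (hB hx) L (hLip x hx)
  have h3 := (convex_ball (Φ x₁) (ρ₀ / L)).norm_image_sub_le_of_norm_fderiv_le h1 h2 hy' hx'
  rwa [hl x hx, hl y hy] at h3

end Pool.Agent.YUB
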