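import Pool.Agent.YUB.D2
import Pool.Agent.YUT.L1

open MeasureTheory Set Filter Topology
open scoped ContDiff

namespace Pool.Agent.YUB

open Pool.Agent.YUD Pool.Agent.YUT

theorem D5a_gsq (f : ℂ → ℝ) (y : ℂ) : gsq f y = ‖fderiv ℝ f y‖ ^ 2 := by
  apply le_antisymm
  · set v : ℂ := ⟨dx f y, dy f y⟩ with hv
    have h1 : fderiv ℝ f y v = gsq f y := by
      rw [fderiv_apply', hv]
      unfold gsq
      ring
    have h2 : ‖v‖ ^ 2 = gsq f y := by
      rw [← Complex.normSq_eq_norm_sq, Complex.normSq_apply, hv]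
      unfold gsq
      ring
    have h3 := (fderiv ℝ f y).le_opNorm v
    rw [h1, Real.norm_eq_abs, abs_of_nonneg (gsq_nonneg f y), ← h2] at h3
    rw [← h2]
    by_cases hv0 : ‖v‖ = 0
    · rw [hv0, zero_pow two_ne_zero]
      exact pow_nonneg (norm_nonneg _) 2
    · have hv1 : 0 < ‖v‖ := lt_of_le_of_ne (norm_nonneg _) (Ne.symm hv0)
      have h4 : ‖v‖ ≤ ‖fderiv ℝ f y‖ := by nlinarith
      exact pow_le_pow_left₀ (norm_nonneg _) h4 2
  · have h1 : ‖fderiv ℝ f y‖ ≤ Real.sqrt (gsq f y) := by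
      refine ContinuousLinearMap.opNorm_le_bound _ (Real.sqrt_nonneg _) fun v => ?_
      rw [Real.norm_eq_abs, fderiv_apply']
      have h2 : ‖v‖ = Real.sqrt (v.re ^ 2 + v.im ^ 2) := by
        rw [Complex.norm_def, Complex.normSq_apply]
        congr 1
        ring
      rw [h2, ← Real.sqrt_mul (gsq_nonneg f y)]
      apply Real.abs_le_sqrt
      unfold gsq
      nlinarith [sq_nonneg (v.re * dy f y - v.im * dx f y)]
    calc ‖fderiv ℝ f y‖ ^ 2 ≤ Real.sqrt (gsq f y) ^ 2 := pow_le_pow_left₀ (norm_nonneg _) h1 2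
      _ = gsq f y := Real.sq_sqrt (gsq_nonneg f y)

theorem D5a_at {M : Set ℂ} (hM : IsOpen M) {Φ : ℂ → ℂ} {h : ℂ → ℝ} {y : ℂ} (hy : y ∈ M) :
    tb M Φ h =ᶠ[𝓝 y] fun z => h (Function.invFunOn Φ M z) := by
  filter_upwards [hM.mem_nhds hy] with z hz
  unfold tb
  rw [if_pos hz]

/-- [YUB-D5a] the transported function: `C¹` on `M` (`inv_facts`), zero outside the compact set `Φ '' K ⊆ M`, so `C¹`
on `ℂ` (near a point outside `M`, hence outside the closed set `Φ '' K`, it is zero). -/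
theorem tb_facts {M : Set ℂ} (hM : IsOpen M) {Φ : ℂ → ℂ} (hΦ : ContDiffOn ℝ 1 Φ M)
    (hb : BijOn Φ M M) (hdet : ∀ x ∈ M, (fderiv ℝ Φ x).det = 1) {h : ℂ → ℝ}
    (hh : ContDiff ℝ 1 h) {K : Set ℂ} (hK : IsCompact K) (hKM : K ⊆ M) (h0 : ∀ x, x ∉ K → h x = 0) :
    ContDiff ℝ 1 (tb M Φ h) ∧ HasCompactSupport (tb M Φ h) ∧ (∀ x ∈ M, tb M Φ h (Φ x) = h x) ∧
      ∀ y, tb M Φ h y ≠ 0 → ∃ x ∈ K, h x ≠ 0 ∧ y = Φ x := by
  obtain ⟨hc1, hl, hr, -⟩ := inv_facts hM hΦ hb hdet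
  have hKc : IsCompact (Φ '' K) := hK.image_of_continuousOn (hΦ.continuousOn.mono hKM)
  have hz : ∀ z, z ∉ Φ '' K → tb M Φ h z = 0 := by
    intro z hz
    unfold tb
    split_ifs with hzM
    · apply h0
      intro hk
      exact hz ⟨_, hk, (hr z hzM).2⟩
    · rfl
  refine ⟨?_, HasCompactSupport.intro hKc hz, ?_, ?_⟩
  · rw [contDiff_iff_contDiffAt]
    intro y
    by_cases hy : y ∈ M
    · refine ContDiffAt.congr_of_eventuallyEq ?_ (D5a_at hM hy)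
      exact hh.contDiffAt.comp y (hc1.contDiffAt (hM.mem_nhds hy))
    · have hy2 : y ∉ Φ '' K := by
        rintro ⟨x, hx, rfl⟩
        exact hy (hb.mapsTo (hKM hx))
      refine (contDiffAt_const (c := (0 : ℝ))).congr_of_eventuallyEq ?_
      filter_upwards [hKc.isClosed.isOpen_compl.mem_nhds hy2] with z hz'
      exact hz z hz'
  · intro x hx
    unfold tb
    rw [if_pos (hb.mapsTo hx), hl x hx]
  · intro y hy
    have hyM : y ∈ M := by
      by_contra hyM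
      apply hy
      unfold tb
      rw [if_neg hyM]
    have h1 : tb M Φ h y = h (Function.invFunOn Φ M y) := by
      unfold tb
      rw [if_pos hyM]
    rw [h1] at hy
    refine ⟨_, ?_, hy, (hr y hyM).2.symm⟩
    by_contra hk
    exact hy (h0 _ hk)

/-- [YUB-D5a] derivative of the transported function: for `x ∈ K ∩ M` chain rule and `inv_facts`; `gsq f x ≤ ‖fderiv ℝ f x‖ ^ 2`
and `‖fderiv ℝ f x‖ ^ 2 ≤ gsq f x` (the operator norm of a real functional on `ℂ` is the length of the gradient); at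
`x ∉ K` both gradients vanish if `K` is the support.. state: for every `x ∈ M` with `‖fderiv ℝ Φ x‖ ≤ L`. -/
theorem tb_grad {M : Set ℂ} (hM : IsOpen M) {Φ : ℂ → ℂ} (hΦ : ContDiffOn ℝ 1 Φ M)
    (hb : BijOn Φ M M) (hdet : ∀ x ∈ M, (fderiv ℝ Φ x).det = 1) {h : ℂ → ℝ}
    (hh : ContDiff ℝ 1 h) {x : ℂ} (hx : x ∈ M) {L : ℝ} (hL : ‖fderiv ℝ Φ x‖ ≤ L) :
    gsq (tb M Φ h) (Φ x) ≤ L ^ 2 * gsq h x := by
  obtain ⟨hc1, hl, hr, hbd⟩ := inv_facts hM hΦ hb hdet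
  have hy : Φ x ∈ M := hb.mapsTo hx
  have h1 : HasFDerivAt (Function.invFunOn Φ M) (fderiv ℝ (Function.invFunOn Φ M) (Φ x)) (Φ x) :=
    ((hc1.contDiffAt (hM.mem_nhds hy)).differentiableAt one_ne_zero).hasFDerivAt
  have h2 : HasFDerivAt h (fderiv ℝ h x) (Function.invFunOn Φ M (Φ x)) := by
    rw [hl x hx]
    exact (hh.differentiable one_ne_zero x).hasFDerivAt
  have h3 : HasFDerivAt (tb M Φ h) ((fderiv ℝ h x).comp (fderiv ℝ (Function.invFunOn Φ M) (Φ x))) (Φ x) :=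
    (h2.comp (Φ x) h1).congr_of_eventuallyEq (D5a_at hM hy)
  rw [D5a_gsq, D5a_gsq, h3.fderiv]
  have h4 := hbd x hx L hL
  have h5 : ‖(fderiv ℝ h x).comp (fderiv ℝ (Function.invFunOn Φ M) (Φ x))‖ ≤ ‖fderiv ℝ h x‖ * L :=
    (ContinuousLinearMap.opNorm_comp_le _ _).trans (mul_le_mul_of_nonneg_left h4 (norm_nonneg _))
  calc ‖(fderiv ℝ h x).comp (fderiv ℝ (Function.invFunOn Φ M) (Φ x))‖ ^ 2 ≤ (‖fderiv ℝ h x‖ * L) ^ 2 :=
        pow_le_pow_left₀ (norm_nonneg _) h5 2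
    _ = L ^ 2 * ‖fderiv ℝ h x‖ ^ 2 := by ring

end Pool.Agent.YUB
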