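import Pool.Agent.YUB.D5a
import Pool.Agent.YUT.L1

open MeasureTheory Set Filter Topology
open scoped ContDiff

namespace Pool.Agent.YUB

open Pool.Agent.YUD Pool.Agent.YUT

private theorem D5b_gsq_zero {f : ℂ → ℝ} {x : ℂ} (h : f =ᶠ[𝓝 x] fun _ => 0) : gsq f x = 0 := by
  have h1 : fderiv ℝ f x = 0 := by rw [h.fderiv_eq]; simp
  simp [gsq, dx, dy, h1]

private theorem D5b_image {M : Set ℂ} (hM : IsOpen M) {Φ : ℂ → ℂ} (hΦ : ContDiffOn ℝ 1 Φ M)
    (hb : BijOn Φ M M) (hdet : ∀ x ∈ M, (fderiv ℝ Φ x).det = 1) (g : ℂ → ℝ) :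
    ∫ y in M, g y = ∫ x in M, g (Φ x) := by
  have h1 := integral_image_eq_integral_abs_det_fderiv_smul (μ := volume) (s := M)
    (f := Φ) (f' := fun x => fderiv ℝ Φ x) hM.measurableSet
    (fun x hx => ((hΦ.differentiableOn (by norm_num)).differentiableAt
      (hM.mem_nhds hx)).hasFDerivAt.hasFDerivWithinAt) hb.injOn g
  rw [hb.image_eq] at h1
  rw [h1]
  refine setIntegral_congr_fun hM.measurableSet fun x hx => ?_
  simp only [hdet x hx, abs_one, one_smul]

/-- [YUB-D5b] change of variables: `tb M Φ h` vanishes off `M = Φ '' M`, and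
`integral_image_eq_integral_abs_det_fderiv_smul` (`|det| = 1`, `Φ` injective on `M`), as in `M1b.lean`. Valid for every
`F` (if one side is not integrable, neither is the other). -/
theorem tb_integral {M : Set ℂ} (hM : IsOpen M) {Φ : ℂ → ℂ} (hΦ : ContDiffOn ℝ 1 Φ M)
    (hb : BijOn Φ M M) (hdet : ∀ x ∈ M, (fderiv ℝ Φ x).det = 1) (h : ℂ → ℝ) (F : ℂ → ℝ → ℝ)
    (hF : ∀ y, F y 0 = 0) :
    ∫ y, F y (tb M Φ h y) = ∫ x in M, F (Φ x) (h x) := by
  have h1 : ∫ y in M, F y (tb M Φ h y) = ∫ y, F y (tb M Φ h y) := by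
    refine setIntegral_eq_integral_of_forall_compl_eq_zero fun y hy => ?_
    simp only [tb, if_neg hy, hF]
  rw [← h1, D5b_image hM hΦ hb hdet (fun y => F y (tb M Φ h y))]
  refine setIntegral_congr_fun hM.measurableSet fun x hx => ?_
  have h2 : Φ x ∈ M := hb.mapsTo hx
  have h3 : Function.invFunOn Φ M (Φ x) = x := (hb.injOn.leftInvOn_invFunOn) hx
  simp only [tb, if_pos h2, h3]

/-- [YUB-D5b] `∫ gsq (tb M Φ h) ≤ L² ∫ gsq h`: both vanish outside `Φ '' K` resp. `K`; change of variables and `tb_grad`;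
all integrands are continuous with compact support. (`gsq (tb M Φ h)` is zero at `Φ x` for `x ∈ M`, `x ∉ K`, since `tb M Φ h`
vanishes near `Φ x`; or by `tb_grad` at the single point with `L = ‖fderiv ℝ Φ x‖`, because `gsq h x = 0` there.) -/
theorem tb_gsq {M : Set ℂ} (hM : IsOpen M) {Φ : ℂ → ℂ} (hΦ : ContDiffOn ℝ 1 Φ M)
    (hb : BijOn Φ M M) (hdet : ∀ x ∈ M, (fderiv ℝ Φ x).det = 1) {h : ℂ → ℝ}
    (hh : ContDiff ℝ 1 h) {K : Set ℂ} (hK : IsCompact K) (hKM : K ⊆ M) (h0 : ∀ x, x ∉ K → h x = 0)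
    {L : ℝ} (hL : ∀ x ∈ K, ‖fderiv ℝ Φ x‖ ≤ L) :
    ∫ y, gsq (tb M Φ h) y ≤ L ^ 2 * ∫ x, gsq h x := by
  have hc : ContDiff ℝ 1 (tb M Φ h) ∧ HasCompactSupport (tb M Φ h) ∧
      (∀ x ∈ M, tb M Φ h (Φ x) = h x) ∧ ∀ y, tb M Φ h y ≠ 0 → ∃ x ∈ K, h x ≠ 0 ∧ y = Φ x :=
    tb_facts hM hΦ hb hdet hh hK hKM h0
  obtain ⟨-, -, -, hsupp⟩ := hc
  have hKi : IsCompact (Φ '' K) := hK.image_of_continuousOn (hΦ.continuousOn.mono hKM)
  have hz : ∀ y, y ∉ Φ '' K → gsq (tb M Φ h) y = 0 := by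
    intro y hy
    refine D5b_gsq_zero ?_
    filter_upwards [hKi.isClosed.isOpen_compl.mem_nhds hy] with z hz
    by_contra hne
    obtain ⟨x, hx, -, hzx⟩ := hsupp z hne
    exact hz ⟨x, hx, hzx.symm⟩
  have hzh : ∀ x, x ∉ K → gsq h x = 0 := by
    intro x hx
    refine D5b_gsq_zero ?_
    filter_upwards [hK.isClosed.isOpen_compl.mem_nhds hx] with z hz
    exact h0 z hz
  have h1 : ∫ y in M, gsq (tb M Φ h) y = ∫ y, gsq (tb M Φ h) y := by
    refine setIntegral_eq_integral_of_forall_compl_eq_zero fun y hy => hz y ?_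
    rintro ⟨x, hx, rfl⟩
    exact hy (hb.mapsTo (hKM hx))
  have hgc : Continuous (fun x => gsq h x) := by
    have h2 : Continuous (fderiv ℝ h) := hh.continuous_fderiv (by norm_num)
    have h3 : Continuous (fun x => fderiv ℝ h x 1) := h2.clm_apply continuous_const
    have h4 : Continuous (fun x => fderiv ℝ h x Complex.I) := h2.clm_apply continuous_const
    exact (h3.pow 2).add (h4.pow 2)
  have hgs : HasCompactSupport (fun x => gsq h x) :=
    HasCompactSupport.intro hK fun x hx => hzh x hx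
  have hgi : Integrable (fun x => gsq h x) := hgc.integrable_of_hasCompactSupport hgs
  rw [← h1, D5b_image hM hΦ hb hdet, ← integral_const_mul]
  have h5 : ∫ x in M, gsq (tb M Φ h) (Φ x) ≤ ∫ x in M, L ^ 2 * gsq h x := by
    refine integral_mono_of_nonneg (Eventually.of_forall fun x => gsq_nonneg _ _)
      (hgi.const_mul _).integrableOn ?_
    refine (ae_restrict_iff' hM.measurableSet).2 (Eventually.of_forall fun x hx => ?_)
    by_cases hxK : x ∈ K
    · exact tb_grad hM hΦ hb hdet hh hx (hL x hxK)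
    · have h6 := tb_grad hM hΦ hb hdet hh hx (le_refl ‖fderiv ℝ Φ x‖)
      rw [hzh x hxK, mul_zero] at h6
      show gsq (tb M Φ h) (Φ x) ≤ L ^ 2 * gsq h x
      rw [hzh x hxK, mul_zero]
      exact h6
  refine h5.trans (setIntegral_le_integral (hgi.const_mul _) (Eventually.of_forall fun x => ?_))
  exact mul_nonneg (sq_nonneg _) (gsq_nonneg _ _)

end Pool.Agent.YUB
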