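import Pool.Agent.YUB.Base

open MeasureTheory Set Filter Topology
open scoped ContDiff

namespace Pool.Agent.YUB

open Pool.Agent.YUD Pool.Agent.YUT

theorem D6_scale (g : ℂ → ℝ) (p : ℂ) {r : ℝ} (hr : 0 < r) :
    ∫ x, g (r⁻¹ • (x - p)) = r ^ 2 * ∫ x, g x := by
  rw [integral_sub_right_eq_self (fun x => g (r⁻¹ • x)) p,
    Measure.integral_comp_inv_smul_of_nonneg (μ := volume) g hr.le, Complex.finrank_real_complex,
    smul_eq_mul]

theorem D6_fderiv {β : ℂ → ℝ} (hβ : ContDiff ℝ ∞ β) (κ : ℝ) (p : ℂ) (r : ℝ) (x v : ℂ) :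
    fderiv ℝ (blob β κ p r) x v = κ * (r⁻¹ * fderiv ℝ β (r⁻¹ • (x - p)) v) := by
  have h1 : HasFDerivAt (fun x : ℂ => r⁻¹ • (x - p)) (r⁻¹ • ContinuousLinearMap.id ℝ ℂ) x :=
    ((hasFDerivAt_id x).sub_const p).const_smul r⁻¹
  have h2 : HasFDerivAt β (fderiv ℝ β (r⁻¹ • (x - p))) (r⁻¹ • (x - p)) :=
    (hβ.differentiable (by simp) _).hasFDerivAt
  have h3 : HasFDerivAt (blob β κ p r)
      (κ • (fderiv ℝ β (r⁻¹ • (x - p))).comp (r⁻¹ • ContinuousLinearMap.id ℝ ℂ)) x :=
    (h2.comp x h1).const_mul κ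
  rw [h3.fderiv]
  simp

theorem D6_gsq {β : ℂ → ℝ} (hβ : ContDiff ℝ ∞ β) (κ : ℝ) (p : ℂ) (r : ℝ) (x : ℂ) :
    gsq (blob β κ p r) x = (κ * r⁻¹) ^ 2 * gsq β (r⁻¹ • (x - p)) := by
  unfold gsq dx dy
  rw [D6_fderiv hβ, D6_fderiv hβ]
  ring

theorem D6_supp {β : ℂ → ℝ} {B : ℝ} (hβ : Profile β B) : HasCompactSupport β :=
  HasCompactSupport.intro (isCompact_closedBall (0 : ℂ) 1) fun x hx => hβ.supp x (by
    rw [Metric.mem_closedBall, dist_zero_right, not_le] at hx
    exact hx.le)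

theorem D6_abs {β : ℂ → ℝ} {B : ℝ} (hβ : Profile β B) : ∫ x, |β x| ≤ Real.pi := by
  have h1 : ∫ x, |β x| ≤ ∫ x, (Metric.ball (0 : ℂ) 1).indicator (fun _ => (1 : ℝ)) x := by
    refine integral_mono_of_nonneg (Eventually.of_forall fun x => abs_nonneg _) ?_ ?_
    · refine (integrable_indicator_iff measurableSet_ball).2 ?_
      exact integrableOn_const (by exact measure_ball_lt_top.ne)
    · refine Eventually.of_forall fun x => ?_
      show |β x| ≤ (Metric.ball (0 : ℂ) 1).indicator (fun _ => (1 : ℝ)) x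
      by_cases hx : x ∈ Metric.ball (0 : ℂ) 1
      · rw [indicator_of_mem hx]
        exact hβ.abs_le x
      · rw [indicator_of_notMem hx, hβ.supp x, abs_zero]
        rw [Metric.mem_ball, dist_zero_right, not_lt] at hx
        exact hx
  refine h1.trans (le_of_eq ?_)
  rw [integral_indicator measurableSet_ball, setIntegral_const, smul_eq_mul, mul_one]
  rw [measureReal_def, Complex.volume_ball]
  simp

/-- [YUB-D6] the blob: scaling `x = p + r y` (`MeasureTheory.Measure.integral_comp_smul`,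
`integral_sub_right_eq_self`; the dimension is `2`). `|β| ≤ 1`, supported in the unit ball of area `π`. `∫ β^2 > 0`
because `β` is continuous and `β 0 = 1`. If `∫ gsq β = 0` then `β` is constant, equal to its value `0` at `2`,
contradiction. -/
theorem blob_facts {β : ℂ → ℝ} {B : ℝ} (hβ : Profile β B) (κ : ℝ) (p : ℂ) {r : ℝ} (hr : 0 < r) :
    ContDiff ℝ 1 (blob β κ p r) ∧ (∀ x, x ∉ Metric.closedBall p r → blob β κ p r x = 0) ∧
      (∀ x, |blob β κ p r x| ≤ |κ|) ∧ ∫ x, blob β κ p r x = 0 ∧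
      ∫ x, blob β κ p r x ^ 2 = κ ^ 2 * r ^ 2 * ∫ x, β x ^ 2 ∧
      ∫ x, gsq (blob β κ p r) x = κ ^ 2 * ∫ x, gsq β x ∧
      ∫ x, |blob β κ p r x| ≤ |κ| * (Real.pi * r ^ 2) := by
  have hr0 : r ≠ 0 := hr.ne'
  refine ⟨?_, ?_, ?_, ?_, ?_, ?_, ?_⟩
  · have h1 : ContDiff ℝ 1 (fun x : ℂ => r⁻¹ • (x - p)) := (contDiff_id.sub contDiff_const).const_smul r⁻¹
    exact contDiff_const.mul ((hβ.smooth.of_le (by simp)).comp h1)
  · intro x hx
    unfold blob
    rw [hβ.supp, mul_zero]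
    rw [Metric.mem_closedBall, dist_eq_norm, not_le] at hx
    rw [norm_smul, norm_inv, Real.norm_eq_abs, abs_of_pos hr, ← div_eq_inv_mul, one_le_div hr]
    exact hx.le
  · intro x
    unfold blob
    rw [abs_mul]
    exact mul_le_of_le_one_right (abs_nonneg _) (hβ.abs_le _)
  · have h1 := D6_scale (fun x => κ * β x) p hr
    have h2 : ∫ x, κ * β x = 0 := by rw [integral_const_mul, hβ.mean, mul_zero]
    rw [h2, mul_zero] at h1
    exact h1
  · have h1 := D6_scale (fun x => (κ * β x) ^ 2) p hr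
    have h2 : ∫ x, (κ * β x) ^ 2 = κ ^ 2 * ∫ x, β x ^ 2 := by
      rw [← integral_const_mul]
      congr 1
      funext x
      ring
    rw [h2] at h1
    rw [show (fun x => blob β κ p r x ^ 2) = fun x => (κ * β (r⁻¹ • (x - p))) ^ 2 from rfl, h1]
    ring
  · have h1 := D6_scale (fun x => (κ * r⁻¹) ^ 2 * gsq β x) p hr
    have h2 : ∫ x, (κ * r⁻¹) ^ 2 * gsq β x = (κ * r⁻¹) ^ 2 * ∫ x, gsq β x := integral_const_mul _ _
    rw [h2] at h1
    simp only [D6_gsq hβ.smooth]
    rw [h1]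
    field_simp
  · have h1 := D6_scale (fun x => |κ * β x|) p hr
    have h2 : ∫ x, |κ * β x| = |κ| * ∫ x, |β x| := by
      rw [← integral_const_mul]
      congr 1
      funext x
      rw [abs_mul]
    rw [h2] at h1
    rw [show (fun x => |blob β κ p r x|) = fun x => |κ * β (r⁻¹ • (x - p))| from rfl, h1]
    have h3 := D6_abs hβ
    have h4 : |κ| * ∫ x, |β x| ≤ |κ| * Real.pi := mul_le_mul_of_nonneg_left h3 (abs_nonneg _)
    nlinarith [sq_nonneg r]

/-- [YUB-D6] -/
theorem profile_pos {β : ℂ → ℝ} {B : ℝ} (hβ : Profile β B) :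
    0 < ∫ x, β x ^ 2 ∧ 0 < ∫ x, gsq β x := by
  have hc : Continuous β := hβ.smooth.continuous
  have hs := D6_supp hβ
  constructor
  · refine Continuous.integral_pos_of_hasCompactSupport_nonneg_nonzero (hc.pow 2) ?_
      (fun x => sq_nonneg _) (x := 0) ?_
    · exact hs.comp_left (g := fun y : ℝ => y ^ 2) (by simp)
    · simp [hβ.zero]
  · have hd : Continuous (fderiv ℝ β) := hβ.smooth.continuous_fderiv (by simp)
    have hgc : Continuous (gsq β) :=
      ((hd.clm_apply continuous_const).pow 2).add ((hd.clm_apply continuous_const).pow 2)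
    have hgs : HasCompactSupport (gsq β) :=
      (hs.fderiv (𝕜 := ℝ)).comp_left (g := fun A : ℂ →L[ℝ] ℝ => (A 1) ^ 2 + (A Complex.I) ^ 2) (by simp)
    obtain ⟨x, hx⟩ : ∃ x, gsq β x ≠ 0 := by
      by_contra hn
      push Not at hn
      have h1 : ∀ x, fderiv ℝ β x = 0 := by
        intro x
        have h2 := norm_fderiv_sq_le β x
        rw [hn x, mul_zero] at h2
        have h3 : ‖fderiv ℝ β x‖ = 0 := by nlinarith [norm_nonneg (fderiv ℝ β x)]
        exact norm_eq_zero.1 h3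
      have h2 := is_const_of_fderiv_eq_zero (𝕜 := ℝ) (hβ.smooth.differentiable (by simp)) h1 0 2
      rw [hβ.zero, hβ.supp 2 (by simp)] at h2
      exact one_ne_zero h2
    exact Continuous.integral_pos_of_hasCompactSupport_nonneg_nonzero hgc hgs
      (fun x => gsq_nonneg β x) hx

end Pool.Agent.YUB
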