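import Pool.Agent.YUT.PDefs

/-!
# [YUB] Unbounded growth of vorticity near every state: definitions

The plane is `ℂ`. Functions on a flat channel `(ℝ/pℤ) × (0,h)` are functions on the strip
`0 < y < h` with period `p`, functions on a flat torus `ℝ²/(pℤ × qℤ)` are functions on the plane
with the periods `p` and `q i`. All notions depend on two real numbers `p`, `q`, which are `0` for
plane domains.
-/

open MeasureTheory Set Filter Topology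
open scoped ContDiff

namespace Pool.Agent.YUB

open Pool.Agent.YUD Pool.Agent.YUT

/-- `f` has the periods `p` and `q i` in `M` -/
def Per2 (p q : ℝ) (M : Set ℂ) (f : ℂ → ℝ) : Prop :=
  ∀ x ∈ M, f (x + p) = f x ∧ f (x + q * Complex.I) = f x

/-- `f` tends to zero at the boundary of `M`, modulo the periods (no condition on a torus) -/
def Zero2 (p q : ℝ) (M : Set ℂ) (f : ℂ → ℝ) : Prop :=
  ∀ ε > 0, ∃ K ⊆ M, IsCompact K ∧
    ∀ x ∈ M, (∀ m n : ℤ, x + (m * p : ℝ) + (n * q : ℝ) * Complex.I ∉ K) → |f x| < ε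

/-- `(ψ, Φ)` is a global solution with the periods `p`, `q i`, in Lagrangian form, of the Euler
equations in `M` with initial vorticity `w₀`: `Φ t : M → M` are area preserving diffeomorphisms,
`Φ 0 = id`, `∂_t Φ = ∇^⊥ ψ(Φ)`, `ψ = 0` on the boundary, the vorticity `Δψ` is transported by `Φ`,
and `ψ` and its partial derivatives of order `≤ 2` are bounded on `M`, locally uniformly in time. -/
structure QFlow (p q : ℝ) (M : Set ℂ) (w₀ : ℂ → ℝ) (ψ : ℝ → ℂ → ℝ) (Φ : ℝ → ℂ → ℂ) : Prop where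
  stream : ∀ T : ℝ, ∃ C : ℝ, ∀ t, 0 ≤ t → t ≤ T →
    ContDiffOn ℝ 2 (ψ t) M ∧ JetLe M 2 C (ψ t) ∧ Zero2 p q M (ψ t)
  per : ∀ t, 0 ≤ t → ∀ x ∈ M, ψ t (x + p) = ψ t x ∧ ψ t (x + q * Complex.I) = ψ t x ∧
    Φ t (x + p) = Φ t x + p ∧ Φ t (x + q * Complex.I) = Φ t x + q * Complex.I
  cont : ContinuousOn (fun z : ℝ × ℂ => (ψ z.1 z.2, fderiv ℝ (ψ z.1) z.2)) (Ici 0 ×ˢ M)
  c1 : ContDiffOn ℝ 1 (fun z : ℝ × ℂ => Φ z.1 z.2) (Ici 0 ×ˢ M)
  bij : ∀ t, 0 ≤ t → BijOn (Φ t) M M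
  area : ∀ t, 0 ≤ t → ∀ x ∈ M, (fderiv ℝ (Φ t) x).det = 1
  start : ∀ x ∈ M, Φ 0 x = x
  ode : ∀ t, 0 ≤ t → ∀ x ∈ M,
    HasDerivWithinAt (fun s => Φ s x) (perp (ψ t) (Φ t x)) (Ici 0) t
  vort : ∀ t, 0 ≤ t → ∀ x ∈ M, lap (ψ t) (Φ t x) = w₀ x

/-- The fluid domains: bounded open sets of the plane (`p = q = 0`), flat channels
`(ℝ/pℤ) × (0,h)` (`q = 0`), and flat tori `ℝ²/(pℤ × qℤ)`. -/
def Dom (p q : ℝ) (M : Set ℂ) : Prop :=
  (p = 0 ∧ q = 0 ∧ IsOpen M ∧ Bornology.IsBounded M) ∨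
    (0 < p ∧ q = 0 ∧ ∃ h : ℝ, 0 < h ∧ M = Strip h) ∨
    (0 < p ∧ 0 < q ∧ M = univ)

/-- `f` is in the little Hölder class on `U`:
`|f x - f y| ≤ η ‖x - y‖^α` for `x, y ∈ U` close to each other, for every `η > 0`.
(Equivalently, `f` is locally a limit in `C^α` of smooth functions; functions in `C^{α'}` with
`α' > α` are in this class.) -/
def Little (U : Set ℂ) (α : ℝ) (f : ℂ → ℝ) : Prop :=
  ∀ η > 0, ∃ δ > 0, ∀ x ∈ U, ∀ y ∈ U, ‖x - y‖ < δ → |f x - f y| ≤ η * ‖x - y‖ ^ α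

end Pool.Agent.YUB
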