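import Pool.Agent.YUB.Base

open MeasureTheory Set Filter Topology
open scoped ContDiff

namespace Pool.Agent.YUB

open Pool.Agent.YUD Pool.Agent.YUT

theorem E1_wed {a b : ℝ → ℂ} {a' b' : ℂ} {S : Set ℝ} {t : ℝ} (ha : HasDerivWithinAt a a' S t)
    (hb : HasDerivWithinAt b b' S t) :
    HasDerivWithinAt (fun s => wed (a s) (b s)) (wed a' (b t) + wed (a t) b') S t := by
  have hre : ∀ {c : ℝ → ℂ} {c' : ℂ}, HasDerivWithinAt c c' S t →
      HasDerivWithinAt (fun s => (c s).re) c'.re S t := fun h =>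
    (Complex.reCLM.hasFDerivAt.comp_hasDerivWithinAt t h)
  have him : ∀ {c : ℝ → ℂ} {c' : ℂ}, HasDerivWithinAt c c' S t →
      HasDerivWithinAt (fun s => (c s).im) c'.im S t := fun h =>
    (Complex.imCLM.hasFDerivAt.comp_hasDerivWithinAt t h)
  have h := ((hre ha).mul (him hb)).sub ((him ha).mul (hre hb))
  refine h.congr_deriv ?_
  simp only [wed]
  ring

theorem E1_QQ (f : ℂ → ℝ) (c y : ℂ) : QQ f c y = gg (fun z => (1 / 2 : ℝ) • z) f y -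
    gg (fun z => (1 / 2 : ℝ) • z) f c + 1 / 2 * (-fderiv ℝ f y c + fderiv ℝ f c y) := by
  unfold QQ gg
  simp only [map_sub, map_smul, smul_eq_mul]
  ring

/-- [YUB-E1] the relative action. With `Y z = z/2`: `gg Y f y = 1/2 fderiv f y y - f y`. The function
`m s = wed (Φ s x) (Φ s x₁)` has the right derivative (`h.ode`, on `Ici 0`)
`wed (perp (ψ s) (Φ s x)) (Φ s x₁) + wed (Φ s x) (perp (ψ s) (Φ s x₁)) =
-fderiv (ψ s) (Φ s x) (Φ s x₁) + fderiv (ψ s) (Φ s x₁) (Φ s x)` (`wed_perp`, `wed_perp_right`), and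
`QQ (ψ s) c y = gg Y (ψ s) y - gg Y (ψ s) c + 1/2 (-fderiv (ψ s) y c + fderiv (ψ s) c y)` for `y = Φ s x`,
`c = Φ s x₁` (linearity of `fderiv`). Integrate (`intervalIntegral.integral_eq_sub_of_hasDeriv_right_of_le`; all
functions of `s` are continuous on `Ici 0` by `h.cont` and the continuity of `s ↦ Φ s x`; cf. `PB_gg` and
`WFlow.transport` in `PBase.lean`); `Φ 0 x = x`. -/
theorem rel_action {M : Set ℂ} {w₀ : ℂ → ℝ} {ψ : ℝ → ℂ → ℝ} {Φ : ℝ → ℂ → ℂ} (hM : IsOpen M)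
    (h : WFlow M w₀ ψ Φ) {t : ℝ} (ht : 0 ≤ t) {x x₁ : ℂ} (hx : x ∈ M) (hx₁ : x₁ ∈ M) :
    ∫ s in (0 : ℝ)..t, QQ (ψ s) (Φ s x₁) (Φ s x) =
      act (fun z => (1 / 2 : ℝ) • z) ψ Φ t x - act (fun z => (1 / 2 : ℝ) • z) ψ Φ t x₁ +
        1 / 2 * (wed (Φ t x) (Φ t x₁) - wed x x₁) := by
  have hcx : ∀ {y : ℂ}, y ∈ M → ContinuousOn (fun s => Φ s y) (Ici 0) := fun hy s hs =>
    (h.ode s hs _ hy).continuousWithinAt
  have hmem : ∀ {y : ℂ}, y ∈ M → ∀ s, 0 ≤ s → Φ s y ∈ M := fun hy s hs => (h.bij s hs).mapsTo hy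
  have hG : ∀ {y : ℂ}, y ∈ M → ContinuousOn (fun s => fderiv ℝ (ψ s) (Φ s y)) (Ici 0) := by
    intro y hy
    have h1 := h.cont.comp (continuousOn_id.prodMk (hcx hy)) (fun s hs => ⟨hs, hmem hy s hs⟩)
    exact h1.snd
  have hYc : Continuous (fun z : ℂ => (1 / 2 : ℝ) • z) := continuous_const_smul _
  have hsub : Icc 0 t ⊆ Ici 0 := fun s hs => hs.1
  have i1 : IntervalIntegrable (fun s => gg (fun z => (1 / 2 : ℝ) • z) (ψ s) (Φ s x)) volume 0 t :=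
    ((PB_gg hYc h hx).mono hsub).intervalIntegrable_of_Icc ht
  have i2 : IntervalIntegrable (fun s => gg (fun z => (1 / 2 : ℝ) • z) (ψ s) (Φ s x₁)) volume 0 t :=
    ((PB_gg hYc h hx₁).mono hsub).intervalIntegrable_of_Icc ht
  have hc3 : ContinuousOn (fun s => -fderiv ℝ (ψ s) (Φ s x) (Φ s x₁) +
      fderiv ℝ (ψ s) (Φ s x₁) (Φ s x)) (Ici 0) :=
    ((hG hx).clm_apply (hcx hx₁)).neg.add ((hG hx₁).clm_apply (hcx hx))
  have i3 : IntervalIntegrable (fun s => -fderiv ℝ (ψ s) (Φ s x) (Φ s x₁) +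
      fderiv ℝ (ψ s) (Φ s x₁) (Φ s x)) volume 0 t :=
    (hc3.mono hsub).intervalIntegrable_of_Icc ht
  have hm : ∫ s in (0 : ℝ)..t, (-fderiv ℝ (ψ s) (Φ s x) (Φ s x₁) +
      fderiv ℝ (ψ s) (Φ s x₁) (Φ s x)) = wed (Φ t x) (Φ t x₁) - wed (Φ 0 x) (Φ 0 x₁) := by
    refine intervalIntegral.integral_eq_sub_of_hasDeriv_right_of_le
      (f := fun s => wed (Φ s x) (Φ s x₁)) ht ?_ ?_ i3
    · intro s hs
      exact ((E1_wed (h.ode s hs.1 x hx) (h.ode s hs.1 x₁ hx₁)).continuousWithinAt).mono hsub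
    · intro s hs
      have h1 := E1_wed (h.ode s hs.1.le x hx) (h.ode s hs.1.le x₁ hx₁)
      rw [wed_perp, wed_perp_right] at h1
      exact h1.mono fun u hu => hs.1.le.trans (le_of_lt hu)
  simp only [E1_QQ]
  rw [intervalIntegral.integral_add (i1.sub i2) (i3.const_mul _), intervalIntegral.integral_sub i1 i2,
    intervalIntegral.integral_const_mul, hm, h.start x hx, h.start x₁ hx₁]
  rfl

end Pool.Agent.YUB
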