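import Pool.Agent.YUB.E1

open MeasureTheory Set Filter Topology
open scoped ContDiff

namespace Pool.Agent.YUB

open Pool.Agent.YUD Pool.Agent.YUT

/-- [YUB-E2] `rel_action` and `WFlow.action_diff` (`PBase.lean`) for `Y z = z/2` (divergence `1`) and the segment
`γ s = x₁ + s (x - x₁)`, which lies in the ball: `act x - act x₁ = ∫_0^1 wed (Φ(γ)/2) (DΦ(γ)(x - x₁)) ds
- ∫_0^1 wed (γ/2) (x - x₁) ds`. The last integral is `1/2 wed x₁ x` and `-1/2 wed x x₁` cancels it. Moreover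
`1/2 wed (Φ x) (Φ x₁) = - ∫_0^1 wed (Φ x₁/2) (DΦ(γ)(x - x₁)) ds` (the derivative of `s ↦ Φ(γ s)` integrates to
`Φ x - Φ x₁`, `wed c c = 0`). So the left side is `∫_0^1 1/2 wed (Φ(γ s) - Φ x₁) (DΦ(γ s)(x - x₁)) ds`, and
`‖Φ(γ s) - Φ x₁‖ ≤ L ‖x - x₁‖` (mean value inequality on the ball), `|wed a b| ≤ ‖a‖ ‖b‖`. -/
theorem rel_action_le {M : Set ℂ} {w₀ : ℂ → ℝ} {ψ : ℝ → ℂ → ℝ} {Φ : ℝ → ℂ → ℂ} (hM : IsOpen M)
    (h : WFlow M w₀ ψ Φ) {t : ℝ} (ht : 0 ≤ t) {a : ℂ} {ρ L : ℝ} (hB : Metric.ball a ρ ⊆ M)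
    (hL : ∀ x ∈ Metric.ball a ρ, ‖fderiv ℝ (Φ t) x‖ ≤ L) {x x₁ : ℂ} (hx : x ∈ Metric.ball a ρ)
    (hx₁ : x₁ ∈ Metric.ball a ρ) :
    |∫ s in (0 : ℝ)..t, QQ (ψ s) (Φ s x₁) (Φ s x)| ≤ L ^ 2 * ‖x - x₁‖ ^ 2 := by
  have hxM := hB hx
  have hx₁M := hB hx₁
  have hL0 : 0 ≤ L := (norm_nonneg _).trans (hL x hx)
  set γ : ℝ → ℂ := fun s => x₁ + s • (x - x₁) with hγdef
  have hγB : ∀ s ∈ Icc (0 : ℝ) 1, γ s ∈ Metric.ball a ρ := fun s hs =>
    (convex_ball a ρ).add_smul_sub_mem hx₁ hx hs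
  have hγd : ∀ s, HasDerivAt γ (x - x₁) s := by
    intro s
    have h1 : HasDerivAt (fun s : ℝ => s • (x - x₁)) ((1 : ℝ) • (x - x₁)) s :=
      (hasDerivAt_id s).smul_const _
    rw [one_smul] at h1
    exact h1.const_add _
  have hγ0 : γ 0 = x₁ := by simp [hγdef]
  have hγ1 : γ 1 = x := by simp [hγdef]
  have hγc : Continuous γ := by
    rw [hγdef]
    fun_prop
  have hYc : Continuous (fun z : ℂ => (1 / 2 : ℝ) • z) := continuous_const_smul _
  have hYd : ContDiff ℝ 1 (fun z : ℂ => (1 / 2 : ℝ) • z) := contDiff_id.const_smul _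
  have hdiv : ∀ z ∈ M, (fderiv ℝ (fun z : ℂ => (1 / 2 : ℝ) • z) z 1).re +
      (fderiv ℝ (fun z : ℂ => (1 / 2 : ℝ) • z) z Complex.I).im = 1 := by
    intro z _
    have h1 : HasFDerivAt (fun z : ℂ => (1 / 2 : ℝ) • z) ((1 / 2 : ℝ) • ContinuousLinearMap.id ℝ ℂ) z :=
      ((1 / 2 : ℝ) • ContinuousLinearMap.id ℝ ℂ).hasFDerivAt
    rw [h1.fderiv]
    simp
    norm_num
  have hact := h.action_diff hM hYc hYd.contDiffOn hdiv ht (γ := γ) (γ' := fun _ => x - x₁)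
    (fun s hs => hB (hγB s hs)) (fun s _ => (hγd s).hasDerivWithinAt) continuousOn_const
  rw [hγ0, hγ1] at hact
  have hrel := rel_action hM h ht hxM hx₁M
  -- the second integral
  have h2 : ∫ s in (0 : ℝ)..1, wed ((1 / 2 : ℝ) • γ s) (x - x₁) = 1 / 2 * wed x₁ x := by
    have e : ∀ s : ℝ, wed ((1 / 2 : ℝ) • γ s) (x - x₁) = 1 / 2 * wed x₁ x := by
      intro s
      simp only [wed, hγdef, Complex.add_re, Complex.add_im, Complex.sub_re, Complex.sub_im,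
        Complex.real_smul, Complex.mul_re, Complex.mul_im, Complex.ofReal_re, Complex.ofReal_im]
      ring
    simp only [e]
    rw [intervalIntegral.integral_const]
    simp
  -- the derivative of `Φ (γ s)`
  have hΦd : ∀ s ∈ Icc (0 : ℝ) 1, HasDerivAt (fun s => Φ t (γ s)) (fderiv ℝ (Φ t) (γ s) (x - x₁)) s := by
    intro s hs
    have h1 : HasFDerivAt (Φ t) (fderiv ℝ (Φ t) (γ s)) (γ s) :=
      (((h.contDiffOn hM ht).differentiableOn (by norm_num)).differentiableAt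
        (hM.mem_nhds (hB (hγB s hs)))).hasFDerivAt
    exact h1.comp_hasDerivAt s (hγd s)
  have hΦc : ContinuousOn (fun s => Φ t (γ s)) (Icc (0 : ℝ) 1) := fun s hs =>
    (hΦd s hs).continuousAt.continuousWithinAt
  have hFc : ContinuousOn (fun s => fderiv ℝ (Φ t) (γ s) (x - x₁)) (Icc (0 : ℝ) 1) := by
    have h1 : ContinuousOn (fun s => fderiv ℝ (Φ t) (γ s)) (Icc (0 : ℝ) 1) :=
      (h.cont_fderiv hM).comp (continuousOn_const.prodMk hγc.continuousOn)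
        (fun s hs => ⟨ht, hB (hγB s hs)⟩)
    exact h1.clm_apply continuousOn_const
  have hwc : ∀ {u v : ℝ → ℂ}, ContinuousOn u (Icc (0 : ℝ) 1) → ContinuousOn v (Icc (0 : ℝ) 1) →
      ContinuousOn (fun s => wed (u s) (v s)) (Icc (0 : ℝ) 1) := by
    intro u v hu hv
    unfold wed
    exact ((Complex.continuous_re.comp_continuousOn hu).mul (Complex.continuous_im.comp_continuousOn hv)).sub
      ((Complex.continuous_im.comp_continuousOn hu).mul (Complex.continuous_re.comp_continuousOn hv))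
  have h3 : ∫ s in (0 : ℝ)..1, wed (Φ t x₁) (fderiv ℝ (Φ t) (γ s) (x - x₁)) = wed (Φ t x₁) (Φ t x) := by
    have h4 : ∫ s in (0 : ℝ)..1, wed (Φ t x₁) (fderiv ℝ (Φ t) (γ s) (x - x₁)) =
        wed (Φ t x₁) (Φ t (γ 1)) - wed (Φ t x₁) (Φ t (γ 0)) := by
      refine intervalIntegral.integral_eq_sub_of_hasDeriv_right_of_le
        (f := fun s => wed (Φ t x₁) (Φ t (γ s))) zero_le_one
        (hwc continuousOn_const hΦc) ?_
        ((hwc continuousOn_const hFc).intervalIntegrable_of_Icc zero_le_one)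
      intro s hs
      have h5 := E1_wed (S := Ioi s) (hasDerivWithinAt_const s _ (Φ t x₁))
        (hΦd s ⟨hs.1.le, hs.2.le⟩).hasDerivWithinAt
      have h6 : wed 0 (Φ t (γ s)) = 0 := by simp [wed]
      rw [h6, zero_add] at h5
      exact h5
    rw [h4, hγ0, hγ1]
    have h7 : wed (Φ t x₁) (Φ t x₁) = 0 := by
      unfold wed
      ring
    rw [h7, sub_zero]
  have hi1 : IntervalIntegrable (fun s => wed ((1 / 2 : ℝ) • Φ t (γ s))
      (fderiv ℝ (Φ t) (γ s) (x - x₁))) volume 0 1 :=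
    (hwc (u := fun s => (1 / 2 : ℝ) • Φ t (γ s)) (hΦc.const_smul (1 / 2 : ℝ)) hFc).intervalIntegrable_of_Icc
      zero_le_one
  have hi2 : IntervalIntegrable (fun s => wed (Φ t x₁)
      (fderiv ℝ (Φ t) (γ s) (x - x₁))) volume 0 1 :=
    (hwc continuousOn_const hFc).intervalIntegrable_of_Icc zero_le_one
  have hmain : ∫ s in (0 : ℝ)..t, QQ (ψ s) (Φ s x₁) (Φ s x) =
      ∫ s in (0 : ℝ)..1, 1 / 2 * wed (Φ t (γ s) - Φ t x₁) (fderiv ℝ (Φ t) (γ s) (x - x₁)) := by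
    have e : ∀ s : ℝ, 1 / 2 * wed (Φ t (γ s) - Φ t x₁) (fderiv ℝ (Φ t) (γ s) (x - x₁)) =
        wed ((1 / 2 : ℝ) • Φ t (γ s)) (fderiv ℝ (Φ t) (γ s) (x - x₁)) -
        1 / 2 * wed (Φ t x₁) (fderiv ℝ (Φ t) (γ s) (x - x₁)) := by
      intro s
      simp only [wed, Complex.sub_re, Complex.sub_im,
        Complex.real_smul, Complex.mul_re, Complex.mul_im, Complex.ofReal_re, Complex.ofReal_im]
      ring
    simp only [e]
    rw [intervalIntegral.integral_sub hi1 (hi2.const_mul _), intervalIntegral.integral_const_mul, h3,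
      hrel, hact, h2]
    have h8 : wed x₁ x = -wed x x₁ := by
      unfold wed
      ring
    have h9 : wed (Φ t x₁) (Φ t x) = -wed (Φ t x) (Φ t x₁) := by
      unfold wed
      ring
    rw [h8, h9]
    ring
  rw [hmain]
  have hbound : ∀ s ∈ Set.uIoc (0 : ℝ) 1,
      ‖1 / 2 * wed (Φ t (γ s) - Φ t x₁) (fderiv ℝ (Φ t) (γ s) (x - x₁))‖ ≤ L ^ 2 * ‖x - x₁‖ ^ 2 := by
    intro s hs
    rw [uIoc_of_le zero_le_one] at hs
    have hs' : s ∈ Icc (0 : ℝ) 1 := ⟨hs.1.le, hs.2⟩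
    have h10 : ‖Φ t (γ s) - Φ t x₁‖ ≤ L * ‖x - x₁‖ := by
      have h11 := (convex_ball a ρ).norm_image_sub_le_of_norm_fderiv_le (𝕜 := ℝ)
        (fun z hz => ((h.contDiffOn hM ht).differentiableOn (by norm_num)).differentiableAt
          (hM.mem_nhds (hB hz))) hL hx₁ (hγB s hs')
      refine h11.trans (mul_le_mul_of_nonneg_left ?_ hL0)
      have h12 : γ s - x₁ = s • (x - x₁) := by simp [hγdef]
      rw [h12, norm_smul, Real.norm_eq_abs, abs_of_nonneg hs'.1]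
      exact mul_le_of_le_one_left (norm_nonneg _) hs'.2
    have h13 : ‖fderiv ℝ (Φ t) (γ s) (x - x₁)‖ ≤ L * ‖x - x₁‖ :=
      (ContinuousLinearMap.le_opNorm _ _).trans
        (mul_le_mul_of_nonneg_right (hL _ (hγB s hs')) (norm_nonneg _))
    have h14 := wed_le (Φ t (γ s) - Φ t x₁) (fderiv ℝ (Φ t) (γ s) (x - x₁))
    have h15 : ‖Φ t (γ s) - Φ t x₁‖ * ‖fderiv ℝ (Φ t) (γ s) (x - x₁)‖ ≤ (L * ‖x - x₁‖) * (L * ‖x - x₁‖) :=
      mul_le_mul h10 h13 (norm_nonneg _) (by positivity)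
    rw [norm_mul, Real.norm_eq_abs, Real.norm_eq_abs]
    have h16 : |(1 / 2 : ℝ)| = 1 / 2 := by norm_num
    rw [h16]
    nlinarith [h14, h15, abs_nonneg (wed (Φ t (γ s) - Φ t x₁) (fderiv ℝ (Φ t) (γ s) (x - x₁)))]
  have h17 := intervalIntegral.norm_integral_le_of_norm_le_const hbound
  rw [sub_zero, abs_one, mul_one, Real.norm_eq_abs] at h17
  exact h17

end Pool.Agent.YUB
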