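import Pool.Agent.YUB.Base

open MeasureTheory Set Filter Topology
open scoped ContDiff

namespace Pool.Agent.YUB

open Pool.Agent.YUD Pool.Agent.YUT

/-- [YUB-E3] Fubini. The function `(s, x) ↦ h₀ x * QQ (ψ s) (Φ s x₁) (Φ s x)` is continuous on `Icc 0 t ×ˢ K` (`h.cont`
composed with `(s, Φ s x)` and `(s, Φ s x₁)`, `h.cont_Phi`; `fderiv` applied to a continuous vector), `K` is compact, and `h₀`
vanishes off `K`; so it is bounded and integrable on `Icc 0 t ×ˢ K`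
(`ContinuousOn.integrableOn_compact`, product measure), and `integral_integral_swap` /
`intervalIntegral`-Fubini. Both integrals over `M` equal integrals over `K`. -/
theorem rel_fubini {M : Set ℂ} {w₀ : ℂ → ℝ} {ψ : ℝ → ℂ → ℝ} {Φ : ℝ → ℂ → ℂ} (hM : IsOpen M)
    (h : WFlow M w₀ ψ Φ) {t : ℝ} (ht : 0 ≤ t) {x₁ : ℂ} (hx₁ : x₁ ∈ M) {h₀ : ℂ → ℝ}
    (hc : Continuous h₀) {K : Set ℂ} (hK : IsCompact K) (hKM : K ⊆ M) (h0 : ∀ x, x ∉ K → h₀ x = 0) :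
    (∫ x in M, h₀ x * ∫ s in (0 : ℝ)..t, QQ (ψ s) (Φ s x₁) (Φ s x)) =
        (∫ s in (0 : ℝ)..t, ∫ x in M, h₀ x * QQ (ψ s) (Φ s x₁) (Φ s x)) ∧
      IntervalIntegrable (fun s => ∫ x in M, h₀ x * QQ (ψ s) (Φ s x₁) (Φ s x)) volume 0 t := by
  have hmem : ∀ s, 0 ≤ s → ∀ x ∈ M, Φ s x ∈ M := fun s hs x hx => (h.bij s hs).mapsTo hx
  have hP : ContinuousOn (fun p : ℝ × ℂ => Φ p.1 p.2) (Icc 0 t ×ˢ K) :=
    h.cont_Phi.mono (Set.prod_mono Icc_subset_Ici_self hKM)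
  have hP1 : ContinuousOn (fun p : ℝ × ℂ => Φ p.1 x₁) (Icc 0 t ×ˢ K) := by
    have h1 : ContinuousOn (fun p : ℝ × ℂ => ((p.1, x₁) : ℝ × ℂ)) (Icc 0 t ×ˢ K) :=
      continuousOn_fst.prodMk continuousOn_const
    exact h.cont_Phi.comp h1 (fun p hp => ⟨hp.1.1, hx₁⟩)
  have hA := h.cont.comp (continuousOn_fst.prodMk hP) (fun p hp => ⟨hp.1.1, hmem p.1 hp.1.1 p.2 (hKM hp.2)⟩)
  have hB := h.cont.comp (continuousOn_fst.prodMk hP1) (fun p hp => ⟨hp.1.1, hmem p.1 hp.1.1 x₁ hx₁⟩)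
  have hA1 : ContinuousOn (fun p : ℝ × ℂ => ψ p.1 (Φ p.1 p.2)) (Icc 0 t ×ˢ K) := hA.fst
  have hA2 : ContinuousOn (fun p : ℝ × ℂ => fderiv ℝ (ψ p.1) (Φ p.1 p.2)) (Icc 0 t ×ˢ K) := hA.snd
  have hB1 : ContinuousOn (fun p : ℝ × ℂ => ψ p.1 (Φ p.1 x₁)) (Icc 0 t ×ˢ K) := hB.fst
  have hB2 : ContinuousOn (fun p : ℝ × ℂ => fderiv ℝ (ψ p.1) (Φ p.1 x₁)) (Icc 0 t ×ˢ K) := hB.snd
  have hF : ContinuousOn (fun p : ℝ × ℂ => h₀ p.2 * QQ (ψ p.1) (Φ p.1 x₁) (Φ p.1 p.2)) (Icc 0 t ×ˢ K) := by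
    refine (hc.comp_continuousOn continuousOn_snd).mul ?_
    unfold QQ
    exact (((hA2.clm_apply (hP.sub hP1)).add (hB2.clm_apply (hP.sub hP1))).div_const 2).sub (hA1.sub hB1)
  have hint0 : IntegrableOn (fun p : ℝ × ℂ => h₀ p.2 * QQ (ψ p.1) (Φ p.1 x₁) (Φ p.1 p.2)) (Icc 0 t ×ˢ K)
      (volume : Measure (ℝ × ℂ)) := hF.integrableOn_compact (isCompact_Icc.prod hK)
  have hint1 : IntegrableOn (fun p : ℝ × ℂ => h₀ p.2 * QQ (ψ p.1) (Φ p.1 x₁) (Φ p.1 p.2)) (Ioc 0 t ×ˢ K)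
      (volume : Measure (ℝ × ℂ)) := hint0.mono_set (Set.prod_mono Ioc_subset_Icc_self (Subset.refl K))
  have hint : Integrable (fun p : ℝ × ℂ => h₀ p.2 * QQ (ψ p.1) (Φ p.1 x₁) (Φ p.1 p.2))
      (((volume : Measure ℝ).restrict (Ioc 0 t)).prod ((volume : Measure ℂ).restrict K)) := by
    rw [Measure.prod_restrict]
    exact hint1
  have hKm : MeasurableSet K := hK.isClosed.measurableSet
  have hMK : ∀ f : ℂ → ℝ, (∫ x in M, h₀ x * f x) = ∫ x in K, h₀ x * f x := by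
    intro f
    refine setIntegral_eq_of_subset_of_forall_sdiff_eq_zero hM.measurableSet hKM fun x hx => ?_
    rw [h0 x hx.2, zero_mul]
  have hI : IntegrableOn (fun s => ∫ x in M, h₀ x * QQ (ψ s) (Φ s x₁) (Φ s x)) (Ioc 0 t) volume := by
    have h1 := hint.integral_prod_left
    refine h1.congr ?_
    filter_upwards with s
    exact (hMK fun x => QQ (ψ s) (Φ s x₁) (Φ s x)).symm
  refine ⟨?_, ?_⟩
  · rw [hMK fun x => ∫ s in (0 : ℝ)..t, QQ (ψ s) (Φ s x₁) (Φ s x), intervalIntegral.integral_of_le ht]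
    have h2 : ∀ x, h₀ x * ∫ s in (0 : ℝ)..t, QQ (ψ s) (Φ s x₁) (Φ s x) =
        ∫ s in Ioc 0 t, h₀ x * QQ (ψ s) (Φ s x₁) (Φ s x) := by
      intro x
      rw [intervalIntegral.integral_of_le ht, ← integral_const_mul]
    have h3 : ∀ s, ∫ x in M, h₀ x * QQ (ψ s) (Φ s x₁) (Φ s x) = ∫ x in K, h₀ x * QQ (ψ s) (Φ s x₁) (Φ s x) :=
      fun s => hMK fun x => QQ (ψ s) (Φ s x₁) (Φ s x)
    simp only [h2, h3]
    exact (integral_integral_swap hint).symm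
  · rw [intervalIntegrable_iff_integrableOn_Ioc_of_le ht]
    exact hI

end Pool.Agent.YUB
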