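import Pool.Agent.YUB.Base
import Pool.Agent.YUT.D0

open MeasureTheory Set Filter Topology
open scoped ContDiff

namespace Pool.Agent.YUB

open Pool.Agent.YUD Pool.Agent.YUT

/-- [YUB-F1] a profile: let `b` be a `ContDiffBump 0` with `rIn = 1/2`, `rOut = 1` (values in `[0,1]`, `1` on the closed ball of
radius `1/2`, `0` off the unit ball, see `exists_bump` and `D0_aux` in `YUT/D0.lean` for the derivative bounds), and
`β x = 4/3 b (2 x) - 1/3 b x`. `∫ b (2x) = 1/4 ∫ b` gives mean zero; `β 0 = 1`; `|β| ≤ 1`: for `‖x‖ ≤ 1/2`,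
`β x = 4/3 b(2x) - 1/3 ∈ [-1/3, 1]`; for `‖x‖ > 1/2`, `b (2x) = 0`. -/
theorem exists_profile : ∃ (β : ℂ → ℝ) (B : ℝ), Profile β B := by
  obtain ⟨b, hin, hout⟩ : ∃ b : ContDiffBump (0 : ℂ), b.rIn = 1 / 2 ∧ b.rOut = 1 :=
    ⟨⟨1 / 2, 1, by norm_num, by norm_num⟩, rfl, rfl⟩
  have hcd : ContDiff ℝ ∞ (b : ℂ → ℝ) := b.contDiff
  have hb0 : ∀ x, 0 ≤ b x := fun x => b.nonneg
  have hb1 : ∀ x, b x ≤ 1 := fun x => b.le_one
  have hz : ∀ x : ℂ, 1 ≤ ‖x‖ → b x = 0 := by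
    intro x hx
    apply b.zero_of_le_dist
    rw [dist_zero_right, hout]
    exact hx
  have ho : ∀ x : ℂ, ‖x‖ ≤ 1 / 2 → b x = 1 := by
    intro x hx
    apply b.one_of_mem_closedBall
    rw [mem_closedBall_zero_iff, hin]
    exact hx
  have hn : ∀ x : ℂ, ‖(2 : ℝ) • x‖ = 2 * ‖x‖ := by
    intro x
    rw [norm_smul, Real.norm_of_nonneg (by norm_num)]
  obtain ⟨β, hβ⟩ : ∃ β : ℂ → ℝ, β = fun x => 4 / 3 * b ((2 : ℝ) • x) - 1 / 3 * b x := ⟨_, rfl⟩
  have hβx : ∀ x, β x = 4 / 3 * b ((2 : ℝ) • x) - 1 / 3 * b x := fun x => by rw [hβ]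
  have hβc : ContDiff ℝ ∞ β := by
    rw [hβ]
    exact (contDiff_const.mul (hcd.comp (contDiff_const_smul (2 : ℝ)))).sub
      (contDiff_const.mul hcd)
  have hsupp : ∀ x, 1 ≤ ‖x‖ → β x = 0 := by
    intro x hx
    rw [hβx, hz x hx, hz _ (by rw [hn]; linarith)]
    norm_num
  have hcs : HasCompactSupport β := by
    refine HasCompactSupport.intro (isCompact_closedBall (0 : ℂ) 1) fun x hx => hsupp x ?_
    rw [mem_closedBall_zero_iff, not_le] at hx
    exact hx.le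
  obtain ⟨B0, hB0⟩ := (hcs.fderiv ℝ).exists_bound_of_continuous
    (hβc.continuous_fderiv (by norm_num))
  have hBle : ∀ x, ‖fderiv ℝ β x‖ ≤ max 1 B0 := fun x => (hB0 x).trans (le_max_right _ _)
  have hbi : Integrable (b : ℂ → ℝ) :=
    b.continuous.integrable_of_hasCompactSupport b.hasCompactSupport
  refine ⟨β, max 1 B0, le_max_left _ _, hβc, ?_, hsupp, ?_, hBle, ?_, ?_⟩
  · rw [hβx, smul_zero, ho 0 (by simp)]
    norm_num
  · intro x
    rw [hβx]
    have h1 := hb0 x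
    have h2 := hb1 x
    have h3 := hb0 ((2 : ℝ) • x)
    have h4 := hb1 ((2 : ℝ) • x)
    rcases le_or_gt ‖x‖ (1 / 2) with hx | hx
    · rw [ho x hx, abs_le]
      constructor <;> linarith
    · rw [hz _ (by rw [hn]; linarith), abs_le]
      constructor <;> linarith
  · intro x y
    have hd : Differentiable ℝ β := hβc.differentiable (by norm_num)
    have := convex_univ.norm_image_sub_le_of_norm_fderiv_le (fun z _ => hd z)
      (fun z _ => hBle z) (mem_univ y) (mem_univ x)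
    rwa [Real.norm_eq_abs] at this
  · have h1 : ∫ x : ℂ, b ((2 : ℝ) • x) = 1 / 4 * ∫ x : ℂ, b x := by
      rw [Measure.integral_comp_smul volume (b : ℂ → ℝ) (2 : ℝ), Complex.finrank_real_complex]
      norm_num
    have hbi2 : Integrable (fun x : ℂ => b ((2 : ℝ) • x)) :=
      (integrable_comp_smul_iff volume (b : ℂ → ℝ) (by norm_num : (2 : ℝ) ≠ 0)).2 hbi
    have h2 : ∫ x, β x = (4 / 3 * ∫ x : ℂ, b ((2 : ℝ) • x)) - 1 / 3 * ∫ x : ℂ, b x := by
      rw [hβ, integral_sub (hbi2.const_mul _) (hbi.const_mul _), integral_const_mul,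
        integral_const_mul]
    rw [h2, h1]
    ring

end Pool.Agent.YUB
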