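import Pool.Agent.YUB.Base

open MeasureTheory Set Filter Topology
open scoped ContDiff

namespace Pool.Agent.YUB

open Pool.Agent.YUD Pool.Agent.YUT

/-- [YUB-F2] blobs give roughness. Given `x₀, e, δ` take `η ≤ δ`, `η ≤ σ/8` and `p, r`; then `x = p`, `s = r`:
`blob (p ± r e) = 0` (`β = 0` on the unit circle), `blob p = σ r^α`; the second difference of `S` is at most
`2 (η r^α + H r^α') ≤ 4 η r^α` (`H r^α' = H r^(α'-α) r^α`), the one of `T` at most `4 η r^α`. So the second difference of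
`w` is at least `2 σ r^α - 8 η r^α ≥ σ r^α` in absolute value. -/
theorem blobs_rough {U : Set ℂ} {β : ℂ → ℝ} {B α α' σ : ℝ} (hβ : Profile β B) (hσ : 0 < σ)
    {w : ℂ → ℝ} (hw : Blobs U β α α' σ w) : RoughC U α σ w := by
  intro x₀ hx₀ e he δ hδ
  obtain ⟨η, hη0, hηδ, hησ⟩ : ∃ η : ℝ, 0 < η ∧ η ≤ δ ∧ η ≤ σ / 8 :=
    ⟨min δ (σ / 8), lt_min hδ (by positivity), min_le_left _ _, min_le_right _ _⟩
  obtain ⟨p, r, hp, hr0, hrη, hball, S, T, H, hH0, hH, hT, hS, hwST⟩ := hw x₀ hx₀ η hη0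
  have hre : ‖r • e‖ = r := by rw [norm_smul, Real.norm_eq_abs, abs_of_pos hr0, he, mul_one]
  have hpU : p ∈ U := hball (Metric.mem_closedBall_self hr0.le)
  have hp1 : p + r • e ∈ U := by
    apply hball
    rw [Metric.mem_closedBall, dist_eq_norm, add_sub_cancel_left, hre]
  have hp2 : p - r • e ∈ U := by
    apply hball
    rw [Metric.mem_closedBall, dist_eq_norm, sub_sub_cancel_left, norm_neg, hre]
  have hA : 0 < r ^ α := Real.rpow_pos_of_pos hr0 α
  have hS1 : ∀ x ∈ U, ‖x - p‖ = r → |S x - S p| ≤ 2 * η * r ^ α := by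
    intro x hx hxr
    refine (hS x hx p hpU).trans ?_
    rw [hxr]
    have h1 : H * r ^ α' ≤ η * r ^ α := by
      have h2 : r ^ α' = r ^ (α' - α) * r ^ α := by
        rw [← Real.rpow_add hr0, sub_add_cancel]
      rw [h2, ← mul_assoc]
      exact mul_le_mul_of_nonneg_right hH hA.le
    linarith
  have hb1 : blob β (σ * r ^ α) p r (p + r • e) = 0 := by
    unfold blob
    rw [add_sub_cancel_left, smul_smul, inv_mul_cancel₀ hr0.ne', one_smul, hβ.supp e he.ge,
      mul_zero]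
  have hb2 : blob β (σ * r ^ α) p r (p - r • e) = 0 := by
    unfold blob
    rw [sub_sub_cancel_left, smul_neg, smul_smul, inv_mul_cancel₀ hr0.ne', one_smul,
      hβ.supp (-e) (by rw [norm_neg]; exact he.ge), mul_zero]
  have hb3 : blob β (σ * r ^ α) p r p = σ * r ^ α := by
    unfold blob
    rw [sub_self, smul_zero, hβ.zero, mul_one]
  refine ⟨p, r, hr0, hrη.trans_le hηδ, hp.trans_le hηδ, hball, ?_⟩
  have hs1 := hS1 _ hp1 (by rw [add_sub_cancel_left, hre])
  have hs2 := hS1 _ hp2 (by rw [sub_sub_cancel_left, norm_neg, hre])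
  have ht1 := hT _ hp1
  have ht2 := hT _ hp2
  have ht3 := hT _ hpU
  rw [hwST _ hp1, hwST _ hp2, hwST _ hpU, hb1, hb2, hb3]
  have hηA : 8 * (η * r ^ α) ≤ σ * r ^ α := by
    have := mul_le_mul_of_nonneg_right hησ hA.le
    linarith
  rw [abs_le] at hs1 hs2 ht1 ht2 ht3
  rw [le_abs]
  right
  linarith [hs1.1, hs1.2, hs2.1, hs2.2, ht1.1, ht1.2, ht2.1, ht2.2, ht3.1, ht3.2]

end Pool.Agent.YUB
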