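import Pool.Agent.YUB.Base

open MeasureTheory Set Filter Topology
open scoped ContDiff

namespace Pool.Agent.YUB

open Pool.Agent.YUD Pool.Agent.YUT

/-- [YUB-F3] points and radii. Let `q` be a dense sequence of points of `U` (`TopologicalSpace.exists_dense_seq` in the subtype)
and `p j = q (Nat.unpair j).1`, so that every open subset of `U` contains `p j` for infinitely many `j`. `closedBall (p j) (ρ j) ⊆ U`
with `ρ j > 0`. Recursively, with state `(r j, s j)`, `s j = ∑_{i<j} r i ^ (α-1)`: `r j = min 1 (ρ j) (g j (s j)) / 2` and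
`≤ θ * r (j-1)`; `s (j+1) = s j + r j ^ (α-1)`. As `r j ≤ θ^j → 0` and each open set contains infinitely many `p j`, the last
claim holds. See `exists_tasks` in `YUT/D1.lean` (complete) for a similar construction. -/
theorem exists_points {U : Set ℂ} (hU : IsOpen U) (hne : U.Nonempty) {θ α : ℝ} (hθ : 0 < θ)
    (hθ1 : θ < 1) (g : ℕ → ℝ → ℝ) (hg : ∀ j s, 0 < g j s) :
    ∃ (p : ℕ → ℂ) (r : ℕ → ℝ),
      (∀ j, 0 < r j ∧ r j ≤ 1 ∧ Metric.closedBall (p j) (r j) ⊆ U) ∧
      (∀ j, r (j + 1) ≤ θ * r j) ∧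
      (∀ j, r j ≤ g j (∑ i ∈ Finset.range j, r i ^ (α - 1))) ∧
      ∀ x₀ ∈ U, ∀ δ > 0, ∀ N : ℕ, ∃ j, N ≤ j ∧ ‖p j - x₀‖ < δ ∧ r j < δ := by
  obtain ⟨m, hm⟩ := hne
  have hT : Nonempty U := ⟨⟨m, hm⟩⟩
  let q : ℕ → U := fun j => TopologicalSpace.denseSeq U (Nat.unpair j).1
  have hρ : ∀ j, ∃ ρ : ℝ, 0 < ρ ∧ Metric.closedBall ((q j : U) : ℂ) ρ ⊆ U := by
    intro j
    obtain ⟨ε, hε, hb⟩ := Metric.isOpen_iff.1 hU _ (q j).2
    exact ⟨ε / 2, by positivity, (Metric.closedBall_subset_ball (by linarith)).trans hb⟩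
  choose ρ hρ0 hρ1 using hρ
  let st : ℕ → ℝ × ℝ := fun j => Nat.rec (min (min 1 (ρ 0)) (g 0 0), 0)
    (fun j x => (min (min (θ * x.1) (ρ (j + 1))) (g (j + 1) (x.2 + x.1 ^ (α - 1))),
      x.2 + x.1 ^ (α - 1))) j
  let r : ℕ → ℝ := fun j => (st j).1
  let s : ℕ → ℝ := fun j => (st j).2
  have r0 : r 0 = min (min 1 (ρ 0)) (g 0 0) := rfl
  have s0 : s 0 = 0 := rfl
  have s1 : ∀ j, s (j + 1) = s j + r j ^ (α - 1) := fun j => rfl
  have r1 : ∀ j, r (j + 1) = min (min (θ * r j) (ρ (j + 1))) (g (j + 1) (s (j + 1))) := fun j => rfl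
  have hs : ∀ j, s j = ∑ i ∈ Finset.range j, r i ^ (α - 1) := by
    intro j
    induction j with
    | zero => rw [s0, Finset.range_zero, Finset.sum_empty]
    | succ j ih => rw [s1, Finset.sum_range_succ, ih]
  have rpos : ∀ j, 0 < r j := by
    intro j
    induction j with
    | zero => rw [r0]; exact lt_min (lt_min one_pos (hρ0 0)) (hg _ _)
    | succ j ih => rw [r1]; exact lt_min (lt_min (by positivity) (hρ0 _)) (hg _ _)
  have rθ : ∀ j, r (j + 1) ≤ θ * r j := by
    intro j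
    rw [r1]
    exact (min_le_left _ _).trans (min_le_left _ _)
  have rpow : ∀ j, r j ≤ θ ^ j := by
    intro j
    induction j with
    | zero => rw [r0, pow_zero]; exact (min_le_left _ _).trans (min_le_left _ _)
    | succ j ih =>
      rw [pow_succ']
      exact (rθ j).trans (mul_le_mul_of_nonneg_left ih hθ.le)
  have rρ : ∀ j, r j ≤ ρ j := by
    intro j
    cases j with
    | zero => rw [r0]; exact (min_le_left _ _).trans (min_le_right _ _)
    | succ j => rw [r1]; exact (min_le_left _ _).trans (min_le_right _ _)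
  have rg : ∀ j, r j ≤ g j (s j) := by
    intro j
    cases j with
    | zero => rw [r0, s0]; exact min_le_right _ _
    | succ j => rw [r1]; exact min_le_right _ _
  refine ⟨fun j => ((q j : U) : ℂ), r, ?_, rθ, ?_, ?_⟩
  · intro j
    exact ⟨rpos j, (rpow j).trans (pow_le_one₀ hθ.le hθ1.le),
      (Metric.closedBall_subset_closedBall (rρ j)).trans (hρ1 j)⟩
  · intro j
    rw [← hs]
    exact rg j
  · intro x₀ hx₀ δ hδ N
    obtain ⟨i, hi⟩ := (TopologicalSpace.denseRange_denseSeq U).exists_dist_lt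
      (⟨x₀, hx₀⟩ : U) hδ
    obtain ⟨k, hk⟩ := exists_pow_lt_of_lt_one hδ hθ1
    have hq : q (Nat.pair i (max k N)) = TopologicalSpace.denseSeq U i := by
      show TopologicalSpace.denseSeq U (Nat.unpair (Nat.pair i (max k N))).1 = _
      rw [Nat.unpair_pair]
    have h1 : max k N ≤ Nat.pair i (max k N) := Nat.right_le_pair i (max k N)
    refine ⟨Nat.pair i (max k N), (le_max_right k N).trans h1, ?_, ?_⟩
    · show ‖((q (Nat.pair i (max k N)) : U) : ℂ) - x₀‖ < δ
      rw [hq, ← dist_eq_norm, dist_comm]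
      exact hi
    · exact ((rpow _).trans (pow_le_pow_of_le_one hθ.le hθ1.le ((le_max_left k N).trans h1))).trans_lt hk

end Pool.Agent.YUB
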