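import Pool.Agent.YUB.F3
import Pool.Agent.YUT.D2b

open MeasureTheory Set Filter Topology
open scoped ContDiff

namespace Pool.Agent.YUB

open Pool.Agent.YUD Pool.Agent.YUT

theorem F4_tail {α : ℝ} {r ε : ℕ → ℝ} (hr0 : ∀ j, 0 < r j) (hε : ∀ j, 0 ≤ ε j ∧ ε j ≤ 1 / 2)
    (htail : ∀ j, r (j + 1) ^ α ≤ ε j * r j ^ α) (j n : ℕ) :
    r (n + (j + 1)) ^ α ≤ ε j * r j ^ α * (1 / 2) ^ n := by
  induction n with
  | zero =>
    rw [zero_add, pow_zero, mul_one]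
    exact htail j
  | succ n ih =>
    have h1 := htail (n + (j + 1))
    have h2 : n + 1 + (j + 1) = n + (j + 1) + 1 := by omega
    rw [h2]
    have h3 : 0 ≤ r (n + (j + 1)) ^ α := Real.rpow_nonneg (hr0 _).le _
    calc r (n + (j + 1) + 1) ^ α ≤ ε (n + (j + 1)) * r (n + (j + 1)) ^ α := h1
      _ ≤ 1 / 2 * r (n + (j + 1)) ^ α := mul_le_mul_of_nonneg_right (hε _).2 h3
      _ ≤ 1 / 2 * (ε j * r j ^ α * (1 / 2) ^ n) := mul_le_mul_of_nonneg_left ih (by norm_num)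
      _ = ε j * r j ^ α * (1 / 2) ^ (n + 1) := by ring

/-- [YUB-F4] decomposition of the series at stage `j`. `Σ_i r_i^α β((x-p_i)/r_i)` is the sum of the terms `i < j`, the `j`-th
term `blob β (r j ^ α) (p j) (r j) x` and the tail. Each term `i < j` is Lipschitz with constant `B r_i^(α-1)`; the tail is at
most `∑_{i>j} r_i^α ≤ r_j^α (θ^α/(1-θ^α))`... here we only use the hypothesis `htail` : `r (i+1)^α ≤ ε_i r_i^α` with `ε_i ≤ 1/2` and
`ε_i → 0`: then `∑_{i>j} r_i^α ≤ 2 ε_j r_j^α`. (`ser β α p r σ` with `σ = 1`: `tsum`, summable as `r_i^α ≤ θ^(iα)`,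
see `series_bound` in `YUT/D2b.lean`; `Summable.sum_add_tsum_nat_add`.) -/
theorem ser_split {β : ℂ → ℝ} {B θ α : ℝ} (hβ : Profile β B) (hθ : 0 < θ) (hθ1 : θ < 1)
    (hα : 0 < α) (hα1 : α < 1) {p : ℕ → ℂ} {r ε : ℕ → ℝ} (hr0 : ∀ j, 0 < r j) (hr1 : ∀ j, r j ≤ 1)
    (hr : ∀ j, r (j + 1) ≤ θ * r j) (hε : ∀ j, 0 ≤ ε j ∧ ε j ≤ 1 / 2)
    (hεm : ∀ j, ε (j + 1) ≤ ε j) (htail : ∀ j, r (j + 1) ^ α ≤ ε j * r j ^ α) (j : ℕ) :
    ∃ S T : ℂ → ℝ, (∀ x y, |S x - S y| ≤ B * (∑ i ∈ Finset.range j, r i ^ (α - 1)) * ‖x - y‖) ∧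
      (∀ x, |T x| ≤ 2 * ε j * r j ^ α) ∧
      ∀ x, ser β α p r (fun _ => 1) x = S x + blob β (r j ^ α) (p j) (r j) x + T x := by
  have hB : 0 ≤ B := by linarith [hβ.one_le]
  let V : ℕ → ℂ → ℝ := fun i x => β ((r i)⁻¹ • (x - p i))
  have hV : ∀ i x, ‖V i x‖ ≤ B := fun i x => (hβ.abs_le _).trans hβ.one_le
  have hVL : ∀ i x y, ‖V i x - V i y‖ ≤ B * ‖x - y‖ / r i := by
    intro i x y
    have h1 := hβ.lip ((r i)⁻¹ • (x - p i)) ((r i)⁻¹ • (y - p i))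
    have h2 : ‖(r i)⁻¹ • (x - p i) - (r i)⁻¹ • (y - p i)‖ = ‖x - y‖ / r i := by
      rw [← smul_sub, sub_sub_sub_cancel_right, norm_smul, norm_inv, Real.norm_of_nonneg (hr0 i).le,
        div_eq_inv_mul]
    rw [h2] at h1
    rw [mul_div_assoc]
    exact h1
  obtain ⟨C, hC, hser⟩ := series_bound hθ hθ1 hα hα1 hB (E := ℝ)
  have hsum : ∀ x, Summable fun i => r i ^ α • V i x := (hser r V hr0 hr1 hr hV hVL).1
  refine ⟨fun x => ∑ i ∈ Finset.range j, r i ^ α • V i x,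
    fun x => ∑' n, r (n + (j + 1)) ^ α • V (n + (j + 1)) x, ?_, ?_, ?_⟩
  · intro x y
    rw [← Finset.sum_sub_distrib, Finset.mul_sum, Finset.sum_mul]
    refine (Finset.abs_sum_le_sum_abs _ _).trans (Finset.sum_le_sum fun i _ => ?_)
    rw [← smul_sub, smul_eq_mul, abs_mul, abs_of_nonneg (Real.rpow_nonneg (hr0 i).le α)]
    have h6 : r i ^ (α - 1) = r i ^ α / r i := by
      rw [Real.rpow_sub (hr0 i), Real.rpow_one]
    calc r i ^ α * |V i x - V i y| ≤ r i ^ α * (B * ‖x - y‖ / r i) :=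
          mul_le_mul_of_nonneg_left (hVL i x y) (Real.rpow_nonneg (hr0 i).le α)
      _ = B * r i ^ (α - 1) * ‖x - y‖ := by
          rw [h6]
          ring
  · intro x
    have hg : HasSum (fun n : ℕ => ε j * r j ^ α * (1 / 2 : ℝ) ^ n) (ε j * r j ^ α * 2) := by
      have h1 := (hasSum_geometric_of_lt_one (r := (1 / 2 : ℝ)) (by norm_num) (by norm_num)).mul_left (ε j * r j ^ α)
      have h2 : (1 - (1 / 2 : ℝ))⁻¹ = 2 := by norm_num
      rwa [h2] at h1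
    have h1 : ‖∑' n, r (n + (j + 1)) ^ α • V (n + (j + 1)) x‖ ≤ ε j * r j ^ α * 2 := by
      apply tsum_of_norm_bounded hg
      intro n
      rw [norm_smul, Real.norm_of_nonneg (Real.rpow_nonneg (hr0 _).le α)]
      have h2 : ‖V (n + (j + 1)) x‖ ≤ 1 := hβ.abs_le _
      have h3 : 0 ≤ r (n + (j + 1)) ^ α := Real.rpow_nonneg (hr0 _).le _
      calc r (n + (j + 1)) ^ α * ‖V (n + (j + 1)) x‖ ≤ r (n + (j + 1)) ^ α * 1 :=
            mul_le_mul_of_nonneg_left h2 h3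
        _ ≤ ε j * r j ^ α * (1 / 2) ^ n := by
            rw [mul_one]
            exact F4_tail hr0 hε htail j n
    calc |∑' n, r (n + (j + 1)) ^ α • V (n + (j + 1)) x| ≤ ε j * r j ^ α * 2 := h1
      _ = 2 * ε j * r j ^ α := by ring
  · intro x
    have h1 : ser β α p r (fun _ => 1) x = ∑' i, r i ^ α • V i x := by
      unfold ser
      congr 1
      funext i
      show _ = r i ^ α * V i x
      ring
    have h2 := (hsum x).sum_add_tsum_nat_add (j + 1)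
    rw [h1, ← h2, Finset.sum_range_succ]
    rfl

end Pool.Agent.YUB
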