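import Pool.Agent.YUB.F3
import Pool.Agent.YUB.F4
import Pool.Agent.YUT.D3a

open MeasureTheory Set Filter Topology
open scoped ContDiff

namespace Pool.Agent.YUB

open Pool.Agent.YUD Pool.Agent.YUT

/-- the bound of `f` -/
theorem F5_f {U : Set ℂ} {α α' : ℝ} (hα' : 0 < α') {f : ℂ → ℝ} {K : ℝ} (hK0 : 0 ≤ K)
    (hK : ∀ x ∈ U, |f x| ≤ K) {η δ : ℝ} (hη : 0 ≤ η) (hδ : 0 < δ)
    (h : ∀ x ∈ U, ∀ y ∈ U, ‖x - y‖ < δ → |f x - f y| ≤ η * ‖x - y‖ ^ α) {x y : ℂ} (hx : x ∈ U)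
    (hy : y ∈ U) : |f x - f y| ≤ η * ‖x - y‖ ^ α + 2 * K * δ ^ (-α') * ‖x - y‖ ^ α' := by
  have h1 : 0 ≤ 2 * K * δ ^ (-α') * ‖x - y‖ ^ α' := by
    have := Real.rpow_nonneg hδ.le (-α')
    have := Real.rpow_nonneg (norm_nonneg (x - y)) α'
    positivity
  have h2 : 0 ≤ η * ‖x - y‖ ^ α := mul_nonneg hη (Real.rpow_nonneg (norm_nonneg _) _)
  rcases lt_or_ge ‖x - y‖ δ with hd | hd
  · have := h x hx y hy hd
    linarith
  · have h3 : |f x - f y| ≤ 2 * K := by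
      have e1 := abs_le.1 (hK x hx)
      have e2 := abs_le.1 (hK y hy)
      rw [abs_le]
      constructor <;> linarith [e1.1, e1.2, e2.1, e2.2]
    have h4 : δ ^ α' ≤ ‖x - y‖ ^ α' := Real.rpow_le_rpow hδ.le hd hα'.le
    have h5 : 1 ≤ δ ^ (-α') * ‖x - y‖ ^ α' := by
      have h6 : δ ^ (-α') * δ ^ α' = 1 := by
        rw [← Real.rpow_add hδ, neg_add_cancel, Real.rpow_zero]
      rw [← h6]
      exact mul_le_mul_of_nonneg_left h4 (Real.rpow_nonneg hδ.le _)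
    have h7 : 2 * K ≤ 2 * K * δ ^ (-α') * ‖x - y‖ ^ α' := by
      rw [mul_assoc]
      exact le_mul_of_one_le_right (by positivity) h5
    linarith

theorem F5_pow {r X γ : ℝ} (hr : 0 ≤ r) (hX : 0 ≤ X) (hγ : 0 < γ) (h : r ≤ X ^ (1 / γ)) :
    r ^ γ ≤ X := by
  have h1 := Real.rpow_le_rpow hr h hγ.le
  rwa [← Real.rpow_mul hX, one_div_mul_cancel hγ.ne', Real.rpow_one] at h1

theorem F5_tail {r r' s α e : ℝ} (hr : 0 < r) (hr' : 0 ≤ r') (hα : 0 < α) (hα1 : α < 1)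
    (he : 0 < e) (hs : r ^ (α - 1) ≤ s) (h : r' ≤ e ^ (1 / α) * s ^ (1 / (α - 1))) :
    r' ^ α ≤ e * r ^ α := by
  have hs0 : 0 < r ^ (α - 1) := Real.rpow_pos_of_pos hr _
  have h1 : s ^ (1 / (α - 1)) ≤ r := by
    have h2 : s ^ (1 / (α - 1)) ≤ (r ^ (α - 1)) ^ (1 / (α - 1)) := by
      apply Real.rpow_le_rpow_of_nonpos hs0 hs
      exact (one_div_neg.2 (by linarith)).le
    rwa [← Real.rpow_mul hr.le, mul_one_div_cancel (by linarith), Real.rpow_one] at h2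
  have h3 : r' ≤ e ^ (1 / α) * r :=
    h.trans (mul_le_mul_of_nonneg_left h1 (Real.rpow_nonneg he.le _))
  have h4 := Real.rpow_le_rpow hr' h3 hα.le
  rwa [Real.mul_rpow (Real.rpow_nonneg he.le _) hr.le, ← Real.rpow_mul he.le,
    one_div_mul_cancel hα.ne', Real.rpow_one] at h4

theorem F5_le_rpow {d γ : ℝ} (hd : 0 ≤ d) (hd1 : d ≤ 1) (hγ : 0 < γ) (hγ1 : γ ≤ 1) :
    d ≤ d ^ γ := by
  have h := Real.rpow_le_rpow_of_exponent_ge' hd hd1 hγ.le hγ1
  rwa [Real.rpow_one] at h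

/-- [YUB-F5] the perturbation. `β, B` a profile, `θ = 1/2`, `C` from `ser_holder` (`YUT/D3a.lean`: bounds the `C^α` norm of
`ser β α p r 1` on every set by `C`), `σ = ε / C`, `g = σ ser`. Choose the radii by `exists_points` with a function `g₀ j s`
so small that `r ≤ g₀ j s` implies: `H_j r^(α'-α) ≤ 2^(-j)`, where `H_j = C_j + σ B s` and `C_j` is such that
`|f x - f y| ≤ 2^(-j) ‖x-y‖^α + C_j ‖x-y‖^α'` on `U` (`Little`: let `δ` correspond to `η = 2^(-j)`; for `‖x-y‖ ≥ δ` use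
`|f x - f y| ≤ 2 K ≤ 2 K δ^(-α') ‖x-y‖^α'`). The condition `r (j+1)^α ≤ 2^(-j-1) r j^α` of `ser_split` is a condition on
`r (j+1)` given `r j`, so it follows from `r (j+1) ≤ g₀ (j+1) s` with `s ≥ r j^(α-1)`: i.e. `r j ≥ s^(-1/(1-α))` and it
is enough that `r (j+1) ≤ (2^(-j-1))^(1/α) s^(-1/(1-α))`. Given `x₀ ∈ U` and `η` take `j` large (`2^(-j)(1 + 2 σ) ≤ η` etc.)
with `‖p j - x₀‖ < η`, `r j < η`; `ser_split` gives `S, T`; the `S` of `BlobAt` is `f + σ S` (`‖x-y‖ ≤ ‖x-y‖^α'` because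
the diameter of `U` is at most `1`), `T` of `BlobAt` is `σ T`, `H = H_j`. `g = 0` off `U`: `β` vanishes off the unit
ball. -/
theorem exists_blobs {β : ℂ → ℝ} {B : ℝ} (hβ : Profile β B) {a : ℂ} {ρ : ℝ} (hρ : 0 < ρ)
    (hρ1 : ρ ≤ 1 / 2) {α α' : ℝ} (hα : 0 < α) (hαα : α < α') (hα1 : α' < 1) {f : ℂ → ℝ} {K : ℝ}
    (hK : ∀ x ∈ Metric.ball a ρ, |f x| ≤ K) (hf : Little (Metric.ball a ρ) α f) {ε : ℝ}
    (hε : 0 < ε) :
    ∃ (σ : ℝ) (g : ℂ → ℝ), 0 < σ ∧ (∀ x, x ∉ Metric.ball a ρ → g x = 0) ∧ HNormLe univ α ε g ∧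
      Blobs (Metric.ball a ρ) β α α' σ (fun x => f x + g x) := by
  have hα1' : α < 1 := hαα.trans hα1
  have hα'0 : 0 < α' := hα.trans hαα
  have haU : a ∈ Metric.ball a ρ := Metric.mem_ball_self hρ
  have hK0 : 0 ≤ K := (abs_nonneg _).trans (hK a haU)
  have hB1 := hβ.one_le
  have hB0 : 0 ≤ B := by linarith
  obtain ⟨C, hC, hser⟩ := ser_holder hβ.one_le hβ.abs_le hβ.lip (θ := 1 / 2) (by norm_num)
    (by norm_num) hα hα1'
  have hσ : 0 < ε / C := div_pos hε hC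
  obtain ⟨σ, hσdef⟩ : ∃ σ, σ = ε / C := ⟨_, rfl⟩
  rw [← hσdef] at hσ
  choose δ hδ0 hδ using fun j : ℕ => hf ((1 / 2) ^ j) (by positivity)
  -- the radii
  obtain ⟨Cf, hCf⟩ : ∃ Cf : ℕ → ℝ, Cf = fun j => 2 * K * δ j ^ (-α') := ⟨_, rfl⟩
  have hCf0 : ∀ j, 0 ≤ Cf j := by
    intro j
    rw [hCf]
    have := Real.rpow_nonneg (hδ0 j).le (-α')
    positivity
  obtain ⟨g₀, hg₀⟩ : ∃ g₀ : ℕ → ℝ → ℝ, g₀ = fun j s =>
      min (((1 / 2) ^ j / (Cf j + σ * B * max s 1 + 1)) ^ (1 / (α' - α)))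
        (((1 / 2) ^ j) ^ (1 / α) * (max s 1) ^ (1 / (α - 1))) := ⟨_, rfl⟩
  have hden : ∀ j s, 0 < Cf j + σ * B * max s 1 + 1 := by
    intro j s
    have h1 := hCf0 j
    have h2 : 0 ≤ max s 1 := zero_le_one.trans (le_max_right s 1)
    have h3 : 0 ≤ σ * B * max s 1 := by positivity
    linarith
  have hg₀pos : ∀ j s, 0 < g₀ j s := by
    intro j s
    have h1 := hden j s
    have h2 : 0 < max s 1 := zero_lt_one.trans_le (le_max_right s 1)
    rw [hg₀]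
    apply lt_min
    · exact Real.rpow_pos_of_pos (by positivity) _
    · exact mul_pos (Real.rpow_pos_of_pos (by positivity) _) (Real.rpow_pos_of_pos h2 _)
  obtain ⟨p, r, hpr, hrθ, hrg, hdense⟩ := exists_points (U := Metric.ball a ρ)
    Metric.isOpen_ball ⟨a, haU⟩ (θ := 1 / 2) (α := α) (by norm_num) (by norm_num) g₀ hg₀pos
  have hr0 : ∀ j, 0 < r j := fun j => (hpr j).1
  have hr1 : ∀ j, r j ≤ 1 := fun j => (hpr j).2.1
  obtain ⟨s, hs⟩ : ∃ s : ℕ → ℝ, s = fun j => ∑ i ∈ Finset.range j, r i ^ (α - 1) := ⟨_, rfl⟩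
  have hs0 : ∀ j, 0 ≤ s j := by
    intro j
    rw [hs]
    exact Finset.sum_nonneg fun i _ => Real.rpow_nonneg (hr0 i).le _
  have hrg' : ∀ j, r j ≤ g₀ j (s j) := by
    intro j
    rw [hs]
    exact hrg j
  have hs1 : ∀ j, r j ^ (α - 1) ≤ s (j + 1) := by
    intro j
    have h1 := hs0 j
    rw [hs] at h1 ⊢
    simp only at h1 ⊢
    rw [Finset.sum_range_succ]
    linarith
  have hs2 : ∀ j, 1 ≤ s (j + 1) := by
    intro j
    refine le_trans ?_ (hs1 j)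
    exact Real.one_le_rpow_of_pos_of_le_one_of_nonpos (hr0 j) (hr1 j) (by linarith)
  have hH : ∀ j, (Cf j + σ * B * s j) * r j ^ (α' - α) ≤ (1 / 2) ^ j := by
    intro j
    have h1 := hrg' j
    rw [hg₀] at h1
    have h2 := h1.trans (min_le_left _ _)
    have h3 := F5_pow (hr0 j).le (by have := hden j (s j); positivity) (by linarith) h2
    rw [le_div_iff₀ (hden j (s j))] at h3
    have h4 : 0 ≤ r j ^ (α' - α) := Real.rpow_nonneg (hr0 j).le _
    have h5 : Cf j + σ * B * s j ≤ Cf j + σ * B * max (s j) 1 + 1 := by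
      have h6 : σ * B * s j ≤ σ * B * max (s j) 1 :=
        mul_le_mul_of_nonneg_left (le_max_left _ _) (by positivity)
      linarith
    calc (Cf j + σ * B * s j) * r j ^ (α' - α)
        ≤ (Cf j + σ * B * max (s j) 1 + 1) * r j ^ (α' - α) := mul_le_mul_of_nonneg_right h5 h4
      _ = r j ^ (α' - α) * (Cf j + σ * B * max (s j) 1 + 1) := mul_comm _ _
      _ ≤ _ := h3
  have htail : ∀ j, r (j + 1) ^ α ≤ (1 / 2) ^ (j + 1) * r j ^ α := by
    intro j
    have h1 := hrg' (j + 1)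
    rw [hg₀] at h1
    have h2 := h1.trans (min_le_right _ _)
    rw [max_eq_left (hs2 j)] at h2
    exact F5_tail (hr0 j) (hr0 (j + 1)).le hα hα1' (by positivity) (hs1 j) h2
  refine ⟨σ, fun x => σ * ser β α p r (fun _ => 1) x, hσ, ?_, ?_, ?_⟩
  · intro x hx
    have h1 : ser β α p r (fun _ => 1) x = 0 := by
      unfold ser
      have h2 : ∀ j, (1 : ℝ) * (r j ^ α * β ((r j)⁻¹ • (x - p j))) = 0 := by
        intro j
        have h3 : x ∉ Metric.closedBall (p j) (r j) := fun h => hx ((hpr j).2.2 h)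
        rw [mem_closedBall_iff_norm, not_le] at h3
        have h4 : 1 ≤ ‖(r j)⁻¹ • (x - p j)‖ := by
          rw [norm_smul, Real.norm_of_nonneg (inv_nonneg.2 (hr0 j).le), inv_mul_eq_div,
            one_le_div (hr0 j)]
          exact h3.le
        rw [hβ.supp _ h4, mul_zero, mul_zero]
      simp_rw [h2]
      exact tsum_zero
    simp only
    rw [h1, mul_zero]
  · obtain ⟨a₁, c₁, ha₁, hc₁, hac, h1, h2⟩ := hser p r (fun _ => 1) hr0 hr1 hrθ (by simp) univ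
    refine ⟨σ * a₁, σ * c₁, by positivity, by positivity, ?_, fun x hx => ?_, fun x hx y hy => ?_⟩
    · rw [← mul_add]
      calc σ * (a₁ + c₁) ≤ σ * C := mul_le_mul_of_nonneg_left hac hσ.le
        _ = ε := by rw [hσdef, div_mul_cancel₀ _ hC.ne']
    · rw [abs_mul, abs_of_pos hσ]
      exact mul_le_mul_of_nonneg_left (h1 x hx) hσ.le
    · rw [← mul_sub, abs_mul, abs_of_pos hσ, mul_assoc]
      exact mul_le_mul_of_nonneg_left (h2 x hx y hy) hσ.le
  · intro x₀ hx₀ η hη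
    obtain ⟨N, hN⟩ := exists_pow_lt_of_lt_one (div_pos hη (by positivity : 0 < 1 + 2 * σ))
      (by norm_num : (1 / 2 : ℝ) < 1)
    obtain ⟨j, hj, hpj, hrj⟩ := hdense x₀ hx₀ η hη N
    have hpow : (1 / 2 : ℝ) ^ j ≤ (1 / 2) ^ N :=
      pow_le_pow_of_le_one (by norm_num) (by norm_num) hj
    have hpj0 : (0 : ℝ) < (1 / 2) ^ j := by positivity
    have hjη : (1 / 2 : ℝ) ^ j * (1 + 2 * σ) ≤ η := by
      have h1 := hpow.trans hN.le
      rwa [le_div_iff₀ (by positivity)] at h1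
    have hjη1 : (1 / 2 : ℝ) ^ j ≤ η := by nlinarith
    have hjη2 : σ * (1 / 2 : ℝ) ^ j ≤ η := by nlinarith
    obtain ⟨S, T, hS, hT, hST⟩ := ser_split hβ (θ := 1 / 2) (by norm_num) (by norm_num) hα hα1'
      (p := p) hr0 hr1 hrθ (ε := fun j => (1 / 2) ^ (j + 1))
      (fun j => ⟨by positivity, by
        rw [pow_succ]
        have : (1 / 2 : ℝ) ^ j ≤ 1 := pow_le_one₀ (by norm_num) (by norm_num)
        linarith⟩)
      (fun j => pow_le_pow_of_le_one (by norm_num) (by norm_num) (Nat.le_succ _)) htail j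
    refine ⟨p j, r j, hpj, hr0 j, hrj, (hpr j).2.2, fun x => f x + σ * S x, fun x => σ * T x,
      Cf j + σ * B * s j, ?_, (hH j).trans hjη1, fun x _ => ?_, fun x hx y hy => ?_, fun x _ => ?_⟩
    · have h1 := hCf0 j
      have h2 := hs0 j
      positivity
    · rw [abs_mul, abs_of_pos hσ]
      have h1 : 0 ≤ r j ^ α := Real.rpow_nonneg (hr0 j).le _
      calc σ * |T x| ≤ σ * (2 * (1 / 2) ^ (j + 1) * r j ^ α) :=
            mul_le_mul_of_nonneg_left (hT x) hσ.le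
        _ = (σ * (1 / 2) ^ j) * r j ^ α := by rw [pow_succ]; ring
        _ ≤ η * r j ^ α := mul_le_mul_of_nonneg_right hjη2 h1
    · have h1 := F5_f hα'0 hK0 hK hpj0.le (hδ0 j) (hδ j) hx hy
      have h2 := hS x y
      have hd1 : ‖x - y‖ ≤ 1 := by
        rw [mem_ball_iff_norm] at hx hy
        have h3 : x - y = (x - a) - (y - a) := by ring
        rw [h3]
        refine (norm_sub_le _ _).trans ?_
        linarith
      have h3 := F5_le_rpow (norm_nonneg (x - y)) hd1 hα'0 hα1.le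
      have h4 : |f x + σ * S x - (f y + σ * S y)| ≤ |f x - f y| + σ * |S x - S y| := by
        have h5 : f x + σ * S x - (f y + σ * S y) = (f x - f y) + σ * (S x - S y) := by ring
        rw [h5]
        refine (abs_add_le _ _).trans (le_of_eq ?_)
        rw [abs_mul, abs_of_pos hσ]
      have hsj : (∑ i ∈ Finset.range j, r i ^ (α - 1)) = s j := by rw [hs]
      rw [hsj] at h2
      have h5 : σ * |S x - S y| ≤ σ * B * s j * ‖x - y‖ ^ α' := by
        calc σ * |S x - S y| ≤ σ * (B * s j * ‖x - y‖) := mul_le_mul_of_nonneg_left h2 hσ.le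
          _ = (σ * B * s j) * ‖x - y‖ := by ring
          _ ≤ (σ * B * s j) * ‖x - y‖ ^ α' := by
            apply mul_le_mul_of_nonneg_left h3
            have := hs0 j
            positivity
      have h6 : (1 / 2 : ℝ) ^ j * ‖x - y‖ ^ α ≤ η * ‖x - y‖ ^ α :=
        mul_le_mul_of_nonneg_right hjη1 (Real.rpow_nonneg (norm_nonneg _) _)
      have h7 : 2 * K * δ j ^ (-α') * ‖x - y‖ ^ α' = Cf j * ‖x - y‖ ^ α' := by rw [hCf]
      rw [h7] at h1
      calc |f x + σ * S x - (f y + σ * S y)|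
          ≤ ((1 / 2) ^ j * ‖x - y‖ ^ α + Cf j * ‖x - y‖ ^ α') + σ * B * s j * ‖x - y‖ ^ α' := by
            linarith
        _ ≤ η * ‖x - y‖ ^ α + (Cf j + σ * B * s j) * ‖x - y‖ ^ α' := by
            rw [add_mul]; linarith
    · simp only
      rw [hST x]
      unfold blob
      ring

end Pool.Agent.YUB
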