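import Pool.Agent.YUB.Base

open MeasureTheory Set Filter Topology
open scoped ContDiff

namespace Pool.Agent.YUB

open Pool.Agent.YUD Pool.Agent.YUT

/-- [YUB-G1] forget the boundary condition and the periods -/
theorem QFlow.weak {p q : ℝ} {M : Set ℂ} {w₀ : ℂ → ℝ} {ψ : ℝ → ℂ → ℝ} {Φ : ℝ → ℂ → ℂ}
    (hF : QFlow p q M w₀ ψ Φ) : WFlow M w₀ ψ Φ where
  stream := fun T => by
    obtain ⟨C, hC⟩ := hF.stream T
    exact ⟨C, fun t h0 h1 => ⟨(hC t h0 h1).1, (hC t h0 h1).2.1⟩⟩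
  cont := hF.cont
  c1 := hF.c1
  bij := hF.bij
  area := hF.area
  start := hF.start
  ode := hF.ode
  vort := hF.vort

/-- [YUB-G1] -/
theorem QFlow.toFlow {M : Set ℂ} {w₀ : ℂ → ℝ} {ψ : ℝ → ℂ → ℝ} {Φ : ℝ → ℂ → ℂ}
    (hF : QFlow 0 0 M w₀ ψ Φ) : Flow M w₀ ψ Φ where
  stream := fun T => by
    obtain ⟨C, hC⟩ := hF.stream T
    refine ⟨C, fun t h0 h1 => ⟨(hC t h0 h1).1, (hC t h0 h1).2.1, fun ε hε => ?_⟩⟩
    obtain ⟨K, hK, hKc, hK2⟩ := (hC t h0 h1).2.2 ε hε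
    exact ⟨K, hK, hKc, fun x hx hxK => hK2 x hx fun m n => by simpa using hxK⟩
  cont := hF.cont
  c1 := hF.c1
  bij := hF.bij
  area := hF.area
  start := hF.start
  ode := hF.ode
  vort := hF.vort

/-- [YUB-G1] -/
theorem QFlow.toPFlow {p : ℝ} {M : Set ℂ} {w₀ : ℂ → ℝ} {ψ : ℝ → ℂ → ℝ} {Φ : ℝ → ℂ → ℂ}
    (hF : QFlow p 0 M w₀ ψ Φ) : PFlow p M w₀ ψ Φ where
  stream := fun T => by
    obtain ⟨C, hC⟩ := hF.stream T
    refine ⟨C, fun t h0 h1 => ⟨(hC t h0 h1).1, (hC t h0 h1).2.1, fun ε hε => ?_⟩⟩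
    obtain ⟨K, hK, hKc, hK2⟩ := (hC t h0 h1).2.2 ε hε
    exact ⟨K, hK, hKc, fun x hx hxK => hK2 x hx fun m n => by simpa using hxK m⟩
  per := fun t ht x hx => ⟨(hF.per t ht x hx).1, (hF.per t ht x hx).2.2.1⟩
  cont := hF.cont
  c1 := hF.c1
  bij := hF.bij
  area := hF.area
  start := hF.start
  ode := hF.ode
  vort := hF.vort

end Pool.Agent.YUB
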