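import Pool.Agent.YUB.G1
import Pool.Agent.YUT.E1b

open MeasureTheory Set Filter Topology
open scoped ContDiff

namespace Pool.Agent.YUB

open Pool.Agent.YUD Pool.Agent.YUT

/-- [YUB-G2] plane domains: `∫_{ball} ‖fderiv ψ‖ ≤ ∫_{ball} (1 + gsq ψ)/1 ≤ |M| + ∫_M gsq (ψ t)` (`‖fderiv‖² ≤ gsq`, and
`x ≤ 1 + x²`; continuous bounded integrands), and `Flow.energy` (`YUT/E1b.lean`): `∫_M gsq (ψ t) = ∫_M gsq (ψ 0)`. -/
theorem loc_plane {M : Set ℂ} {w₀ : ℂ → ℝ} {ψ : ℝ → ℂ → ℝ} {Φ : ℝ → ℂ → ℂ} (hM : IsOpen M)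
    (hb : Bornology.IsBounded M) (hF : QFlow 0 0 M w₀ ψ Φ) :
    ∃ E₀ : ℝ, ∀ t, 0 ≤ t → ∀ (c : ℂ) (ρ : ℝ), 0 < ρ → Metric.closedBall c ρ ⊆ M →
      ∫ x in Metric.ball c ρ, ‖fderiv ℝ (ψ t) x‖ ≤ E₀ := by
  have h : Flow M w₀ ψ Φ := hF.toFlow
  refine ⟨∫ x in M, (1 + 2 * gsq (ψ 0) x), fun t ht c ρ _ hball => ?_⟩
  obtain ⟨C, hC⟩ := h.stream t
  have ht' : StreamLe M C (ψ t) := hC t ht le_rfl
  obtain ⟨C0, hC0⟩ := h.stream 0
  have ht0 : StreamLe M C0 (ψ 0) := hC0 0 le_rfl le_rfl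
  have hgi : ∀ (D : ℝ) (f : ℂ → ℝ), StreamLe M D f → IntegrableOn (gsq f) M := by
    intro D f hf
    refine integrableOn_of_bdd hM hb
      (((hf.dx_cont hM).pow 2).add ((hf.dy_cont hM).pow 2)) (C := D ^ 2 + D ^ 2) fun x hx => ?_
    rw [abs_of_nonneg (gsq_nonneg _ _)]
    unfold gsq
    have h1 := hf.dx_le x hx
    have h2 := hf.dy_le x hx
    have h3 : dx f x ^ 2 ≤ D ^ 2 := by rw [← sq_abs]; gcongr
    have h4 : dy f x ^ 2 ≤ D ^ 2 := by rw [← sq_abs]; gcongr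
    exact add_le_add h3 h4
  have h1i : IntegrableOn (fun _ : ℂ => (1 : ℝ)) M :=
    integrableOn_of_bdd hM hb continuousOn_const (C := 1) fun x _ => by simp
  have hti : IntegrableOn (fun x => 1 + 2 * gsq (ψ t) x) M := h1i.add ((hgi C _ ht').const_mul 2)
  have hsub : Metric.ball c ρ ⊆ M := Metric.ball_subset_closedBall.trans hball
  have e1 : ∫ x in Metric.ball c ρ, ‖fderiv ℝ (ψ t) x‖ ≤
      ∫ x in Metric.ball c ρ, (1 + 2 * gsq (ψ t) x) := by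
    refine integral_mono_of_nonneg (Eventually.of_forall fun x => norm_nonneg _)
      (hti.mono_set hsub) (Eventually.of_forall fun x => ?_)
    have h2 := norm_fderiv_sq_le (ψ t) x
    show ‖fderiv ℝ (ψ t) x‖ ≤ 1 + 2 * gsq (ψ t) x
    nlinarith [sq_nonneg (‖fderiv ℝ (ψ t) x‖ - 1), norm_nonneg (fderiv ℝ (ψ t) x)]
  have e2 : ∫ x in Metric.ball c ρ, (1 + 2 * gsq (ψ t) x) ≤ ∫ x in M, (1 + 2 * gsq (ψ t) x) := by
    refine setIntegral_mono_set hti (Eventually.of_forall fun x => ?_)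
      (Eventually.of_forall hsub)
    have := gsq_nonneg (ψ t) x
    show 0 ≤ 1 + 2 * gsq (ψ t) x
    positivity
  have e3 : ∀ s : ℝ, IntegrableOn (gsq (ψ s)) M →
      ∫ x in M, (1 + 2 * gsq (ψ s) x) = (∫ x in M, (1 : ℝ)) + 2 * ∫ x in M, gsq (ψ s) x := by
    intro s hs
    rw [integral_add h1i (hs.const_mul 2), integral_const_mul]
  rw [e3 0 (hgi C0 _ ht0), ← h.energy hM hb ht, ← e3 t (hgi C _ ht')]
  exact e1.trans e2

end Pool.Agent.YUB
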