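import Pool.Agent.YUB.G1
import Pool.Agent.YUT.C6c

open MeasureTheory Set Filter Topology
open scoped ContDiff

namespace Pool.Agent.YUB

open Pool.Agent.YUD Pool.Agent.YUT

theorem G3_biUnion {ι : Type} (J : Finset ι) (A : ι → Set ℂ) (f : ℂ → ENNReal) :
    ∫⁻ x in ⋃ j ∈ J, A j, f x ≤ ∑ j ∈ J, ∫⁻ x in A j, f x := by
  classical
  induction J using Finset.induction_on with
  | empty => simp
  | insert a s ha ih =>
    rw [Finset.set_biUnion_insert, Finset.sum_insert ha]
    exact (lintegral_union_le _ _ _).trans (add_le_add le_rfl ih)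

/-- covering by translates -/
theorem G3_cover {ι : Type} {g : ℂ → ℝ} {D B : Set ℂ} (J : Finset ι) (v : ι → ℂ)
    (hg0 : ∀ x, 0 ≤ g x) (hD : MeasurableSet D)
    (hcov : ∀ x ∈ B, ∃ j ∈ J, ∃ y ∈ D, x = y + v j)
    (hper : ∀ j ∈ J, ∀ x ∈ D, g (x + v j) = g x) (hgB : IntegrableOn g B)
    (hgD : IntegrableOn g D) :
    ∫ x in B, g x ≤ J.card * ∫ x in D, g x := by
  have h1 : ∫ x in B, g x = (∫⁻ x in B, ENNReal.ofReal (g x)).toReal :=
    integral_eq_lintegral_of_nonneg_ae (Eventually.of_forall hg0) hgB.aestronglyMeasurable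
  have h2 : ∫ x in D, g x = (∫⁻ x in D, ENNReal.ofReal (g x)).toReal :=
    integral_eq_lintegral_of_nonneg_ae (Eventually.of_forall hg0) hgD.aestronglyMeasurable
  have h3 : ∀ j ∈ J, ∫⁻ x in (fun x => x + v j) '' D, ENNReal.ofReal (g x) =
      ∫⁻ x in D, ENNReal.ofReal (g x) := by
    intro j hj
    have h4 := (measurePreserving_add_right (volume : Measure ℂ) (v j)).setLIntegral_comp_emb
      (measurableEmbedding_addRight (v j)) (fun x => ENNReal.ofReal (g x)) D
    rw [← h4]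
    exact setLIntegral_congr_fun hD (fun x hx => by rw [hper j hj x hx])
  have h4 : ∫⁻ x in B, ENNReal.ofReal (g x) ≤ J.card * ∫⁻ x in D, ENNReal.ofReal (g x) := by
    calc ∫⁻ x in B, ENNReal.ofReal (g x)
        ≤ ∫⁻ x in ⋃ j ∈ J, (fun x => x + v j) '' D, ENNReal.ofReal (g x) := by
          apply lintegral_mono_set
          intro x hx
          obtain ⟨j, hj, y, hy, hxy⟩ := hcov x hx
          rw [mem_iUnion₂]
          exact ⟨j, hj, y, hy, hxy.symm⟩
      _ ≤ ∑ j ∈ J, ∫⁻ x in (fun x => x + v j) '' D, ENNReal.ofReal (g x) :=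
          G3_biUnion J _ _
      _ = ∑ _j ∈ J, ∫⁻ x in D, ENNReal.ofReal (g x) := Finset.sum_congr rfl h3
      _ = J.card * ∫⁻ x in D, ENNReal.ofReal (g x) := by
          rw [Finset.sum_const, nsmul_eq_mul]
  have h5 : ∫⁻ x in D, ENNReal.ofReal (g x) ≠ ⊤ := by
    have h6 := hgD.hasFiniteIntegral
    rw [hasFiniteIntegral_iff_ofReal (Eventually.of_forall hg0)] at h6
    exact h6.ne
  rw [h1, h2]
  have h7 := ENNReal.toReal_mono (ENNReal.mul_ne_top (ENNReal.natCast_ne_top J.card) h5) h4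
  rwa [ENNReal.toReal_mul, ENNReal.toReal_natCast] at h7

/-- the line `re = 0` is a null set -/
theorem G3_null : (volume : Measure ℂ) {x : ℂ | x.re = 0} = 0 := by
  have h1 : (LinearMap.ker (Complex.reLm) : Submodule ℝ ℂ) ≠ ⊤ := by
    intro h
    have h2 : (1 : ℂ) ∈ LinearMap.ker Complex.reLm := by
      rw [h]
      trivial
    rw [LinearMap.mem_ker] at h2
    exact one_ne_zero h2
  have h2 := Measure.addHaar_submodule (volume : Measure ℂ) _ h1
  exact h2

theorem G3_per {p h : ℝ} {f : ℂ → ℝ} (hf : Per p (Strip h) f) (n : ℤ) {x : ℂ} (hx : x ∈ Strip h) :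
    f (x + (n * p : ℝ)) = f x := by
  have h1 : ∀ (m : ℕ) (y : ℂ), y ∈ Strip h → f (y + (m * p : ℝ)) = f y := by
    intro m
    induction m with
    | zero => intro y _; simp
    | succ m ih =>
      intro y hy
      have h2 : y + (((m + 1 : ℕ) : ℝ) * p : ℝ) = (y + (m * p : ℝ)) + p := by
        push_cast
        ring
      rw [h2, hf _ (strip_add _ hy), ih y hy]
  rcases Int.eq_nat_or_neg n with ⟨m, rfl | rfl⟩
  · exact_mod_cast h1 m x hx
  · have h3 := h1 m (x + ((-(m : ℤ) : ℤ) * p : ℝ)) (strip_add _ hx)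
    rw [← h3]
    congr 1
    push_cast
    ring

/-- [YUB-G3] the channel. Let `ρ ≤ p/2`. A ball `closedBall c ρ ⊆ Strip h`: by periodicity of `fderiv ℝ (ψ t)` (`Per.fderiv_eq`) and
translation invariance of the measure one may assume `0 ≤ c.re < p`; then the ball is contained in the union of the three
closed cells `-p ≤ re ≤ 2p`, `0 < im < h`, and the integral of `‖fderiv ψ‖` over it is at most three times the one over
`Cell p h` (null sets `re = 0`, `re = p`). `‖fderiv ψ‖ ≤ 1 + gsq ψ` and `PFlow.energy` (`YUT/C6c.lean`). -/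
theorem loc_channel {p h : ℝ} {w₀ : ℂ → ℝ} {ψ : ℝ → ℂ → ℝ} {Φ : ℝ → ℂ → ℂ} (hp : 0 < p)
    (hh : 0 < h) (hF : QFlow p 0 (Strip h) w₀ ψ Φ) :
    ∃ E₀ : ℝ, ∀ t, 0 ≤ t → ∀ (c : ℂ) (ρ : ℝ), 0 < ρ → ρ ≤ p / 2 →
      Metric.closedBall c ρ ⊆ Strip h → ∫ x in Metric.ball c ρ, ‖fderiv ℝ (ψ t) x‖ ≤ E₀ := by
  have hPF := QFlow.toPFlow hF
  set D : Set ℂ := {x | 0 ≤ x.re ∧ x.re < p ∧ 0 < x.im ∧ x.im < h} with hDdef
  have hDm : MeasurableSet D := by
    have h1 : Measurable Complex.re := Complex.measurable_re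
    have h2 : Measurable Complex.im := Complex.measurable_im
    exact (measurableSet_le measurable_const h1).inter ((measurableSet_lt h1 measurable_const).inter
      ((measurableSet_lt measurable_const h2).inter (measurableSet_lt h2 measurable_const)))
  have hDC : D =ᵐ[volume] Cell p h := by
    have h1 : ∀ᵐ x : ℂ, x.re ≠ 0 := by
      rw [ae_iff]
      have h2 : {a : ℂ | ¬ a.re ≠ 0} = {x : ℂ | x.re = 0} := by
        ext x
        simp
      rw [h2]
      exact G3_null
    filter_upwards [h1] with x hx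
    apply propext
    constructor
    · intro hxD
      exact ⟨lt_of_le_of_ne hxD.1 (Ne.symm hx), hxD.2.1, hxD.2.2.1, hxD.2.2.2⟩
    · intro hxC
      exact ⟨hxC.1.le, hxC.2.1, hxC.2.2.1, hxC.2.2.2⟩
  refine ⟨2 * ((∫ _x in Cell p h, (1 : ℝ)) + ∫ x in Cell p h, gsq (ψ 0) x), ?_⟩
  intro t ht c ρ hρ hρp hball
  obtain ⟨C, hC⟩ := hPF.stream t
  have hC2 : C2Le (Strip h) C (ψ t) := ⟨(hC t ht le_rfl).1, (hC t ht le_rfl).2.1⟩
  have hper : Per p (Strip h) (ψ t) := fun x hx => (hPF.per t ht x hx).1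
  have hdx := hC2.dx_cont (isOpen_strip h)
  have hdy := hC2.dy_cont (isOpen_strip h)
  have hfd := hC2.fderiv_cont (isOpen_strip h)
  have hC0 : 0 ≤ C := by
    have h1 : (⟨0, h / 2⟩ : ℂ) ∈ Strip h := ⟨by show 0 < h / 2; linarith, by show h / 2 < h; linarith⟩
    exact (abs_nonneg _).trans (hC2.abs_le _ h1)
  have hgc : ContinuousOn (gsq (ψ t)) (Strip h) := (hdx.pow 2).add (hdy.pow 2)
  have hgb : ∀ x ∈ Strip h, |gsq (ψ t) x| ≤ 2 * C ^ 2 := by
    intro x hx
    rw [abs_of_nonneg (gsq_nonneg _ _)]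
    have h1 := hC2.dx_le x hx
    have h2 := hC2.dy_le x hx
    have h3 : dx (ψ t) x ^ 2 ≤ C ^ 2 := sq_le_sq' (abs_le.1 h1).1 (abs_le.1 h1).2
    have h4 : dy (ψ t) x ^ 2 ≤ C ^ 2 := sq_le_sq' (abs_le.1 h2).1 (abs_le.1 h2).2
    unfold gsq
    linarith
  have hballS : Metric.ball c ρ ⊆ Strip h := Metric.ball_subset_closedBall.trans hball
  have hballb : Bornology.IsBounded (Metric.ball c ρ) := Metric.isBounded_ball
  have hg1 : ContinuousOn (fun x => 1 + gsq (ψ t) x) (Strip h) := continuousOn_const.add hgc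
  have hg1b : ∀ x ∈ Strip h, |1 + gsq (ψ t) x| ≤ 1 + 2 * C ^ 2 := by
    intro x hx
    have h1 := hgb x hx
    have h2 := gsq_nonneg (ψ t) x
    rw [abs_of_nonneg h2] at h1
    rw [abs_of_nonneg (by linarith)]
    linarith
  have i1 : IntegrableOn (fun x => 1 + gsq (ψ t) x) (Metric.ball c ρ) :=
    integrableOn_of_bdd Metric.isOpen_ball hballb (hg1.mono hballS)
      (fun x hx => hg1b x (hballS hx))
  have i2 : IntegrableOn (fun x => ‖fderiv ℝ (ψ t) x‖) (Metric.ball c ρ) :=
    integrableOn_of_bdd Metric.isOpen_ball hballb (hfd.norm.mono hballS)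
      (C := 2 * C) (fun x hx => by
        rw [abs_of_nonneg (norm_nonneg _)]
        exact hC2.fderiv_le x (hballS hx))
  have i3 : IntegrableOn (fun x => 1 + gsq (ψ t) x) (Cell p h) := int_cell hg1 hg1b
  have i4 : IntegrableOn (fun x => 1 + gsq (ψ t) x) D := i3.congr_set_ae hDC
  have s1 : ∫ x in Metric.ball c ρ, ‖fderiv ℝ (ψ t) x‖ ≤
      ∫ x in Metric.ball c ρ, (1 + gsq (ψ t) x) := by
    apply integral_mono i2 i1
    intro x
    have h1 := norm_fderiv_sq_le (ψ t) x
    dsimp only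
    nlinarith [sq_nonneg (‖fderiv ℝ (ψ t) x‖ - 1)]
  set n : ℤ := ⌊(c.re - ρ) / p⌋ with hn
  have hn1 : n * p ≤ c.re - ρ := by
    have := Int.floor_le ((c.re - ρ) / p)
    rwa [le_div_iff₀ hp] at this
  have hn2 : c.re - ρ < (n + 1) * p := by
    have := Int.lt_floor_add_one ((c.re - ρ) / p)
    rwa [div_lt_iff₀ hp] at this
  have s2 := G3_cover (Finset.range 2) (fun j : ℕ => (((n + j : ℤ) * p : ℝ) : ℂ))
    (g := fun x => 1 + gsq (ψ t) x) (D := D) (B := Metric.ball c ρ)
    (fun x => by have := gsq_nonneg (ψ t) x; linarith) hDm (by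
      intro x hx
      have hxS := hballS hx
      rw [Metric.mem_ball, Complex.dist_eq] at hx
      have h1 : |x.re - c.re| < ρ := lt_of_le_of_lt (by
        have := Complex.abs_re_le_norm (x - c)
        rwa [Complex.sub_re] at this) hx
      obtain ⟨h2, h3⟩ := abs_lt.1 h1
      by_cases h4 : x.re < (n + 1) * p
      · refine ⟨0, by simp, x - (((n + (0 : ℕ) : ℤ) * p : ℝ) : ℂ), ?_, by ring⟩
        refine ⟨?_, ?_, ?_, ?_⟩
        · simp only [Complex.sub_re, Complex.ofReal_re]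
          push_cast
          nlinarith
        · simp only [Complex.sub_re, Complex.ofReal_re]
          push_cast
          nlinarith
        · simpa using hxS.1
        · simpa using hxS.2
      · refine ⟨1, by simp, x - (((n + (1 : ℕ) : ℤ) * p : ℝ) : ℂ), ?_, by ring⟩
        refine ⟨?_, ?_, ?_, ?_⟩
        · simp only [Complex.sub_re, Complex.ofReal_re]
          push_cast
          nlinarith
        · simp only [Complex.sub_re, Complex.ofReal_re]
          push_cast
          nlinarith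
        · simpa using hxS.1
        · simpa using hxS.2) (by
      intro j _ x hx
      have hxS : x ∈ Strip h := ⟨hx.2.2.1, hx.2.2.2⟩
      unfold gsq
      rw [G3_per hper.dx _ hxS, G3_per hper.dy _ hxS]) i1 i4
  have s3 : ∫ x in D, (1 + gsq (ψ t) x) = ∫ x in Cell p h, (1 + gsq (ψ t) x) :=
    setIntegral_congr_set hDC
  have s4 : ∫ x in Cell p h, (1 + gsq (ψ t) x) =
      (∫ _x in Cell p h, (1 : ℝ)) + ∫ x in Cell p h, gsq (ψ t) x :=
    integral_add (int_cell continuousOn_const (B := 1) (fun x _ => by simp)) (int_cell hgc hgb)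
  rw [s3, s4, hPF.energy hp hh ht, Finset.card_range] at s2
  push_cast at s2
  exact s1.trans s2

end Pool.Agent.YUB
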