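import Pool.Agent.YUB.Base

open MeasureTheory Set Filter Topology
open scoped ContDiff

namespace Pool.Agent.YUB

open Pool.Agent.YUD Pool.Agent.YUT

/-- Fubini on the cell -/
theorem G4_fub {p q : ℝ} (hp : 0 < p) (hq : 0 < q) {h : ℂ → ℝ} (hc : Continuous h) :
    (∫ x in Cell p q, h x = ∫ s in (0 : ℝ)..p, ∫ t in (0 : ℝ)..q, h ⟨s, t⟩) ∧
      ∫ x in Cell p q, h x = ∫ t in (0 : ℝ)..q, ∫ s in (0 : ℝ)..p, h ⟨s, t⟩ := by
  have hcont : Continuous (fun z : ℝ × ℝ => h ⟨z.1, z.2⟩) :=
    hc.comp Complex.equivRealProdCLM.symm.continuous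
  have hcont' : Continuous (fun z : ℝ × ℝ => h ⟨z.2, z.1⟩) := hcont.comp continuous_swap
  have e1 : ∫ x in Cell p q, h x = ∫ z in Ioo 0 p ×ˢ Ioo 0 q, h ⟨z.1, z.2⟩ := by
    have h1 := Complex.volume_preserving_equiv_real_prod.setIntegral_preimage_emb
      (Complex.measurableEquivRealProd.measurableEmbedding) (fun z : ℝ × ℝ => h ⟨z.1, z.2⟩)
      (Ioo 0 p ×ˢ Ioo 0 q)
    rw [← h1]
    have h2 : Complex.measurableEquivRealProd ⁻¹' (Ioo 0 p ×ˢ Ioo 0 q) = Cell p q := by
      ext x
      rw [mem_preimage, mem_prod, mem_Ioo, mem_Ioo]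
      exact ⟨fun hx => ⟨hx.1.1, hx.1.2, hx.2.1, hx.2.2⟩,
        fun hx => ⟨⟨hx.1, hx.2.1⟩, hx.2.2.1, hx.2.2.2⟩⟩
    rw [h2]
    rfl
  have hint : IntegrableOn (fun z : ℝ × ℝ => h ⟨z.1, z.2⟩) (Ioo 0 p ×ˢ Ioo 0 q)
      ((volume : Measure ℝ).prod volume) := by
    rw [← Measure.volume_eq_prod]
    exact (hcont.continuousOn.integrableOn_compact (isCompact_Icc.prod isCompact_Icc)).mono_set
      (prod_mono Ioo_subset_Icc_self Ioo_subset_Icc_self)
  have hint' : IntegrableOn (fun z : ℝ × ℝ => h ⟨z.2, z.1⟩) (Ioo 0 q ×ˢ Ioo 0 p)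
      ((volume : Measure ℝ).prod volume) := by
    rw [← Measure.volume_eq_prod]
    exact (hcont'.continuousOn.integrableOn_compact (isCompact_Icc.prod isCompact_Icc)).mono_set
      (prod_mono Ioo_subset_Icc_self Ioo_subset_Icc_self)
  have e2 : ∫ z in Ioo 0 p ×ˢ Ioo 0 q, h ⟨z.1, z.2⟩ =
      ∫ s in (0 : ℝ)..p, ∫ t in (0 : ℝ)..q, h ⟨s, t⟩ := by
    rw [Measure.volume_eq_prod, setIntegral_prod _ hint, intervalIntegral.integral_of_le hp.le,
      integral_Ioc_eq_integral_Ioo]
    refine setIntegral_congr_fun measurableSet_Ioo fun s _ => ?_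
    dsimp only
    rw [intervalIntegral.integral_of_le hq.le, integral_Ioc_eq_integral_Ioo]
  have e3 : ∫ z in Ioo 0 p ×ˢ Ioo 0 q, h ⟨z.1, z.2⟩ =
      ∫ t in (0 : ℝ)..q, ∫ s in (0 : ℝ)..p, h ⟨s, t⟩ := by
    have h3 : ∫ z in Ioo 0 p ×ˢ Ioo 0 q, h ⟨z.1, z.2⟩ =
        ∫ z in Ioo 0 q ×ˢ Ioo 0 p, h ⟨z.2, z.1⟩ := by
      rw [Measure.volume_eq_prod]
      exact (setIntegral_prod_swap (Ioo 0 p) (Ioo 0 q) (fun z : ℝ × ℝ => h ⟨z.1, z.2⟩)).symm
    rw [h3, Measure.volume_eq_prod, setIntegral_prod _ hint',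
      intervalIntegral.integral_of_le hq.le, integral_Ioc_eq_integral_Ioo]
    refine setIntegral_congr_fun measurableSet_Ioo fun s _ => ?_
    dsimp only
    rw [intervalIntegral.integral_of_le hp.le, integral_Ioc_eq_integral_Ioo]
  exact ⟨e1.trans e2, e1.trans e3⟩

/-- the integral of `dx F` vanishes -/
theorem G4_dx {p q : ℝ} (hp : 0 < p) (hq : 0 < q) {F : ℂ → ℝ} (hF : ContDiff ℝ 1 F)
    (hper : ∀ x, F (x + p) = F x) : ∫ x in Cell p q, dx F x = 0 := by
  have hd : Continuous (dx F) := (contDiff_dx (n := 0) (by exact_mod_cast hF)).continuous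
  rw [(G4_fub hp hq hd).2]
  have h1 : ∀ t : ℝ, ∫ s in (0 : ℝ)..p, dx F ⟨s, t⟩ = 0 := by
    intro t
    have h2 : ∀ s : ℝ, HasDerivAt (fun s : ℝ => F ⟨s, t⟩) (dx F ⟨s, t⟩) s := by
      intro s
      have h3 : HasDerivAt (fun s : ℝ => (⟨s, t⟩ : ℂ)) 1 s := by
        have h4 : HasDerivAt (fun s : ℝ => (s : ℂ) + t * Complex.I) 1 s :=
          (Complex.ofRealCLM.hasDerivAt (x := s)).add_const _
        have h5 : (fun s : ℝ => (⟨s, t⟩ : ℂ)) = fun s : ℝ => (s : ℂ) + t * Complex.I := by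
          funext s
          apply Complex.ext <;> simp
        rw [h5]
        exact h4
      exact ((hF.differentiable one_ne_zero (⟨s, t⟩ : ℂ)).hasFDerivAt).comp_hasDerivAt s h3
    rw [intervalIntegral.integral_eq_sub_of_hasDerivAt (fun s _ => h2 s)]
    · have h3 : (⟨p, t⟩ : ℂ) = ⟨0, t⟩ + p := by
        apply Complex.ext <;> simp
      rw [h3, hper, sub_self]
    · have h4 : Continuous (fun s : ℝ => dx F ⟨s, t⟩) :=
        hd.comp (Complex.equivRealProdCLM.symm.continuous.comp (continuous_id.prodMk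
          continuous_const))
      exact h4.intervalIntegrable _ _
  simp only [h1]
  exact intervalIntegral.integral_zero

/-- the integral of `dy F` vanishes -/
theorem G4_dy {p q : ℝ} (hp : 0 < p) (hq : 0 < q) {F : ℂ → ℝ} (hF : ContDiff ℝ 1 F)
    (hper : ∀ x, F (x + q * Complex.I) = F x) : ∫ x in Cell p q, dy F x = 0 := by
  have hd : Continuous (dy F) := (contDiff_dy (n := 0) (by exact_mod_cast hF)).continuous
  rw [(G4_fub hp hq hd).1]
  have h1 : ∀ s : ℝ, ∫ t in (0 : ℝ)..q, dy F ⟨s, t⟩ = 0 := by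
    intro s
    have h2 : ∀ t : ℝ, HasDerivAt (fun t : ℝ => F ⟨s, t⟩) (dy F ⟨s, t⟩) t := by
      intro t
      have h3 : HasDerivAt (fun t : ℝ => (⟨s, t⟩ : ℂ)) Complex.I t := by
        have h4 : HasDerivAt (fun t : ℝ => (s : ℂ) + t * Complex.I) (1 * Complex.I) t :=
          ((Complex.ofRealCLM.hasDerivAt (x := t)).mul_const Complex.I).const_add _
        have h5 : (fun t : ℝ => (⟨s, t⟩ : ℂ)) = fun t : ℝ => (s : ℂ) + t * Complex.I := by
          funext t
          apply Complex.ext <;> simp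
        rw [h5]
        rwa [one_mul] at h4
      exact ((hF.differentiable one_ne_zero (⟨s, t⟩ : ℂ)).hasFDerivAt).comp_hasDerivAt t h3
    rw [intervalIntegral.integral_eq_sub_of_hasDerivAt (fun t _ => h2 t)]
    · have h3 : (⟨s, q⟩ : ℂ) = ⟨s, 0⟩ + q * Complex.I := by
        apply Complex.ext <;> simp
      rw [h3, hper, sub_self]
    · have h4 : Continuous (fun t : ℝ => dy F ⟨s, t⟩) :=
        hd.comp (Complex.equivRealProdCLM.symm.continuous.comp (continuous_const.prodMk
          continuous_id))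
      exact h4.intervalIntegrable _ _
  simp only [h1]
  exact intervalIntegral.integral_zero

theorem G4_fderiv_per {v : ℂ} {f : ℂ → ℝ} (hf : ∀ x, f (x + v) = f x) (x : ℂ) :
    fderiv ℝ f (x + v) = fderiv ℝ f x := by
  have h1 : fderiv ℝ (fun y => f (y + v)) x = fderiv ℝ f (x + v) := fderiv_comp_add_right _
  rw [← h1]
  congr 1
  funext y
  exact hf y

/-- [YUB-G4] Green's identity on the torus. Divergence theorem on the rectangle `[0,p] × [0,q]` for `F = f * dx f`, `G = f * dy f`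
(`MeasureTheory.integral2_divergence_prod_of_hasFDerivAt_off_countable` or similar, identifying `ℂ` with `ℝ × ℝ`,
`Complex.measurableEquivRealProd`; cf. row YUC-C2): the boundary terms cancel by periodicity; `F_x + G_y = gsq f + f Δf`. The
cell `Cell p q` and the closed rectangle differ by a null set. -/
theorem torus_green {p q : ℝ} (hp : 0 < p) (hq : 0 < q) {f : ℂ → ℝ} (hf : ContDiff ℝ 2 f)
    (hper : Per2 p q univ f) :
    ∫ x in Cell p q, gsq f x = -∫ x in Cell p q, f x * lap f x := by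
  have h1 : ContDiff ℝ 1 f := hf.of_le (by norm_num)
  have hdx : ContDiff ℝ 1 (dx f) := by
    have := contDiff_dx (n := 1) (f := f) (by exact_mod_cast hf)
    exact_mod_cast this
  have hdy : ContDiff ℝ 1 (dy f) := by
    have := contDiff_dy (n := 1) (f := f) (by exact_mod_cast hf)
    exact_mod_cast this
  have hF : ContDiff ℝ 1 (fun x => f x * dx f x) := h1.mul hdx
  have hG : ContDiff ℝ 1 (fun x => f x * dy f x) := h1.mul hdy
  have hpx : ∀ x : ℂ, f (x + p) = f x := fun x => (hper x (mem_univ x)).1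
  have hpy : ∀ x : ℂ, f (x + q * Complex.I) = f x := fun x => (hper x (mem_univ x)).2
  have e1 := G4_dx hp hq hF (fun x => by
    show f (x + p) * fderiv ℝ f (x + p) 1 = f x * fderiv ℝ f x 1
    rw [hpx, G4_fderiv_per hpx])
  have e2 := G4_dy hp hq hG (fun x => by
    show f (x + q * Complex.I) * fderiv ℝ f (x + q * Complex.I) Complex.I =
      f x * fderiv ℝ f x Complex.I
    rw [hpy, G4_fderiv_per hpy])
  have hdF : Continuous (dx (fun x => f x * dx f x)) :=
    (contDiff_dx (n := 0) (by exact_mod_cast hF)).continuous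
  have hdG : Continuous (dy (fun x => f x * dy f x)) :=
    (contDiff_dy (n := 0) (by exact_mod_cast hG)).continuous
  have hint : ∀ g : ℂ → ℝ, Continuous g → IntegrableOn g (Cell p q) := by
    intro g hg
    have hb := cell_bounded p q
    exact (hg.continuousOn.integrableOn_compact hb.isCompact_closure).mono_set subset_closure
  have hdfx : Continuous (dx f) := hdx.continuous
  have hdfy : Continuous (dy f) := hdy.continuous
  have hlap : Continuous (lap f) := by
    have g1 : Continuous (dx (dx f)) :=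
      (contDiff_dx (n := 0) (by exact_mod_cast hdx)).continuous
    have g2 : Continuous (dy (dy f)) :=
      (contDiff_dy (n := 0) (by exact_mod_cast hdy)).continuous
    exact g1.add g2
  have hgsq : Continuous (gsq f) := (hdfx.pow 2).add (hdfy.pow 2)
  have hsum : ∀ x, dx (fun x => f x * dx f x) x + dy (fun x => f x * dy f x) x =
      gsq f x + f x * lap f x := by
    intro x
    rw [dx_mul (h1.differentiable one_ne_zero x) (hdx.differentiable one_ne_zero x),
      dy_mul (h1.differentiable one_ne_zero x) (hdy.differentiable one_ne_zero x)]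
    unfold gsq lap
    ring
  have h3 : ∫ x in Cell p q, (gsq f x + f x * lap f x) = 0 := by
    simp only [← hsum]
    rw [integral_add (hint _ hdF) (hint _ hdG), e1, e2, add_zero]
  rw [integral_add (hint _ hgsq) (hint (fun x => f x * lap f x) (hf.continuous.mul hlap))] at h3
  linarith

end Pool.Agent.YUB
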