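import Pool.Agent.YUB.Base

open MeasureTheory Set Filter Topology
open scoped ContDiff

namespace Pool.Agent.YUB

open Pool.Agent.YUD Pool.Agent.YUT

theorem G5_cell (p q : ℝ) : Cell p q = Complex.measurableEquivRealProd ⁻¹' (Ioo 0 p ×ˢ Ioo 0 q) := by
  ext x
  simp [Cell, and_assoc]

theorem G5_prod {p q : ℝ} (F : ℂ → ℝ) :
    ∫ x in Cell p q, F x = ∫ z in Ioo 0 p ×ˢ Ioo 0 q, F ((z.1 : ℂ) + z.2 * Complex.I) := by
  have h1 := Complex.volume_preserving_equiv_real_prod.setIntegral_preimage_emb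
    Complex.measurableEquivRealProd.measurableEmbedding
    (fun z => F ((z.1 : ℂ) + z.2 * Complex.I)) (Ioo 0 p ×ˢ Ioo 0 q)
  rw [← G5_cell] at h1
  rw [← h1]
  apply integral_congr_ae
  filter_upwards with x
  congr 1
  exact (Complex.re_add_im x).symm

theorem G5_cont {F : ℂ → ℝ} (hF : Continuous F) :
    Continuous fun z : ℝ × ℝ => F ((z.1 : ℂ) + z.2 * Complex.I) := by
  fun_prop

theorem G5_int {p q : ℝ} {F : ℂ → ℝ} (hF : Continuous F) :
    IntegrableOn (fun z : ℝ × ℝ => F ((z.1 : ℂ) + z.2 * Complex.I)) (Ioo 0 p ×ˢ Ioo 0 q)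
      (volume.prod volume) := by
  have h1 : IntegrableOn (fun z : ℝ × ℝ => F ((z.1 : ℂ) + z.2 * Complex.I)) (Icc 0 p ×ˢ Icc 0 q) volume :=
    (G5_cont hF).continuousOn.integrableOn_compact (isCompact_Icc.prod isCompact_Icc)
  rw [← Measure.volume_eq_prod]
  exact h1.mono_set (prod_mono Ioo_subset_Icc_self Ioo_subset_Icc_self)

theorem G5_fub {p q : ℝ} (hp : 0 < p) (hq : 0 < q) {F : ℂ → ℝ} (hF : Continuous F) :
    ∫ x in Cell p q, F x = ∫ s in (0:ℝ)..p, ∫ t in (0:ℝ)..q, F ((s : ℂ) + t * Complex.I) := by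
  rw [G5_prod F, Measure.volume_eq_prod, setIntegral_prod _ (G5_int hF),
    intervalIntegral.integral_of_le hp.le, integral_Ioc_eq_integral_Ioo]
  apply integral_congr_ae
  filter_upwards with s
  rw [intervalIntegral.integral_of_le hq.le, integral_Ioc_eq_integral_Ioo]

theorem G5_fub2 {p q : ℝ} (hp : 0 < p) (hq : 0 < q) {F : ℂ → ℝ} (hF : Continuous F) :
    ∫ x in Cell p q, F x = ∫ t in (0:ℝ)..q, ∫ s in (0:ℝ)..p, F ((s : ℂ) + t * Complex.I) := by
  have h0 : IntegrableOn (fun z : ℝ × ℝ => F ((z.2 : ℂ) + z.1 * Complex.I)) (Ioo 0 q ×ˢ Ioo 0 p)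
      (volume.prod volume) := by
    have hc : Continuous fun z : ℝ × ℝ => F ((z.2 : ℂ) + z.1 * Complex.I) := by fun_prop
    have h1 : IntegrableOn (fun z : ℝ × ℝ => F ((z.2 : ℂ) + z.1 * Complex.I)) (Icc 0 q ×ˢ Icc 0 p) volume :=
      hc.continuousOn.integrableOn_compact (isCompact_Icc.prod isCompact_Icc)
    rw [← Measure.volume_eq_prod]
    exact h1.mono_set (prod_mono Ioo_subset_Icc_self Ioo_subset_Icc_self)
  rw [G5_prod F, Measure.volume_eq_prod, ← setIntegral_prod_swap]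
  show ∫ z in Ioo 0 q ×ˢ Ioo 0 p, F ((z.2 : ℂ) + z.1 * Complex.I) ∂volume.prod volume = _
  rw [setIntegral_prod _ h0, intervalIntegral.integral_of_le hq.le, integral_Ioc_eq_integral_Ioo]
  apply integral_congr_ae
  filter_upwards with s
  rw [intervalIntegral.integral_of_le hp.le, integral_Ioc_eq_integral_Ioo]

/-- Cauchy-Schwarz -/
theorem G5_cs {g : ℝ → ℝ} (hg : Continuous g) {a b : ℝ} (hab : a ≤ b) :
    (∫ s in a..b, g s) ^ 2 ≤ (b - a) * ∫ s in a..b, g s ^ 2 := by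
  rcases hab.eq_or_lt with rfl | hab
  · simp
  · set I := ∫ s in a..b, g s with hI
    have h1 : 0 ≤ ∫ s in a..b, ((b - a) * g s - I) ^ 2 :=
      intervalIntegral.integral_nonneg hab.le fun s _ => sq_nonneg _
    have h2 : ∫ s in a..b, ((b - a) * g s - I) ^ 2
        = (b - a) ^ 2 * (∫ s in a..b, g s ^ 2) - 2 * (b - a) * I * I + (b - a) * I ^ 2 := by
      have e : (fun s => ((b - a) * g s - I) ^ 2)
          = fun s => (b - a) ^ 2 * g s ^ 2 - 2 * (b - a) * I * g s + I ^ 2 := by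
        funext s
        ring
      rw [e, intervalIntegral.integral_add, intervalIntegral.integral_sub,
        intervalIntegral.integral_const_mul, intervalIntegral.integral_const_mul,
        intervalIntegral.integral_const, ← hI, smul_eq_mul]
      all_goals
        apply Continuous.intervalIntegrable
        fun_prop
    rw [h2] at h1
    have h3 : 0 < b - a := by linarith
    have h4 : 0 ≤ (b - a) * ((b - a) * (∫ s in a..b, g s ^ 2) - I ^ 2) := by nlinarith
    have h5 := nonneg_of_mul_nonneg_right h4 h3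
    linarith

theorem G5_line_le {φ g : ℝ → ℝ} (hg : Continuous g) (hφ : ∀ s, HasDerivAt φ (g s) s) {p x y : ℝ}
    (hx : 0 ≤ x) (hxy : x ≤ y) (hy : y ≤ p) : (φ y - φ x) ^ 2 ≤ p * ∫ s in (0:ℝ)..p, g s ^ 2 := by
  have h1 : ∫ s in x..y, g s = φ y - φ x :=
    intervalIntegral.integral_eq_sub_of_hasDerivAt (fun s _ => hφ s) (hg.intervalIntegrable _ _)
  rw [← h1]
  refine (G5_cs hg hxy).trans ?_
  have h2 : ∫ s in x..y, g s ^ 2 ≤ ∫ s in (0:ℝ)..p, g s ^ 2 := by
    apply intervalIntegral.integral_mono_interval hx hxy hy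
    · exact Filter.Eventually.of_forall fun s => sq_nonneg (g s)
    · exact (hg.pow 2).intervalIntegrable _ _
  have h3 : 0 ≤ ∫ s in (0:ℝ)..p, g s ^ 2 :=
    intervalIntegral.integral_nonneg (by linarith) fun s _ => sq_nonneg (g s)
  calc (y - x) * ∫ s in x..y, g s ^ 2 ≤ (y - x) * ∫ s in (0:ℝ)..p, g s ^ 2 :=
        mul_le_mul_of_nonneg_left h2 (by linarith)
    _ ≤ p * ∫ s in (0:ℝ)..p, g s ^ 2 := mul_le_mul_of_nonneg_right (by linarith) h3

theorem G5_line {φ g : ℝ → ℝ} (hg : Continuous g) (hφ : ∀ s, HasDerivAt φ (g s) s) {p x y : ℝ}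
    (hx : x ∈ Icc 0 p) (hy : y ∈ Icc 0 p) : (φ x - φ y) ^ 2 ≤ p * ∫ s in (0:ℝ)..p, g s ^ 2 := by
  rcases le_total x y with h | h
  · have h1 := G5_line_le hg hφ hx.1 h hy.2
    calc (φ x - φ y) ^ 2 = (φ y - φ x) ^ 2 := by ring
      _ ≤ _ := h1
  · exact G5_line_le hg hφ hy.1 h hx.2

/-- [YUB-G5] Poincaré-type inequality on the rectangle. There is a constant `m` (the mean value) with
`∫ (f - m)^2 ≤ D ∫ gsq f`, `D = 2 (p^2 + q^2)`. Proof: for `x = (x₁,x₂)`, `y = (y₁,y₂)` in the cell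
`|f x - f y|² ≤ 2 |f(x₁,x₂) - f(y₁,x₂)|² + 2 |f(y₁,x₂) - f(y₁,y₂)|² ≤ 2 p ∫_0^p f_x(s,x₂)² ds + 2 q ∫_0^q f_y(y₁,s)² ds`
(Cauchy-Schwarz on segments). Integrate over `x` and `y`: `∬ |f x - f y|² ≤ 2 p² |C| ∫ f_x² + 2 q² |C| ∫ f_y²`, `|C| = p q`, and
`∬ |f x - f y|² = 2 |C| ∫ (f - m)²`. (Any constant `D` depending only on `p`, `q` is fine.) -/
theorem torus_poincare {p q : ℝ} (hp : 0 < p) (hq : 0 < q) : ∃ D : ℝ, 0 < D ∧
    ∀ f : ℂ → ℝ, ContDiff ℝ 1 f → ∃ m : ℝ,
      ∫ x in Cell p q, (f x - m) ^ 2 ≤ D * ∫ x in Cell p q, gsq f x := by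
  refine ⟨2 * (p ^ 2 + q ^ 2), by positivity, fun f hf => ?_⟩
  have hfc : Continuous f := hf.continuous
  have hdiff : ∀ x, DifferentiableAt ℝ f x := fun x => (hf.differentiable (by norm_num)) x
  have hfd : Continuous (fderiv ℝ f) := hf.continuous_fderiv (by norm_num)
  have hdx : Continuous (dx f) := by
    unfold dx
    exact hfd.clm_apply continuous_const
  have hdy : Continuous (dy f) := by
    unfold dy
    exact hfd.clm_apply continuous_const
  have hX : ∀ t s : ℝ, HasDerivAt (fun s : ℝ => f ((s : ℂ) + t * Complex.I)) (dx f ((s : ℂ) + t * Complex.I)) s := by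
    intro t s
    have h1 : HasDerivAt (fun s : ℝ => (s : ℂ) + t * Complex.I) 1 s :=
      (Complex.ofRealCLM.hasDerivAt (x := s)).add_const _
    exact (hdiff _).hasFDerivAt.comp_hasDerivAt s h1
  have hY : ∀ s t : ℝ, HasDerivAt (fun t : ℝ => f ((s : ℂ) + t * Complex.I)) (dy f ((s : ℂ) + t * Complex.I)) t := by
    intro s t
    have h1 : HasDerivAt (fun t : ℝ => (s : ℂ) + t * Complex.I) Complex.I t := by
      have h2 := ((Complex.ofRealCLM.hasDerivAt (x := t)).mul_const Complex.I).const_add (s : ℂ)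
      have h3 : Complex.ofRealCLM 1 * Complex.I = Complex.I := by simp
      rw [h3] at h2
      exact h2
    exact (hdiff _).hasFDerivAt.comp_hasDerivAt t h1
  let G : ℝ → ℝ := fun t => ∫ s in (0:ℝ)..p, dx f ((s : ℂ) + t * Complex.I) ^ 2
  let H : ℝ → ℝ := fun s => ∫ t in (0:ℝ)..q, dy f ((s : ℂ) + t * Complex.I) ^ 2
  have hGc : Continuous G := by
    apply intervalIntegral.continuous_parametric_intervalIntegral_of_continuous'
    show Continuous fun z : ℝ × ℝ => dx f ((z.2 : ℂ) + z.1 * Complex.I) ^ 2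
    fun_prop
  have hHc : Continuous H := by
    apply intervalIntegral.continuous_parametric_intervalIntegral_of_continuous'
    show Continuous fun z : ℝ × ℝ => dy f ((z.1 : ℂ) + z.2 * Complex.I) ^ 2
    fun_prop
  have hGi : ∫ x in Cell p q, dx f x ^ 2 = ∫ t in (0:ℝ)..q, G t := G5_fub2 hp hq (hdx.pow 2)
  have hHi : ∫ x in Cell p q, dy f x ^ 2 = ∫ s in (0:ℝ)..p, H s := G5_fub hp hq (hdy.pow 2)
  obtain ⟨s₀, hs₀, hs₁⟩ : ∃ s₀ ∈ Icc 0 p, p * H s₀ ≤ ∫ s in (0:ℝ)..p, H s := by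
    by_contra hno
    push Not at hno
    have h1 : 0 < ∫ s in (0:ℝ)..p, (p * H s - ∫ s in (0:ℝ)..p, H s) := by
      apply intervalIntegral.intervalIntegral_pos_of_pos_on
      · apply Continuous.intervalIntegrable
        fun_prop
      · intro s hs
        have := hno s (Ioo_subset_Icc_self hs)
        linarith
      · exact hp
    rw [intervalIntegral.integral_sub, intervalIntegral.integral_const_mul,
      intervalIntegral.integral_const, sub_zero, smul_eq_mul, sub_self] at h1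
    · exact lt_irrefl _ h1
    · exact (continuous_const.mul hHc).intervalIntegrable _ _
    · exact continuous_const.intervalIntegrable _ _
  refine ⟨f ((s₀ : ℂ) + (0 : ℝ) * Complex.I), ?_⟩
  set m := f ((s₀ : ℂ) + (0 : ℝ) * Complex.I) with hm
  have hpt : ∀ s ∈ Icc 0 p, ∀ t ∈ Icc 0 q,
      (f ((s : ℂ) + t * Complex.I) - m) ^ 2 ≤ 2 * (p * G t) + 2 * (q * H s₀) := by
    intro s hs t ht
    have h1 := G5_line (φ := fun s : ℝ => f ((s : ℂ) + t * Complex.I))
      (g := fun s : ℝ => dx f ((s : ℂ) + t * Complex.I)) (by fun_prop) (hX t) hs hs₀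
    have h2 := G5_line (φ := fun t : ℝ => f ((s₀ : ℂ) + t * Complex.I))
      (g := fun t : ℝ => dy f ((s₀ : ℂ) + t * Complex.I)) (by fun_prop) (hY s₀) ht
      (left_mem_Icc.2 hq.le)
    have h3 : (f ((s : ℂ) + t * Complex.I) - m) ^ 2
        ≤ 2 * (f ((s : ℂ) + t * Complex.I) - f ((s₀ : ℂ) + t * Complex.I)) ^ 2
          + 2 * (f ((s₀ : ℂ) + t * Complex.I) - m) ^ 2 := by
      nlinarith [sq_nonneg ((f ((s : ℂ) + t * Complex.I) - f ((s₀ : ℂ) + t * Complex.I))
        - (f ((s₀ : ℂ) + t * Complex.I) - m))]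
    have h4 : G t = ∫ s in (0:ℝ)..p, dx f ((s : ℂ) + t * Complex.I) ^ 2 := rfl
    have h5 : H s₀ = ∫ t in (0:ℝ)..q, dy f ((s₀ : ℂ) + t * Complex.I) ^ 2 := rfl
    rw [← h4] at h1
    rw [← h5] at h2
    linarith
  have hFc : Continuous fun x => (f x - m) ^ 2 := by fun_prop
  rw [G5_fub hp hq hFc]
  have hin : ∀ s ∈ Icc 0 p, ∫ t in (0:ℝ)..q, (f ((s : ℂ) + t * Complex.I) - m) ^ 2
      ≤ 2 * p * (∫ t in (0:ℝ)..q, G t) + 2 * q ^ 2 * H s₀ := by
    intro s hs
    have h1 : ∫ t in (0:ℝ)..q, (f ((s : ℂ) + t * Complex.I) - m) ^ 2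
        ≤ ∫ t in (0:ℝ)..q, (2 * (p * G t) + 2 * (q * H s₀)) := by
      apply intervalIntegral.integral_mono_on hq.le
      · apply Continuous.intervalIntegrable
        fun_prop
      · apply Continuous.intervalIntegrable
        fun_prop
      · intro t ht
        exact hpt s hs t ht
    refine h1.trans (le_of_eq ?_)
    rw [intervalIntegral.integral_add, intervalIntegral.integral_const_mul,
      intervalIntegral.integral_const_mul, intervalIntegral.integral_const, sub_zero, smul_eq_mul]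
    · ring
    · apply Continuous.intervalIntegrable
      fun_prop
    · apply Continuous.intervalIntegrable
      fun_prop
  have hout : ∫ s in (0:ℝ)..p, ∫ t in (0:ℝ)..q, (f ((s : ℂ) + t * Complex.I) - m) ^ 2
      ≤ p * (2 * p * (∫ t in (0:ℝ)..q, G t) + 2 * q ^ 2 * H s₀) := by
    have h1 : ∫ s in (0:ℝ)..p, ∫ t in (0:ℝ)..q, (f ((s : ℂ) + t * Complex.I) - m) ^ 2
        ≤ ∫ s in (0:ℝ)..p, (2 * p * (∫ t in (0:ℝ)..q, G t) + 2 * q ^ 2 * H s₀) := by
      apply intervalIntegral.integral_mono_on hp.le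
      · apply Continuous.intervalIntegrable
        apply intervalIntegral.continuous_parametric_intervalIntegral_of_continuous'
        show Continuous fun z : ℝ × ℝ => (f ((z.1 : ℂ) + z.2 * Complex.I) - m) ^ 2
        fun_prop
      · exact continuous_const.intervalIntegrable _ _
      · intro s hs
        exact hin s hs
    rw [intervalIntegral.integral_const, sub_zero, smul_eq_mul] at h1
    exact h1
  have hgs : ∫ x in Cell p q, gsq f x = (∫ t in (0:ℝ)..q, G t) + ∫ s in (0:ℝ)..p, H s := by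
    rw [← hGi, ← hHi]
    unfold gsq
    have hi : ∀ {F : ℂ → ℝ}, Continuous F → IntegrableOn F (Cell p q) volume := by
      intro F hF
      exact (hF.continuousOn.integrableOn_compact (cell_bounded p q).isCompact_closure).mono_set
        subset_closure
    exact integral_add (hi (hdx.pow 2)) (hi (hdy.pow 2))
  have hG0 : 0 ≤ ∫ t in (0:ℝ)..q, G t := by
    apply intervalIntegral.integral_nonneg hq.le
    intro t _
    exact intervalIntegral.integral_nonneg hp.le fun s _ => sq_nonneg _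
  have hH0 : 0 ≤ ∫ s in (0:ℝ)..p, H s := by
    apply intervalIntegral.integral_nonneg hp.le
    intro t _
    exact intervalIntegral.integral_nonneg hq.le fun s _ => sq_nonneg _
  rw [hgs]
  refine hout.trans ?_
  have h1 : 2 * q ^ 2 * (p * H s₀) ≤ 2 * q ^ 2 * ∫ s in (0:ℝ)..p, H s :=
    mul_le_mul_of_nonneg_left hs₁ (by positivity)
  have h2 : 0 ≤ 2 * q ^ 2 * ∫ t in (0:ℝ)..q, G t := mul_nonneg (by positivity) hG0
  have h3 : 0 ≤ 2 * p ^ 2 * ∫ s in (0:ℝ)..p, H s := mul_nonneg (by positivity) hH0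
  calc p * (2 * p * (∫ t in (0:ℝ)..q, G t) + 2 * q ^ 2 * H s₀)
      = 2 * p ^ 2 * (∫ t in (0:ℝ)..q, G t) + 2 * q ^ 2 * (p * H s₀) := by ring
    _ ≤ 2 * p ^ 2 * (∫ t in (0:ℝ)..q, G t) + 2 * q ^ 2 * (∫ s in (0:ℝ)..p, H s)
        + 2 * q ^ 2 * (∫ t in (0:ℝ)..q, G t) + 2 * p ^ 2 * (∫ s in (0:ℝ)..p, H s) := by linarith
    _ = 2 * (p ^ 2 + q ^ 2) * ((∫ t in (0:ℝ)..q, G t) + ∫ s in (0:ℝ)..p, H s) := by ring

end Pool.Agent.YUB
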