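import Pool.Agent.YUB.G1
import Pool.Agent.YUB.G4
import Pool.Agent.YUB.G5

open MeasureTheory Set Filter Topology
open scoped ContDiff

namespace Pool.Agent.YUB

open Pool.Agent.YUD Pool.Agent.YUT

theorem G6_biUnion {ι : Type} (J : Finset ι) (A : ι → Set ℂ) (f : ℂ → ENNReal) :
    ∫⁻ x in ⋃ j ∈ J, A j, f x ≤ ∑ j ∈ J, ∫⁻ x in A j, f x := by
  classical
  induction J using Finset.induction_on with
  | empty => simp
  | insert a s ha ih =>
    rw [Finset.set_biUnion_insert, Finset.sum_insert ha]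
    exact (lintegral_union_le _ _ _).trans (add_le_add le_rfl ih)

/-- covering by translates -/
theorem G6_cover {ι : Type} {g : ℂ → ℝ} {D B : Set ℂ} (J : Finset ι) (v : ι → ℂ)
    (hg0 : ∀ x, 0 ≤ g x) (hD : MeasurableSet D)
    (hcov : ∀ x ∈ B, ∃ j ∈ J, ∃ y ∈ D, x = y + v j)
    (hper : ∀ j ∈ J, ∀ x ∈ D, g (x + v j) = g x) (hgB : IntegrableOn g B)
    (hgD : IntegrableOn g D) :
    ∫ x in B, g x ≤ J.card * ∫ x in D, g x := by
  have h1 : ∫ x in B, g x = (∫⁻ x in B, ENNReal.ofReal (g x)).toReal :=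
    integral_eq_lintegral_of_nonneg_ae (Eventually.of_forall hg0) hgB.aestronglyMeasurable
  have h2 : ∫ x in D, g x = (∫⁻ x in D, ENNReal.ofReal (g x)).toReal :=
    integral_eq_lintegral_of_nonneg_ae (Eventually.of_forall hg0) hgD.aestronglyMeasurable
  have h3 : ∀ j ∈ J, ∫⁻ x in (fun x => x + v j) '' D, ENNReal.ofReal (g x) =
      ∫⁻ x in D, ENNReal.ofReal (g x) := by
    intro j hj
    have h4 := (measurePreserving_add_right (volume : Measure ℂ) (v j)).setLIntegral_comp_emb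
      (measurableEmbedding_addRight (v j)) (fun x => ENNReal.ofReal (g x)) D
    rw [← h4]
    exact setLIntegral_congr_fun hD (fun x hx => by rw [hper j hj x hx])
  have h4 : ∫⁻ x in B, ENNReal.ofReal (g x) ≤ J.card * ∫⁻ x in D, ENNReal.ofReal (g x) := by
    calc ∫⁻ x in B, ENNReal.ofReal (g x)
        ≤ ∫⁻ x in ⋃ j ∈ J, (fun x => x + v j) '' D, ENNReal.ofReal (g x) := by
          apply lintegral_mono_set
          intro x hx
          obtain ⟨j, hj, y, hy, hxy⟩ := hcov x hx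
          rw [mem_iUnion₂]
          exact ⟨j, hj, y, hy, hxy.symm⟩
      _ ≤ ∑ j ∈ J, ∫⁻ x in (fun x => x + v j) '' D, ENNReal.ofReal (g x) :=
          G6_biUnion J _ _
      _ = ∑ _j ∈ J, ∫⁻ x in D, ENNReal.ofReal (g x) := Finset.sum_congr rfl h3
      _ = J.card * ∫⁻ x in D, ENNReal.ofReal (g x) := by
          rw [Finset.sum_const, nsmul_eq_mul]
  have h5 : ∫⁻ x in D, ENNReal.ofReal (g x) ≠ ⊤ := by
    have h6 := hgD.hasFiniteIntegral
    rw [hasFiniteIntegral_iff_ofReal (Eventually.of_forall hg0)] at h6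
    exact h6.ne
  rw [h1, h2]
  have h7 := ENNReal.toReal_mono (ENNReal.mul_ne_top (ENNReal.natCast_ne_top J.card) h5) h4
  rwa [ENNReal.toReal_mul, ENNReal.toReal_natCast] at h7

/-- lines are null sets -/
theorem G6_null (l : ℂ →ₗ[ℝ] ℝ) (hl : l ≠ 0) : (volume : Measure ℂ) {x : ℂ | l x = 0} = 0 := by
  have h1 : LinearMap.ker l ≠ ⊤ := by
    intro h
    exact hl (LinearMap.ker_eq_top.1 h)
  exact Measure.addHaar_submodule (volume : Measure ℂ) _ h1

theorem G6_per {v : ℂ} {f : ℂ → ℝ} (hf : ∀ x, f (x + v) = f x) (n : ℤ) (x : ℂ) :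
    f (x + n * v) = f x := by
  have h1 : ∀ (m : ℕ) (y : ℂ), f (y + m * v) = f y := by
    intro m
    induction m with
    | zero => intro y; simp
    | succ m ih =>
      intro y
      have h2 : y + ((m + 1 : ℕ) : ℂ) * v = (y + m * v) + v := by
        push_cast
        ring
      rw [h2, hf, ih y]
  rcases Int.eq_nat_or_neg n with ⟨m, rfl | rfl⟩
  · exact_mod_cast h1 m x
  · have h3 := h1 m (x + ((-(m : ℤ) : ℤ) : ℂ) * v)
    rw [← h3]
    congr 1
    push_cast
    ring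

theorem G6_fderiv_per {v : ℂ} {f : ℂ → ℝ} (hf : ∀ x, f (x + v) = f x) (x : ℂ) :
    fderiv ℝ f (x + v) = fderiv ℝ f x := by
  have h1 : fderiv ℝ (fun y => f (y + v)) x = fderiv ℝ f (x + v) := fderiv_comp_add_right _
  rw [← h1]
  congr 1
  funext y
  exact hf y

theorem G6_gsq_per {v : ℂ} {f : ℂ → ℝ} (hf : ∀ x, f (x + v) = f x) (x : ℂ) :
    gsq f (x + v) = gsq f x := by
  unfold gsq dx dy
  rw [G6_fderiv_per hf]

/-- a coordinate in an interval of length at most `p` is in one of two cells -/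
theorem G6_coord {p a ρ x : ℝ} (hp : 0 < p) (hρp : ρ ≤ p / 2) (h2 : -ρ < x - a) (h3 : x - a < ρ) :
    ∃ j ∈ Finset.range 2, 0 ≤ x - (⌊(a - ρ) / p⌋ + (j : ℕ)) * p ∧
      x - (⌊(a - ρ) / p⌋ + (j : ℕ)) * p < p := by
  have hn1 : ⌊(a - ρ) / p⌋ * p ≤ a - ρ := by
    have := Int.floor_le ((a - ρ) / p)
    rwa [le_div_iff₀ hp] at this
  have hn2 : a - ρ < (⌊(a - ρ) / p⌋ + 1) * p := by
    have := Int.lt_floor_add_one ((a - ρ) / p)
    rwa [div_lt_iff₀ hp] at this
  by_cases h4 : x < (⌊(a - ρ) / p⌋ + 1) * p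
  · refine ⟨0, by simp, ?_, ?_⟩ <;> push_cast <;> nlinarith
  · refine ⟨1, by simp, ?_, ?_⟩ <;> push_cast <;> nlinarith

/-- the energy on the cell -/
theorem G6_energy {p q : ℝ} (hp : 0 < p) (hq : 0 < q) : ∃ D : ℝ, 0 < D ∧ ∀ (f : ℂ → ℝ) (B : ℝ),
    ContDiff ℝ 2 f → Per2 p q univ f → (∀ x, |lap f x| ≤ B) →
      ∫ x in Cell p q, gsq f x ≤ D * B ^ 2 * ∫ _x in Cell p q, (1 : ℝ) := by
  obtain ⟨D, hD, hpc⟩ := torus_poincare hp hq
  refine ⟨D, hD, ?_⟩
  intro f B hf hper hB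
  have hf1 : ContDiff ℝ 1 f := hf.of_le (by norm_num)
  obtain ⟨m, hm⟩ := hpc f hf1
  have hdx : ContDiff ℝ 1 (dx f) := by
    have := contDiff_dx (n := 1) (f := f) (by exact_mod_cast hf)
    exact_mod_cast this
  have hdy : ContDiff ℝ 1 (dy f) := by
    have := contDiff_dy (n := 1) (f := f) (by exact_mod_cast hf)
    exact_mod_cast this
  have hlap : Continuous (lap f) := by
    have g1 : Continuous (dx (dx f)) :=
      (contDiff_dx (n := 0) (by exact_mod_cast hdx)).continuous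
    have g2 : Continuous (dy (dy f)) :=
      (contDiff_dy (n := 0) (by exact_mod_cast hdy)).continuous
    exact g1.add g2
  have hint : ∀ g : ℂ → ℝ, Continuous g → IntegrableOn g (Cell p q) := by
    intro g hg
    have hb := cell_bounded p q
    exact (hg.continuousOn.integrableOn_compact hb.isCompact_closure).mono_set subset_closure
  have hfd : ∀ x, fderiv ℝ (fun x => f x - m) x = fderiv ℝ f x := by
    intro x
    rw [fderiv_sub_const]
  have hdx' : dx (fun x => f x - m) = dx f := by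
    funext x
    unfold dx
    rw [hfd]
  have hdy' : dy (fun x => f x - m) = dy f := by
    funext x
    unfold dy
    rw [hfd]
  have h1 := torus_green hp hq (f := fun x => f x - m) (hf.sub contDiff_const) (fun x hx => by
    have := hper x hx
    exact ⟨congrArg (fun y => y - m) this.1, congrArg (fun y => y - m) this.2⟩)
  have h2 : gsq (fun x => f x - m) = gsq f := by
    funext x
    unfold gsq
    rw [hdx', hdy']
  have h3 : lap (fun x => f x - m) = lap f := by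
    funext x
    unfold lap
    rw [hdx', hdy']
  rw [h2, h3, ← integral_neg] at h1
  have c1 : Continuous (fun x => (f x - m) ^ 2) := (hf.continuous.sub continuous_const).pow 2
  have c2 : Continuous (fun x => -((f x - m) * lap f x)) :=
    ((hf.continuous.sub continuous_const).mul hlap).neg
  have c3 : Continuous (fun x => 1 / (2 * D) * (f x - m) ^ 2) := continuous_const.mul c1
  have c4 : Continuous (fun _x : ℂ => D / 2 * B ^ 2 * (1 : ℝ)) := continuous_const
  have c5 : Continuous (fun x => 1 / (2 * D) * (f x - m) ^ 2 + D / 2 * B ^ 2 * 1) := c3.add c4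
  have h4 : ∫ x in Cell p q, -((f x - m) * lap f x) ≤
      ∫ x in Cell p q, (1 / (2 * D) * (f x - m) ^ 2 + D / 2 * B ^ 2 * 1) := by
    apply integral_mono (hint _ c2) (hint _ c5)
    intro x
    dsimp only
    have g1 : lap f x ^ 2 ≤ B ^ 2 := sq_le_sq' (abs_le.1 (hB x)).1 (abs_le.1 (hB x)).2
    have g2 : 0 ≤ D * (lap f x + (f x - m) / D) ^ 2 := by positivity
    have g3 : D * (lap f x + (f x - m) / D) ^ 2 =
        D * lap f x ^ 2 + 2 * ((f x - m) * lap f x) + 2 * (1 / (2 * D) * (f x - m) ^ 2) := by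
      field_simp
      ring
    have g4 : D * lap f x ^ 2 ≤ D * B ^ 2 := mul_le_mul_of_nonneg_left g1 hD.le
    linarith
  rw [integral_add (hint _ c3) (hint _ c4), integral_const_mul, integral_const_mul] at h4
  have h5 : 1 / (2 * D) * ∫ x in Cell p q, (f x - m) ^ 2 ≤ 1 / 2 * ∫ x in Cell p q, gsq f x := by
    calc 1 / (2 * D) * ∫ x in Cell p q, (f x - m) ^ 2 ≤
          1 / (2 * D) * (D * ∫ x in Cell p q, gsq f x) :=
          mul_le_mul_of_nonneg_left hm (by positivity)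
      _ = 1 / 2 * ∫ x in Cell p q, gsq f x := by field_simp
  linarith

/-- [YUB-G6] the torus. `B` a bound of `|w₀|` on `ℂ` (`lap (ψ 0) = w₀`, `C2Le.lap_le`), so `|lap (ψ t)| ≤ B` (`Φ t` is onto).
For `f = ψ t`, `m` from `torus_poincare`: `∫ gsq f = -∫ (f - m) lap f` (`torus_green` for `f - m`) `≤
1/(2D) ∫ (f-m)^2 + D/2 ∫ (lap f)^2 ≤ 1/2 ∫ gsq f + D/2 B² p q`, so `∫_{Cell} gsq (ψ t) ≤ D B² p q`. For
`ρ ≤ min p q / 2` a ball is, after translation by a period (`0 ≤ c.re < p`, `0 ≤ c.im < q`), contained in nine closed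
cells, so the integral over it of the periodic function `‖fderiv ψ‖ ≤ 1 + gsq ψ` is at most nine times the one over
`Cell p q` (translation invariance and periodicity). -/
theorem loc_torus {p q : ℝ} {w₀ : ℂ → ℝ} {ψ : ℝ → ℂ → ℝ} {Φ : ℝ → ℂ → ℂ} (hp : 0 < p)
    (hq : 0 < q) (hF : QFlow p q univ w₀ ψ Φ) :
    ∃ E₀ : ℝ, ∀ t, 0 ≤ t → ∀ (c : ℂ) (ρ : ℝ), 0 < ρ → ρ ≤ p / 2 → ρ ≤ q / 2 →
      ∫ x in Metric.ball c ρ, ‖fderiv ℝ (ψ t) x‖ ≤ E₀ := by
  obtain ⟨D₀, hD₀, hen⟩ := G6_energy hp hq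
  set D : Set ℂ := {x | 0 ≤ x.re ∧ x.re < p ∧ 0 ≤ x.im ∧ x.im < q} with hDdef
  have hDm : MeasurableSet D := by
    have h1 : Measurable Complex.re := Complex.measurable_re
    have h2 : Measurable Complex.im := Complex.measurable_im
    exact (measurableSet_le measurable_const h1).inter ((measurableSet_lt h1 measurable_const).inter
      ((measurableSet_le measurable_const h2).inter (measurableSet_lt h2 measurable_const)))
  have hDC : D =ᵐ[volume] Cell p q := by
    have h1 : ∀ᵐ x : ℂ, x.re ≠ 0 := by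
      rw [ae_iff]
      have h2 : {a : ℂ | ¬ a.re ≠ 0} = {x : ℂ | Complex.reLm x = 0} := by
        ext x
        simp
      rw [h2]
      apply G6_null
      intro h
      have := LinearMap.congr_fun h 1
      simp at this
    have h1' : ∀ᵐ x : ℂ, x.im ≠ 0 := by
      rw [ae_iff]
      have h2 : {a : ℂ | ¬ a.im ≠ 0} = {x : ℂ | Complex.imLm x = 0} := by
        ext x
        simp
      rw [h2]
      apply G6_null
      intro h
      have := LinearMap.congr_fun h Complex.I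
      simp at this
    filter_upwards [h1, h1'] with x hx hx'
    apply propext
    constructor
    · intro hxD
      exact ⟨lt_of_le_of_ne hxD.1 (Ne.symm hx), hxD.2.1,
        lt_of_le_of_ne hxD.2.2.1 (Ne.symm hx'), hxD.2.2.2⟩
    · intro hxC
      exact ⟨hxC.1.le, hxC.2.1, hxC.2.2.1.le, hxC.2.2.2⟩
  -- the bound of the vorticity
  obtain ⟨C₀, hC₀⟩ := hF.stream 0
  have hC₀' : C2Le univ C₀ (ψ 0) := ⟨(hC₀ 0 le_rfl le_rfl).1, (hC₀ 0 le_rfl le_rfl).2.1⟩
  have hw : ∀ x, |w₀ x| ≤ 2 * C₀ := by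
    intro x
    have h1 := hF.vort 0 le_rfl x (mem_univ x)
    rw [hF.start x (mem_univ x)] at h1
    rw [← h1]
    exact hC₀'.lap_le x (mem_univ x)
  have hlapB : ∀ t, 0 ≤ t → ∀ x, |lap (ψ t) x| ≤ 2 * C₀ := by
    intro t ht x
    obtain ⟨y, hy, rfl⟩ := (hF.bij t ht).surjOn (mem_univ x)
    rw [hF.vort t ht y hy]
    exact hw y
  refine ⟨4 * ((∫ _x in Cell p q, (1 : ℝ)) +
    D₀ * (2 * C₀) ^ 2 * ∫ _x in Cell p q, (1 : ℝ)), ?_⟩
  intro t ht c ρ hρ hρp hρq
  obtain ⟨C, hC⟩ := hF.stream t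
  have hC2 : C2Le univ C (ψ t) := ⟨(hC t ht le_rfl).1, (hC t ht le_rfl).2.1⟩
  have hf : ContDiff ℝ 2 (ψ t) := contDiffOn_univ.1 hC2.1
  have hf1 : ContDiff ℝ 1 (ψ t) := hf.of_le (by norm_num)
  have hpx : ∀ x : ℂ, ψ t (x + p) = ψ t x := fun x => (hF.per t ht x (mem_univ x)).1
  have hpy : ∀ x : ℂ, ψ t (x + q * Complex.I) = ψ t x :=
    fun x => (hF.per t ht x (mem_univ x)).2.1
  have hdx : Continuous (dx (ψ t)) := (contDiff_dx (n := 0) (by exact_mod_cast hf1)).continuous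
  have hdy : Continuous (dy (ψ t)) := (contDiff_dy (n := 0) (by exact_mod_cast hf1)).continuous
  have hgc : Continuous (gsq (ψ t)) := (hdx.pow 2).add (hdy.pow 2)
  have hfd : Continuous (fun x => ‖fderiv ℝ (ψ t) x‖) := (hf1.continuous_fderiv one_ne_zero).norm
  have hint : ∀ (S : Set ℂ) (g : ℂ → ℝ), Bornology.IsBounded S → Continuous g →
      IntegrableOn g S := by
    intro S g hb hg
    exact (hg.continuousOn.integrableOn_compact hb.isCompact_closure).mono_set subset_closure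
  have hg1 : Continuous (fun x => 1 + gsq (ψ t) x) := continuous_const.add hgc
  have i1 : IntegrableOn (fun x => 1 + gsq (ψ t) x) (Metric.ball c ρ) :=
    hint _ _ Metric.isBounded_ball hg1
  have i2 : IntegrableOn (fun x => ‖fderiv ℝ (ψ t) x‖) (Metric.ball c ρ) :=
    hint _ _ Metric.isBounded_ball hfd
  have i3 : IntegrableOn (fun x => 1 + gsq (ψ t) x) (Cell p q) :=
    hint _ _ (cell_bounded p q) hg1
  have i4 : IntegrableOn (fun x => 1 + gsq (ψ t) x) D := i3.congr_set_ae hDC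
  have s1 : ∫ x in Metric.ball c ρ, ‖fderiv ℝ (ψ t) x‖ ≤
      ∫ x in Metric.ball c ρ, (1 + gsq (ψ t) x) := by
    apply integral_mono i2 i1
    intro x
    have h1 := norm_fderiv_sq_le (ψ t) x
    dsimp only
    nlinarith [sq_nonneg (‖fderiv ℝ (ψ t) x‖ - 1)]
  have s2 := G6_cover (Finset.range 2 ×ˢ Finset.range 2)
    (fun j : ℕ × ℕ => ((⌊(c.re - ρ) / p⌋ + (j.1 : ℤ) : ℤ) : ℂ) * p +
      ((⌊(c.im - ρ) / q⌋ + (j.2 : ℤ) : ℤ) : ℂ) * (q * Complex.I))
    (g := fun x => 1 + gsq (ψ t) x) (D := D) (B := Metric.ball c ρ)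
    (fun x => by have := gsq_nonneg (ψ t) x; linarith) hDm (by
      intro x hx
      rw [Metric.mem_ball, Complex.dist_eq] at hx
      have h1 : |x.re - c.re| < ρ := lt_of_le_of_lt (by
        have := Complex.abs_re_le_norm (x - c)
        rwa [Complex.sub_re] at this) hx
      have h1' : |x.im - c.im| < ρ := lt_of_le_of_lt (by
        have := Complex.abs_im_le_norm (x - c)
        rwa [Complex.sub_im] at this) hx
      obtain ⟨j1, hj1, g1, g2⟩ := G6_coord hp hρp (abs_lt.1 h1).1 (abs_lt.1 h1).2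
      obtain ⟨j2, hj2, g3, g4⟩ := G6_coord hq hρq (abs_lt.1 h1').1 (abs_lt.1 h1').2
      refine ⟨(j1, j2), Finset.mem_product.2 ⟨hj1, hj2⟩,
        x - (((⌊(c.re - ρ) / p⌋ + (j1 : ℤ) : ℤ) : ℂ) * p +
      ((⌊(c.im - ρ) / q⌋ + (j2 : ℤ) : ℤ) : ℂ) * (q * Complex.I)), ?_, by ring⟩
      have e1 : (x - (((⌊(c.re - ρ) / p⌋ + (j1 : ℤ) : ℤ) : ℂ) * p +
          ((⌊(c.im - ρ) / q⌋ + (j2 : ℤ) : ℤ) : ℂ) * (q * Complex.I))).re =
          x.re - (⌊(c.re - ρ) / p⌋ + (j1 : ℕ)) * p := by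
        simp
      have e2 : (x - (((⌊(c.re - ρ) / p⌋ + (j1 : ℤ) : ℤ) : ℂ) * p +
          ((⌊(c.im - ρ) / q⌋ + (j2 : ℤ) : ℤ) : ℂ) * (q * Complex.I))).im =
          x.im - (⌊(c.im - ρ) / q⌋ + (j2 : ℕ)) * q := by
        simp
      rw [hDdef, mem_ofPred_eq, e1, e2]
      exact ⟨g1, g2, g3, g4⟩) (by
      intro j _ x hx
      rw [← add_assoc, G6_per (G6_gsq_per hpy), G6_per (G6_gsq_per hpx)]) i1 i4
  have s3 : ∫ x in D, (1 + gsq (ψ t) x) = ∫ x in Cell p q, (1 + gsq (ψ t) x) :=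
    setIntegral_congr_set hDC
  have s4 : ∫ x in Cell p q, (1 + gsq (ψ t) x) =
      (∫ _x in Cell p q, (1 : ℝ)) + ∫ x in Cell p q, gsq (ψ t) x :=
    integral_add (hint _ _ (cell_bounded p q) continuous_const)
      (hint _ _ (cell_bounded p q) hgc)
  have s5 := hen (ψ t) (2 * C₀) hf (fun x hx => ⟨hpx x, hpy x⟩) (hlapB t ht)
  rw [s3, s4, Finset.card_product, Finset.card_range] at s2
  push_cast at s2
  linarith

end Pool.Agent.YUB
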