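import Pool.Agent.YUB.Base

open MeasureTheory Set Filter Topology
open scoped ContDiff

namespace Pool.Agent.YUB

open Pool.Agent.YUD Pool.Agent.YUT

/-- the sum of the translates of `g` (at most one of them is nonzero at each point, if `g` is supported in a small ball) -/
noncomputable def pz2 (p q : ℝ) (a : ℂ) (ρ : ℝ) (g : ℂ → ℝ) (x : ℂ) : ℝ :=
  open Classical in
  if h : ∃ l : ℤ × ℤ, x - ((l.1 * p : ℝ) + (l.2 * q : ℝ) * Complex.I) ∈ Metric.ball a ρ then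
    g (x - ((h.choose.1 * p : ℝ) + (h.choose.2 * q : ℝ) * Complex.I)) else 0

/-- lattice vectors -/
noncomputable def G7_L (p q : ℝ) (l : ℤ × ℤ) : ℂ := (l.1 * p : ℝ) + (l.2 * q : ℝ) * Complex.I

theorem G7_L_add (p q : ℝ) (l k : ℤ × ℤ) : G7_L p q (l + k) = G7_L p q l + G7_L p q k := by
  unfold G7_L
  rw [Prod.fst_add, Prod.snd_add]
  push_cast
  ring

theorem G7_L_re (p q : ℝ) (l : ℤ × ℤ) : (G7_L p q l).re = l.1 * p := by
  unfold G7_L
  simp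

theorem G7_L_im (p q : ℝ) (l : ℤ × ℤ) : (G7_L p q l).im = l.2 * q := by
  unfold G7_L
  simp

theorem G7_int {p ρ : ℝ} (hp : p = 0 ∨ 0 < p) (hρp : 0 < p → 2 * ρ ≤ p) (m n : ℤ)
    (h : |(m : ℝ) * p - n * p| < 2 * ρ) : (m : ℝ) * p = n * p := by
  rcases hp with rfl | hp
  · rw [mul_zero, mul_zero]
  · have h1 : |((m - n : ℤ) : ℝ)| * p < 1 * p := by
      rw [← abs_of_pos hp, ← abs_mul, abs_of_pos hp]
      push_cast
      rw [sub_mul]
      linarith [hρp hp]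
    have h2 : |((m - n : ℤ) : ℝ)| < 1 := lt_of_mul_lt_mul_right h1 hp.le
    have h3 : |m - n| < 1 := by
      rw [← Int.cast_abs] at h2
      exact_mod_cast h2
    have h4 : m = n := by
      have := Int.abs_lt_one_iff.1 h3
      omega
    rw [h4]

theorem G7_uniq {p q : ℝ} (hp : p = 0 ∨ 0 < p) (hq : q = 0 ∨ 0 < q) {a : ℂ} {ρ : ℝ}
    (hρp : 0 < p → 2 * ρ ≤ p) (hρq : 0 < q → 2 * ρ ≤ q) {x : ℂ} {l k : ℤ × ℤ}
    (hl : x - G7_L p q l ∈ Metric.ball a ρ) (hk : x - G7_L p q k ∈ Metric.ball a ρ) :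
    G7_L p q l = G7_L p q k := by
  have h1 : ‖G7_L p q l - G7_L p q k‖ < 2 * ρ := by
    rw [Metric.mem_ball, dist_eq_norm] at hl hk
    have h2 : G7_L p q l - G7_L p q k = (x - G7_L p q k - a) - (x - G7_L p q l - a) := by ring
    rw [h2]
    exact (norm_sub_le _ _).trans_lt (by linarith)
  have h2 := (Complex.abs_re_le_norm _).trans_lt h1
  have h3 := (Complex.abs_im_le_norm _).trans_lt h1
  rw [Complex.sub_re, G7_L_re, G7_L_re] at h2
  rw [Complex.sub_im, G7_L_im, G7_L_im] at h3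
  have h4 := G7_int hp hρp _ _ h2
  have h5 := G7_int hq hρq _ _ h3
  apply Complex.ext
  · rw [G7_L_re, G7_L_re, h4]
  · rw [G7_L_im, G7_L_im, h5]

theorem G7_eq {p q : ℝ} (hp : p = 0 ∨ 0 < p) (hq : q = 0 ∨ 0 < q) {a : ℂ} {ρ : ℝ}
    (hρp : 0 < p → 2 * ρ ≤ p) (hρq : 0 < q → 2 * ρ ≤ q) (g : ℂ → ℝ) {x : ℂ} {l : ℤ × ℤ}
    (hl : x - G7_L p q l ∈ Metric.ball a ρ) : pz2 p q a ρ g x = g (x - G7_L p q l) := by
  have h : ∃ l : ℤ × ℤ, x - ((l.1 * p : ℝ) + (l.2 * q : ℝ) * Complex.I) ∈ Metric.ball a ρ := ⟨l, hl⟩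
  unfold pz2
  rw [dif_pos h]
  have h1 := h.choose_spec
  have h2 := G7_uniq (l := h.choose) (k := l) hp hq hρp hρq h1 hl
  show g (x - G7_L p q h.choose) = _
  rw [h2]

theorem G7_zero {p q : ℝ} {a : ℂ} {ρ : ℝ} (g : ℂ → ℝ) {x : ℂ}
    (hl : ∀ l : ℤ × ℤ, x - G7_L p q l ∉ Metric.ball a ρ) : pz2 p q a ρ g x = 0 := by
  have h : ¬ ∃ l : ℤ × ℤ, x - ((l.1 * p : ℝ) + (l.2 * q : ℝ) * Complex.I) ∈ Metric.ball a ρ := by
    rintro ⟨l, h⟩
    exact hl l h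
  unfold pz2
  rw [dif_neg h]

theorem G7_per {p q : ℝ} (hp : p = 0 ∨ 0 < p) (hq : q = 0 ∨ 0 < q) {a : ℂ} {ρ : ℝ}
    (hρp : 0 < p → 2 * ρ ≤ p) (hρq : 0 < q → 2 * ρ ≤ q) (g : ℂ → ℝ) (x : ℂ) (k : ℤ × ℤ) :
    pz2 p q a ρ g (x + G7_L p q k) = pz2 p q a ρ g x := by
  by_cases h : ∃ l : ℤ × ℤ, x - G7_L p q l ∈ Metric.ball a ρ
  · obtain ⟨l, hl⟩ := h
    have h1 : x + G7_L p q k - G7_L p q (l + k) = x - G7_L p q l := by
      rw [G7_L_add]
      ring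
    rw [G7_eq hp hq hρp hρq g hl, G7_eq (l := l + k) hp hq hρp hρq g (by rw [h1]; exact hl), h1]
  · push Not at h
    rw [G7_zero g h, G7_zero g]
    intro l hl
    apply h (l - k)
    have h1 : G7_L p q l = G7_L p q (l - k) + G7_L p q k := by
      rw [← G7_L_add, sub_add_cancel]
    have h2 : x + G7_L p q k - G7_L p q l = x - G7_L p q (l - k) := by
      rw [h1]
      ring
    rw [← h2]
    exact hl

theorem G7_far {p q : ℝ} (hp : p = 0 ∨ 0 < p) (hq : q = 0 ∨ 0 < q) {a : ℂ} {ρ : ℝ}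
    (hρp : 0 < p → 2 * ρ ≤ p) (hρq : 0 < q → 2 * ρ ≤ q) {g : ℂ → ℝ} {α c : ℝ} (hc : 0 ≤ c)
    (h0 : ∀ x, x ∉ Metric.ball a ρ → g x = 0) (hg : ∀ x y, |g x - g y| ≤ c * ‖x - y‖ ^ α) (x y : ℂ)
    (h : ∀ l : ℤ × ℤ, ¬ (x - G7_L p q l ∈ Metric.ball a ρ ∧ y - G7_L p q l ∈ Metric.ball a ρ)) :
    |pz2 p q a ρ g x| ≤ c * ‖x - y‖ ^ α := by
  by_cases hx : ∃ l : ℤ × ℤ, x - G7_L p q l ∈ Metric.ball a ρ
  · obtain ⟨l, hl⟩ := hx
    rw [G7_eq hp hq hρp hρq g hl]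
    have h1 : g (y - G7_L p q l) = 0 := h0 _ fun h2 => h l ⟨hl, h2⟩
    have h2 := hg (x - G7_L p q l) (y - G7_L p q l)
    rwa [h1, sub_zero, sub_sub_sub_cancel_right] at h2
  · push Not at hx
    rw [G7_zero g hx, abs_zero]
    exact mul_nonneg hc (Real.rpow_nonneg (norm_nonneg _) _)

/-- [YUB-G7] periodization. The lattice vectors `m p + n q i` have norm `0` or at least `p` (if `p > 0`) resp. `q` (if `q > 0`)
in the sense of `hp`, `hq`: for `l, l'` with `x - l, x - l' ∈ ball a ρ` the difference of the two lattice vectors has norm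
`< 2ρ`, so it is `0`; hence the value does not depend on the choice and `pz2 x = g (x - l)` for every such `l`. Periodicity is clear.
On the ball itself take `l = 0`. Hölder bound: if `pz2 x ≠ 0`, `x - l ∈ ball a ρ`; if also `y - l ∈ ball a ρ` use the bound for `g`;
otherwise the segment from `x - l` to `y - l` contains a point `z` outside the ball, `g z = 0`, so
`|pz2 x| = |g (x-l) - g z| ≤ c ‖x - y‖^α`; the same for `y`. Total constant `2 c`. -/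
theorem pz2_facts {p q : ℝ} (hp : p = 0 ∨ 0 < p) (hq : q = 0 ∨ 0 < q) {a : ℂ} {ρ : ℝ} (hρ : 0 < ρ)
    (hρp : 0 < p → 2 * ρ ≤ p) (hρq : 0 < q → 2 * ρ ≤ q) {g : ℂ → ℝ} {α ε : ℝ} (hα : 0 < α)
    (h0 : ∀ x, x ∉ Metric.ball a ρ → g x = 0) (hg : HNormLe univ α ε g) :
    (∀ x, pz2 p q a ρ g (x + p) = pz2 p q a ρ g x ∧
      pz2 p q a ρ g (x + q * Complex.I) = pz2 p q a ρ g x) ∧
      (∀ x ∈ Metric.ball a ρ, pz2 p q a ρ g x = g x) ∧
      HNormLe univ α (2 * ε) (pz2 p q a ρ g) := by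
  obtain ⟨A, c, hA, hc, hAc, hb, hH⟩ := hg
  have hH' : ∀ x y, |g x - g y| ≤ c * ‖x - y‖ ^ α := fun x y => hH x (mem_univ x) y (mem_univ y)
  refine ⟨fun x => ⟨?_, ?_⟩, fun x hx => ?_, A, 2 * c, hA, by positivity, by linarith, fun x _ => ?_,
    fun x _ y _ => ?_⟩
  · have h1 : G7_L p q (1, 0) = p := by
      unfold G7_L
      simp
    rw [← h1]
    exact G7_per hp hq hρp hρq g x (1, 0)
  · have h1 : G7_L p q (0, 1) = q * Complex.I := by
      unfold G7_L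
      simp
    rw [← h1]
    exact G7_per hp hq hρp hρq g x (0, 1)
  · have h1 : G7_L p q (0, 0) = 0 := by
      unfold G7_L
      simp
    rw [G7_eq (l := (0, 0)) hp hq hρp hρq g (by rw [h1, sub_zero]; exact hx), h1, sub_zero]
  · by_cases hx : ∃ l : ℤ × ℤ, x - G7_L p q l ∈ Metric.ball a ρ
    · obtain ⟨l, hl⟩ := hx
      rw [G7_eq hp hq hρp hρq g hl]
      exact hb _ (mem_univ _)
    · push Not at hx
      rw [G7_zero g hx, abs_zero]
      exact hA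
  · have hn : 0 ≤ c * ‖x - y‖ ^ α := mul_nonneg hc (Real.rpow_nonneg (norm_nonneg _) _)
    by_cases h : ∃ l : ℤ × ℤ, x - G7_L p q l ∈ Metric.ball a ρ ∧ y - G7_L p q l ∈ Metric.ball a ρ
    · obtain ⟨l, hl, hl'⟩ := h
      rw [G7_eq hp hq hρp hρq g hl, G7_eq hp hq hρp hρq g hl']
      have h2 := hH' (x - G7_L p q l) (y - G7_L p q l)
      rw [sub_sub_sub_cancel_right] at h2
      linarith
    · push Not at h
      have h1 := G7_far hp hq hρp hρq hc h0 hH' x y fun l hl => h l hl.1 hl.2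
      have h2 := G7_far hp hq hρp hρq hc h0 hH' y x fun l hl => h l hl.2 hl.1
      rw [norm_sub_rev] at h2
      have h3 := abs_sub (pz2 p q a ρ g x) (pz2 p q a ρ g y)
      linarith

end Pool.Agent.YUB
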