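import Pool.Agent.YUB.G7
import Pool.Agent.YUT.F2

/-!
# [YUB] M1: integrals over a period cell
-/

open MeasureTheory Set Filter Topology
open scoped ContDiff

namespace Pool.Agent.YUB

open Pool.Agent.YUD Pool.Agent.YUT

/-- a fundamental domain of `M` modulo the periods `p`, `q i` (`M` itself, if `p = q = 0`) -/
def Cell (p q : ℝ) (M : Set ℂ) : Set ℂ :=
  {x ∈ M | (0 < p → 0 ≤ x.re ∧ x.re < p) ∧ (0 < q → 0 ≤ x.im ∧ x.im < q)}

theorem box_integral {F : ℂ → ℝ} (hF : Continuous F) {S T : Set ℝ} {a b c d : ℝ}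
    (hS : S ⊆ Icc a b) (hT : T ⊆ Icc c d) :
    ∫ z in S ×ℂ T, F z = ∫ x in S, ∫ y in T, F (x + y * Complex.I) := by
  have h1 := (Complex.volume_preserving_equiv_real_prod).setIntegral_preimage_emb
    Complex.measurableEquivRealProd.measurableEmbedding
    (fun z : ℝ × ℝ => F (z.1 + z.2 * Complex.I)) (S ×ˢ T)
  have h2 : Complex.measurableEquivRealProd ⁻¹' (S ×ˢ T) = S ×ℂ T := rfl
  rw [h2] at h1
  have h3 : ∀ x : ℂ, (fun z : ℝ × ℝ => F (z.1 + z.2 * Complex.I))
      (Complex.measurableEquivRealProd x) = F x := by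
    intro x
    show F ((x.re : ℂ) + x.im * Complex.I) = F x
    rw [Complex.re_add_im]
  simp only [h3] at h1
  rw [h1, Measure.volume_eq_prod]
  refine setIntegral_prod (fun z : ℝ × ℝ => F (z.1 + z.2 * Complex.I)) ?_
  have h4 : Continuous fun z : ℝ × ℝ => F (z.1 + z.2 * Complex.I) := by fun_prop
  rw [← Measure.volume_eq_prod]
  exact (h4.continuousOn.integrableOn_compact (isCompact_Icc.prod isCompact_Icc)).mono_set
    (prod_mono hS hT)

theorem box_meas {S T : Set ℝ} (hS : MeasurableSet S) (hT : MeasurableSet T) :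
    MeasurableSet (S ×ℂ T) :=
  (Complex.measurable_re hS).inter (Complex.measurable_im hT)

theorem per_integral {G : ℝ → ℝ} {p : ℝ} (hp : 0 < p) (hG : ∀ x, G (x + p) = G x) (s t : ℝ) :
    ∫ x in Ico s (s + p), G x = ∫ x in Ico t (t + p), G x := by
  have h1 : Function.Periodic G p := hG
  have h2 := h1.intervalIntegral_add_eq s t
  rw [intervalIntegral.integral_of_le (by linarith), intervalIntegral.integral_of_le (by linarith)]
    at h2
  rw [integral_Ico_eq_integral_Ioo, integral_Ico_eq_integral_Ioo, ← integral_Ioc_eq_integral_Ioo,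
    ← integral_Ioc_eq_integral_Ioo]
  exact h2

theorem box_shift_re {F : ℂ → ℝ} (hF : Continuous F) {p : ℝ} (hp : 0 < p)
    (hper : ∀ x, F (x + p) = F x) {T : Set ℝ} {c d : ℝ} (hT : T ⊆ Icc c d) (s t : ℝ) :
    ∫ z in Ico s (s + p) ×ℂ T, F z = ∫ z in Ico t (t + p) ×ℂ T, F z := by
  rw [box_integral hF Ico_subset_Icc_self hT, box_integral hF Ico_subset_Icc_self hT]
  refine per_integral (G := fun x : ℝ => ∫ y in T, F (x + y * Complex.I)) hp (fun x => ?_) s t
  refine integral_congr_ae (Eventually.of_forall fun y => ?_)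
  show F ((x + p : ℝ) + y * Complex.I) = F (x + y * Complex.I)
  rw [← hper (x + y * Complex.I)]
  congr 1
  push_cast
  ring

theorem box_shift_im {F : ℂ → ℝ} (hF : Continuous F) {q : ℝ} (hq : 0 < q)
    (hper : ∀ x, F (x + q * Complex.I) = F x) {S : Set ℝ} {a b : ℝ} (hS : S ⊆ Icc a b) (s t : ℝ) :
    ∫ z in S ×ℂ Ico s (s + q), F z = ∫ z in S ×ℂ Ico t (t + q), F z := by
  rw [box_integral hF hS Ico_subset_Icc_self, box_integral hF hS Ico_subset_Icc_self]
  refine integral_congr_ae (Eventually.of_forall fun x => ?_)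
  refine per_integral (G := fun y : ℝ => F (x + y * Complex.I)) hq (fun y => ?_) s t
  show F (x + (y + q : ℝ) * Complex.I) = F (x + y * Complex.I)
  rw [← hper (x + y * Complex.I)]
  congr 1
  push_cast
  ring

/-- the integral of a periodization over a period cell -/
theorem cell_integral {p q : ℝ} {M : Set ℂ} (hD : Dom p q M) {a : ℂ} {ρ : ℝ} (hρ : 0 < ρ)
    (hB : Metric.ball a ρ ⊆ M) (hρp : 0 < p → 2 * ρ ≤ p) (hρq : 0 < q → 2 * ρ ≤ q) {g : ℂ → ℝ}
    (h0 : ∀ x, x ∉ Metric.ball a ρ → g x = 0) (hc : Continuous (pz2 p q a ρ g)) :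
    ∫ x in Cell p q M, pz2 p q a ρ g x = ∫ x, g x := by
  have hp : p = 0 ∨ 0 < p := by
    rcases hD with ⟨h, -⟩ | ⟨h, -⟩ | ⟨h, -⟩
    · exact Or.inl h
    · exact Or.inr h
    · exact Or.inr h
  have hq : q = 0 ∨ 0 < q := by
    rcases hD with ⟨-, h, -⟩ | ⟨-, h, -⟩ | ⟨-, h, -⟩
    · exact Or.inl h
    · exact Or.inl h
    · exact Or.inr h
  have hper : ∀ (x : ℂ) (k : ℤ × ℤ), pz2 p q a ρ g (x + G7_L p q k) = pz2 p q a ρ g x :=
    G7_per hp hq hρp hρq g
  have hball : ∀ x ∈ Metric.ball a ρ, pz2 p q a ρ g x = g x := by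
    intro x hx
    have h1 : G7_L p q (0, 0) = 0 := by simp [G7_L]
    rw [G7_eq (l := (0, 0)) hp hq hρp hρq g (by rw [h1, sub_zero]; exact hx), h1, sub_zero]
  -- on a set which meets only one translate of the ball
  have key : ∀ E : Set ℂ, MeasurableSet E → Metric.ball a ρ ⊆ E →
      (∀ x ∈ E, ∀ l : ℤ × ℤ, x - G7_L p q l ∈ Metric.ball a ρ → G7_L p q l = 0) →
      ∫ x in E, pz2 p q a ρ g x = ∫ x, g x := by
    intro E hE hsub hone
    rw [← setIntegral_eq_integral_of_forall_compl_eq_zero (s := E) (f := g)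
      fun x hx => h0 x fun h => hx (hsub h)]
    refine setIntegral_congr_fun hE fun x hx => ?_
    by_cases h : ∃ l : ℤ × ℤ, x - G7_L p q l ∈ Metric.ball a ρ
    · obtain ⟨l, hl⟩ := h
      have h1 := hone x hx l hl
      rw [h1, sub_zero] at hl
      exact hball x hl
    · push Not at h
      have h2 : pz2 p q a ρ g x = 0 := G7_zero g h
      have h3 : g x = 0 := by
        apply h0
        have h4 := h (0, 0)
        have h1 : G7_L p q (0, 0) = 0 := by simp [G7_L]
        rwa [h1, sub_zero] at h4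
      show pz2 p q a ρ g x = g x
      rw [h2, h3]
  have hz : ∀ {s : ℝ} (_ : 0 < s) {x b : ℝ} {l : ℤ}, 2 * ρ ≤ s → x ∈ Ico (b - s / 2) (b - s / 2 + s) →
      |x - l * s - b| < ρ → l * s = 0 := by
    intro s hs x b l hρs hx hl
    have h1 := hx.1
    have h2 := hx.2
    rw [abs_lt] at hl
    have h3 : (l : ℝ) * s < 1 * s := by linarith
    have h4 : (-1 : ℝ) * s < l * s := by linarith
    have h5 := lt_of_mul_lt_mul_right h3 hs.le
    have h6 := lt_of_mul_lt_mul_right h4 hs.le
    have h7 : l = 0 := by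
      have h8 : l < 1 := by exact_mod_cast h5
      have h9 : -1 < l := by exact_mod_cast h6
      omega
    rw [h7]; simp
  rcases hD with ⟨rfl, rfl, hM, hb⟩ | ⟨hp, rfl, h, hh, rfl⟩ | ⟨hp, hq, rfl⟩
  · have e : Cell 0 0 M = M := by
      ext x; simp [Cell]
    rw [e]
    refine key M hM.measurableSet hB fun x _ l _ => ?_
    simp [G7_L]
  · have e : Cell p 0 (Strip h) = Ico 0 (0 + p) ×ℂ Ioo 0 h := by
      ext x
      simp only [Cell, Strip, mem_ofPred_eq, Complex.mem_reProdIm, mem_Ico, mem_Ioo,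
        zero_add]
      constructor
      · rintro ⟨h1, h2, -⟩
        exact ⟨h2 hp, h1⟩
      · rintro ⟨h1, h2⟩
        exact ⟨h2, fun _ => h1, fun h => absurd h (lt_irrefl _)⟩
    rw [e, box_shift_re hc hp (fun x => by
      have := hper x (1, 0)
      simpa [G7_L] using this) (T := Ioo 0 h) (Ioo_subset_Icc_self) 0 (a.re - p / 2)]
    refine key _ (box_meas measurableSet_Ico measurableSet_Ioo) (fun x hx => ?_) fun x hx l hl => ?_
    · have h1 := hB hx
      rw [mem_ball_iff_norm] at hx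
      have h2 := (Complex.abs_re_le_norm _).trans_lt hx
      rw [Complex.sub_re, abs_lt] at h2
      have h3 := hρp hp
      exact ⟨⟨by show a.re - p / 2 ≤ x.re; linarith, by
        show x.re < a.re - p / 2 + p; linarith⟩, h1⟩
    · rw [mem_ball_iff_norm] at hl
      have h2 := (Complex.abs_re_le_norm _).trans_lt hl
      rw [Complex.sub_re, Complex.sub_re, G7_L_re] at h2
      have h3 := hz hp (hρp hp) hx.1 h2
      apply Complex.ext
      · rw [G7_L_re, h3]; rfl
      · rw [G7_L_im]; simp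
  · have e : Cell p q univ = Ico 0 (0 + p) ×ℂ Ico 0 (0 + q) := by
      ext x
      simp only [Cell, mem_ofPred_eq, mem_univ, true_and, Complex.mem_reProdIm, mem_Ico, zero_add]
      constructor
      · rintro ⟨h1, h2⟩
        exact ⟨h1 hp, h2 hq⟩
      · rintro ⟨h1, h2⟩
        exact ⟨fun _ => h1, fun _ => h2⟩
    rw [e, box_shift_re hc hp (fun x => by
      have := hper x (1, 0)
      simpa [G7_L] using this) (T := Ico 0 (0 + q)) (Ico_subset_Icc_self) 0 (a.re - p / 2),
      box_shift_im hc hq (fun x => by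
      have := hper x (0, 1)
      simpa [G7_L] using this) (S := Ico (a.re - p / 2) (a.re - p / 2 + p)) (Ico_subset_Icc_self) 0
      (a.im - q / 2)]
    refine key _ (box_meas measurableSet_Ico measurableSet_Ico) (fun x hx => ?_) fun x hx l hl => ?_
    · rw [mem_ball_iff_norm] at hx
      have h2 := (Complex.abs_re_le_norm _).trans_lt hx
      rw [Complex.sub_re, abs_lt] at h2
      have h4 := (Complex.abs_im_le_norm _).trans_lt hx
      rw [Complex.sub_im, abs_lt] at h4
      have h3 := hρp hp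
      have h5 := hρq hq
      exact ⟨⟨by show a.re - p / 2 ≤ x.re; linarith, by
        show x.re < a.re - p / 2 + p; linarith⟩, ⟨by show a.im - q / 2 ≤ x.im; linarith, by
        show x.im < a.im - q / 2 + q; linarith⟩⟩
    · rw [mem_ball_iff_norm] at hl
      have h2 := (Complex.abs_re_le_norm _).trans_lt hl
      rw [Complex.sub_re, Complex.sub_re, G7_L_re] at h2
      have h3 := hz hp (hρp hp) hx.1 h2
      have h4 := (Complex.abs_im_le_norm _).trans_lt hl
      rw [Complex.sub_im, Complex.sub_im, G7_L_im] at h4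
      have h5 := hz hq (hρq hq) hx.2 h4
      apply Complex.ext
      · rw [G7_L_re, h3]; rfl
      · rw [G7_L_im, h5]; rfl

end Pool.Agent.YUB
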