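import Pool.Agent.YUB.M1
import Pool.Agent.YUB.F5
import Pool.Agent.YUT.F2

/-!
# [YUB] M2: perturbations of mean zero
-/

open MeasureTheory Set Filter Topology
open scoped ContDiff

namespace Pool.Agent.YUB

open Pool.Agent.YUD Pool.Agent.YUT

/-- a tent -/
noncomputable def tent (c : ℂ) (r : ℝ) (x : ℂ) : ℝ := max 0 (1 - ‖x - c‖ / r)

theorem tent_cont (c : ℂ) (r : ℝ) : Continuous (tent c r) := by
  unfold tent
  fun_prop

theorem tent_zero {c : ℂ} {r : ℝ} (hr : 0 < r) {x : ℂ} (hx : x ∉ Metric.ball c r) :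
    tent c r x = 0 := by
  rw [mem_ball_iff_norm, not_lt] at hx
  have h1 : 1 ≤ ‖x - c‖ / r := by rwa [le_div_iff₀ hr, one_mul]
  exact max_eq_left (by linarith)

theorem tent_nonneg (c : ℂ) (r : ℝ) (x : ℂ) : 0 ≤ tent c r x := le_max_left _ _

theorem tent_le {c : ℂ} {r : ℝ} (hr : 0 < r) (x : ℂ) : tent c r x ≤ 1 := by
  refine max_le zero_le_one ?_
  have : 0 ≤ ‖x - c‖ / r := by positivity
  linarith

theorem tent_hnorm {c : ℂ} {r : ℝ} (hr : 0 < r) {α : ℝ} (hα : 0 < α) (hα1 : α < 1) :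
    HNormLe univ α (1 + (1 / r) ^ α) (tent c r) := by
  refine ⟨1, (1 / r) ^ α, zero_le_one, by positivity, le_rfl, fun x _ => ?_, fun x _ y _ => ?_⟩
  · rw [abs_of_nonneg (tent_nonneg c r x)]
    exact tent_le hr x
  · rw [← Real.mul_rpow (by positivity) (norm_nonneg _)]
    have h1 : |tent c r x - tent c r y| ≤ 1 / r * ‖x - y‖ := by
      have h2 : |tent c r x - tent c r y| ≤ |(1 - ‖x - c‖ / r) - (1 - ‖y - c‖ / r)| := by
        unfold tent
        refine (abs_max_sub_max_le_max _ _ _ _).trans ?_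
        rw [sub_zero, abs_zero, max_eq_right (abs_nonneg _)]
      refine h2.trans ?_
      have h3 : (1 - ‖x - c‖ / r) - (1 - ‖y - c‖ / r) = 1 / r * (‖y - c‖ - ‖x - c‖) := by
        field_simp
        ring
      rw [h3, abs_mul, abs_of_pos (by positivity : (0 : ℝ) < 1 / r)]
      refine mul_le_mul_of_nonneg_left ?_ (by positivity)
      have h4 := abs_norm_sub_norm_le (y - c) (x - c)
      rwa [sub_sub_sub_cancel_right, norm_sub_rev y x] at h4
    have h2 : |tent c r x - tent c r y| ≤ 1 := by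
      rw [abs_le]
      constructor <;> linarith [tent_nonneg c r x, tent_nonneg c r y, tent_le hr x (c := c),
        tent_le hr y (c := c)]
    set s := 1 / r * ‖x - y‖ with hs
    have hs0 : 0 ≤ s := by positivity
    rcases le_total s 1 with h | h
    · refine h1.trans ?_
      calc s = s ^ (1 : ℝ) := (Real.rpow_one s).symm
        _ ≤ s ^ α := Real.rpow_le_rpow_of_exponent_ge' hs0 h hα.le hα1.le
    · exact h2.trans (Real.one_le_rpow h hα.le)

theorem tent_int {c : ℂ} {r : ℝ} (hr : 0 < r) : Integrable (tent c r) ∧ 0 < ∫ x, tent c r x := by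
  have h1 : HasCompactSupport (tent c r) :=
    HasCompactSupport.intro (isCompact_closedBall c r) fun x hx => tent_zero hr fun h =>
      hx (Metric.ball_subset_closedBall h)
  refine ⟨(tent_cont c r).integrable_of_hasCompactSupport h1, ?_⟩
  refine (tent_cont c r).integral_pos_of_hasCompactSupport_nonneg_nonzero h1 (tent_nonneg c r)
    (x := c) ?_
  unfold tent
  simp

theorem Blobs.congr' {U : Set ℂ} {β : ℂ → ℝ} {α α' σ : ℝ} {w w' : ℂ → ℝ}
    (h : Blobs U β α α' σ w) (hw : ∀ x ∈ U, w x = w' x) : Blobs U β α α' σ w' := by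
  intro x₀ hx₀ η hη
  obtain ⟨p, r, hp, hr, hrη, hsub, S, T, H, hH, hHr, hT, hS, hw₀⟩ := h x₀ hx₀ η hη
  exact ⟨p, r, hp, hr, hrη, hsub, S, T, H, hH, hHr, hT, hS, fun x hx => by
    rw [← hw x hx]; exact hw₀ x hx⟩

/-- the perturbation, of mean zero -/
theorem exists_blobs_mean {β : ℂ → ℝ} {B : ℝ} (hβ : Profile β B) {a : ℂ} {ρ : ℝ} (hρ : 0 < ρ)
    (hρ1 : ρ ≤ 1 / 2) {α α' : ℝ} (hα : 0 < α) (hαα : α < α') (hα1 : α' < 1) {f : ℂ → ℝ} {K : ℝ}
    (hK : ∀ x ∈ Metric.ball a ρ, |f x| ≤ K) (hf : Little (Metric.ball a ρ) α f) {ε : ℝ}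
    (hε : 0 < ε) :
    ∃ (σ : ℝ) (g : ℂ → ℝ), 0 < σ ∧ (∀ x, x ∉ Metric.ball a ρ → g x = 0) ∧ ∫ x, g x = 0 ∧
      HNormLe univ α ε g ∧ Blobs (Metric.ball a (ρ / 2)) β α α' σ (fun x => f x + g x) := by
  have hα1' : α < 1 := by linarith
  have hsub : Metric.ball a (ρ / 2) ⊆ Metric.ball a ρ := Metric.ball_subset_ball (by linarith)
  set c : ℂ := a + (3 / 4 * ρ : ℝ) with hc
  set r : ℝ := ρ / 8 with hr
  have hr0 : 0 < r := by positivity
  obtain ⟨ti, tpos⟩ := tent_int (c := c) hr0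
  set I : ℝ := ∫ x, tent c r x with hI
  set C : ℝ := 1 + (1 / r) ^ α with hC
  have hC0 : 0 < C := by positivity
  set V : ℝ := volume.real (Metric.ball a (ρ / 2)) with hV
  have hV0 : 0 ≤ V := measureReal_nonneg
  set ε₁ : ℝ := ε / (1 + V * C / I) with hε₁
  have hden : 0 < 1 + V * C / I := by positivity
  have hε₁0 : 0 < ε₁ := by positivity
  obtain ⟨σ, g, hσ, hg0, hgn, hgb⟩ := exists_blobs hβ (a := a) (ρ := ρ / 2) (by positivity)
    (by linarith) hα hαα hα1 (f := f) (K := K) (fun x hx => hK x (hsub hx))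
    (fun η hη => by
      obtain ⟨δ, hδ, h⟩ := hf η hη
      exact ⟨δ, hδ, fun x hx y hy => h x (hsub hx) y (hsub hy)⟩) hε₁0
  have hcb : Metric.ball c r ⊆ Metric.ball a ρ := by
    intro x hx
    rw [mem_ball_iff_norm] at hx ⊢
    have h1 := norm_add_le (x - c) (c - a)
    rw [sub_add_sub_cancel] at h1
    have h2 : ‖c - a‖ = 3 / 4 * ρ := by
      rw [hc, add_sub_cancel_left, Complex.norm_real, Real.norm_of_nonneg (by positivity)]
    linarith
  have hcd : ∀ x ∈ Metric.ball a (ρ / 2), x ∉ Metric.ball c r := by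
    intro x hx hx'
    rw [mem_ball_iff_norm] at hx hx'
    have h2 : ‖c - a‖ = 3 / 4 * ρ := by
      rw [hc, add_sub_cancel_left, Complex.norm_real, Real.norm_of_nonneg (by positivity)]
    have h1 := norm_sub_le (x - a) (x - c)
    rw [sub_sub_sub_cancel_left, h2] at h1
    linarith
  have hgc : Continuous g := by
    have h1 := HNormLe.cont hα hgn
    rwa [continuousOn_univ] at h1
  have hgi : Integrable g := by
    refine hgc.integrable_of_hasCompactSupport ?_
    exact HasCompactSupport.intro (isCompact_closedBall a (ρ / 2)) fun x hx => hg0 x fun h =>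
      hx (Metric.ball_subset_closedBall h)
  set m : ℝ := ∫ x, g x with hm
  have hmle : |m| ≤ ε₁ * V := by
    have h1 : m = ∫ x in Metric.ball a (ρ / 2), g x :=
      (setIntegral_eq_integral_of_forall_compl_eq_zero fun x hx => hg0 x hx).symm
    rw [h1, ← Real.norm_eq_abs]
    exact norm_setIntegral_le_of_norm_le_const Metric.isBounded_ball.measure_lt_top
      fun x _ => HNormLe.abs_le hgn x (mem_univ x)
  refine ⟨σ, fun x => g x + -(m / I) * tent c r x, hσ, fun x hx => ?_, ?_, ?_, ?_⟩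
  · show g x + -(m / I) * tent c r x = 0
    rw [hg0 x fun h => hx (hsub h), tent_zero hr0 fun h => hx (hcb h)]
    ring
  · rw [integral_add hgi (ti.const_mul _), integral_const_mul, ← hm, ← hI]
    field_simp
    ring
  · have h1 := HNormLe.add hgn (HNormLe.smul (-(m / I)) (tent_hnorm (c := c) hr0 hα hα1'))
    refine HNormLe.mono h1 ?_
    rw [abs_neg, abs_div, abs_of_pos tpos]
    have h2 : |m| / I * C ≤ ε₁ * V / I * C := by gcongr
    have h3 : ε₁ + ε₁ * V / I * C = ε := by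
      have h4 : ε₁ + ε₁ * V / I * C = ε₁ * (1 + V * C / I) := by ring
      rw [h4, hε₁, div_mul_cancel₀ _ hden.ne']
    show ε₁ + |m| / I * C ≤ ε
    linarith
  · refine hgb.congr' fun x hx => ?_
    show f x + g x = f x + (g x + -(m / I) * tent c r x)
    rw [tent_zero hr0 (hcd x hx)]
    ring

end Pool.Agent.YUB
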