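import Pool.Agent.YUB.B3
import Pool.Agent.YUB.B5c
import Pool.Agent.YUB.B7
import Pool.Agent.YUB.C1c
import Pool.Agent.YUB.C2
import Pool.Agent.YUB.C3
import Pool.Agent.YUB.D4
import Pool.Agent.YUB.D5b
import Pool.Agent.YUB.D6

/-!
# [YUB] S1: the relative action of a blob is produced at a definite rate
-/

open MeasureTheory Set Filter Topology
open scoped ContDiff

namespace Pool.Agent.YUB

open Pool.Agent.YUD Pool.Agent.YUT

/-- a time slice of a flow with small deformation in the ball `ball a ρ` -/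
structure Slice (M : Set ℂ) (ψ : ℂ → ℝ) (Φ : ℂ → ℂ) (w₀ : ℂ → ℝ) (a : ℂ) (ρ L ρ₁ E₀ : ℝ) :
    Prop where
  isOpen : IsOpen M
  c2 : ContDiffOn ℝ 2 ψ M
  c1 : ContDiffOn ℝ 1 Φ M
  bij : BijOn Φ M M
  det : ∀ x ∈ M, (fderiv ℝ Φ x).det = 1
  vort : ∀ x ∈ M, lap ψ (Φ x) = w₀ x
  sub : Metric.ball a ρ ⊆ M
  lip : ∀ x ∈ Metric.ball a ρ, ‖fderiv ℝ Φ x‖ ≤ L
  energy : ∀ (c : ℂ) (ρ' : ℝ), 0 < ρ' → ρ' ≤ ρ₁ → Metric.closedBall c ρ' ⊆ M →
    ∫ x in Metric.ball c ρ', ‖fderiv ℝ ψ x‖ ≤ E₀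

theorem Slice.lip_ball {M : Set ℂ} {ψ : ℂ → ℝ} {Φ : ℂ → ℂ} {w₀ : ℂ → ℝ} {a : ℂ} {ρ L ρ₁ E₀ : ℝ}
    (hS : Slice M ψ Φ w₀ a ρ L ρ₁ E₀) {x y : ℂ} (hx : x ∈ Metric.ball a ρ)
    (hy : y ∈ Metric.ball a ρ) : ‖Φ x - Φ y‖ ≤ L * ‖x - y‖ := by
  refine (convex_ball a ρ).norm_image_sub_le_of_norm_fderiv_le (𝕜 := ℝ) (fun z hz => ?_)
    (fun z hz => hS.lip z hz) hy hx
  exact (hS.c1.differentiableOn (by norm_num)).differentiableAt
    (hS.isOpen.mem_nhds (hS.sub hz))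

/-- the parts of the transported blob that are used: `q` with its integrals -/
theorem blob_q {β : ℂ → ℝ} {B : ℝ} (hβ : Profile β B) {M : Set ℂ} {ψ : ℂ → ℝ} {Φ : ℂ → ℂ}
    {w₀ : ℂ → ℝ} {a : ℂ} {ρ L ρ₁ E₀ : ℝ} (hS : Slice M ψ Φ w₀ a ρ L ρ₁ E₀) (hL : 0 < L)
    {p : ℂ} {r κ : ℝ} (hr : 0 < r) (hκ : 0 < κ) (hsub : Metric.closedBall p r ⊆ Metric.ball a ρ) :
    ∃ q : ℂ → ℝ, ContDiff ℝ 1 q ∧ HasCompactSupport q ∧ (∀ x ∈ M, q (Φ x) = blob β κ p r x) ∧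
      (∀ y, q y ≠ 0 → ∃ x ∈ Metric.closedBall p r, y = Φ x) ∧ (∀ y, |q y| ≤ κ) ∧
      ∫ y, q y = 0 ∧ (∫ y, |q y|) ≤ κ * (Real.pi * r ^ 2) ∧
      (∀ G : ℂ → ℝ, ∫ x in M, blob β κ p r x * G (Φ x) = ∫ y, q y * G y) ∧
      κ ^ 2 * r ^ 4 * ((∫ x, β x ^ 2) ^ 2 / (∫ x, gsq β x)) / L ^ 2 ≤ - ∫ y, q y * pot q y := by
  obtain ⟨hc1, h0, hle, hmean, hsq, hgsq, habs⟩ := blob_facts hβ κ p hr
  set h := blob β κ p r with hh
  have hK : IsCompact (Metric.closedBall p r) := isCompact_closedBall p r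
  have hKM : Metric.closedBall p r ⊆ M := hsub.trans hS.sub
  obtain ⟨t1, t2, t3, t4⟩ := tb_facts hS.isOpen hS.c1 hS.bij hS.det hc1 hK hKM h0
  have hres : ∀ G : ℂ → ℝ, (∀ x, x ∉ Metric.closedBall p r → G x = 0) →
      ∫ x in M, G x = ∫ x, G x := fun G hG =>
    setIntegral_eq_integral_of_forall_compl_eq_zero fun x hx => hG x fun hxK => hx (hKM hxK)
  refine ⟨tb M Φ h, t1, t2, t3, fun y hy => ?_, fun y => ?_, ?_, ?_, ?_, ?_⟩
  · obtain ⟨x, hx, -, h2⟩ := t4 y hy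
    exact ⟨x, hx, h2⟩
  · unfold tb
    split_ifs
    · exact (hle _).trans (le_of_eq (abs_of_pos hκ))
    · simpa using hκ.le
  · rw [tb_integral hS.isOpen hS.c1 hS.bij hS.det h (fun _ s => s) (fun _ => rfl), hres h h0]
    exact hmean
  · rw [tb_integral hS.isOpen hS.c1 hS.bij hS.det h (fun _ s => |s|) (fun _ => abs_zero),
      hres (fun x => |h x|) fun x hx => by rw [h0 x hx, abs_zero]]
    rwa [abs_of_pos hκ] at habs
  · intro G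
    rw [tb_integral hS.isOpen hS.c1 hS.bij hS.det h (fun y s => s * G y) (fun y => zero_mul _)]
  · have e1 : ∫ y, tb M Φ h y ^ 2 = κ ^ 2 * r ^ 2 * ∫ x, β x ^ 2 := by
      rw [tb_integral hS.isOpen hS.c1 hS.bij hS.det h (fun _ s => s ^ 2) (fun _ => by simp),
        hres (fun x => h x ^ 2) fun x hx => by rw [h0 x hx]; simp]
      exact hsq
    have e0 : ∫ y, tb M Φ h y = 0 := by
      rw [tb_integral hS.isOpen hS.c1 hS.bij hS.det h (fun _ s => s) (fun _ => rfl), hres h h0]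
      exact hmean
    have e2 := self_energy t1 t2 e0
    have e3 := tb_gsq hS.isOpen hS.c1 hS.bij hS.det hc1 hK hKM h0
      fun x hx => hS.lip x (hsub hx)
    rw [hgsq] at e3
    rw [e1] at e2
    obtain ⟨b2, b1⟩ := profile_pos hβ
    set β2 := ∫ x, β x ^ 2
    set β1 := ∫ x, gsq β x
    set Es := - ∫ y, tb M Φ h y * pot (tb M Φ h) y
    set I := ∫ y, gsq (tb M Φ h) y
    have hI0 : 0 ≤ I := integral_nonneg fun x => gsq_nonneg _ _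
    have hpos : 0 < (κ ^ 2 * r ^ 2 * β2) ^ 2 := by positivity
    have hI : 0 < I := by
      rcases hI0.lt_or_eq with h | h
      · exact h
      · rw [← h, mul_zero] at e2; linarith
    have hEs : 0 < Es := by
      by_contra hcon
      push Not at hcon
      nlinarith
    rw [div_le_iff₀ (by positivity), mul_div_assoc', div_le_iff₀ b1]
    have e4 : (κ ^ 2 * r ^ 2 * β2) ^ 2 ≤ Es * (L ^ 2 * (κ ^ 2 * β1)) :=
      e2.trans (mul_le_mul_of_nonneg_left e3 hEs.le)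
    have hκ2 : 0 < κ ^ 2 := by positivity
    have e5 : κ ^ 2 * (κ ^ 2 * r ^ 4 * β2 ^ 2) ≤ κ ^ 2 * (Es * L ^ 2 * β1) := by
      calc κ ^ 2 * (κ ^ 2 * r ^ 4 * β2 ^ 2) = (κ ^ 2 * r ^ 2 * β2) ^ 2 := by ring
        _ ≤ _ := e4
        _ = _ := by ring
    exact le_of_mul_le_mul_left e5 hκ2

end Pool.Agent.YUB
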