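import Pool.Agent.YUB.S1

/-!
# [YUB] S2: the background of a blob
-/

open MeasureTheory Set Filter Topology
open scoped ContDiff

namespace Pool.Agent.YUB

open Pool.Agent.YUD Pool.Agent.YUT

theorem db_sub {f g : ℂ → ℂ} {z : ℂ} (hf : DifferentiableAt ℝ f z) (hg : DifferentiableAt ℝ g z) :
    db (fun x => f x - g x) z = db f z - db g z := by
  simp only [db]
  rw [fderiv_fun_sub hf hg]
  simp only [sub_apply]
  ring

theorem QQ_eq {f : ℂ → ℝ} {W : ℂ → ℂ} {c y : ℂ} (h1 : ∀ v, fderiv ℝ f y v = (v * W y).re)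
    (h2 : ∀ v, fderiv ℝ f c v = (v * W c).re) :
    QQ f c y = (((y - c) * W y).re + ((y - c) * W c).re) / 2 - (f y - f c) := by
  rw [QQ, h1, h2]

/-- the background: the stream function minus the potential of the transported blob is a quadratic
polynomial near the centre, up to a small error -/
theorem background {α α' : ℝ} (hα : 0 < α) (hαα : α < α') (hα1 : α' < 1) : ∃ C : ℝ, 0 < C ∧
    ∀ (β : ℂ → ℝ) (M : Set ℂ) (ψ : ℂ → ℝ) (Φ : ℂ → ℂ) (w₀ : ℂ → ℝ) (a : ℂ) (ρ L ρ₁ E₀ : ℝ)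
      (_ : Slice M ψ Φ w₀ a ρ L ρ₁ E₀) (_ : 0 < ρ) (_ : 1 ≤ L) (_ : 0 < ρ₁)
      (G₀ : ℝ) (_ : ∀ x ∈ Metric.ball a ρ, |w₀ x| ≤ G₀) (p : ℂ) (r κ η H : ℝ) (S T : ℂ → ℝ)
      (_ : 0 < r) (_ : 0 < κ) (_ : 0 ≤ η) (_ : 0 ≤ H) (_ : Metric.closedBall p r ⊆ Metric.ball a ρ)
      (_ : ∀ x ∈ Metric.ball a ρ, |T x| ≤ η * r ^ α)
      (_ : ∀ x ∈ Metric.ball a ρ, ∀ y ∈ Metric.ball a ρ,
        |S x - S y| ≤ η * ‖x - y‖ ^ α + H * ‖x - y‖ ^ α')
      (_ : ∀ x ∈ Metric.ball a ρ, w₀ x = S x + blob β κ p r x + T x)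
      (q : ℂ → ℝ) (_ : ContDiff ℝ 1 q) (_ : HasCompactSupport q)
      (_ : ∀ x ∈ M, q (Φ x) = blob β κ p r x)
      (_ : ∀ y, q y ≠ 0 → ∃ x ∈ Metric.closedBall p r, y = Φ x) (_ : ∀ y, |q y| ≤ κ)
      (x₁ : ℂ) (_ : ‖x₁ - a‖ < 3 / 4 * ρ) (_ : q (Φ x₁) = 0)
      (R ρ₂ : ℝ) (_ : 0 < R) (_ : 8 * R ≤ ρ₂) (_ : ρ₂ ≤ ρ₁) (_ : ρ₂ < ρ / 4 / L),
      ∀ y ∈ Metric.closedBall (Φ x₁) R, |QQ (fun x => ψ x - pot q x) (Φ x₁) y| ≤
        2 * R * (C * ((η * L ^ α) * R ^ (1 + α) + (H * L ^ α') * R ^ (1 + α') +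
          (2 * η * r ^ α) * R +
          ((E₀ + 3 / 2 * κ * (L * r) * (Real.pi * ρ₂ ^ 2)) + G₀ * ρ₂ ^ 3) / ρ₂ ^ 4 * R ^ 2)) := by
  obtain ⟨C, hC, hexp⟩ := expansion hα hαα hα1
  refine ⟨C, hC, ?_⟩
  intro β M ψ Φ w₀ a ρ L ρ₁ E₀ hS hρ hL hρ₁ G₀ hG p r κ η H S T hr hκ hη hH hsub hT hSS hw q hq hqc
    hqΦ hqs hqκ x₁ hx₁ hq₁ R ρ₂ hR h8 hρ₂₁ hρ₂
  have hL0 : 0 < L := by linarith
  have hρ₂0 : 0 < ρ₂ := by linarith
  have hx₁a : x₁ ∈ Metric.ball a ρ := by rw [mem_ball_iff_norm]; linarith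
  have hx₁M : x₁ ∈ M := hS.sub hx₁a
  have hB1 : Metric.ball x₁ (ρ / 4) ⊆ Metric.ball a ρ := by
    intro z hz
    rw [mem_ball_iff_norm] at hz ⊢
    have := norm_add_le (z - x₁) (x₁ - a)
    rw [sub_add_sub_cancel] at this
    linarith
  have himg := ball_image hS.isOpen hS.c1 hS.bij hS.det (x₁ := x₁) (ρ₀ := ρ / 4) (L := L)
    (by positivity) hL0 (hB1.trans hS.sub) fun x hx => hS.lip x (hB1 hx)
  set c := Φ x₁ with hc
  have hcl : Metric.closedBall c ρ₂ ⊆ Metric.ball c (ρ / 4 / L) :=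
    Metric.closedBall_subset_ball hρ₂
  have hclM : Metric.closedBall c ρ₂ ⊆ M := by
    intro y hy
    obtain ⟨x, hx, rfl⟩ := himg (hcl hy)
    exact hS.bij.mapsTo (hS.sub (hB1 hx))
  obtain ⟨g1, g2, g3, g4⟩ := grad_facts hS.isOpen hS.c2
  set W : ℂ → ℂ := fun x => (⟨dx ψ x, -dy ψ x⟩ : ℂ) with hW
  have hcau := cau_contDiff hq hqc
  -- the background vorticity
  set g : ℂ → ℝ := fun ζ => lap ψ ζ - q ζ with hg
  have hgΦ : ∀ x ∈ Metric.ball a ρ, g (Φ x) = S x + T x := by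
    intro x hx
    simp only [hg]
    rw [hS.vort x (hS.sub hx), hqΦ x (hS.sub hx), hw x hx]
    ring
  have hgc : |g c| ≤ G₀ := by
    have : g c = w₀ x₁ := by
      simp only [hg]
      rw [hc, hS.vort x₁ hx₁M, hq₁, sub_zero]
    rw [this]; exact hG x₁ hx₁a
  have hWd : ∀ ζ ∈ M, DifferentiableAt ℝ W ζ := fun ζ hζ =>
    (g1.differentiableOn (by norm_num)).differentiableAt (hS.isOpen.mem_nhds hζ)
  have hcd : ∀ ζ, DifferentiableAt ℝ (cau q) ζ := fun ζ =>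
    (hcau.differentiable (by norm_num)) ζ
  have hC1 : ContDiffOn ℝ 1 (fun ζ => W ζ - cau q ζ) (Metric.ball c ρ₂) :=
    (g1.sub hcau.contDiffOn).mono (Metric.ball_subset_closedBall.trans hclM)
  have hdb : ∀ ζ ∈ Metric.ball c ρ₂, db (fun ζ => W ζ - cau q ζ) ζ = g ζ := by
    intro ζ hζ
    have hζM := hclM (Metric.ball_subset_closedBall hζ)
    rw [db_sub (hWd ζ hζM) (hcd ζ), g2 ζ hζM, cau_db hq hqc]
    simp only [hg]
    push_cast
    ring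
  have hhol : ∀ ζ ∈ Metric.ball c ρ₂, |g ζ - g c| ≤
      (η * L ^ α) * ‖ζ - c‖ ^ α + (H * L ^ α') * ‖ζ - c‖ ^ α' + 2 * η * r ^ α := by
    intro ζ hζ
    have hζ' := hcl (Metric.ball_subset_closedBall hζ)
    obtain ⟨x, hx, rfl⟩ := himg hζ'
    have hxa := hB1 hx
    have hlip := inv_lip hS.isOpen hS.c1 hS.bij hS.det (x₁ := x₁) (ρ₀ := ρ / 4) (L := L)
      (by positivity) hL0 (hB1.trans hS.sub) (fun x hx => hS.lip x (hB1 hx)) (hS.sub hxa) hx₁M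
      hζ' (Metric.mem_ball_self (by positivity))
    rw [hgΦ x hxa, hc, hgΦ x₁ hx₁a]
    have h1 := hSS x hxa x₁ hx₁a
    have h2 := hT x hxa
    have h3 := hT x₁ hx₁a
    have e1 : ‖x - x₁‖ ^ α ≤ L ^ α * ‖Φ x - Φ x₁‖ ^ α := by
      rw [← Real.mul_rpow hL0.le (norm_nonneg _)]
      exact Real.rpow_le_rpow (norm_nonneg _) hlip hα.le
    have e2 : ‖x - x₁‖ ^ α' ≤ L ^ α' * ‖Φ x - Φ x₁‖ ^ α' := by
      rw [← Real.mul_rpow hL0.le (norm_nonneg _)]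
      exact Real.rpow_le_rpow (norm_nonneg _) hlip (hα.trans hαα).le
    have e3 := mul_le_mul_of_nonneg_left e1 hη
    have e4 := mul_le_mul_of_nonneg_left e2 hH
    have e5 : S x + T x - (S x₁ + T x₁) = (S x - S x₁) + (T x - T x₁) := by ring
    rw [e5]
    have e6 := abs_add_le (S x - S x₁) (T x - T x₁)
    have e7 := abs_sub (T x) (T x₁)
    nlinarith
  have hcont : ContinuousOn (fun ζ => W ζ - cau q ζ) (Metric.closedBall c ρ₂) :=
    (g1.continuousOn.mono hclM).sub hcau.continuous.continuousOn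
  have hWcont : ContinuousOn W (Metric.closedBall c ρ₂) := g1.continuousOn.mono hclM
  have hint : IntegrableOn (fun ζ => W ζ - cau q ζ) (Metric.ball c ρ₂) :=
    (hcont.integrableOn_compact (isCompact_closedBall c ρ₂)).mono_set Metric.ball_subset_closedBall
  have hintW : IntegrableOn W (Metric.ball c ρ₂) :=
    (hWcont.integrableOn_compact (isCompact_closedBall c ρ₂)).mono_set Metric.ball_subset_closedBall
  have hintF : IntegrableOn (fun ζ => ‖fderiv ℝ ψ ζ‖) (Metric.ball c ρ₂) := by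
    have h1 : ContinuousOn (fderiv ℝ ψ) M :=
      (hS.c2.fderiv_of_isOpen hS.isOpen (m := 1) (by norm_num)).continuousOn
    exact ((h1.mono hclM).norm.integrableOn_compact (isCompact_closedBall c ρ₂)).mono_set
      Metric.ball_subset_closedBall
  have hcaule : ∀ z, ‖cau q z‖ ≤ 3 / 2 * κ * (L * r) := by
    intro z
    refine cau_le hq.continuous (a := Φ p) (by positivity) (fun y hy => ?_) hqκ z
    by_contra hne
    obtain ⟨x, hx, rfl⟩ := hqs y hne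
    apply hy
    rw [mem_closedBall_iff_norm]
    refine (hS.lip_ball (hsub hx) (hsub (Metric.mem_closedBall_self hr.le))).trans ?_
    exact mul_le_mul_of_nonneg_left (mem_closedBall_iff_norm.1 hx) hL0.le
  have hvol : volume.real (Metric.ball c ρ₂) = Real.pi * ρ₂ ^ 2 := by
    rw [Measure.real, Complex.volume_ball]
    simp only [ENNReal.toReal_mul, ENNReal.toReal_pow, ENNReal.toReal_ofReal hρ₂0.le,
      ENNReal.coe_toReal, NNReal.coe_real_pi]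
    ring
  have hE : (∫ ζ in Metric.ball c ρ₂, ‖W ζ - cau q ζ‖) ≤
      E₀ + 3 / 2 * κ * (L * r) * (Real.pi * ρ₂ ^ 2) := by
    have h1 : (∫ ζ in Metric.ball c ρ₂, ‖W ζ - cau q ζ‖) ≤
        ∫ ζ in Metric.ball c ρ₂, (‖fderiv ℝ ψ ζ‖ + 3 / 2 * κ * (L * r)) := by
      refine setIntegral_mono_on hint.norm (hintF.add (integrableOn_const
        Metric.isBounded_ball.measure_lt_top.ne)) Metric.isOpen_ball.measurableSet fun ζ _ => ?_
      refine (norm_sub_le _ _).trans (add_le_add (g4 ζ) (hcaule ζ))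
    rw [integral_add hintF (integrableOn_const Metric.isBounded_ball.measure_lt_top.ne),
      setIntegral_const, smul_eq_mul, hvol] at h1
    have h2 := hS.energy c ρ₂ hρ₂0 hρ₂₁ hclM
    linarith
  have hLα : 0 ≤ L ^ α := Real.rpow_nonneg hL0.le _
  have hLα' : 0 ≤ L ^ α' := Real.rpow_nonneg hL0.le _
  have hrα : 0 ≤ r ^ α := Real.rpow_nonneg hr.le _
  obtain ⟨b, hb⟩ := hexp (fun ζ => W ζ - cau q ζ) g c R ρ₂ (η * L ^ α) (H * L ^ α')
    (2 * η * r ^ α) (E₀ + 3 / 2 * κ * (L * r) * (Real.pi * ρ₂ ^ 2)) G₀ hR h8 (by positivity)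
    (by positivity) (by positivity) hC1 hdb hhol hint hE hgc
  set ε₁ := C * ((η * L ^ α) * R ^ (1 + α) + (H * L ^ α') * R ^ (1 + α') + (2 * η * r ^ α) * R +
    ((E₀ + 3 / 2 * κ * (L * r) * (Real.pi * ρ₂ ^ 2)) + G₀ * ρ₂ ^ 3) / ρ₂ ^ 4 * R ^ 2) with hε₁
  have hε0 : 0 ≤ ε₁ := by
    have := hb 0 (by rw [norm_zero]; exact hR.le)
    exact (norm_nonneg _).trans this
  have hRM : Metric.closedBall c R ⊆ M :=
    (Metric.closedBall_subset_closedBall (by linarith)).trans hclM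
  refine QQ_le (W := fun ζ => W ζ - cau q ζ) hε0 (fun y hy => ?_) hb
  have hyM := hRM hy
  have hψd : DifferentiableAt ℝ ψ y :=
    (hS.c2.differentiableOn (by norm_num)).differentiableAt (hS.isOpen.mem_nhds hyM)
  obtain ⟨hpd, hpf⟩ := pot_fderiv hq hqc y
  refine ⟨hψd.sub hpd, fun v => ?_⟩
  rw [fderiv_fun_sub hψd hpd]
  simp only [sub_apply]
  rw [g3, hpf, mul_sub, Complex.sub_re]

end Pool.Agent.YUB
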