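import Pool.Agent.YUB.S2

/-!
# [YUB] S3: the slice bound
-/

open MeasureTheory Set Filter Topology
open scoped ContDiff

namespace Pool.Agent.YUB

open Pool.Agent.YUD Pool.Agent.YUT

/-- the self interaction of the transported blob, with the dipole term -/
theorem self_lower {q : ℂ → ℝ} (hq : ContDiff ℝ 1 q) (hqc : HasCompactSupport q)
    (hmean : ∫ y, q y = 0) {c b₀ : ℂ} {d s J : ℝ} (hd : 0 < d)
    (hdist : ∀ y, q y ≠ 0 → d ≤ ‖c - y‖) (hnear : ∀ y, q y ≠ 0 → ‖y - b₀‖ ≤ s)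
    (hJ : (∫ y, |q y|) ≤ J) (hJ0 : 0 ≤ J) (hs : 0 ≤ s) :
    (-∫ y, q y * pot q y) - 1 / 2 * ((2 * Real.pi * d)⁻¹ * J * (J * s)) ≤
      ∫ y, q y * QQ (pot q) c y := by
  rw [self_part hq hqc hmean c]
  have hqi : Integrable q := hq.continuous.integrable_of_hasCompactSupport hqc
  have hI : ‖∫ y, (q y : ℂ) * (y - c)‖ ≤ J * s := by
    have e : ∫ y, (q y : ℂ) * (y - c) = ∫ y, (q y : ℂ) * (y - b₀) := by
      have hcs : HasCompactSupport (fun y => (q y : ℂ)) :=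
        hqc.comp_left (g := fun x : ℝ => (x : ℂ)) Complex.ofReal_zero
      have hc1 : Continuous (fun y => (q y : ℂ)) := Complex.continuous_ofReal.comp hq.continuous
      have i1 : Integrable (fun y => (q y : ℂ) * (y - b₀)) :=
        (hc1.mul (continuous_id.sub continuous_const)).integrable_of_hasCompactSupport
          hcs.mul_right
      have i2 : Integrable (fun y => (q y : ℂ) * (b₀ - c)) :=
        (hc1.mul continuous_const).integrable_of_hasCompactSupport hcs.mul_right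
      have e1 : ∫ y, (q y : ℂ) * (y - c) =
          ∫ y, ((q y : ℂ) * (y - b₀) + (q y : ℂ) * (b₀ - c)) := by
        refine integral_congr_ae (Eventually.of_forall fun y => ?_)
        ring
      have e2 : ∫ y, (q y : ℂ) * (b₀ - c) = 0 := by
        rw [integral_mul_const, integral_complex_ofReal, hmean]
        simp
      rw [e1, integral_add i1 i2, e2, add_zero]
    rw [e]
    calc ‖∫ y, (q y : ℂ) * (y - b₀)‖ ≤ ∫ y, |q y| * s := by
          refine norm_integral_le_of_norm_le (hqi.abs.mul_const s) (Eventually.of_forall fun y => ?_)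
          rw [norm_mul, Complex.norm_real, Real.norm_eq_abs]
          by_cases h0 : q y = 0
          · rw [h0]; simp
          · exact mul_le_mul_of_nonneg_left (hnear y h0) (abs_nonneg _)
      _ = (∫ y, |q y|) * s := integral_mul_const _ _
      _ ≤ J * s := mul_le_mul_of_nonneg_right hJ hs
  have hC : ‖cau q c‖ ≤ (2 * Real.pi * d)⁻¹ * J :=
    (cau_le_dist hq.continuous hqc hd hdist).trans (mul_le_mul_of_nonneg_left hJ (by positivity))
  have h1 : |(cau q c * ∫ y, (q y : ℂ) * (y - c)).re| ≤ (2 * Real.pi * d)⁻¹ * J * (J * s) := by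
    refine (Complex.abs_re_le_norm _).trans ?_
    rw [norm_mul]
    exact mul_le_mul hC hI (norm_nonneg _) (by positivity)
  have h2 := neg_le_of_abs_le h1
  linarith

theorem QQ_cont {f : ℂ → ℝ} {M : Set ℂ} (hM : IsOpen M) (hf : ContDiffOn ℝ 2 f M) (c : ℂ) :
    ContinuousOn (QQ f c) M := by
  have h1 : ContinuousOn (fderiv ℝ f) M :=
    (hf.fderiv_of_isOpen hM (m := 1) (by norm_num)).continuousOn
  unfold QQ
  refine ContinuousOn.sub (ContinuousOn.div_const (ContinuousOn.add ?_ ?_) 2)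
    (hf.continuousOn.sub continuousOn_const)
  · exact h1.clm_apply (continuousOn_id.sub continuousOn_const)
  · exact continuousOn_const.clm_apply (continuousOn_id.sub continuousOn_const)

/-- the choice of the small parameter -/
theorem exists_eta {α : ℝ} (hα1 : α < 1) {P L D t b : ℝ} (ht : 0 < t) (hb : 0 < b) :
    ∃ η : ℝ, 0 < η ∧ η ≤ b ∧ P * (4 * L * η + D * η ^ (1 - α)) ≤ t := by
  have hcont : Continuous fun η : ℝ => P * (4 * L * η + D * η ^ (1 - α)) := by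
    have h1 : Continuous fun η : ℝ => η ^ (1 - α) := Real.continuous_rpow_const (by linarith)
    fun_prop
  have h0 : P * (4 * L * 0 + D * (0 : ℝ) ^ (1 - α)) = 0 := by
    rw [Real.zero_rpow (by linarith)]; ring
  have h1 : ∀ᶠ η in 𝓝 (0 : ℝ), P * (4 * L * η + D * η ^ (1 - α)) < t := by
    have := hcont.tendsto 0
    rw [h0] at this
    exact this.eventually (gt_mem_nhds ht)
  obtain ⟨δ, hδ, h⟩ := Metric.eventually_nhds_iff_ball.1 h1
  refine ⟨min (δ / 2) b, by positivity, min_le_right _ _, (h _ ?_).le⟩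
  rw [mem_ball_zero_iff, Real.norm_eq_abs, abs_of_pos (by positivity)]
  exact (min_le_left _ _).trans_lt (by linarith)

/-- the error bracket -/
theorem bracket {α α' : ℝ} (hα : 0 < α) (hαα : α < α') (hα1 : α' < 1) {L N η H r ρ₂ E₀ G₀ σ : ℝ}
    (hL : 1 ≤ L) (hN : 1 ≤ N) (hη : 0 < η) (hH : 0 ≤ H) (hr : 0 < r) (hrη : r < η) (hη1 : η ≤ 1)
    (hHr : H * r ^ (α' - α) ≤ η) (hρ₂ : 0 < ρ₂) (hσ : 0 < σ) :
    (η * L ^ α) * (N * r) ^ (1 + α) + (H * L ^ α') * (N * r) ^ (1 + α') +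
      (2 * η * r ^ α) * (N * r) +
      ((E₀ + 3 / 2 * (σ * r ^ α) * (L * r) * (Real.pi * ρ₂ ^ 2)) + G₀ * ρ₂ ^ 3) / ρ₂ ^ 4 *
        (N * r) ^ 2 ≤
    N ^ 2 * (4 * L * η + (((E₀ + 3 / 2 * σ * L * (Real.pi * ρ₂ ^ 2)) + G₀ * ρ₂ ^ 3) / ρ₂ ^ 4 +
      (|E₀| + |G₀| * ρ₂ ^ 3) / ρ₂ ^ 4) * η ^ (1 - α)) * (r * r ^ α) := by
  have hL0 : 0 < L := by linarith
  have hN0 : 0 < N := by linarith
  have hr1 : r ≤ 1 := by linarith
  have hα1' : α < 1 := by linarith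
  have hα'0 : 0 < α' := by linarith
  have hrα : 0 < r ^ α := Real.rpow_pos_of_pos hr α
  have hrα1 : r ^ α ≤ 1 := Real.rpow_le_one hr.le hr1 hα.le
  have hLα : L ^ α ≤ L := by
    calc L ^ α ≤ L ^ (1 : ℝ) := Real.rpow_le_rpow_of_exponent_le hL hα1'.le
      _ = L := Real.rpow_one L
  have hLα' : L ^ α' ≤ L := by
    calc L ^ α' ≤ L ^ (1 : ℝ) := Real.rpow_le_rpow_of_exponent_le hL hα1.le
      _ = L := Real.rpow_one L
  have hNα : N ^ (1 + α) ≤ N ^ 2 := by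
    calc N ^ (1 + α) ≤ N ^ (2 : ℝ) := Real.rpow_le_rpow_of_exponent_le hN (by linarith)
      _ = N ^ 2 := by norm_cast
  have hNα' : N ^ (1 + α') ≤ N ^ 2 := by
    calc N ^ (1 + α') ≤ N ^ (2 : ℝ) := Real.rpow_le_rpow_of_exponent_le hN (by linarith)
      _ = N ^ 2 := by norm_cast
  have er : r ^ (1 + α) = r * r ^ α := by rw [Real.rpow_add hr, Real.rpow_one]
  have er' : r ^ (1 + α') = r * r ^ α' := by rw [Real.rpow_add hr, Real.rpow_one]
  have ed : r ^ (α' - α) * r ^ α = r ^ α' := by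
    rw [← Real.rpow_add hr]; congr 1; ring
  have hHr' : H * r ^ α' ≤ η * r ^ α := by
    rw [← ed, ← mul_assoc]
    exact mul_le_mul_of_nonneg_right hHr hrα.le
  -- first term
  have t1 : (η * L ^ α) * (N * r) ^ (1 + α) ≤ η * L * (N ^ 2 * (r * r ^ α)) := by
    rw [Real.mul_rpow hN0.le hr.le, er]
    gcongr
  have t2 : (H * L ^ α') * (N * r) ^ (1 + α') ≤ η * L * (N ^ 2 * (r * r ^ α)) := by
    rw [Real.mul_rpow hN0.le hr.le, er']
    calc H * L ^ α' * (N ^ (1 + α') * (r * r ^ α')) =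
        (H * r ^ α') * (L ^ α' * N ^ (1 + α') * r) := by ring
      _ ≤ (η * r ^ α) * (L * N ^ 2 * r) := by gcongr
      _ = _ := by ring
  have t3 : (2 * η * r ^ α) * (N * r) ≤ 2 * (η * L * (N ^ 2 * (r * r ^ α))) := by
    have h1 : N ≤ L * N ^ 2 := by nlinarith
    calc (2 * η * r ^ α) * (N * r) = 2 * η * (r * r ^ α) * N := by ring
      _ ≤ 2 * η * (r * r ^ α) * (L * N ^ 2) := by gcongr
      _ = _ := by ring
  have hr2 : r ^ 2 ≤ η ^ (1 - α) * (r * r ^ α) := by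
    have h1 : r ^ 2 = r ^ (1 - α) * (r * r ^ α) := by
      have : r ^ (1 - α) * r ^ α = r := by
        rw [← Real.rpow_add hr]; simp
      calc r ^ 2 = r * r := by ring
        _ = (r ^ (1 - α) * r ^ α) * r := by rw [this]
        _ = _ := by ring
    rw [h1]
    have h2 : r ^ (1 - α) ≤ η ^ (1 - α) := Real.rpow_le_rpow hr.le hrη.le (by linarith)
    gcongr
  have hcoef : ((E₀ + 3 / 2 * (σ * r ^ α) * (L * r) * (Real.pi * ρ₂ ^ 2)) + G₀ * ρ₂ ^ 3) / ρ₂ ^ 4 ≤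
      (((E₀ + 3 / 2 * σ * L * (Real.pi * ρ₂ ^ 2)) + G₀ * ρ₂ ^ 3) / ρ₂ ^ 4 +
      (|E₀| + |G₀| * ρ₂ ^ 3) / ρ₂ ^ 4) := by
    have h1 : (σ * r ^ α) * (L * r) ≤ σ * L := by
      calc (σ * r ^ α) * (L * r) ≤ (σ * 1) * (L * 1) := by gcongr
        _ = σ * L := by ring
    have h2 : 0 ≤ (|E₀| + |G₀| * ρ₂ ^ 3) / ρ₂ ^ 4 := by positivity
    have h3 : ((E₀ + 3 / 2 * (σ * r ^ α) * (L * r) * (Real.pi * ρ₂ ^ 2)) + G₀ * ρ₂ ^ 3) / ρ₂ ^ 4 ≤
        ((E₀ + 3 / 2 * σ * L * (Real.pi * ρ₂ ^ 2)) + G₀ * ρ₂ ^ 3) / ρ₂ ^ 4 := by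
      refine div_le_div_of_nonneg_right ?_ (by positivity)
      have h4 : 3 / 2 * (σ * r ^ α) * (L * r) * (Real.pi * ρ₂ ^ 2) ≤
          3 / 2 * σ * L * (Real.pi * ρ₂ ^ 2) := by
        calc 3 / 2 * (σ * r ^ α) * (L * r) * (Real.pi * ρ₂ ^ 2) =
            ((σ * r ^ α) * (L * r)) * (3 / 2 * (Real.pi * ρ₂ ^ 2)) := by ring
          _ ≤ (σ * L) * (3 / 2 * (Real.pi * ρ₂ ^ 2)) := by gcongr
          _ = _ := by ring
      linarith
    linarith
  have hcoef0 : 0 ≤ (((E₀ + 3 / 2 * σ * L * (Real.pi * ρ₂ ^ 2)) + G₀ * ρ₂ ^ 3) / ρ₂ ^ 4 +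
      (|E₀| + |G₀| * ρ₂ ^ 3) / ρ₂ ^ 4) := by
    rw [← add_div]
    have h1 := neg_abs_le E₀
    have h2 : -(|G₀| * ρ₂ ^ 3) ≤ G₀ * ρ₂ ^ 3 := by
      rw [← neg_mul]
      exact mul_le_mul_of_nonneg_right (neg_abs_le G₀) (by positivity)
    have h3 : 0 ≤ 3 / 2 * σ * L * (Real.pi * ρ₂ ^ 2) := by positivity
    apply div_nonneg _ (by positivity)
    linarith
  set D := (((E₀ + 3 / 2 * σ * L * (Real.pi * ρ₂ ^ 2)) + G₀ * ρ₂ ^ 3) / ρ₂ ^ 4 +
      (|E₀| + |G₀| * ρ₂ ^ 3) / ρ₂ ^ 4)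
  have t4 : ((E₀ + 3 / 2 * (σ * r ^ α) * (L * r) * (Real.pi * ρ₂ ^ 2)) + G₀ * ρ₂ ^ 3) / ρ₂ ^ 4 *
        (N * r) ^ 2 ≤ D * (N ^ 2 * (η ^ (1 - α) * (r * r ^ α))) := by
    calc _ ≤ D * (N * r) ^ 2 := mul_le_mul_of_nonneg_right hcoef (by positivity)
      _ = D * (N ^ 2 * r ^ 2) := by ring
      _ ≤ _ := by gcongr
  calc _ ≤ η * L * (N ^ 2 * (r * r ^ α)) + η * L * (N ^ 2 * (r * r ^ α)) +
        2 * (η * L * (N ^ 2 * (r * r ^ α))) + D * (N ^ 2 * (η ^ (1 - α) * (r * r ^ α))) := by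
        linarith
    _ = _ := by ring

end Pool.Agent.YUB
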