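import Pool.Agent.YUB.S3

/-!
# [YUB] S4: the slice bound
-/

open MeasureTheory Set Filter Topology
open scoped ContDiff

namespace Pool.Agent.YUB

open Pool.Agent.YUD Pool.Agent.YUT

/-- **Slice bound**: the relative action of a blob with respect to a nearby particle grows at a
definite rate, as long as the deformation is bounded by `L`. -/
theorem slice_bound {β : ℂ → ℝ} {B : ℝ} (hβ : Profile β B) {α α' : ℝ} (hα : 0 < α) (hαα : α < α')
    (hα1 : α' < 1) {σ ρ L ρ₁ E₀ G₀ : ℝ} (hσ : 0 < σ) (hρ : 0 < ρ) (hL : 1 ≤ L) (hρ₁ : 0 < ρ₁) :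
    ∃ k η : ℝ, 1 < k ∧ 0 < η ∧ ∀ (M : Set ℂ) (ψ : ℂ → ℝ) (Φ : ℂ → ℂ) (w₀ : ℂ → ℝ) (a : ℂ)
      (_ : Slice M ψ Φ w₀ a ρ L ρ₁ E₀) (_ : ∀ x ∈ Metric.ball a ρ, |w₀ x| ≤ G₀) (p : ℂ) (r : ℝ)
      (_ : ‖p - a‖ < ρ / 2) (_ : BlobAt (Metric.ball a ρ) β α α' σ η w₀ p r),
      p + (k * r : ℝ) ∈ Metric.ball a ρ ∧
      (σ * r ^ α) ^ 2 * r ^ 4 * ((∫ x, β x ^ 2) ^ 2 / (∫ x, gsq β x)) / (2 * L ^ 2) ≤
        ∫ x in M, blob β (σ * r ^ α) p r x * QQ ψ (Φ (p + (k * r : ℝ))) (Φ x) := by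
  obtain ⟨C, hC, hbg⟩ := background hα hαα hα1
  obtain ⟨b2, b1⟩ := profile_pos hβ
  set c₁ : ℝ := (∫ x, β x ^ 2) ^ 2 / (∫ x, gsq β x) with hc₁
  have hc₁0 : 0 < c₁ := by positivity
  have hL0 : 0 < L := by linarith
  have hα1' : α < 1 := by linarith
  set k : ℝ := 2 + 4 * L ^ 4 / c₁ with hk
  have hk2 : 2 ≤ k := by
    have : 0 ≤ 4 * L ^ 4 / c₁ := by positivity
    linarith
  set N : ℝ := L * (k + 1) with hN
  have hN1 : 1 ≤ N := by nlinarith
  set ρ₂ : ℝ := min (ρ / 4 / L) ρ₁ / 2 with hρ₂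
  have hmin : 0 < min (ρ / 4 / L) ρ₁ := lt_min (by positivity) hρ₁
  have hρ₂0 : 0 < ρ₂ := by positivity
  have hρ₂1 : ρ₂ ≤ ρ₁ := by
    have := min_le_right (ρ / 4 / L) ρ₁
    linarith
  have hρ₂2 : ρ₂ < ρ / 4 / L := by
    have := min_le_left (ρ / 4 / L) ρ₁
    linarith
  set D : ℝ := (((E₀ + 3 / 2 * σ * L * (Real.pi * ρ₂ ^ 2)) + G₀ * ρ₂ ^ 3) / ρ₂ ^ 4 +
      (|E₀| + |G₀| * ρ₂ ^ 3) / ρ₂ ^ 4) with hD
  obtain ⟨η, hη0, hηb, hηt⟩ := exists_eta (α := α) hα1' (P := 2 * Real.pi * N * C * N ^ 2) (L := L)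
    (D := D) (t := σ * c₁ / (4 * L ^ 2)) (b := min 1 (min (ρ₂ / (8 * N)) (ρ / (4 * k))))
    (by positivity) (by positivity)
  have hη1 : η ≤ 1 := hηb.trans (min_le_left _ _)
  have hη2 : η ≤ ρ₂ / (8 * N) := hηb.trans ((min_le_right _ _).trans (min_le_left _ _))
  have hη3 : η ≤ ρ / (4 * k) := hηb.trans ((min_le_right _ _).trans (min_le_right _ _))
  refine ⟨k, η, by linarith, hη0, ?_⟩
  intro M ψ Φ w₀ a hS hG p r hp hblob
  obtain ⟨hr, hrη, hsub, S, T, H, hH, hHr, hT, hSS, hw⟩ := hblob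
  set κ : ℝ := σ * r ^ α with hκ
  have hrα : 0 < r ^ α := Real.rpow_pos_of_pos hr α
  have hκ0 : 0 < κ := by positivity
  have hkr : k * r < ρ / 4 := by
    have h1 : r < ρ / (4 * k) := hrη.trans_le hη3
    rw [lt_div_iff₀ (by positivity)] at h1
    linarith
  set x₁ : ℂ := p + (k * r : ℝ) with hx₁
  have hx₁p : ‖x₁ - p‖ = k * r := by
    rw [hx₁, add_sub_cancel_left, Complex.norm_real, Real.norm_of_nonneg (by positivity)]
  have hx₁a : ‖x₁ - a‖ < 3 / 4 * ρ := by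
    have := norm_add_le (x₁ - p) (p - a)
    rw [sub_add_sub_cancel] at this
    linarith
  have hx₁B : x₁ ∈ Metric.ball a ρ := by rw [mem_ball_iff_norm]; linarith
  refine ⟨hx₁B, ?_⟩
  obtain ⟨q, hq, hqc, hqΦ, hqs, hqκ, hmean, hJ, hchange, hself⟩ :=
    blob_q hβ hS hL0 hr hκ0 hsub
  have hx₁M : x₁ ∈ M := hS.sub hx₁B
  have hq₁ : q (Φ x₁) = 0 := by
    rw [hqΦ x₁ hx₁M]
    have : β (r⁻¹ • (x₁ - p)) = 0 := by
      apply hβ.supp
      rw [norm_smul, norm_inv, Real.norm_of_nonneg hr.le, hx₁p, ← div_eq_inv_mul,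
        le_div_iff₀ hr]
      nlinarith
    rw [blob, this, mul_zero]
  set c := Φ x₁ with hc
  set R : ℝ := N * r with hR
  have hR0 : 0 < R := by positivity
  have h8 : 8 * R ≤ ρ₂ := by
    have h1 : r ≤ ρ₂ / (8 * N) := hrη.le.trans hη2
    rw [le_div_iff₀ (by positivity)] at h1
    rw [hR]; linarith
  have hback := hbg β M ψ Φ w₀ a ρ L ρ₁ E₀ hS hρ hL hρ₁ G₀ hG p r κ η H S T hr hκ0 hη0.le hH hsub
    hT hSS hw q hq hqc hqΦ hqs hqκ x₁ hx₁a hq₁ R ρ₂ hR0 h8 hρ₂1 hρ₂2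
  -- the error
  set ε₂ : ℝ := 2 * R * (C * ((η * L ^ α) * R ^ (1 + α) + (H * L ^ α') * R ^ (1 + α') +
          (2 * η * r ^ α) * R +
          ((E₀ + 3 / 2 * κ * (L * r) * (Real.pi * ρ₂ ^ 2)) + G₀ * ρ₂ ^ 3) / ρ₂ ^ 4 * R ^ 2)) with hε₂
  have hbr := bracket hα hαα hα1 (E₀ := E₀) (G₀ := G₀) hL hN1 hη0 hH hr hrη hη1 hHr hρ₂0 hσ
  rw [← hD] at hbr
  have hε₂le : ε₂ ≤ 2 * (N * r) * (C * (N ^ 2 * (4 * L * η + D * η ^ (1 - α)) * (r * r ^ α))) := by
    rw [hε₂, hR]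
    exact mul_le_mul_of_nonneg_left (mul_le_mul_of_nonneg_left hbr hC.le) (by positivity)
  have hx₁cl : c ∈ Metric.closedBall c R := Metric.mem_closedBall_self hR0.le
  have hε₂0 : 0 ≤ ε₂ := (abs_nonneg _).trans (hback c hx₁cl)
  -- distances
  have hxc : ∀ x ∈ Metric.closedBall p r, ‖Φ x - c‖ ≤ R := by
    intro x hx
    refine (hS.lip_ball (hsub hx) hx₁B).trans ?_
    have h1 : ‖x - x₁‖ ≤ (k + 1) * r := by
      have := norm_sub_le (x - p) (x₁ - p)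
      rw [sub_sub_sub_cancel_right, hx₁p] at this
      have h2 := mem_closedBall_iff_norm.1 hx
      linarith
    calc L * ‖x - x₁‖ ≤ L * ((k + 1) * r) := mul_le_mul_of_nonneg_left h1 hL0.le
      _ = R := by rw [hR, hN]; ring
  have hB1 : Metric.ball x₁ (ρ / 4) ⊆ Metric.ball a ρ := by
    intro z hz
    rw [mem_ball_iff_norm] at hz ⊢
    have := norm_add_le (z - x₁) (x₁ - a)
    rw [sub_add_sub_cancel] at this
    linarith
  set d : ℝ := (k - 1) * r / L with hd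
  have hd0 : 0 < d := by
    have : 0 < k - 1 := by linarith
    positivity
  have hdist : ∀ y, q y ≠ 0 → d ≤ ‖c - y‖ := by
    intro y hy
    obtain ⟨x, hx, rfl⟩ := hqs y hy
    have h1 : Φ x ∈ Metric.ball (Φ x₁) (ρ / 4 / L) := by
      rw [mem_ball_iff_norm]
      exact (hxc x hx).trans_lt (by linarith)
    have h0 : Φ x₁ ∈ Metric.ball (Φ x₁) (ρ / 4 / L) := Metric.mem_ball_self (by positivity)
    have h2 := inv_lip hS.isOpen hS.c1 hS.bij hS.det (x₁ := x₁) (ρ₀ := ρ / 4) (L := L)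
      (by positivity) hL0 (hB1.trans hS.sub) (fun x hx => hS.lip x (hB1 hx)) hx₁M
      (hS.sub (hsub hx)) h0 h1
    have h3 : (k - 1) * r ≤ ‖x₁ - x‖ := by
      have h4 := norm_sub_norm_le (x₁ - p) (x - p)
      rw [sub_sub_sub_cancel_right, hx₁p] at h4
      have h5 := mem_closedBall_iff_norm.1 hx
      linarith
    rw [hd, div_le_iff₀ hL0]
    linarith
  have hnear : ∀ y, q y ≠ 0 → ‖y - Φ p‖ ≤ L * r := by
    intro y hy
    obtain ⟨x, hx, rfl⟩ := hqs y hy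
    refine (hS.lip_ball (hsub hx) (hsub (Metric.mem_closedBall_self hr.le))).trans ?_
    exact mul_le_mul_of_nonneg_left (mem_closedBall_iff_norm.1 hx) hL0.le
  have hlow := self_lower hq hqc hmean (c := c) hd0 hdist hnear hJ (by positivity) (by positivity)
  -- the dipole term
  have hdip : 1 / 2 * ((2 * Real.pi * d)⁻¹ * (κ * (Real.pi * r ^ 2)) *
      ((κ * (Real.pi * r ^ 2)) * (L * r))) ≤ κ ^ 2 * r ^ 4 * c₁ / (4 * L ^ 2) := by
    have hk1 : 0 < k - 1 := by linarith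
    have e1 : 1 / 2 * ((2 * Real.pi * d)⁻¹ * (κ * (Real.pi * r ^ 2)) *
        ((κ * (Real.pi * r ^ 2)) * (L * r))) = κ ^ 2 * r ^ 4 * (Real.pi * L ^ 2 / (4 * (k - 1))) := by
      rw [hd]
      field_simp
      ring
    have e3 : Real.pi * L ^ 2 / (4 * (k - 1)) ≤ c₁ / (4 * L ^ 2) := by
      rw [div_le_div_iff₀ (by positivity) (by positivity)]
      have h1 : 4 * L ^ 4 ≤ c₁ * (k - 1) := by
        have e2 : c₁ * (k - 1) = c₁ + 4 * L ^ 4 := by
          rw [hk]; field_simp; ring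
        rw [e2]; linarith
      have h2 : Real.pi ≤ 4 := Real.pi_le_four
      have h3 : 0 < L ^ 4 := by positivity
      calc Real.pi * L ^ 2 * (4 * L ^ 2) = 4 * (Real.pi * L ^ 4) := by ring
        _ ≤ 4 * (4 * L ^ 4) := by gcongr
        _ ≤ 4 * (c₁ * (k - 1)) := by gcongr
        _ = c₁ * (4 * (k - 1)) := by ring
    rw [e1]
    calc κ ^ 2 * r ^ 4 * (Real.pi * L ^ 2 / (4 * (k - 1))) ≤ κ ^ 2 * r ^ 4 * (c₁ / (4 * L ^ 2)) :=
          mul_le_mul_of_nonneg_left e3 (by positivity)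
      _ = κ ^ 2 * r ^ 4 * c₁ / (4 * L ^ 2) := by ring
  -- the background term
  have hbgt : (κ * (Real.pi * r ^ 2)) * ε₂ ≤ κ ^ 2 * r ^ 4 * c₁ / (4 * L ^ 2) := by
    calc (κ * (Real.pi * r ^ 2)) * ε₂ ≤ (κ * (Real.pi * r ^ 2)) *
          (2 * (N * r) * (C * (N ^ 2 * (4 * L * η + D * η ^ (1 - α)) * (r * r ^ α)))) :=
          mul_le_mul_of_nonneg_left hε₂le (by positivity)
      _ = κ * r ^ α * r ^ 4 * (2 * Real.pi * N * C * N ^ 2 * (4 * L * η + D * η ^ (1 - α))) := by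
          ring
      _ ≤ κ * r ^ α * r ^ 4 * (σ * c₁ / (4 * L ^ 2)) :=
          mul_le_mul_of_nonneg_left hηt (by positivity)
      _ = κ ^ 2 * r ^ 4 * c₁ / (4 * L ^ 2) := by
          rw [hκ]; ring
  -- the main inequality
  rw [hchange (QQ ψ c)]
  have hKM : Metric.closedBall p r ⊆ M := hsub.trans hS.sub
  have hcpt : IsCompact (Φ '' Metric.closedBall p r) :=
    (isCompact_closedBall p r).image_of_continuousOn (hS.c1.continuousOn.mono hKM)
  have hcptM : Φ '' Metric.closedBall p r ⊆ M := by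
    rintro _ ⟨x, hx, rfl⟩
    exact hS.bij.mapsTo (hKM hx)
  have hG' : Integrable (fun y => q y * QQ ψ c y) := by
    have h1 : IntegrableOn (fun y => q y * QQ ψ c y) (Φ '' Metric.closedBall p r) :=
      ((hq.continuous.continuousOn.mul (QQ_cont hS.isOpen hS.c2 c)).mono hcptM
        ).integrableOn_compact hcpt
    refine (integrableOn_iff_integrable_of_support_subset fun y hy => ?_).1 h1
    have hy' : q y ≠ 0 := fun h => hy (by simp [h])
    obtain ⟨x, hx, rfl⟩ := hqs y hy'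
    exact ⟨x, hx, rfl⟩
  have hG1 : Integrable (fun y => q y * QQ (pot q) c y) := by
    have h1 : Continuous (QQ (pot q) c) := by
      have := QQ_cont isOpen_univ (pot_contDiff hq hqc).contDiffOn c
      rwa [continuousOn_univ] at this
    exact (hq.continuous.mul h1).integrable_of_hasCompactSupport hqc.mul_right
  have hqi : Integrable q := hq.continuous.integrable_of_hasCompactSupport hqc
  have hG2 : Integrable (fun y => |q y| * ε₂) := hqi.abs.mul_const ε₂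
  have hmono : ∫ y, (q y * QQ (pot q) c y - |q y| * ε₂) ≤ ∫ y, q y * QQ ψ c y := by
    refine integral_mono (hG1.sub hG2) hG' fun y => ?_
    show q y * QQ (pot q) c y - |q y| * ε₂ ≤ q y * QQ ψ c y
    by_cases h0 : q y = 0
    · rw [h0]; simp
    · obtain ⟨x, hx, rfl⟩ := hqs y h0
      have hyM : Φ x ∈ M := hS.bij.mapsTo (hKM hx)
      have hcM : c ∈ M := hS.bij.mapsTo hx₁M
      have hψd : ∀ z ∈ M, DifferentiableAt ℝ ψ z := fun z hz =>
        (hS.c2.differentiableOn (by norm_num)).differentiableAt (hS.isOpen.mem_nhds hz)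
      have hpd : ∀ z, DifferentiableAt ℝ (pot q) z := fun z => (pot_fderiv hq hqc z).1
      have e1 := QQ_add (f := fun x => ψ x - pot q x) (g := pot q) (c := c) (y := Φ x)
        ((hψd _ hyM).sub (hpd _)) (hpd _) ((hψd _ hcM).sub (hpd _)) (hpd _)
      have e2 : (fun x => ψ x - pot q x + pot q x) = ψ := by funext z; ring
      rw [e2] at e1
      rw [e1, mul_add]
      have h3 := hback (Φ x) (mem_closedBall_iff_norm.2 (hxc x hx))
      have h4 : |q (Φ x) * QQ (fun x => ψ x - pot q x) c (Φ x)| ≤ |q (Φ x)| * ε₂ := by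
        rw [abs_mul]
        exact mul_le_mul_of_nonneg_left h3 (abs_nonneg _)
      have h5 := neg_le_of_abs_le h4
      linarith
  rw [integral_sub hG1 hG2, integral_mul_const] at hmono
  have hJε : (∫ y, |q y|) * ε₂ ≤ (κ * (Real.pi * r ^ 2)) * ε₂ :=
    mul_le_mul_of_nonneg_right hJ hε₂0
  have hfin : κ ^ 2 * r ^ 4 * c₁ / L ^ 2 - κ ^ 2 * r ^ 4 * c₁ / (4 * L ^ 2) -
      κ ^ 2 * r ^ 4 * c₁ / (4 * L ^ 2) = κ ^ 2 * r ^ 4 * c₁ / (2 * L ^ 2) := by
    field_simp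
    ring
  rw [← hfin]
  linarith

end Pool.Agent.YUB
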