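import Pool.Agent.YUB.S4
import Pool.Agent.YUB.E2
import Pool.Agent.YUB.E3
import Pool.Agent.YUB.E4
import Pool.Agent.YUB.F2

/-!
# [YUB] S5: the local growth theorem
-/

open MeasureTheory Set Filter Topology
open scoped ContDiff

namespace Pool.Agent.YUB

open Pool.Agent.YUD Pool.Agent.YUT

theorem BlobAt.mono {U : Set ℂ} {β : ℂ → ℝ} {α α' σ η η' : ℝ} {w : ℂ → ℝ} {p : ℂ} {r : ℝ}
    (h : BlobAt U β α α' σ η w p r) (hη : η ≤ η') : BlobAt U β α α' σ η' w p r := by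
  obtain ⟨hr, hrη, hsub, S, T, H, hH, hHr, hT, hS, hw⟩ := h
  have hrα : 0 ≤ r ^ α := Real.rpow_nonneg hr.le _
  refine ⟨hr, hrη.trans_le hη, hsub, S, T, H, hH, hHr.trans hη, fun x hx => ?_,
    fun x hx y hy => ?_, hw⟩
  · exact (hT x hx).trans (mul_le_mul_of_nonneg_right hη hrα)
  · refine (hS x hx y hy).trans (add_le_add (mul_le_mul_of_nonneg_right hη ?_) le_rfl)
    exact Real.rpow_nonneg (norm_nonneg _) _

/-- **The local growth theorem**: if `w₀` has blobs at arbitrarily small scales near the centre of the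
ball `ball a ρ` and in it, then for every `K` there is `T` such that the `C^α` norm of the vorticity
on the image of this ball exceeds `K` at some time in every time interval of length `T`, for every
flow with locally bounded kinetic energy. -/
theorem local_growth {β : ℂ → ℝ} {B : ℝ} (hβ : Profile β B) {α α' : ℝ} (hα : 0 < α) (hαα : α < α')
    (hα1 : α' < 1) {σ : ℝ} (hσ : 0 < σ) {M : Set ℂ} (hM : IsOpen M) {w₀ : ℂ → ℝ} {a : ℂ} {ρ : ℝ}
    (hρ : 0 < ρ) (hB : Metric.ball a ρ ⊆ M) (hbl : Blobs (Metric.ball a ρ) β α α' σ w₀)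
    {ψ : ℝ → ℂ → ℝ} {Φ : ℝ → ℂ → ℂ} (hF : WFlow M w₀ ψ Φ) {ρ₁ E₀ : ℝ} (hρ₁ : 0 < ρ₁)
    (hE : ∀ t, 0 ≤ t → ∀ (c : ℂ) (ρ' : ℝ), 0 < ρ' → ρ' ≤ ρ₁ → Metric.closedBall c ρ' ⊆ M →
      ∫ x in Metric.ball c ρ', ‖fderiv ℝ (ψ t) x‖ ≤ E₀) (K : ℝ) :
    ∃ T, 0 < T ∧ ∀ s, 0 ≤ s → ∃ t, s ≤ t ∧ t ≤ s + T ∧
      ¬ HNormLe (Φ t '' Metric.ball a ρ) α K (lap (ψ t)) := by
  have hα1' : α < 1 := by linarith
  have hrough := blobs_rough hβ hσ hbl
  set L : ℝ := max 1 ((2 * K / σ) ^ (1 / α)) with hLdef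
  have hL1 : 1 ≤ L := le_max_left _ _
  have hL0 : 0 < L := by linarith
  have hlip : ∀ t, 0 ≤ t → HNormLe (Φ t '' Metric.ball a ρ) α K (lap (ψ t)) →
      ∀ x ∈ Metric.ball a ρ, ‖fderiv ℝ (Φ t) x‖ ≤ L := by
    intro t ht hN x hx
    have h1 := rough_local Metric.isOpen_ball hα hα1' ((hF.contDiffOn hM ht).mono hB)
      (mapsTo_image _ _) (fun x hx => hF.area t ht x (hB hx)) (fun x hx => hF.vort t ht x (hB hx))
      hrough hN x hx
    refine le_trans ?_ (le_max_right _ _)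
    have h3 : ‖fderiv ℝ (Φ t) x‖ ^ α ≤ 2 * K / σ := by
      rw [le_div_iff₀ hσ, mul_comm]; exact h1
    calc ‖fderiv ℝ (Φ t) x‖ = (‖fderiv ℝ (Φ t) x‖ ^ α) ^ (1 / α) := by
          rw [← Real.rpow_mul (norm_nonneg _), mul_one_div_cancel hα.ne', Real.rpow_one]
      _ ≤ _ := Real.rpow_le_rpow (by positivity) h3 (by positivity)
  obtain ⟨C₀, hC₀⟩ := hF.stream 0
  have hC₀' := hC₀ 0 le_rfl le_rfl
  have hG : ∀ x ∈ Metric.ball a ρ, |w₀ x| ≤ 2 * C₀ := by
    intro x hx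
    have h1 := hF.vort 0 le_rfl x (hB hx)
    rw [hF.start x (hB hx)] at h1
    rw [← h1]
    exact hC₀'.lap_le x (hB hx)
  obtain ⟨k, η, hk, hη, hslice⟩ := slice_bound hβ hα hαα hα1 (σ := σ) (ρ := ρ) (L := L) (ρ₁ := ρ₁)
    (E₀ := E₀) (G₀ := 2 * C₀) hσ hρ hL1 hρ₁
  obtain ⟨p, r, hp, hblob⟩ := hbl a (Metric.mem_ball_self hρ) (min η (ρ / 2)) (by positivity)
  have hblob' := hblob.mono (min_le_left _ _)
  have hp' : ‖p - a‖ < ρ / 2 := hp.trans_le (min_le_right _ _)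
  have hr : 0 < r := hblob.1
  have hsub : Metric.closedBall p r ⊆ Metric.ball a ρ := hblob.2.2.1
  have hKM : Metric.closedBall p r ⊆ M := hsub.trans hB
  have hS : ∀ t, 0 ≤ t → HNormLe (Φ t '' Metric.ball a ρ) α K (lap (ψ t)) →
      Slice M (ψ t) (Φ t) w₀ a ρ L ρ₁ E₀ := by
    intro t ht hN
    obtain ⟨C, hC⟩ := hF.stream t
    exact ⟨hM, (hC t ht le_rfl).1, hF.contDiffOn hM ht, hF.bij t ht, hF.area t ht, hF.vort t ht, hB,
      hlip t ht hN, hE t ht⟩
  set κ : ℝ := σ * r ^ α with hκ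
  have hrα : 0 < r ^ α := Real.rpow_pos_of_pos hr α
  have hκ0 : 0 < κ := by positivity
  obtain ⟨b2, b1⟩ := profile_pos hβ
  set d₀ : ℝ := κ ^ 2 * r ^ 4 * ((∫ x, β x ^ 2) ^ 2 / (∫ x, gsq β x)) / (2 * L ^ 2) with hd₀
  have hd₀0 : 0 < d₀ := by positivity
  set x₁ : ℂ := p + (k * r : ℝ) with hx₁
  obtain ⟨hc1, h0, hle, -, -, -, habs⟩ := blob_facts hβ κ p hr
  rw [abs_of_pos hκ0] at habs
  set A : ℝ := L ^ 2 * ((k + 1) * r) ^ 2 with hA
  have hA0 : 0 ≤ A := by positivity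
  have hhi : Integrable (blob β κ p r) := by
    refine hc1.continuous.integrable_of_hasCompactSupport ?_
    exact HasCompactSupport.intro (isCompact_closedBall p r) h0
  set J : ℝ := κ * (Real.pi * r ^ 2) * A with hJ
  have hJ0 : 0 ≤ J := by positivity
  -- the bound at a single time
  have hbound : ∀ t, 0 ≤ t → x₁ ∈ Metric.ball a ρ →
      HNormLe (Φ t '' Metric.ball a ρ) α K (lap (ψ t)) →
      |∫ x in M, blob β κ p r x * ∫ s in (0 : ℝ)..t, QQ (ψ s) (Φ s x₁) (Φ s x)| ≤ J := by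
    intro t ht hx₁B hN
    have h2 : ∀ x ∈ M, |blob β κ p r x * ∫ s in (0 : ℝ)..t, QQ (ψ s) (Φ s x₁) (Φ s x)| ≤
        |blob β κ p r x| * A := by
      intro x hx
      rw [abs_mul]
      by_cases hxK : x ∈ Metric.closedBall p r
      · refine mul_le_mul_of_nonneg_left ?_ (abs_nonneg _)
        refine (rel_action_le hM hF ht hB (hlip t ht hN) (hsub hxK) hx₁B).trans ?_
        refine mul_le_mul_of_nonneg_left ?_ (by positivity)
        have hx₁p : ‖x₁ - p‖ = k * r := by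
          rw [hx₁, add_sub_cancel_left, Complex.norm_real, Real.norm_of_nonneg (by positivity)]
        have h3 := norm_sub_le (x - p) (x₁ - p)
        rw [sub_sub_sub_cancel_right, hx₁p] at h3
        have h4 := mem_closedBall_iff_norm.1 hxK
        exact pow_le_pow_left₀ (norm_nonneg _) (by linarith) 2
      · rw [h0 x hxK]; simp
    have h3 : |∫ x in M, blob β κ p r x * ∫ s in (0 : ℝ)..t, QQ (ψ s) (Φ s x₁) (Φ s x)| ≤
        ∫ x in M, |blob β κ p r x| * A := by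
      rw [← Real.norm_eq_abs]
      refine norm_integral_le_of_norm_le (hhi.abs.mul_const A).integrableOn ?_
      refine (ae_restrict_iff' hM.measurableSet).2 (Eventually.of_forall fun x hx => ?_)
      rw [Real.norm_eq_abs]
      exact h2 x hx
    refine h3.trans ?_
    rw [integral_mul_const]
    refine mul_le_mul_of_nonneg_right ?_ hA0
    refine le_trans ?_ habs
    exact setIntegral_le_integral hhi.abs (Eventually.of_forall fun x => abs_nonneg _)
  -- the length of the time intervals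
  set T : ℝ := (2 * J + 1) / d₀ with hT
  have hT0 : 0 < T := by positivity
  refine ⟨T, hT0, fun s hs => ?_⟩
  by_contra hcon
  push Not at hcon
  have hx₁B : x₁ ∈ Metric.ball a ρ :=
    (hslice M (ψ s) (Φ s) w₀ a (hS s hs (hcon s le_rfl (by linarith))) hG p r hp' hblob').1
  have hx₁M : x₁ ∈ M := hB hx₁B
  have hD : ∀ t, s ≤ t → t ≤ s + T →
      d₀ ≤ ∫ x in M, blob β κ p r x * QQ (ψ t) (Φ t x₁) (Φ t x) := fun t ht ht' =>
    (hslice M (ψ t) (Φ t) w₀ a (hS t (hs.trans ht) (hcon t ht ht')) hG p r hp' hblob').2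
  have hsT : 0 ≤ s + T := by linarith
  obtain ⟨f1, i1⟩ := rel_fubini hM hF hsT hx₁M hc1.continuous (isCompact_closedBall p r) hKM h0
  obtain ⟨f2, i2⟩ := rel_fubini hM hF hs hx₁M hc1.continuous (isCompact_closedBall p r) hKM h0
  have h1 := hbound (s + T) hsT hx₁B (hcon (s + T) (by linarith) le_rfl)
  have h2 := hbound s hs hx₁B (hcon s le_rfl (by linarith))
  rw [f1] at h1
  rw [f2] at h2
  have h3 := intervalIntegral.integral_interval_sub_left i1 i2
  have i3 : IntervalIntegrable (fun s => ∫ x in M, blob β κ p r x * QQ (ψ s) (Φ s x₁) (Φ s x))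
      volume s (s + T) := i2.symm.trans i1
  have h4 := intervalIntegral.integral_mono_on (by linarith : s ≤ s + T)
    (intervalIntegrable_const (c := d₀) (μ := volume) (a := s) (b := s + T)) i3
    (fun t ht => hD t ht.1 ht.2)
  rw [intervalIntegral.integral_const, add_sub_cancel_left, smul_eq_mul, ← h3, hT,
    div_mul_cancel₀ _ hd₀0.ne'] at h4
  have h5 := le_of_abs_le h1
  have h6 := neg_le_of_abs_le h2
  linarith

end Pool.Agent.YUB
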