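import Pool.Agent.YUB.S5
import Pool.Agent.YUB.F1
import Pool.Agent.YUB.F5
import Pool.Agent.YUB.G2
import Pool.Agent.YUB.G3
import Pool.Agent.YUB.G6
import Pool.Agent.YUB.G7

/-!
# [YUB] S6: unbounded growth near every state
-/

open MeasureTheory Set Filter Topology
open scoped ContDiff

namespace Pool.Agent.YUB

open Pool.Agent.YUD Pool.Agent.YUT

theorem hnorm_restrict {M N : Set ℂ} {α K : ℝ} {f : ℂ → ℝ} (h : N ⊆ M) (hf : HNormLe M α K f) :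
    HNormLe N α K f := by
  obtain ⟨a, c, ha, hc, hac, h1, h2⟩ := hf
  exact ⟨a, c, ha, hc, hac, fun x hx => h1 x (h hx), fun x hx y hy => h2 x (h hx) y (h hy)⟩

theorem Blobs.congr {U : Set ℂ} {β : ℂ → ℝ} {α α' σ : ℝ} {w w' : ℂ → ℝ}
    (h : Blobs U β α α' σ w) (hw : ∀ x ∈ U, w x = w' x) : Blobs U β α α' σ w' := by
  intro x₀ hx₀ η hη
  obtain ⟨p, r, hp, hr, hrη, hsub, S, T, H, hH, hHr, hT, hS, hw₀⟩ := h x₀ hx₀ η hη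
  exact ⟨p, r, hp, hr, hrη, hsub, S, T, H, hH, hHr, hT, hS, fun x hx => by
    rw [← hw x hx]; exact hw₀ x hx⟩

theorem Dom.isOpen {p q : ℝ} {M : Set ℂ} (h : Dom p q M) : IsOpen M := by
  rcases h with ⟨-, -, h, -⟩ | ⟨-, -, h, -, rfl⟩ | ⟨-, -, rfl⟩
  · exact h
  · exact isOpen_strip h
  · exact isOpen_univ

/-- the kinetic energy is locally bounded, uniformly in time -/
theorem loc_energy {p q : ℝ} {M : Set ℂ} (hD : Dom p q M) {w₀ : ℂ → ℝ} {ψ : ℝ → ℂ → ℝ}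
    {Φ : ℝ → ℂ → ℂ} (hF : QFlow p q M w₀ ψ Φ) :
    ∃ ρ₁ E₀ : ℝ, 0 < ρ₁ ∧ ∀ t, 0 ≤ t → ∀ (c : ℂ) (ρ' : ℝ), 0 < ρ' → ρ' ≤ ρ₁ →
      Metric.closedBall c ρ' ⊆ M → ∫ x in Metric.ball c ρ', ‖fderiv ℝ (ψ t) x‖ ≤ E₀ := by
  rcases hD with ⟨rfl, rfl, hM, hb⟩ | ⟨hp, rfl, h, hh, rfl⟩ | ⟨hp, hq, rfl⟩
  · obtain ⟨E₀, h⟩ := loc_plane hM hb hF
    exact ⟨1, E₀, one_pos, fun t ht c ρ' h0 _ hs => h t ht c ρ' h0 hs⟩
  · obtain ⟨E₀, h⟩ := loc_channel hp hh hF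
    exact ⟨p / 2, E₀, by positivity, fun t ht c ρ' h0 h1 hs => h t ht c ρ' h0 h1 hs⟩
  · obtain ⟨E₀, h⟩ := loc_torus hp hq hF
    exact ⟨min (p / 2) (q / 2), E₀, by positivity, fun t ht c ρ' h0 h1 _ =>
      h t ht c ρ' h0 (h1.trans (min_le_left _ _)) (h1.trans (min_le_right _ _))⟩

end Pool.Agent.YUB
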