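import Pool.Agent.YUB.S6
import Pool.Agent.YUB.M2

/-!
# [YUB] S7: unbounded growth near every state
-/

open MeasureTheory Set Filter Topology
open scoped ContDiff

namespace Pool.Agent.YUB

open Pool.Agent.YUD Pool.Agent.YUT

/-- **Unbounded growth near every state** -/
theorem unbounded_growth {p q : ℝ} {M : Set ℂ} (hD : Dom p q M) {α : ℝ} (hα : 0 < α) (hα1 : α < 1)
    {ws : ℂ → ℝ} (hper : Per2 p q M ws) {K₀ : ℝ} (hws : HNormLe M α K₀ ws) {x₀ : ℂ} {ρ₀ : ℝ}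
    (hρ₀ : 0 < ρ₀) (hB : Metric.ball x₀ ρ₀ ⊆ M) (hl : Little (Metric.ball x₀ ρ₀) α ws) {ε : ℝ}
    (hε : 0 < ε) :
    ∃ w₀ : ℂ → ℝ, Per2 p q M w₀ ∧ (∫ x in Cell p q M, (w₀ x - ws x)) = 0 ∧
      HNormLe M α ε (fun x => w₀ x - ws x) ∧
      ∀ (ψ : ℝ → ℂ → ℝ) (Φ : ℝ → ℂ → ℂ), QFlow p q M w₀ ψ Φ → ∀ K : ℝ, ∃ T, 0 < T ∧
        ∀ s, 0 ≤ s → ∃ t, s ≤ t ∧ t ≤ s + T ∧
          ¬ HNormLe (Φ t '' Metric.ball x₀ ρ₀) α K (lap (ψ t)) := by
  have hp : p = 0 ∨ 0 < p := by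
    rcases hD with ⟨h, -⟩ | ⟨h, -⟩ | ⟨h, -⟩
    · exact Or.inl h
    · exact Or.inr h
    · exact Or.inr h
  have hq : q = 0 ∨ 0 < q := by
    rcases hD with ⟨-, h, -⟩ | ⟨-, h, -⟩ | ⟨-, h, -⟩
    · exact Or.inl h
    · exact Or.inl h
    · exact Or.inr h
  obtain ⟨ρ, hρ, hρ1, hρ2, hρp, hρq⟩ : ∃ ρ : ℝ, 0 < ρ ∧ ρ ≤ ρ₀ ∧ ρ ≤ 1 / 2 ∧
      (0 < p → 2 * ρ ≤ p) ∧ (0 < q → 2 * ρ ≤ q) := by
    have aux : ∀ s : ℝ, s = 0 ∨ 0 < s → ∃ b : ℝ, 0 < b ∧ (0 < s → 2 * b ≤ s) := by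
      intro s hs
      rcases hs with h | h
      · exact ⟨1, one_pos, fun h' => by linarith⟩
      · exact ⟨s / 2, by positivity, fun _ => by linarith⟩
    obtain ⟨b, hb, hb'⟩ := aux p hp
    obtain ⟨b₂, hb₂, hb₂'⟩ := aux q hq
    refine ⟨min (min ρ₀ (1 / 2)) (min b b₂), by positivity,
      (min_le_left _ _).trans (min_le_left _ _), (min_le_left _ _).trans (min_le_right _ _), ?_, ?_⟩
    · intro h
      have h1 := (min_le_right (min ρ₀ (1 / 2)) (min b b₂)).trans (min_le_left _ _)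
      linarith [hb' h]
    · intro h
      have h1 := (min_le_right (min ρ₀ (1 / 2)) (min b b₂)).trans (min_le_right _ _)
      linarith [hb₂' h]
  obtain ⟨β, B, hβ⟩ := exists_profile
  have hBρ : Metric.ball x₀ ρ ⊆ Metric.ball x₀ ρ₀ := Metric.ball_subset_ball hρ1
  have hBM : Metric.ball x₀ ρ ⊆ M := hBρ.trans hB
  have hB2 : Metric.ball x₀ (ρ / 2) ⊆ Metric.ball x₀ ρ := Metric.ball_subset_ball (by linarith)
  have hl' : Little (Metric.ball x₀ ρ) α ws := by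
    intro η hη
    obtain ⟨δ, hδ, h⟩ := hl η hη
    exact ⟨δ, hδ, fun x hx y hy => h x (hBρ hx) y (hBρ hy)⟩
  have hK : ∀ x ∈ Metric.ball x₀ ρ, |ws x| ≤ K₀ := by
    obtain ⟨a, c, ha, hc, hac, h1, -⟩ := hws
    intro x hx
    exact (h1 x (hBM hx)).trans (by linarith)
  obtain ⟨σ, g, hσ, hg0, hgm, hg, hbl⟩ := exists_blobs_mean hβ hρ hρ2 hα (α' := (1 + α) / 2)
    (by linarith) (by linarith) hK hl' (half_pos hε)
  obtain ⟨hgper, hgball, hgn⟩ := pz2_facts hp hq hρ hρp hρq hα hg0 hg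
  have e : (fun x => ws x + pz2 p q x₀ ρ g x - ws x) = pz2 p q x₀ ρ g := by funext x; ring
  refine ⟨fun x => ws x + pz2 p q x₀ ρ g x, fun x hx => ?_, ?_, ?_, fun ψ Φ hF K => ?_⟩
  · obtain ⟨h1, h2⟩ := hper x hx
    obtain ⟨h3, h4⟩ := hgper x
    constructor
    · show ws (x + p) + pz2 p q x₀ ρ g (x + p) = ws x + pz2 p q x₀ ρ g x
      rw [h1, h3]
    · show ws (x + q * Complex.I) + pz2 p q x₀ ρ g (x + q * Complex.I) = ws x + pz2 p q x₀ ρ g x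
      rw [h2, h4]
  · have hc : Continuous (pz2 p q x₀ ρ g) := by
      have h1 := HNormLe.cont hα hgn
      rwa [continuousOn_univ] at h1
    have h1 := cell_integral hD hρ hBM hρp hρq hg0 hc
    rw [hgm] at h1
    rw [← h1]
    show ∫ x in Cell p q M, (fun x => ws x + pz2 p q x₀ ρ g x - ws x) x = _
    rw [e]
  · have e2 : 2 * (ε / 2) = ε := by ring
    rw [e]
    rw [e2] at hgn
    exact hnorm_restrict (subset_univ _) hgn
  · obtain ⟨ρ₁, E₀, hρ₁, hE⟩ := loc_energy hD hF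
    obtain ⟨T, hT, h⟩ := local_growth hβ hα (by linarith) (by linarith) hσ hD.isOpen
      (half_pos hρ) (hB2.trans hBM) (hbl.congr fun x hx => by rw [hgball x (hB2 hx)]) hF.weak hρ₁
      hE K
    refine ⟨T, hT, fun s hs => ?_⟩
    obtain ⟨t, ht, ht', h⟩ := h s hs
    exact ⟨t, ht, ht', fun h' => h (hnorm_restrict (image_mono (hB2.trans hBρ)) h')⟩

end Pool.Agent.YUB
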